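import Mathlib

open Complex Filter Topology

namespace Pool.Agent.H89.EdgeBasic

/-- the logarithm of a local factor -/
noncomputable def locLog (P : Polynomial ℂ) (z : ℂ) : ℂ :=
  (P.roots.map fun r => Complex.log ((1 - z / r)⁻¹)).sum

/-- the trace: sum of the reciprocal roots -/
noncomputable def tr (P : Polynomial ℂ) : ℂ := (P.roots.map fun r => r⁻¹).sum

lemma eval_eq_prod (P : Polynomial ℂ) (h0 : P.eval 0 = 1) (z : ℂ) :
    P.eval z = (P.roots.map fun r => (1 - z / r)).prod := by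
  have hs := IsAlgClosed.splits P
  have h1 := hs.eq_prod_roots
  have hne : P ≠ 0 := by
    rintro rfl
    simp at h0
  have hr0 : ∀ r ∈ P.roots, r ≠ 0 := by
    intro r hr h
    rw [Polynomial.mem_roots hne] at hr
    subst h
    rw [Polynomial.IsRoot, h0] at hr
    exact one_ne_zero hr
  have h2 : ∀ w : ℂ, P.eval w = P.leadingCoeff * (P.roots.map fun r => (w - r)).prod := by
    intro w
    conv_lhs => rw [h1]
    rw [Polynomial.eval_mul, Polynomial.eval_C, Polynomial.eval_multiset_prod, Multiset.map_map]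
    congr 2
    apply Multiset.map_congr rfl
    intro r _
    simp
  have h3 := h2 0
  rw [h0] at h3
  rw [h2 z]
  have h4 : (P.roots.map fun r => (z - r)).prod =
      (P.roots.map fun r => ((0:ℂ) - r)).prod * (P.roots.map fun r => (1 - z / r)).prod := by
    rw [← Multiset.prod_map_mul]
    apply congrArg
    apply Multiset.map_congr rfl
    intro r hr
    have := hr0 r hr
    field_simp
    ring
  rw [h4, ← mul_assoc, ← h3, one_mul]

lemma exp_locLog (P : Polynomial ℂ) (h0 : P.eval 0 = 1) (z : ℂ)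
    (hz : ∀ r ∈ P.roots, ‖z / r‖ < 1) :
    Complex.exp (locLog P z) = (P.eval z)⁻¹ := by
  rw [eval_eq_prod P h0 z, locLog, Complex.exp_multiset_sum, Multiset.map_map]
  rw [← Multiset.prod_map_inv]
  apply congrArg
  apply Multiset.map_congr rfl
  intro r hr
  have h := hz r hr
  simp only [Function.comp]
  rw [Complex.exp_log]
  apply inv_ne_zero
  intro h'
  have : z / r = 1 := by
    linear_combination -h'
  rw [this] at h
  simp at h

lemma norm_locLog_sub (P : Polynomial ℂ) (b : ℕ) (hdeg : P.natDegree ≤ b) (z : ℂ) (ε : ℝ)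
    (hε : ε ≤ 1 / 2)
    (hz : ∀ r ∈ P.roots, ‖z / r‖ ≤ ε) :
    ‖locLog P z - tr P * z‖ ≤ b * ε ^ 2 := by
  have h1 : locLog P z - tr P * z
      = (P.roots.map fun r => (Complex.log ((1 - z / r)⁻¹) - z / r)).sum := by
    rw [Multiset.sum_map_sub, locLog, tr, ← Multiset.sum_map_mul_right]
    congr 2
    apply Multiset.map_congr rfl
    intro r _
    rw [div_eq_mul_inv, mul_comm]
  rw [h1]
  refine (norm_multiset_sum_le _).trans ?_
  rw [Multiset.map_map]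
  have h2 : ∀ x ∈ (P.roots.map ((fun x : ℂ => ‖x‖) ∘ fun r => (Complex.log ((1 - z / r)⁻¹) - z / r))),
      x ≤ ε ^ 2 := by
    intro x hx
    rw [Multiset.mem_map] at hx
    obtain ⟨r, hr, rfl⟩ := hx
    have h3 := hz r hr
    have h4 := Complex.norm_log_one_sub_inv_sub_self_le (z := z / r) (by linarith)
    simp only [Function.comp]
    refine h4.trans ?_
    have h5 : (1 - ‖z / r‖)⁻¹ ≤ 2 := by
      rw [inv_le_comm₀ (by linarith) (by norm_num)]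
      linarith
    have h6 : ‖z / r‖ ^ 2 ≤ ε ^ 2 := by
      apply pow_le_pow_left₀ (norm_nonneg _) h3
    have h7 : 0 ≤ (1 - ‖z / r‖)⁻¹ := by
      apply inv_nonneg.mpr; linarith
    nlinarith [sq_nonneg ‖z / r‖]
  refine (Multiset.sum_le_card_nsmul _ _ h2).trans ?_
  rw [Multiset.card_map, nsmul_eq_mul]
  have h8 : (Multiset.card P.roots : ℝ) ≤ b := by
    exact_mod_cast (Polynomial.card_roots' P).trans hdeg
  gcongr

lemma norm_tr_le (P : Polynomial ℂ) (b : ℕ) (hdeg : P.natDegree ≤ b) (A : ℝ) (hA : 0 ≤ A)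
    (hz : ∀ r ∈ P.roots, ‖r⁻¹‖ ≤ A) : ‖tr P‖ ≤ b * A := by
  rw [tr]
  refine (norm_multiset_sum_le _).trans ?_
  rw [Multiset.map_map]
  have h2 : ∀ x ∈ (P.roots.map ((fun x : ℂ => ‖x‖) ∘ fun r => r⁻¹)), x ≤ A := by
    intro x hx
    rw [Multiset.mem_map] at hx
    obtain ⟨r, hr, rfl⟩ := hx
    exact hz r hr
  refine (Multiset.sum_le_card_nsmul _ _ h2).trans ?_
  rw [Multiset.card_map, nsmul_eq_mul]
  have h8 : (Multiset.card P.roots : ℝ) ≤ b := by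
    exact_mod_cast (Polynomial.card_roots' P).trans hdeg
  gcongr


/-- primes not dividing `N` -/
abbrev Idx (N : ℕ) := {p : ℕ // p.Prime ∧ ¬ p ∣ N}

structure Hyp (N i b : ℕ) (P : ℕ → Polynomial ℂ) : Prop where
  N0 : 0 < N
  h0 : ∀ p : ℕ, p.Prime → ¬ p ∣ N → (P p).eval 0 = 1
  hdeg : ∀ p : ℕ, p.Prime → ¬ p ∣ N → (P p).natDegree ≤ b
  hroots : ∀ p : ℕ, p.Prime → ¬ p ∣ N → ∀ z, (P p).IsRoot z → (p:ℝ) ^ (-(i:ℝ)/2) ≤ ‖z‖

lemma summable_inv_sq (N : ℕ) : Summable (fun p : Idx N => ((p:ℝ)^2)⁻¹) := by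
  have h : Summable (fun n : ℕ => ((n:ℝ)^2)⁻¹) := Real.summable_nat_pow_inv.mpr (by norm_num)
  exact h.comp_injective Subtype.val_injective

lemma summable_rpow (N : ℕ) {a : ℝ} (ha : a < -1) : Summable (fun p : Idx N => ((p:ℝ)^a)) := by
  have h : Summable (fun n : ℕ => ((n:ℝ)^a)) := Real.summable_nat_rpow.mpr ha
  exact h.comp_injective Subtype.val_injective

lemma root_ne_zero {P : Polynomial ℂ} (h0 : P.eval 0 = 1) {r : ℂ} (hr : r ∈ P.roots) : r ≠ 0 := by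
  have hne : P ≠ 0 := by
    rintro rfl
    simp at h0
  intro h
  rw [Polynomial.mem_roots hne] at hr
  subst h
  rw [Polynomial.IsRoot, h0] at hr
  exact one_ne_zero hr

lemma root_inv_le {N i b : ℕ} {P : ℕ → Polynomial ℂ} (H : Hyp N i b P) (p : Idx N) {r : ℂ}
    (hr : r ∈ (P p).roots) : ‖r⁻¹‖ ≤ (p:ℝ) ^ ((i:ℝ)/2) := by
  have h0 := H.h0 p p.2.1 p.2.2
  have hne : (P p) ≠ 0 := by
    intro h
    rw [h] at h0
    simp at h0
  have h1 := H.hroots p p.2.1 p.2.2 r ((Polynomial.mem_roots hne).mp hr)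
  have hp : (0:ℝ) < (p:ℝ) := by exact_mod_cast p.2.1.pos
  have h2 : 0 < (p:ℝ) ^ (-(i:ℝ)/2) := Real.rpow_pos_of_pos hp _
  rw [norm_inv]
  have h3 : (p:ℝ) ^ ((i:ℝ)/2) = ((p:ℝ) ^ (-(i:ℝ)/2))⁻¹ := by
    rw [← Real.rpow_neg hp.le]
    congr 1
    ring
  rw [h3]
  exact inv_anti₀ h2 h1

lemma norm_tr {N i b : ℕ} {P : ℕ → Polynomial ℂ} (H : Hyp N i b P) (p : Idx N) :
    ‖tr (P p)‖ ≤ b * (p:ℝ) ^ ((i:ℝ)/2) :=
  norm_tr_le _ b (H.hdeg p p.2.1 p.2.2) _ (by positivity) (fun _ hr => root_inv_le H p hr)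

lemma idx_pos {N : ℕ} (p : Idx N) : (0:ℝ) < (p:ℝ) := by exact_mod_cast p.2.1.pos

lemma norm_cpow_neg {N : ℕ} (p : Idx N) (s : ℂ) : ‖(p:ℂ)^(-s)‖ = (p:ℝ)^(-s.re) := by
  have := Complex.norm_natCast_cpow_of_pos p.2.1.pos (-s)
  simpa using this

lemma root_bound {N i b : ℕ} {P : ℕ → Polynomial ℂ} (H : Hyp N i b P) (p : Idx N) {s : ℂ}
    (hs : 1 + (i:ℝ)/2 < s.re) {r : ℂ} (hr : r ∈ (P p).roots) :
    ‖(p:ℂ)^(-s) / r‖ ≤ (p:ℝ)⁻¹ := by
  rw [div_eq_mul_inv, norm_mul, norm_cpow_neg]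
  have h1 := root_inv_le H p hr
  have hp := idx_pos p
  have hp1 : (1:ℝ) ≤ (p:ℝ) := by exact_mod_cast p.2.1.one_lt.le
  calc (p:ℝ)^(-s.re) * ‖r⁻¹‖ ≤ (p:ℝ)^(-s.re) * (p:ℝ) ^ ((i:ℝ)/2) := by gcongr
    _ = (p:ℝ)^(-s.re + (i:ℝ)/2) := by rw [Real.rpow_add hp]
    _ ≤ (p:ℝ)^(-1:ℝ) := by
        apply Real.rpow_le_rpow_of_exponent_le hp1
        linarith
    _ = (p:ℝ)⁻¹ := by rw [Real.rpow_neg_one]

lemma inv_le_half {N : ℕ} (p : Idx N) : (p:ℝ)⁻¹ ≤ 1/2 := by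
  have : (2:ℝ) ≤ (p:ℝ) := by exact_mod_cast p.2.1.two_le
  rw [one_div]
  exact inv_anti₀ (by norm_num) this

lemma norm_tr_mul {N i b : ℕ} {P : ℕ → Polynomial ℂ} (H : Hyp N i b P) (p : Idx N) (s : ℂ) :
    ‖tr (P p) * (p:ℂ)^(-s)‖ ≤ b * (p:ℝ) ^ (-(s.re - (i:ℝ)/2)) := by
  rw [norm_mul, norm_cpow_neg]
  have hp := idx_pos p
  calc ‖tr (P p)‖ * (p:ℝ)^(-s.re) ≤ (b * (p:ℝ) ^ ((i:ℝ)/2)) * (p:ℝ)^(-s.re) := by
        gcongr
        exact norm_tr H p
    _ = b * (p:ℝ) ^ (-(s.re - (i:ℝ)/2)) := by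
        rw [mul_assoc, ← Real.rpow_add hp]
        congr 2
        ring

lemma summable_tr_mul {N i b : ℕ} {P : ℕ → Polynomial ℂ} (H : Hyp N i b P) {s : ℂ}
    (hs : 1 + (i:ℝ)/2 < s.re) : Summable (fun p : Idx N => tr (P p) * (p:ℂ)^(-s)) := by
  have h := (summable_rpow N (a := -(s.re - (i:ℝ)/2)) (by linarith)).mul_left (b:ℝ)
  exact Summable.of_norm_bounded h (fun p => norm_tr_mul H p s)

lemma norm_locLog_sub' {N i b : ℕ} {P : ℕ → Polynomial ℂ} (H : Hyp N i b P) (p : Idx N) {s : ℂ}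
    (hs : 1 + (i:ℝ)/2 < s.re) :
    ‖locLog (P p) ((p:ℂ)^(-s)) - tr (P p) * (p:ℂ)^(-s)‖ ≤ b * ((p:ℝ)^2)⁻¹ := by
  have h := norm_locLog_sub (P p) b (H.hdeg p p.2.1 p.2.2) ((p:ℂ)^(-s)) ((p:ℝ)⁻¹)
    (inv_le_half p) (fun r hr => root_bound H p hs hr)
  rwa [inv_pow] at h

lemma summable_locLog {N i b : ℕ} {P : ℕ → Polynomial ℂ} (H : Hyp N i b P) {s : ℂ}
    (hs : 1 + (i:ℝ)/2 < s.re) : Summable (fun p : Idx N => locLog (P p) ((p:ℂ)^(-s))) := by
  have h1 : Summable (fun p : Idx N => locLog (P p) ((p:ℂ)^(-s)) - tr (P p) * (p:ℂ)^(-s)) :=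
    Summable.of_norm_bounded ((summable_inv_sq N).mul_left (b:ℝ))
      (fun p => norm_locLog_sub' H p hs)
  have h2 := h1.add (summable_tr_mul H hs)
  simpa using h2

lemma hasProd_L {N i b : ℕ} {P : ℕ → Polynomial ℂ} (H : Hyp N i b P) {s : ℂ}
    (hs : 1 + (i:ℝ)/2 < s.re) :
    HasProd (fun p : Idx N => ((P p).eval ((p:ℂ)^(-s)))⁻¹)
      (Complex.exp (∑' p : Idx N, locLog (P p) ((p:ℂ)^(-s)))) := by
  have h1 := (summable_locLog H hs).hasSum.cexp
  refine h1.congr ?_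
  intro t
  apply Finset.prod_congr rfl
  intro p _
  simp only [Function.comp]
  rw [exp_locLog _ (H.h0 p p.2.1 p.2.2)]
  intro r hr
  have h2 := root_bound H p hs hr
  have h3 := inv_le_half p
  linarith

/-- key lemma: the logarithm of the absolute value of the Euler product -/
lemma log_norm_L {N i b : ℕ} {P : ℕ → Polynomial ℂ} (H : Hyp N i b P) {s : ℂ}
    (hs : 1 + (i:ℝ)/2 < s.re) :
    |Real.log ‖∏' p : Idx N, ((P p).eval ((p:ℂ)^(-s)))⁻¹‖
      - (∑' p : Idx N, tr (P p) * (p:ℂ)^(-s)).re| ≤ b * ∑' p : Idx N, ((p:ℝ)^2)⁻¹ := by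
  rw [(hasProd_L H hs).tprod_eq, Complex.norm_exp, Real.log_exp, ← Complex.sub_re,
    ← (summable_locLog H hs).tsum_sub (summable_tr_mul H hs), ← tsum_mul_left]
  refine (Complex.abs_re_le_norm _).trans ?_
  exact tsum_of_norm_bounded ((summable_inv_sq N).mul_left (b:ℝ)).hasSum
      (fun p => norm_locLog_sub' H p hs)


lemma summable_cpow (N : ℕ) {s : ℂ} (hs : 1 < s.re) :
    Summable (fun p : Idx N => (p:ℂ)^(-s)) := by
  refine Summable.of_norm_bounded (summable_rpow N (a := -s.re) (by linarith)) ?_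
  intro p
  rw [norm_cpow_neg]

/-- The logarithm of the absolute value of zeta against the prime sum. -/
lemma log_norm_zeta (N : ℕ) (hN : 0 < N) : ∃ C : ℝ, ∀ s : ℂ, 1 < s.re →
    |Real.log ‖riemannZeta s‖ - (∑' p : Idx N, (p:ℂ)^(-s)).re| ≤ C := by
  have hsq : Summable (fun p : Nat.Primes => (((p:ℕ):ℝ)^2)⁻¹) := by
    have h : Summable (fun n : ℕ => ((n:ℝ)^2)⁻¹) := Real.summable_nat_pow_inv.mpr (by norm_num)
    exact h.comp_injective Subtype.val_injective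
  refine ⟨∑' p : Nat.Primes, (((p:ℕ):ℝ)^2)⁻¹ + N, ?_⟩
  intro s hs
  -- notation-free abbreviations
  have hp_pos : ∀ p : Nat.Primes, (0:ℝ) < ((p:ℕ):ℝ) := fun p => by exact_mod_cast p.2.pos
  have hnorm : ∀ p : Nat.Primes, ‖((p:ℕ):ℂ)^(-s)‖ = ((p:ℕ):ℝ)^(-s.re) := fun p => by
    have := Complex.norm_natCast_cpow_of_pos p.2.pos (-s)
    simpa using this
  have hle : ∀ p : Nat.Primes, ‖((p:ℕ):ℂ)^(-s)‖ ≤ ((p:ℕ):ℝ)⁻¹ := fun p => by
    rw [hnorm, ← Real.rpow_neg_one]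
    apply Real.rpow_le_rpow_of_exponent_le
    · exact_mod_cast p.2.one_lt.le
    · linarith
  have hhalf : ∀ p : Nat.Primes, ((p:ℕ):ℝ)⁻¹ ≤ 1/2 := fun p => by
    have : (2:ℝ) ≤ ((p:ℕ):ℝ) := by exact_mod_cast p.2.two_le
    rw [one_div]
    exact inv_anti₀ (by norm_num) this
  have hsum1 : Summable (fun p : Nat.Primes => ((p:ℕ):ℂ)^(-s)) := by
    have h : Summable (fun n : ℕ => ((n:ℝ)^(-s.re))) := Real.summable_nat_rpow.mpr (by linarith)
    have h' : Summable (fun p : Nat.Primes => (((p:ℕ):ℝ)^(-s.re))) :=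
      h.comp_injective Subtype.val_injective
    exact Summable.of_norm_bounded h' (fun p => (hnorm p).le)
  have hb : ∀ p : Nat.Primes,
      ‖-Complex.log (1 - ((p:ℕ):ℂ)^(-s)) - ((p:ℕ):ℂ)^(-s)‖ ≤ (((p:ℕ):ℝ)^2)⁻¹ := by
    intro p
    have h1 : ‖((p:ℕ):ℂ)^(-s)‖ ≤ 1/2 := (hle p).trans (hhalf p)
    have h2 := Complex.norm_log_one_sub_inv_sub_self_le (z := ((p:ℕ):ℂ)^(-s)) (by linarith)
    have h3 : Complex.log (1 - ((p:ℕ):ℂ)^(-s))⁻¹ = - Complex.log (1 - ((p:ℕ):ℂ)^(-s)) := by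
      apply Complex.log_inv
      intro h4
      have h5 : (1 - ((p:ℕ):ℂ)^(-s)).re ≤ 0 := by
        rw [Complex.arg_eq_pi_iff] at h4
        exact h4.1.le
      have h6 := Complex.re_le_norm (((p:ℕ):ℂ)^(-s))
      simp only [Complex.sub_re, Complex.one_re] at h5
      linarith
    rw [h3] at h2
    refine h2.trans ?_
    have h5 : (1 - ‖((p:ℕ):ℂ)^(-s)‖)⁻¹ ≤ 2 := by
      rw [inv_le_comm₀ (by linarith) (by norm_num)]
      linarith
    have h6 : ‖((p:ℕ):ℂ)^(-s)‖ ^ 2 ≤ (((p:ℕ):ℝ)^2)⁻¹ := by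
      rw [← inv_pow]
      apply pow_le_pow_left₀ (norm_nonneg _) (hle p)
    have h7 : 0 ≤ (1 - ‖((p:ℕ):ℂ)^(-s)‖)⁻¹ := by
      apply inv_nonneg.mpr; linarith
    nlinarith [sq_nonneg ‖((p:ℕ):ℂ)^(-s)‖]
  have hsum2 : Summable (fun p : Nat.Primes => -Complex.log (1 - ((p:ℕ):ℂ)^(-s))) := by
    have h1 : Summable (fun p : Nat.Primes =>
        -Complex.log (1 - ((p:ℕ):ℂ)^(-s)) - ((p:ℕ):ℂ)^(-s)) :=
      Summable.of_norm_bounded hsq hb
    simpa using h1.add hsum1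
  have hz : Real.log ‖riemannZeta s‖ = (∑' p : Nat.Primes, -Complex.log (1 - ((p:ℕ):ℂ)^(-s))).re := by
    rw [← riemannZeta_eulerProduct_exp_log hs, Complex.norm_exp, Real.log_exp]
  have h1 : |Real.log ‖riemannZeta s‖ - (∑' p : Nat.Primes, ((p:ℕ):ℂ)^(-s)).re|
      ≤ ∑' p : Nat.Primes, (((p:ℕ):ℝ)^2)⁻¹ := by
    rw [hz, ← Complex.sub_re, ← hsum2.tsum_sub hsum1]
    refine (Complex.abs_re_le_norm _).trans ?_
    exact tsum_of_norm_bounded hsq.hasSum hb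
  -- compare the two prime sums
  have h2 : ‖(∑' p : Nat.Primes, ((p:ℕ):ℂ)^(-s)) - ∑' p : Idx N, (p:ℂ)^(-s)‖ ≤ N := by
    have e1 : (∑' p : Nat.Primes, ((p:ℕ):ℂ)^(-s)) = ∑' n : ℕ, Set.indicator {p : ℕ | p.Prime} (fun n : ℕ => (n:ℂ)^(-s)) n := by
      exact tsum_subtype {p : ℕ | p.Prime} (fun n : ℕ => (n:ℂ)^(-s))
    have e2 : (∑' p : Idx N, (p:ℂ)^(-s)) = ∑' n : ℕ, Set.indicator {p : ℕ | p.Prime ∧ ¬ p ∣ N} (fun n : ℕ => (n:ℂ)^(-s)) n := by
      exact tsum_subtype {p : ℕ | p.Prime ∧ ¬ p ∣ N} (fun n : ℕ => (n:ℂ)^(-s))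
    have s1 : Summable (Set.indicator {p : ℕ | p.Prime} (fun n : ℕ => (n:ℂ)^(-s))) :=
      summable_subtype_iff_indicator.mp hsum1
    have s2 : Summable (Set.indicator {p : ℕ | p.Prime ∧ ¬ p ∣ N} (fun n : ℕ => (n:ℂ)^(-s))) :=
      summable_subtype_iff_indicator.mp (summable_cpow N hs)
    rw [e1, e2, ← s1.tsum_sub s2]
    have e3 : ∀ n : ℕ, n ∉ Finset.range (N+1) \ {0} → Set.indicator {p : ℕ | p.Prime} (fun n : ℕ => (n:ℂ)^(-s)) n
      - Set.indicator {p : ℕ | p.Prime ∧ ¬ p ∣ N} (fun n : ℕ => (n:ℂ)^(-s)) n = 0 := by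
      intro n hn
      by_cases hp : n.Prime
      · have hn0 : n ≠ 0 := hp.ne_zero
        have hnN : ¬ n ∣ N := by
          intro hd
          apply hn
          have := Nat.le_of_dvd hN hd
          simp
          exact ⟨by omega, hn0⟩
        simp [Set.indicator, hp, hnN]
      · simp [Set.indicator, hp]
    rw [tsum_eq_sum e3]
    refine (norm_sum_le _ _).trans ?_
    have e4 : ∀ n ∈ Finset.range (N+1) \ {0}, ‖Set.indicator {p : ℕ | p.Prime} (fun n : ℕ => (n:ℂ)^(-s)) n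
      - Set.indicator {p : ℕ | p.Prime ∧ ¬ p ∣ N} (fun n : ℕ => (n:ℂ)^(-s)) n‖ ≤ 1 := by
      intro n hn
      have hle1 : n.Prime → ‖((n:ℕ):ℂ)^(-s)‖ ≤ 1 := by
        intro hp
        have := (hle ⟨n, hp⟩).trans (hhalf ⟨n, hp⟩)
        simp only at this
        linarith
      by_cases hp : n.Prime
      · by_cases hd : n ∣ N
        · simp [Set.indicator, hp, hd]
          simpa using hle1 hp
        · simp [Set.indicator, hp, hd]
      · simp [Set.indicator, hp]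
    refine (Finset.sum_le_sum e4).trans ?_
    rw [Finset.sum_const, nsmul_eq_mul, mul_one]
    have hc : (Finset.range (N+1) \ {0}).card = N := by
      rw [Finset.card_sdiff_of_subset]
      · simp
      · intro x hx
        simp at hx
        simp [hx]
    rw [hc]
  have h3 : |(∑' p : Nat.Primes, ((p:ℕ):ℂ)^(-s)).re - (∑' p : Idx N, (p:ℂ)^(-s)).re| ≤ N := by
    rw [← Complex.sub_re]
    exact (Complex.abs_re_le_norm _).trans h2
  have h4 := abs_add_le (Real.log ‖riemannZeta s‖ - (∑' p : Nat.Primes, ((p:ℕ):ℂ)^(-s)).re)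
    ((∑' p : Nat.Primes, ((p:ℕ):ℂ)^(-s)).re - (∑' p : Idx N, (p:ℂ)^(-s)).re)
  have h5 : (Real.log ‖riemannZeta s‖ - (∑' p : Nat.Primes, ((p:ℕ):ℂ)^(-s)).re) +
    ((∑' p : Nat.Primes, ((p:ℕ):ℂ)^(-s)).re - (∑' p : Idx N, (p:ℂ)^(-s)).re) =
    Real.log ‖riemannZeta s‖ - (∑' p : Idx N, (p:ℂ)^(-s)).re := by ring
  rw [h5] at h4
  linarith


lemma zeta_edge_ne {θ : ℝ} (hθ : θ ≠ 0) : ∃ C : ℝ, ∀ η : ℝ, 0 < η → η ≤ 1 →
    |Real.log ‖riemannZeta (1 + η + θ * I)‖| ≤ C := by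
  have hcont : ContinuousOn (fun η : ℝ => Real.log ‖riemannZeta (1 + η + θ * I)‖) (Set.Icc 0 1) := by
    apply ContinuousOn.log
    · apply ContinuousOn.norm
      intro η _
      have hne : (1 + (η:ℂ) + θ * I) ≠ 1 := by
        intro h
        have := congrArg Complex.im h
        simp at this
        exact hθ this
      have h1 : ContinuousAt riemannZeta (1 + (η:ℂ) + θ * I) := (differentiableAt_riemannZeta hne).continuousAt
      have h2 : ContinuousAt (fun η : ℝ => (1 + (η:ℂ) + θ * I)) η := by fun_prop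
      exact (ContinuousAt.comp (f := fun η : ℝ => (1 + (η:ℂ) + θ * I)) h1 h2).continuousWithinAt
    · intro η hη
      rw [norm_ne_zero_iff]
      apply riemannZeta_ne_zero_of_one_le_re
      simp
      exact hη.1
  obtain ⟨C, hC⟩ := isCompact_Icc.exists_bound_of_continuousOn hcont
  exact ⟨C, fun η h0 h1 => by simpa using hC η ⟨h0.le, h1⟩⟩

lemma zeta_edge_zero : ∃ C : ℝ, ∀ η : ℝ, 0 < η → η ≤ 1 →
    |Real.log ‖riemannZeta (1 + η)‖ - Real.log (1/η)| ≤ C := by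
  have hlim : Tendsto (fun η : ℝ => ‖(η:ℂ) * riemannZeta (1 + η)‖) (𝓝[>] 0) (𝓝 1) := by
    have h1 : Tendsto (fun η : ℝ => (1 + (η:ℂ))) (𝓝[>] 0) (𝓝[≠] 1) := by
      apply tendsto_nhdsWithin_of_tendsto_nhds_of_eventually_within
      · have : ContinuousAt (fun η : ℝ => (1 + (η:ℂ))) 0 := by fun_prop
        have h2 := this.tendsto
        simp at h2
        exact h2.mono_left nhdsWithin_le_nhds
      · filter_upwards [self_mem_nhdsWithin] with η hη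
        simp only [Set.mem_compl_iff, Set.mem_singleton_iff, Set.mem_Ioi] at hη ⊢
        intro h
        have h3 : (η:ℂ) = 0 := by linear_combination h
        exact hη.ne' (by exact_mod_cast h3)
    have h2 := riemannZeta_residue_one.comp h1
    have h3 := h2.norm
    simpa using h3
  have hlog : Tendsto (fun η : ℝ => Real.log ‖(η:ℂ) * riemannZeta (1 + η)‖) (𝓝[>] 0) (𝓝 0) := by
    have := hlim.log one_ne_zero
    simpa using this
  have hev : ∀ᶠ η : ℝ in 𝓝[>] 0, |Real.log ‖(η:ℂ) * riemannZeta (1 + η)‖| ≤ 1 := by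
    have := hlog.abs
    simp only [abs_zero] at this
    exact this.eventually_le_const one_pos
  rw [eventually_nhdsWithin_iff, Metric.eventually_nhds_iff] at hev
  obtain ⟨δ, hδ, hev⟩ := hev
  have hcont : ContinuousOn (fun η : ℝ => Real.log ‖(η:ℂ) * riemannZeta (1 + η)‖) (Set.Icc (δ/2) 1) := by
    apply ContinuousOn.log
    · apply ContinuousOn.norm
      intro η hη
      have hne : (1 + (η:ℂ)) ≠ 1 := by
        intro h
        have h3 : (η:ℂ) = 0 := by linear_combination h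
        have h4 : η = 0 := by exact_mod_cast h3
        have := hη.1
        linarith
      have h1 : ContinuousAt riemannZeta (1 + (η:ℂ)) := (differentiableAt_riemannZeta hne).continuousAt
      have h2 : ContinuousAt (fun η : ℝ => (1 + (η:ℂ))) η := by fun_prop
      have h3 : ContinuousAt (fun η : ℝ => (η:ℂ)) η := by fun_prop
      exact (h3.mul (ContinuousAt.comp (f := fun η : ℝ => (1 + (η:ℂ))) h1 h2)).continuousWithinAt
    · intro η hη
      rw [norm_ne_zero_iff]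
      apply mul_ne_zero
      · have := hη.1
        have h4 : η ≠ 0 := by linarith
        exact_mod_cast h4
      · apply riemannZeta_ne_zero_of_one_le_re
        simp
        linarith [hη.1]
  obtain ⟨C, hC⟩ := isCompact_Icc.exists_bound_of_continuousOn hcont
  refine ⟨max 1 C, fun η h0 h1 => ?_⟩
  have e : Real.log ‖riemannZeta (1 + η)‖ - Real.log (1/η) = Real.log ‖(η:ℂ) * riemannZeta (1 + η)‖ := by
    have hz : ‖riemannZeta (1 + η)‖ ≠ 0 := by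
      rw [norm_ne_zero_iff]
      apply riemannZeta_ne_zero_of_one_le_re
      simp
      linarith
    rw [norm_mul, Complex.norm_real, Real.norm_of_nonneg h0.le, Real.log_mul h0.ne' hz, one_div, Real.log_inv]
    ring
  rw [e]
  by_cases h : η < δ
  · refine (hev ?_ h0).trans (le_max_left _ _)
    simp [abs_of_pos h0, h]
  · refine le_trans ?_ (le_max_right _ _)
    simpa using hC η ⟨by linarith, h1⟩

/-- prime sums off the real axis are bounded -/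
lemma primeSum_ne (N : ℕ) (hN : 0 < N) {θ : ℝ} (hθ : θ ≠ 0) : ∃ C : ℝ, ∀ η : ℝ, 0 < η → η ≤ 1 →
    |(∑' p : Idx N, (p:ℂ)^(-(1 + η + θ * I))).re| ≤ C := by
  obtain ⟨C1, h1⟩ := log_norm_zeta N hN
  obtain ⟨C2, h2⟩ := zeta_edge_ne hθ
  refine ⟨C1 + C2, fun η h0 hη => ?_⟩
  have h3 := h1 (1 + η + θ * I) (by simp; exact h0)
  have h4 := h2 η h0 hη
  rw [abs_le] at h3 h4 ⊢
  constructor <;> linarith

/-- prime sums on the real axis -/
lemma primeSum_zero (N : ℕ) (hN : 0 < N) : ∃ C : ℝ, ∀ η : ℝ, 0 < η → η ≤ 1 →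
    |(∑' p : Idx N, (p:ℂ)^(-(1 + (η:ℂ)))).re - Real.log (1/η)| ≤ C := by
  obtain ⟨C1, h1⟩ := log_norm_zeta N hN
  obtain ⟨C2, h2⟩ := zeta_edge_zero
  refine ⟨C1 + C2, fun η h0 hη => ?_⟩
  have h3 := h1 (1 + η) (by simp; exact h0)
  have h4 := h2 η h0 hη
  rw [abs_le] at h3 h4 ⊢
  constructor <;> linarith


lemma pair_bound (N : ℕ) (hN : 0 < N) (θ : ℝ) : ∃ C : ℝ, 0 ≤ C ∧ ∀ η : ℝ, 0 < η → η ≤ 1 →
    |(∑' p : Idx N, (p:ℂ)^(-(1 + (η:ℂ) + θ * I))).re - (if θ = 0 then Real.log (1/η) else 0)| ≤ C := by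
  by_cases hθ : θ = 0
  · obtain ⟨C, hC⟩ := primeSum_zero N hN
    refine ⟨max C 0, le_max_right _ _, fun η h0 h1 => ?_⟩
    have h2 := hC η h0 h1
    subst hθ
    simp only [if_true, Complex.ofReal_zero, zero_mul, add_zero]
    exact h2.trans (le_max_left _ _)
  · obtain ⟨C, hC⟩ := primeSum_ne N hN hθ
    refine ⟨max C 0, le_max_right _ _, fun η h0 h1 => ?_⟩
    have h2 := hC η h0 h1
    simp only [hθ, if_false, sub_zero]
    exact h2.trans (le_max_left _ _)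

/-- weights -/
noncomputable def q {N : ℕ} (p : Idx N) (η : ℝ) : ℝ := (p:ℝ)^(-(1+η))

/-- unitary characters -/
noncomputable def ch {N : ℕ} (p : Idx N) (t : ℝ) : ℂ := (p:ℂ)^(-((t:ℂ) * I))

lemma q_pos {N : ℕ} (p : Idx N) (η : ℝ) : 0 < q p η := Real.rpow_pos_of_pos (idx_pos p) _

lemma summable_q (N : ℕ) {η : ℝ} (h : 0 < η) : Summable (fun p : Idx N => q p η) :=
  summable_rpow N (by linarith)

lemma idx_ne {N : ℕ} (p : Idx N) : ((p:ℕ):ℂ) ≠ 0 := by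
  have := p.2.1.ne_zero
  exact_mod_cast this

lemma norm_ch {N : ℕ} (p : Idx N) (t : ℝ) : ‖ch p t‖ = 1 := by
  rw [ch, norm_cpow_neg]
  simp

lemma ch_add {N : ℕ} (p : Idx N) (s t : ℝ) : ch p (s + t) = ch p s * ch p t := by
  rw [ch, ch, ch, ← Complex.cpow_add _ _ (idx_ne p)]
  congr 1
  push_cast
  ring

lemma ch_zero {N : ℕ} (p : Idx N) : ch p 0 = 1 := by
  simp [ch]

lemma conj_ch {N : ℕ} (p : Idx N) (t : ℝ) : (starRingEnd ℂ) (ch p t) = ch p (-t) := by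
  have h1 : ch p t * ch p (-t) = 1 := by
    rw [← ch_add, add_neg_cancel, ch_zero]
  have h2 : ch p t * (starRingEnd ℂ) (ch p t) = 1 := by
    rw [Complex.mul_conj, Complex.normSq_eq_norm_sq, norm_ch]
    simp
  have h3 : ch p t ≠ 0 := by
    intro h
    rw [h] at h1
    simp at h1
  exact mul_left_cancel₀ h3 (h2.trans h1.symm)

lemma cpow_split {N : ℕ} (p : Idx N) (η t : ℝ) :
    (p:ℂ)^(-(1 + (η:ℂ) + t * I)) = (q p η : ℂ) * ch p t := by
  rw [q, ch, Complex.ofReal_cpow (idx_pos p).le, Complex.ofReal_natCast, ← Complex.cpow_add _ _ (idx_ne p)]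
  congr 1
  push_cast
  ring

lemma sum_sq_mul_le {S : Finset ℝ} (v : ℝ → ℝ) {s s' : ℝ} (hs : s ∈ S) (hs' : s' ∈ S) :
    |v s * v s'| ≤ ∑ t ∈ S, v t ^ 2 := by
  have h1 : v s ^ 2 ≤ ∑ t ∈ S, v t ^ 2 := Finset.single_le_sum (fun t _ => sq_nonneg (v t)) hs
  have h2 : v s' ^ 2 ≤ ∑ t ∈ S, v t ^ 2 := Finset.single_le_sum (fun t _ => sq_nonneg (v t)) hs'
  rw [abs_le]
  constructor <;> nlinarith [sq_nonneg (v s - v s'), sq_nonneg (v s + v s')]

/-- the quadratic form bound -/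
lemma quad_bound (N : ℕ) (hN : 0 < N) (S : Finset ℝ) : ∃ C : ℝ, 0 ≤ C ∧ ∀ η : ℝ, 0 < η → η ≤ 1 →
    ∀ v : ℝ → ℝ, Summable (fun p : Idx N => q p η * ‖∑ s ∈ S, (v s : ℂ) * ch p s‖ ^ 2) ∧
      ∑' p : Idx N, q p η * ‖∑ s ∈ S, (v s : ℂ) * ch p s‖ ^ 2
        ≤ (Real.log (1/η) + C) * ∑ s ∈ S, v s ^ 2 := by
  choose C hC0 hC using pair_bound N hN
  refine ⟨∑ s ∈ S, ∑ s' ∈ S, C (s - s'), Finset.sum_nonneg fun s _ => Finset.sum_nonneg fun s' _ => hC0 _, ?_⟩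
  intro η h0 h1 v
  have hexp : ∀ p : Idx N, q p η * ‖∑ s ∈ S, (v s : ℂ) * ch p s‖ ^ 2
      = ∑ s ∈ S, ∑ s' ∈ S, v s * v s' * ((p:ℂ)^(-(1 + (η:ℂ) + ((s - s' : ℝ):ℂ) * I))).re := by
    intro p
    have e1 : (((‖∑ s ∈ S, (v s : ℂ) * ch p s‖ ^ 2 : ℝ)) : ℂ) =
        ∑ s ∈ S, ∑ s' ∈ S, ((v s * v s' : ℝ) : ℂ) * ch p (s - s') := by
      rw [Complex.ofReal_pow, ← Complex.mul_conj', map_sum, Finset.sum_mul_sum]
      apply Finset.sum_congr rfl
      intro s _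
      apply Finset.sum_congr rfl
      intro s' _
      rw [map_mul, Complex.conj_ofReal, conj_ch, sub_eq_add_neg, ch_add]
      push_cast
      ring
    have e2 : ((q p η * ‖∑ s ∈ S, (v s : ℂ) * ch p s‖ ^ 2 : ℝ) : ℂ) =
        ∑ s ∈ S, ∑ s' ∈ S, ((v s * v s' : ℝ) : ℂ) * ((p:ℂ)^(-(1 + (η:ℂ) + ((s - s' : ℝ):ℂ) * I))) := by
      rw [Complex.ofReal_mul, e1, Finset.mul_sum]
      apply Finset.sum_congr rfl
      intro s _
      rw [Finset.mul_sum]
      apply Finset.sum_congr rfl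
      intro s' _
      rw [cpow_split]
      ring
    have e3 := congrArg Complex.re e2
    rw [Complex.ofReal_re] at e3
    rw [e3, Complex.re_sum]
    apply Finset.sum_congr rfl
    intro s _
    rw [Complex.re_sum]
    apply Finset.sum_congr rfl
    intro s' _
    rw [Complex.re_ofReal_mul]
  have hsummable : ∀ θ : ℝ, Summable (fun p : Idx N => ((p:ℂ)^(-(1 + (η:ℂ) + ((θ : ℝ):ℂ) * I)))) := by
    intro θ
    apply summable_cpow
    simp
    exact h0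
  have hsum_re : ∀ θ : ℝ, Summable (fun p : Idx N => ((p:ℂ)^(-(1 + (η:ℂ) + ((θ : ℝ):ℂ) * I))).re) := by
    intro θ
    exact (Complex.hasSum_re (hsummable θ).hasSum).summable
  have hs1 : ∀ s ∈ S, ∀ s' ∈ S, Summable (fun p : Idx N => v s * v s' * ((p:ℂ)^(-(1 + (η:ℂ) + ((s - s' : ℝ):ℂ) * I))).re) :=
    fun s _ s' _ => (hsum_re _).mul_left _
  have hs2 : ∀ s ∈ S, Summable (fun p : Idx N => ∑ s' ∈ S, v s * v s' * ((p:ℂ)^(-(1 + (η:ℂ) + ((s - s' : ℝ):ℂ) * I))).re) :=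
    fun s hs => summable_sum (fun s' hs' => hs1 s hs s' hs')
  constructor
  · simp_rw [hexp]
    exact summable_sum hs2
  · simp_rw [hexp]
    rw [Summable.tsum_finsetSum hs2]
    have e4 : ∀ s ∈ S, ∑' p : Idx N, ∑ s' ∈ S, v s * v s' * ((p:ℂ)^(-(1 + (η:ℂ) + ((s - s' : ℝ):ℂ) * I))).re
        ≤ ∑ s' ∈ S, (v s * v s' * (if s - s' = 0 then Real.log (1/η) else 0) + C (s - s') * ∑ t ∈ S, v t ^ 2) := by
      intro s hs
      rw [Summable.tsum_finsetSum (hs1 s hs)]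
      apply Finset.sum_le_sum
      intro s' hs'
      rw [tsum_mul_left, ← Complex.re_tsum (hsummable _)]
      have h2 := hC (s - s') η h0 h1
      have h3 := sum_sq_mul_le v hs hs'
      have h4 : v s * v s' * (∑' (a : Idx N), (a:ℂ) ^ (-(1 + (η:ℂ) + ((s - s' : ℝ):ℂ) * I))).re
        = v s * v s' * (if s - s' = 0 then Real.log (1/η) else 0) + v s * v s' * ((∑' (a : Idx N), (a:ℂ) ^ (-(1 + (η:ℂ) + ((s - s' : ℝ):ℂ) * I))).re - (if s - s' = 0 then Real.log (1/η) else 0)) := by ring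
      rw [h4]
      have h5 : v s * v s' * ((∑' (a : Idx N), (a:ℂ) ^ (-(1 + (η:ℂ) + ((s - s' : ℝ):ℂ) * I))).re - (if s - s' = 0 then Real.log (1/η) else 0)) ≤ C (s - s') * ∑ t ∈ S, v t ^ 2 := by
        refine (le_abs_self _).trans ?_
        rw [abs_mul, mul_comm]
        exact mul_le_mul h2 h3 (abs_nonneg _) (hC0 _)
      linarith
    refine (Finset.sum_le_sum e4).trans ?_
    have e5 : ∀ s ∈ S, ∑ s' ∈ S, (v s * v s' * (if s - s' = 0 then Real.log (1/η) else 0) + C (s - s') * ∑ t ∈ S, v t ^ 2)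
        = v s ^ 2 * Real.log (1/η) + (∑ s' ∈ S, C (s - s')) * ∑ t ∈ S, v t ^ 2 := by
      intro s hs
      rw [Finset.sum_add_distrib, Finset.sum_mul]
      congr 1
      rw [Finset.sum_eq_single s]
      · rw [sub_self, if_pos rfl]
        ring
      · intro t _ ht
        have : s - t ≠ 0 := sub_ne_zero.mpr (Ne.symm ht)
        simp [this]
      · intro h
        exact absurd hs h
    rw [Finset.sum_congr rfl e5, Finset.sum_add_distrib, ← Finset.sum_mul, ← Finset.sum_mul]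
    apply le_of_eq
    ring


lemma tsum_mul_le_sqrt {ι : Type*} {f g : ι → ℝ} (hf : ∀ i, 0 ≤ f i) (hg : ∀ i, 0 ≤ g i)
    (hfs : Summable fun i => f i ^ 2) (hgs : Summable fun i => g i ^ 2) :
    ∑' i, f i * g i ≤ Real.sqrt (∑' i, f i ^ 2) * Real.sqrt (∑' i, g i ^ 2) := by
  have h := Real.inner_le_Lp_mul_Lq_tsum_of_nonneg Real.HolderConjugate.two_two hf hg
    (by simpa using hfs) (by simpa using hgs)
  simpa [Real.sqrt_eq_rpow] using h

lemma summable_mul_of_sq {ι : Type*} {f g : ι → ℝ} (hf : ∀ i, 0 ≤ f i) (hg : ∀ i, 0 ≤ g i)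
    (hfs : Summable fun i => f i ^ 2) (hgs : Summable fun i => g i ^ 2) :
    Summable fun i => f i * g i := by
  refine Summable.of_nonneg_of_le (fun i => mul_nonneg (hf i) (hg i)) (fun i => ?_) (hfs.add hgs)
  nlinarith [sq_nonneg (f i - g i), mul_nonneg (hf i) (hg i)]

lemma cpow_split' {N : ℕ} (p : Idx N) (i : ℕ) (η t : ℝ) :
    (p:ℂ)^(-(1 + (i:ℂ)/2 + (η:ℂ) + t * I)) = (p:ℂ)^(-((i:ℂ)/2)) * ((q p η : ℂ) * ch p t) := by
  rw [← cpow_split, ← Complex.cpow_add _ _ (idx_ne p)]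
  congr 1
  ring

lemma norm_half {N : ℕ} (p : Idx N) (i : ℕ) : ‖(p:ℂ)^(-((i:ℂ)/2))‖ = (p:ℝ)^(-((i:ℝ)/2)) := by
  rw [norm_cpow_neg]
  congr 2
  simp

/-- The bilinear edge inequality. -/
theorem bilinear {N i b : ℕ} {P : ℕ → Polynomial ℂ} (H : Hyp N i b P) (S S' : Finset ℝ) :
    ∃ C : ℝ, ∀ η : ℝ, 0 < η → η ≤ 1 → ∀ v w : ℝ → ℝ,
      |∑ s ∈ S, ∑ s' ∈ S', v s * w s' *
        Real.log ‖∏' p : Idx N, ((P p).eval ((p:ℂ)^(-(1 + (i:ℂ)/2 + (η:ℂ) + ((s - s' : ℝ):ℂ) * I))))⁻¹‖|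
      ≤ (b * Real.log (1/η) + C) * (Real.sqrt (∑ s ∈ S, v s ^ 2) * Real.sqrt (∑ s' ∈ S', w s' ^ 2)) := by
  obtain ⟨C1, hC1, hq1⟩ := quad_bound N H.N0 S
  obtain ⟨C2, hC2, hq2⟩ := quad_bound N H.N0 (S'.image (fun x => -x))
  set B0 : ℝ := b * ∑' p : Idx N, ((p:ℝ)^2)⁻¹ with hB0
  have hB0pos : 0 ≤ B0 := mul_nonneg (Nat.cast_nonneg _) (tsum_nonneg fun p => by positivity)
  refine ⟨b * (C1 + C2) + S.card * S'.card * B0, ?_⟩
  intro η h0 h1 v w
  set nv := Real.sqrt (∑ s ∈ S, v s ^ 2) with hnv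
  set nw := Real.sqrt (∑ s' ∈ S', w s' ^ 2) with hnw
  have hl : 0 ≤ Real.log (1/η) := by
    apply Real.log_nonneg
    rw [le_div_iff₀ h0]
    linarith
  have hnv0 : 0 ≤ nv := Real.sqrt_nonneg _
  have hnw0 : 0 ≤ nw := Real.sqrt_nonneg _
  -- abbreviations
  set x : ℝ → ℝ := fun θ => Real.log ‖∏' p : Idx N, ((P p).eval ((p:ℂ)^(-(1 + (i:ℂ)/2 + (η:ℂ) + ((θ : ℝ):ℂ) * I))))⁻¹‖ with hx
  set y : ℝ → ℝ := fun θ => (∑' p : Idx N, tr (P p) * (p:ℂ)^(-(1 + (i:ℂ)/2 + (η:ℂ) + ((θ : ℝ):ℂ) * I))).re with hy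
  have hre : ∀ θ : ℝ, 1 + (i:ℝ)/2 < (1 + (i:ℂ)/2 + (η:ℂ) + ((θ : ℝ):ℂ) * I).re := by
    intro θ
    simp
    exact h0
  have hxy : ∀ θ, |x θ - y θ| ≤ B0 := fun θ => log_norm_L H (hre θ)
  -- main term
  have hmain : ∑ s ∈ S, ∑ s' ∈ S', v s * w s' * y (s - s') =
      (∑' p : Idx N, (tr (P p) * (p:ℂ)^(-((i:ℂ)/2))) * ((q p η : ℂ) *
        ((∑ s ∈ S, (v s : ℂ) * ch p s) * (∑ s' ∈ S', (w s' : ℂ) * ch p (-s'))))).re := by
    have hsm : ∀ θ : ℝ, Summable (fun p : Idx N => tr (P p) * (p:ℂ)^(-(1 + (i:ℂ)/2 + (η:ℂ) + ((θ : ℝ):ℂ) * I))) :=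
      fun θ => summable_tr_mul H (hre θ)
    have e1 : ∀ p : Idx N, (tr (P p) * (p:ℂ)^(-((i:ℂ)/2))) * ((q p η : ℂ) *
        ((∑ s ∈ S, (v s : ℂ) * ch p s) * (∑ s' ∈ S', (w s' : ℂ) * ch p (-s')))) =
        ∑ s ∈ S, ∑ s' ∈ S', ((v s * w s' : ℝ) : ℂ) * (tr (P p) * (p:ℂ)^(-(1 + (i:ℂ)/2 + (η:ℂ) + ((s - s' : ℝ):ℂ) * I))) := by
      intro p
      rw [Finset.sum_mul_sum, Finset.mul_sum, Finset.mul_sum]
      apply Finset.sum_congr rfl
      intro s _
      rw [Finset.mul_sum, Finset.mul_sum]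
      apply Finset.sum_congr rfl
      intro s' _
      rw [cpow_split', sub_eq_add_neg, ch_add]
      push_cast
      ring
    simp_rw [e1]
    rw [Summable.tsum_finsetSum (fun s _ => summable_sum (fun s' _ => (hsm _).mul_left _)), Complex.re_sum]
    apply Finset.sum_congr rfl
    intro s _
    rw [Summable.tsum_finsetSum (fun s' _ => (hsm _).mul_left _), Complex.re_sum]
    apply Finset.sum_congr rfl
    intro s' _
    rw [tsum_mul_left, Complex.re_ofReal_mul]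
  -- bound for the main term
  have hW : ∀ p : Idx N, (∑ s' ∈ S', (w s' : ℂ) * ch p (-s')) = ∑ s ∈ S'.image (fun x => -x), ((w (-s) : ℝ) : ℂ) * ch p s := by
    intro p
    rw [Finset.sum_image (fun a _ b _ h => neg_injective h)]
    apply Finset.sum_congr rfl
    intro s _
    rw [neg_neg]
  have hW2 : ∑ s ∈ S'.image (fun x => -x), (w (-s)) ^ 2 = ∑ s' ∈ S', w s' ^ 2 := by
    rw [Finset.sum_image (fun a _ b _ h => neg_injective h)]
    apply Finset.sum_congr rfl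
    intro s _
    rw [neg_neg]
  obtain ⟨hsv, hbv⟩ := hq1 η h0 h1 v
  obtain ⟨hsw, hbw⟩ := hq2 η h0 h1 (fun s => w (-s))
  rw [hW2] at hbw
  set F : Idx N → ℝ := fun p => Real.sqrt (q p η) * ‖∑ s ∈ S, (v s : ℂ) * ch p s‖ with hF
  set G : Idx N → ℝ := fun p => Real.sqrt (q p η) * ‖∑ s' ∈ S', (w s' : ℂ) * ch p (-s')‖ with hG
  have hF2 : ∀ p, F p ^ 2 = q p η * ‖∑ s ∈ S, (v s : ℂ) * ch p s‖ ^ 2 := by
    intro p
    rw [hF]
    simp only
    rw [mul_pow, Real.sq_sqrt (q_pos p η).le]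
  have hG2 : ∀ p, G p ^ 2 = q p η * ‖∑ s ∈ S'.image (fun x => -x), ((w (-s) : ℝ) : ℂ) * ch p s‖ ^ 2 := by
    intro p
    rw [hG]
    simp only
    rw [mul_pow, Real.sq_sqrt (q_pos p η).le, hW]
  have hF0 : ∀ p, 0 ≤ F p := fun p => mul_nonneg (Real.sqrt_nonneg _) (norm_nonneg _)
  have hG0 : ∀ p, 0 ≤ G p := fun p => mul_nonneg (Real.sqrt_nonneg _) (norm_nonneg _)
  have hFs : Summable fun p => F p ^ 2 := by simpa only [hF2] using hsv
  have hGs : Summable fun p => G p ^ 2 := by simpa only [hG2] using hsw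
  have hFG := tsum_mul_le_sqrt hF0 hG0 hFs hGs
  have hFGs := summable_mul_of_sq hF0 hG0 hFs hGs
  have hterm : ∀ p : Idx N, ‖(tr (P p) * (p:ℂ)^(-((i:ℂ)/2))) * ((q p η : ℂ) *
        ((∑ s ∈ S, (v s : ℂ) * ch p s) * (∑ s' ∈ S', (w s' : ℂ) * ch p (-s'))))‖ ≤ b * (F p * G p) := by
    intro p
    have hc : ‖tr (P p) * (p:ℂ)^(-((i:ℂ)/2))‖ ≤ b := by
      rw [norm_mul, norm_half]
      calc ‖tr (P p)‖ * (p:ℝ)^(-((i:ℝ)/2)) ≤ (b * (p:ℝ) ^ ((i:ℝ)/2)) * (p:ℝ)^(-((i:ℝ)/2)) := by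
            gcongr
            exact norm_tr H p
        _ = b := by
            rw [mul_assoc, ← Real.rpow_add (idx_pos p)]
            simp
    rw [norm_mul (tr (P p) * (p:ℂ)^(-((i:ℂ)/2))), norm_mul ((q p η : ℂ)), norm_mul (∑ s ∈ S, (v s : ℂ) * ch p s), Complex.norm_real, Real.norm_of_nonneg (q_pos p η).le]
    have hq : q p η = Real.sqrt (q p η) * Real.sqrt (q p η) := (Real.mul_self_sqrt (q_pos p η).le).symm
    calc ‖tr (P p) * (p:ℂ)^(-((i:ℂ)/2))‖ * (q p η * (‖∑ s ∈ S, (v s : ℂ) * ch p s‖ * ‖∑ s' ∈ S', (w s' : ℂ) * ch p (-s')‖))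
        ≤ b * (q p η * (‖∑ s ∈ S, (v s : ℂ) * ch p s‖ * ‖∑ s' ∈ S', (w s' : ℂ) * ch p (-s')‖)) := by
          apply mul_le_mul_of_nonneg_right hc
          have := (q_pos p η).le
          positivity
      _ = b * (F p * G p) := by
          rw [hF, hG]
          simp only
          conv_lhs => rw [hq]
          ring
  have hmb : |∑ s ∈ S, ∑ s' ∈ S', v s * w s' * y (s - s')| ≤ b * (Real.log (1/η) + (C1 + C2)) * (nv * nw) := by
    rw [hmain]
    refine (Complex.abs_re_le_norm _).trans ?_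
    refine (tsum_of_norm_bounded (hFGs.mul_left (b:ℝ)).hasSum hterm).trans ?_
    rw [tsum_mul_left, mul_assoc]
    apply mul_le_mul_of_nonneg_left _ (Nat.cast_nonneg _)
    refine hFG.trans ?_
    simp_rw [hF2, hG2]
    have k1 : Real.sqrt (∑' p : Idx N, q p η * ‖∑ s ∈ S, (v s : ℂ) * ch p s‖ ^ 2) ≤ Real.sqrt (Real.log (1/η) + (C1 + C2)) * nv := by
      rw [hnv, ← Real.sqrt_mul (by linarith)]
      apply Real.sqrt_le_sqrt
      refine hbv.trans ?_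
      apply mul_le_mul_of_nonneg_right _ (Finset.sum_nonneg fun _ _ => sq_nonneg _)
      linarith
    have k2 : Real.sqrt (∑' p : Idx N, q p η * ‖∑ s ∈ S'.image (fun x => -x), ((w (-s) : ℝ) : ℂ) * ch p s‖ ^ 2) ≤ Real.sqrt (Real.log (1/η) + (C1 + C2)) * nw := by
      rw [hnw, ← Real.sqrt_mul (by linarith)]
      apply Real.sqrt_le_sqrt
      refine hbw.trans ?_
      apply mul_le_mul_of_nonneg_right _ (Finset.sum_nonneg fun _ _ => sq_nonneg _)
      linarith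
    refine (mul_le_mul k1 k2 (Real.sqrt_nonneg _) (by positivity)).trans ?_
    have k3 : Real.sqrt (Real.log (1/η) + (C1 + C2)) * Real.sqrt (Real.log (1/η) + (C1 + C2)) = Real.log (1/η) + (C1 + C2) :=
      Real.mul_self_sqrt (by linarith)
    calc Real.sqrt (Real.log (1/η) + (C1 + C2)) * nv * (Real.sqrt (Real.log (1/η) + (C1 + C2)) * nw)
        = (Real.sqrt (Real.log (1/η) + (C1 + C2)) * Real.sqrt (Real.log (1/η) + (C1 + C2))) * (nv * nw) := by ring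
      _ ≤ _ := by rw [k3]
  -- error term
  have herr : |∑ s ∈ S, ∑ s' ∈ S', v s * w s' * (x (s - s') - y (s - s'))| ≤ S.card * S'.card * B0 * (nv * nw) := by
    refine (Finset.abs_sum_le_sum_abs _ _).trans ?_
    have e1 : ∀ s ∈ S, |∑ s' ∈ S', v s * w s' * (x (s - s') - y (s - s'))| ≤ S'.card * (B0 * (nv * nw)) := by
      intro s hs
      refine (Finset.abs_sum_le_sum_abs _ _).trans ?_
      rw [← nsmul_eq_mul]
      apply Finset.sum_le_card_nsmul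
      intro s' hs'
      rw [abs_mul, abs_mul]
      have a1 : |v s| ≤ nv := by
        rw [hnv]
        apply Real.abs_le_sqrt
        exact Finset.single_le_sum (fun t _ => sq_nonneg (v t)) hs
      have a2 : |w s'| ≤ nw := by
        rw [hnw]
        apply Real.abs_le_sqrt
        exact Finset.single_le_sum (fun t _ => sq_nonneg (w t)) hs'
      have a3 := hxy (s - s')
      calc |v s| * |w s'| * |x (s - s') - y (s - s')| ≤ nv * nw * B0 := by gcongr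
        _ = B0 * (nv * nw) := by ring
    refine (Finset.sum_le_card_nsmul _ _ _ e1).trans ?_
    rw [nsmul_eq_mul]
    apply le_of_eq
    ring
  have hsplit : ∑ s ∈ S, ∑ s' ∈ S', v s * w s' * x (s - s') =
      ∑ s ∈ S, ∑ s' ∈ S', v s * w s' * y (s - s') + ∑ s ∈ S, ∑ s' ∈ S', v s * w s' * (x (s - s') - y (s - s')) := by
    rw [← Finset.sum_add_distrib]
    apply Finset.sum_congr rfl
    intro s _
    rw [← Finset.sum_add_distrib]
    apply Finset.sum_congr rfl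
    intro s' _
    ring
  calc |∑ s ∈ S, ∑ s' ∈ S', v s * w s' * x (s - s')|
      ≤ b * (Real.log (1/η) + (C1 + C2)) * (nv * nw) + S.card * S'.card * B0 * (nv * nw) := by
        rw [hsplit]
        exact (abs_add_le _ _).trans (add_le_add hmb herr)
    _ = (b * Real.log (1/η) + (b * (C1 + C2) + S.card * S'.card * B0)) * (nv * nw) := by ring

end Pool.Agent.H89.EdgeBasic
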