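import Mathlib
import Pool.Agent.H89.EdgeBasic

open Complex Filter Topology

namespace Pool.Agent.H89.EdgeOrd

open Pool.Agent.H89.EdgeBasic

/-- Følner-type sets in the additive group of the reals. -/
lemma folner (Z : Finset ℝ) (ε : ℝ) (hε : 0 < ε) : ∃ B B' : Finset ℝ, B.Nonempty ∧
    (∀ z ∈ Z, ∀ s ∈ B, s + z ∈ B') ∧ (B'.card : ℝ) ≤ (1 + ε) * B.card := by
  classical
  set Bk : ℕ → Finset ℝ := fun k =>
    (Fintype.piFinset (fun _ : Z => Finset.range (k+1))).image (fun m => ∑ z, (m z : ℝ) * z.1) with hBk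
  have hne : ∀ k, (Bk k).Nonempty := by
    intro k
    apply Finset.Nonempty.image
    rw [Fintype.piFinset_nonempty]
    intro _
    simp
  have hcard : ∀ k, (Bk k).card ≤ (k+1) ^ Z.card := by
    intro k
    refine Finset.card_image_le.trans ?_
    rw [Fintype.card_piFinset]
    simp
  have hstep : ∀ k, ∀ z ∈ Z, ∀ s ∈ Bk k, s + z ∈ Bk (k+1) := by
    intro k z hz s hs
    rw [hBk] at hs ⊢
    simp only [Finset.mem_image, Fintype.mem_piFinset, Finset.mem_range] at hs ⊢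
    obtain ⟨m, hm, rfl⟩ := hs
    refine ⟨Function.update m ⟨z, hz⟩ (m ⟨z, hz⟩ + 1), ?_, ?_⟩
    · intro a
      by_cases h : a = ⟨z, hz⟩
      · subst h
        simp only [Function.update_self]
        have := hm ⟨z, hz⟩
        omega
      · simp only [Function.update_of_ne h]
        have := hm a
        omega
    · rw [← Finset.add_sum_erase Finset.univ _ (Finset.mem_univ (⟨z, hz⟩ : Z)),
        ← Finset.add_sum_erase Finset.univ (fun a : Z => (m a : ℝ) * a.1) (Finset.mem_univ (⟨z, hz⟩ : Z))]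
      simp only [Function.update_self]
      have : ∑ x ∈ Finset.univ.erase (⟨z, hz⟩ : Z), ((Function.update m ⟨z, hz⟩ (m ⟨z, hz⟩ + 1) x : ℕ) : ℝ) * x.1
          = ∑ x ∈ Finset.univ.erase (⟨z, hz⟩ : Z), (m x : ℝ) * x.1 := by
        apply Finset.sum_congr rfl
        intro x hx
        rw [Function.update_of_ne (Finset.ne_of_mem_erase hx)]
      rw [this]
      push_cast
      ring
  by_contra hcon
  push Not at hcon
  have hgrow : ∀ k, (1 + ε) * ((Bk k).card : ℝ) ≤ ((Bk (k+1)).card : ℝ) := by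
    intro k
    exact (hcon (Bk k) (Bk (k+1)) (hne k) (hstep k)).le
  have hexp : ∀ k, (1 + ε) ^ k ≤ ((Bk k).card : ℝ) := by
    intro k
    induction k with
    | zero =>
      simp only [pow_zero]
      exact_mod_cast (hne 0).card_pos
    | succ k ih =>
      rw [pow_succ]
      calc (1 + ε) ^ k * (1 + ε) = (1 + ε) * (1 + ε) ^ k := by ring
        _ ≤ (1 + ε) * ((Bk k).card : ℝ) := by gcongr
        _ ≤ _ := hgrow k
  -- polynomial growth contradiction
  have hpoly : ∀ k : ℕ, (1 + ε) ^ k ≤ ((k:ℝ) + 1) ^ Z.card := by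
    intro k
    refine (hexp k).trans ?_
    exact_mod_cast hcard k
  have hlim : Tendsto (fun n : ℕ => ((n:ℝ) ^ Z.card) / (1 + ε) ^ n) atTop (𝓝 0) := by
    exact tendsto_pow_const_div_const_pow_of_one_lt Z.card (by linarith : 1 < 1 + ε)
  have hlim2 := (tendsto_add_atTop_iff_nat 1).mpr hlim
  have hev := hlim2.eventually (gt_mem_nhds (show (0:ℝ) < 1 / (1 + ε) by positivity))
  obtain ⟨k, hk⟩ := hev.exists
  have h1 := hpoly k
  rw [div_lt_div_iff₀ (by positivity) (by positivity), one_mul, pow_succ] at hk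
  push_cast at hk
  have : ((k:ℝ) + 1) ^ Z.card < (1 + ε) ^ k := by
    have h2 : (0:ℝ) < 1 + ε := by linarith
    exact lt_of_mul_lt_mul_right hk h2.le
  linarith

lemma tendsto_shift (z0 : ℂ) : Tendsto (fun η : ℝ => z0 + (η:ℂ)) (𝓝[>] 0) (𝓝[≠] z0) := by
  apply tendsto_nhdsWithin_of_tendsto_nhds_of_eventually_within
  · have : ContinuousAt (fun η : ℝ => (z0 + (η:ℂ))) 0 := by fun_prop
    have h2 := this.tendsto
    simp at h2
    exact h2.mono_left nhdsWithin_le_nhds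
  · filter_upwards [self_mem_nhdsWithin] with η hη
    simp only [Set.mem_compl_iff, Set.mem_singleton_iff, Set.mem_Ioi] at hη ⊢
    intro h
    have h3 : (η:ℂ) = 0 := by linear_combination h
    exact hη.ne' (by exact_mod_cast h3)

lemma tendsto_log_inv : Tendsto (fun η : ℝ => Real.log (1/η)) (𝓝[>] 0) atTop := by
  have h1 : Tendsto (fun η : ℝ => 1/η) (𝓝[>] 0) atTop := by
    simpa using tendsto_inv_nhdsGT_zero (𝕜 := ℝ)
  exact Real.tendsto_log_atTop.comp h1

/-- radial behaviour at a point where the function is meromorphic of finite order -/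
lemma radial {f : ℂ → ℂ} {z0 : ℂ} (hf : MeromorphicAt f z0) (hne : meromorphicOrderAt f z0 ≠ ⊤) :
    Tendsto (fun η : ℝ => Real.log ‖f (z0 + η)‖ / Real.log (1/η)) (𝓝[>] 0)
      (𝓝 (-((meromorphicOrderAt f z0).untop₀ : ℝ))) := by
  obtain ⟨g, hg, hg0, hev⟩ := (meromorphicOrderAt_ne_top_iff hf).mp hne
  set n := (meromorphicOrderAt f z0).untop₀ with hn
  have h1 := (tendsto_shift z0).eventually hev
  have hgc : Tendsto (fun η : ℝ => Real.log ‖g (z0 + η)‖) (𝓝[>] 0) (𝓝 (Real.log ‖g z0‖)) := by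
    have h2 : Tendsto (fun η : ℝ => g (z0 + η)) (𝓝[>] 0) (𝓝 (g z0)) :=
      hg.continuousAt.tendsto.comp ((tendsto_shift z0).mono_right nhdsWithin_le_nhds)
    exact h2.norm.log (norm_ne_zero_iff.mpr hg0)
  have hg_ne : ∀ᶠ η : ℝ in 𝓝[>] 0, g (z0 + η) ≠ 0 := by
    have h2 : Tendsto (fun η : ℝ => g (z0 + η)) (𝓝[>] 0) (𝓝 (g z0)) :=
      hg.continuousAt.tendsto.comp ((tendsto_shift z0).mono_right nhdsWithin_le_nhds)
    exact h2.eventually_ne hg0
  have hlim : Tendsto (fun η : ℝ => -(n:ℝ) + Real.log ‖g (z0 + η)‖ / Real.log (1/η)) (𝓝[>] 0)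
      (𝓝 (-(n:ℝ) + 0)) := by
    apply Tendsto.add tendsto_const_nhds
    exact hgc.div_atTop tendsto_log_inv
  rw [add_zero] at hlim
  refine hlim.congr' ?_
  have hlt : ∀ᶠ η : ℝ in 𝓝[>] 0, η < 1 := by
    have : ∀ᶠ η : ℝ in 𝓝 0, η < 1 := gt_mem_nhds one_pos
    exact nhdsWithin_le_nhds this
  filter_upwards [h1, self_mem_nhdsWithin, hg_ne, hlt] with η h2 h3 h4 h5
  have hη : 0 < η := h3
  rw [h2]
  have hlog : Real.log (1/η) ≠ 0 := by
    apply ne_of_gt
    apply Real.log_pos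
    rw [lt_div_iff₀ hη]
    linarith
  have e1 : ‖(z0 + (η:ℂ) - z0) ^ n • g (z0 + η)‖ = η ^ n * ‖g (z0 + η)‖ := by
    rw [norm_smul, add_sub_cancel_left, norm_zpow, Complex.norm_real, Real.norm_of_nonneg hη.le]
  rw [e1, Real.log_mul (zpow_ne_zero _ hη.ne') (norm_ne_zero_iff.mpr h4), Real.log_zpow]
  have e2 : Real.log (1/η) = - Real.log η := by rw [one_div, Real.log_inv]
  rw [e2] at hlog ⊢
  have hlog' : Real.log η ≠ 0 := by simpa using hlog
  field_simp
  ring


/-- the convolution operator with the orders has norm at most `b` (real vectors) -/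
lemma star {N i b : ℕ} {P : ℕ → Polynomial ℂ} (H : Hyp N i b P) (n : ℝ → ℝ)
    (hn : ∀ θ : ℝ, Tendsto (fun η : ℝ =>
      Real.log ‖∏' p : Idx N, ((P p).eval ((p:ℂ)^(-(1 + (i:ℂ)/2 + (η:ℂ) + ((θ : ℝ):ℂ) * I))))⁻¹‖
        / Real.log (1/η)) (𝓝[>] 0) (𝓝 (-(n θ))))
    (S S' : Finset ℝ) (v w : ℝ → ℝ) :
    |∑ s ∈ S, ∑ s' ∈ S', v s * w s' * n (s - s')| ≤
      b * (Real.sqrt (∑ s ∈ S, v s ^ 2) * Real.sqrt (∑ s' ∈ S', w s' ^ 2)) := by
  obtain ⟨C, hC⟩ := bilinear H S S'
  set D := Real.sqrt (∑ s ∈ S, v s ^ 2) * Real.sqrt (∑ s' ∈ S', w s' ^ 2) with hD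
  have h1 : Tendsto (fun η : ℝ => |∑ s ∈ S, ∑ s' ∈ S', v s * w s' *
      (Real.log ‖∏' p : Idx N, ((P p).eval ((p:ℂ)^(-(1 + (i:ℂ)/2 + (η:ℂ) + ((s - s' : ℝ):ℂ) * I))))⁻¹‖
        / Real.log (1/η))|) (𝓝[>] 0) (𝓝 |∑ s ∈ S, ∑ s' ∈ S', v s * w s' * (-(n (s - s')))|) := by
    apply Tendsto.abs
    apply tendsto_finsetSum
    intro s _
    apply tendsto_finsetSum
    intro s' _
    exact (hn (s - s')).const_mul _
  have h2 : Tendsto (fun η : ℝ => ((b:ℝ) + C / Real.log (1/η)) * D) (𝓝[>] 0) (𝓝 (((b:ℝ) + 0) * D)) := by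
    apply Tendsto.mul_const
    apply Tendsto.add tendsto_const_nhds
    exact tendsto_const_nhds.div_atTop tendsto_log_inv
  have hlt : ∀ᶠ η : ℝ in 𝓝[>] 0, η < 1 := by
    have : ∀ᶠ η : ℝ in 𝓝 0, η < 1 := gt_mem_nhds one_pos
    exact nhdsWithin_le_nhds this
  have h3 := le_of_tendsto_of_tendsto h1 h2 (by
    filter_upwards [self_mem_nhdsWithin, hlt] with η h3 h4
    have hη : 0 < η := h3
    have hlog : 0 < Real.log (1/η) := by
      apply Real.log_pos
      rw [lt_div_iff₀ hη]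
      linarith
    have h5 := hC η hη h4.le v w
    have e : ∑ s ∈ S, ∑ s' ∈ S', v s * w s' *
      (Real.log ‖∏' p : Idx N, ((P p).eval ((p:ℂ)^(-(1 + (i:ℂ)/2 + (η:ℂ) + ((s - s' : ℝ):ℂ) * I))))⁻¹‖
        / Real.log (1/η)) = (∑ s ∈ S, ∑ s' ∈ S', v s * w s' *
      Real.log ‖∏' p : Idx N, ((P p).eval ((p:ℂ)^(-(1 + (i:ℂ)/2 + (η:ℂ) + ((s - s' : ℝ):ℂ) * I))))⁻¹‖)
        / Real.log (1/η) := by
      rw [Finset.sum_div]
      apply Finset.sum_congr rfl
      intro s _
      rw [Finset.sum_div]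
      apply Finset.sum_congr rfl
      intro s' _
      ring
    rw [e, abs_div, abs_of_pos hlog, div_le_iff₀ hlog]
    have e3 : ((b:ℝ) + C / Real.log (1/η)) * D * Real.log (1/η) = (b * Real.log (1/η) + C) * D := by
      rw [add_mul, add_mul, add_mul, div_mul_eq_mul_div, div_mul_cancel₀ _ hlog.ne']
      ring
    rw [e3]
    exact h5)
  rw [add_zero] at h3
  have e2 : ∑ s ∈ S, ∑ s' ∈ S', v s * w s' * (-(n (s - s'))) = -∑ s ∈ S, ∑ s' ∈ S', v s * w s' * n (s - s') := by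
    rw [← Finset.sum_neg_distrib]
    apply Finset.sum_congr rfl
    intro s _
    rw [← Finset.sum_neg_distrib]
    apply Finset.sum_congr rfl
    intro s' _
    ring
  rwa [e2, abs_neg] at h3

/-- square-sum bound from the operator bound -/
lemma sq_bound {b : ℕ} (n : ℝ → ℝ)
    (hstar : ∀ (S S' : Finset ℝ) (v w : ℝ → ℝ), |∑ s ∈ S, ∑ s' ∈ S', v s * w s' * n (s - s')| ≤
      b * (Real.sqrt (∑ s ∈ S, v s ^ 2) * Real.sqrt (∑ s' ∈ S', w s' ^ 2)))
    (T : Finset ℝ) : ∑ t ∈ T, n t ^ 2 ≤ (b:ℝ) ^ 2 := by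
  have h := hstar T {0} n (fun _ => 1)
  simp only [Finset.sum_singleton, sub_zero, mul_one, one_pow, Real.sqrt_one] at h
  have e : ∑ x ∈ T, n x * n x = ∑ t ∈ T, n t ^ 2 := Finset.sum_congr rfl (fun x _ => by ring)
  rw [e, abs_of_nonneg (Finset.sum_nonneg fun _ _ => sq_nonneg _)] at h
  set A := ∑ t ∈ T, n t ^ 2 with hA
  have hA0 : 0 ≤ A := Finset.sum_nonneg fun _ _ => sq_nonneg _
  have h2 : Real.sqrt A * Real.sqrt A = A := Real.mul_self_sqrt hA0
  have h3 : Real.sqrt A ≤ b := by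
    by_contra hcon
    push Not at hcon
    have h4 : 0 < Real.sqrt A := lt_of_le_of_lt (Nat.cast_nonneg _) hcon
    nlinarith
  calc A = Real.sqrt A * Real.sqrt A := h2.symm
    _ ≤ b * b := mul_le_mul h3 h3 (Real.sqrt_nonneg _) (Nat.cast_nonneg _)
    _ = (b:ℝ)^2 := by ring

/-- sup-norm bound from the operator bound -/
lemma sup_bound {b : ℕ} (n : ℝ → ℝ)
    (hstar : ∀ (S S' : Finset ℝ) (v w : ℝ → ℝ), |∑ s ∈ S, ∑ s' ∈ S', v s * w s' * n (s - s')| ≤
      b * (Real.sqrt (∑ s ∈ S, v s ^ 2) * Real.sqrt (∑ s' ∈ S', w s' ^ 2)))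
    (Z : Finset ℝ) (hZ : ∀ t, t ∉ Z → n t = 0) (u φ : ℝ) :
    ∑ t ∈ Z, n t * Real.cos (u * t + φ) ≤ b := by
  classical
  -- it suffices to prove the bound with a factor `1 + ε`
  have key : ∀ ε : ℝ, 0 < ε → ∑ t ∈ Z, n t * Real.cos (u * t + φ) ≤ b * Real.sqrt (1 + ε) := by
    intro ε hε
    obtain ⟨B, B', hne, hadd, hcard⟩ := folner Z ε hε
    have hBpos : (0:ℝ) < B.card := by exact_mod_cast hne.card_pos
    have h1 := hstar B' B (fun s => Real.cos (u * s + φ)) (fun s => Real.cos (u * s))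
    have h2 := hstar B' B (fun s => Real.sin (u * s + φ)) (fun s => Real.sin (u * s))
    -- the double sum
    have hsum : ∑ s ∈ B', ∑ s' ∈ B, (Real.cos (u * s + φ) * Real.cos (u * s') * n (s - s')
        + Real.sin (u * s + φ) * Real.sin (u * s') * n (s - s')) = B.card * ∑ t ∈ Z, n t * Real.cos (u * t + φ) := by
      rw [Finset.sum_comm, ← nsmul_eq_mul, ← Finset.sum_const]
      apply Finset.sum_congr rfl
      intro s' hs'
      have e1 : ∀ s, Real.cos (u * s + φ) * Real.cos (u * s') * n (s - s')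
        + Real.sin (u * s + φ) * Real.sin (u * s') * n (s - s') = n (s - s') * Real.cos (u * (s - s') + φ) := by
        intro s
        have : u * (s - s') + φ = (u * s + φ) - u * s' := by ring
        rw [this, Real.cos_sub]
        ring
      simp_rw [e1]
      have e2 : ∑ s ∈ Z.image (fun z => s' + z), n (s - s') * Real.cos (u * (s - s') + φ) = ∑ t ∈ Z, n t * Real.cos (u * t + φ) := by
        rw [Finset.sum_image (fun a _ b _ h => by simpa using h)]
        apply Finset.sum_congr rfl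
        intro z _
        rw [add_sub_cancel_left]
      rw [← e2]
      symm
      apply Finset.sum_subset
      · intro s hs
        rw [Finset.mem_image] at hs
        obtain ⟨z, hz, rfl⟩ := hs
        exact hadd z hz s' hs'
      · intro s _ hs
        have : s - s' ∉ Z := by
          intro hmem
          apply hs
          rw [Finset.mem_image]
          exact ⟨s - s', hmem, by ring⟩
        rw [hZ _ this, zero_mul]
    simp_rw [Finset.sum_add_distrib] at hsum
    set c1 := ∑ s ∈ B', Real.cos (u * s + φ) ^ 2 with hc1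
    set c2 := ∑ s ∈ B', Real.sin (u * s + φ) ^ 2 with hc2
    set d1 := ∑ s ∈ B, Real.cos (u * s) ^ 2 with hd1
    set d2 := ∑ s ∈ B, Real.sin (u * s) ^ 2 with hd2
    have hc1n : 0 ≤ c1 := Finset.sum_nonneg fun _ _ => sq_nonneg _
    have hc2n : 0 ≤ c2 := Finset.sum_nonneg fun _ _ => sq_nonneg _
    have hd1n : 0 ≤ d1 := Finset.sum_nonneg fun _ _ => sq_nonneg _
    have hd2n : 0 ≤ d2 := Finset.sum_nonneg fun _ _ => sq_nonneg _
    have hc : c1 + c2 = B'.card := by
      rw [hc1, hc2, ← Finset.sum_add_distrib]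
      simp [Real.cos_sq_add_sin_sq]
    have hd : d1 + d2 = B.card := by
      rw [hd1, hd2, ← Finset.sum_add_distrib]
      simp [Real.cos_sq_add_sin_sq]
    -- Cauchy-Schwarz for the two pairs
    have hcs : Real.sqrt c1 * Real.sqrt d1 + Real.sqrt c2 * Real.sqrt d2 ≤ Real.sqrt (c1 + c2) * Real.sqrt (d1 + d2) := by
      rw [← Real.sqrt_mul (show 0 ≤ c1 + c2 by linarith) (d1 + d2)]
      apply Real.le_sqrt_of_sq_le
      have a1 := Real.mul_self_sqrt hc1n
      have a2 := Real.mul_self_sqrt hc2n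
      have a3 := Real.mul_self_sqrt hd1n
      have a4 := Real.mul_self_sqrt hd2n
      have a5 := sq_nonneg (Real.sqrt c1 * Real.sqrt d2 - Real.sqrt c2 * Real.sqrt d1)
      calc (Real.sqrt c1 * Real.sqrt d1 + Real.sqrt c2 * Real.sqrt d2) ^ 2
          ≤ (Real.sqrt c1 * Real.sqrt d1 + Real.sqrt c2 * Real.sqrt d2) ^ 2 + (Real.sqrt c1 * Real.sqrt d2 - Real.sqrt c2 * Real.sqrt d1) ^ 2 := by linarith
        _ = (Real.sqrt c1 * Real.sqrt c1 + Real.sqrt c2 * Real.sqrt c2) * (Real.sqrt d1 * Real.sqrt d1 + Real.sqrt d2 * Real.sqrt d2) := by ring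
        _ = _ := by rw [a1, a2, a3, a4]
    have h3 : B.card * ∑ t ∈ Z, n t * Real.cos (u * t + φ) ≤ b * (Real.sqrt (B'.card) * Real.sqrt (B.card)) := by
      rw [← hsum]
      refine (add_le_add ((le_abs_self _).trans h1) ((le_abs_self _).trans h2)).trans ?_
      rw [← mul_add]
      apply mul_le_mul_of_nonneg_left _ (Nat.cast_nonneg _)
      rw [← hc, ← hd]
      exact hcs
    have h4 : Real.sqrt (B'.card) ≤ Real.sqrt (1 + ε) * Real.sqrt (B.card) := by
      rw [← Real.sqrt_mul (by linarith)]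
      exact Real.sqrt_le_sqrt hcard
    have h5 : Real.sqrt (B.card) * Real.sqrt (B.card) = B.card := Real.mul_self_sqrt hBpos.le
    have h6 : B.card * ∑ t ∈ Z, n t * Real.cos (u * t + φ) ≤ B.card * (b * Real.sqrt (1 + ε)) := by
      refine h3.trans ?_
      calc b * (Real.sqrt (B'.card) * Real.sqrt (B.card)) ≤ b * ((Real.sqrt (1 + ε) * Real.sqrt (B.card)) * Real.sqrt (B.card)) := by
            gcongr
        _ = b * Real.sqrt (1 + ε) * (Real.sqrt (B.card) * Real.sqrt (B.card)) := by ring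
        _ = B.card * (b * Real.sqrt (1 + ε)) := by rw [h5]; ring
    exact le_of_mul_le_mul_left h6 hBpos
  have hlim : Tendsto (fun ε : ℝ => (b:ℝ) * Real.sqrt (1 + ε)) (𝓝[>] 0) (𝓝 ((b:ℝ) * Real.sqrt (1 + 0))) := by
    have : ContinuousAt (fun ε : ℝ => (b:ℝ) * Real.sqrt (1 + ε)) 0 := by fun_prop
    exact this.tendsto.mono_left nhdsWithin_le_nhds
  rw [add_zero, Real.sqrt_one, mul_one] at hlim
  refine ge_of_tendsto hlim ?_
  filter_upwards [self_mem_nhdsWithin] with ε hε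
  exact key ε hε

end Pool.Agent.H89.EdgeOrd
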