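import Mathlib

open Finset

namespace Pool.Agent.H89.Disc

/-- sums of periodic functions over `D0` periods -/
lemma sum_periods {M : ℕ} [NeZero M] (f : ZMod M → ℕ) (D0 : ℕ) (x : ZMod M) :
    ∑ n ∈ Finset.range (D0 * M), f (x + (n : ZMod M)) = D0 * ∑ w : ZMod M, f w := by
  have h1 : ∑ n ∈ Finset.range M, f (x + (n : ZMod M)) = ∑ w : ZMod M, f w := by
    rw [← Equiv.sum_comp (Equiv.addLeft x)]
    apply Finset.sum_bij (fun (n : ℕ) _ => (n : ZMod M))
    · intro n _
      exact Finset.mem_univ _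
    · intro n hn m hm h
      rw [Finset.mem_range] at hn hm
      have := congrArg ZMod.val h
      rwa [ZMod.val_natCast, ZMod.val_natCast, Nat.mod_eq_of_lt hn, Nat.mod_eq_of_lt hm] at this
    · intro w _
      exact ⟨w.val, Finset.mem_range.mpr (ZMod.val_lt w), by simp⟩
    · intro n _
      simp
  induction D0 with
  | zero => simp
  | succ k ih =>
    rw [Nat.succ_mul, Finset.sum_range_add, ih, Nat.succ_mul]
    congr 1
    rw [← h1]
    apply Finset.sum_congr rfl
    intro n _
    congr 2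
    push_cast
    simp

lemma sum_two_params {M : ℕ} [NeZero M] (f : ZMod M → ℕ) (D0 : ℕ) (hD0 : 0 < D0) (x : ZMod M) :
    ∑ j ∈ Finset.range D0, ∑ s : ZMod M, f (x + (j : ZMod M) + (D0 : ZMod M) * s) = D0 * ∑ w : ZMod M, f w := by
  rw [← sum_periods f D0 x]
  have h1 : ∀ j : ℕ, ∑ s : ZMod M, f (x + (j : ZMod M) + (D0 : ZMod M) * s) =
      ∑ s ∈ Finset.range M, f (x + (j : ZMod M) + (D0 : ZMod M) * (s : ZMod M)) := by
    intro j
    symm
    apply Finset.sum_bij (fun (n : ℕ) _ => (n : ZMod M))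
    · intro n _
      exact Finset.mem_univ _
    · intro n hn m hm h
      rw [Finset.mem_range] at hn hm
      have := congrArg ZMod.val h
      rwa [ZMod.val_natCast, ZMod.val_natCast, Nat.mod_eq_of_lt hn, Nat.mod_eq_of_lt hm] at this
    · intro w _
      exact ⟨w.val, Finset.mem_range.mpr (ZMod.val_lt w), by simp⟩
    · intro n _
      rfl
  simp_rw [h1]
  rw [← Finset.sum_product']
  apply Finset.sum_bij (fun (p : ℕ × ℕ) _ => p.1 + D0 * p.2)
  · rintro ⟨j, s⟩ hp
    simp only [Finset.mem_product, Finset.mem_range] at hp ⊢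
    calc j + D0 * s < D0 + D0 * s := by omega
      _ = D0 * (s + 1) := by ring
      _ ≤ D0 * M := Nat.mul_le_mul_left _ (by omega)
  · rintro ⟨j, s⟩ hp ⟨j', s'⟩ hp' h
    simp only [Finset.mem_product, Finset.mem_range] at hp hp' h
    have h2 : j = j' := by
      have := congrArg (· % D0) h
      simp only [Nat.add_mul_mod_self_left] at this
      rwa [Nat.mod_eq_of_lt hp.1, Nat.mod_eq_of_lt hp'.1] at this
    subst h2
    have h3 : D0 * s = D0 * s' := by omega
    rw [Nat.eq_of_mul_eq_mul_left hD0 h3]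
  · intro n hn
    rw [Finset.mem_range] at hn
    refine ⟨(n % D0, n / D0), ?_, ?_⟩
    · simp only [Finset.mem_product, Finset.mem_range]
      exact ⟨Nat.mod_lt _ hD0, Nat.div_lt_of_lt_mul hn⟩
    · simp only
      exact Nat.mod_add_div n D0
  · rintro ⟨j, s⟩ _
    simp only
    congr 1
    push_cast
    ring

/-- absolute value of an element of `ZMod M` -/
def za {M : ℕ} (w : ZMod M) : ℕ := w.valMinAbs.natAbs

lemma za_intCast_le {M : ℕ} [NeZero M] (v : ℤ) : za (v : ZMod M) ≤ v.natAbs := by
  unfold za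
  exact ZMod.natAbs_min_of_le_div_two M _ _ (by simp) (ZMod.natAbs_valMinAbs_le _)

/-- number of solutions in a window: upper bound -/
lemma count_upper {M : ℕ} [NeZero M] (D0 : ℕ) (hD0 : 0 < D0) (x : ZMod M) (X : ℕ) :
    (univ.filter (fun s : ZMod M => za (x + (D0 : ZMod M) * s) ≤ X)).card ≤ 2 * X + D0 := by
  classical
  set J : Finset (ZMod M) := (Finset.Icc (-(X:ℤ)) (X + D0 - 1)).image (fun v : ℤ => (v : ZMod M)) with hJ
  have hJcard : J.card ≤ 2 * X + D0 := by
    refine Finset.card_image_le.trans ?_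
    rw [Int.card_Icc]
    omega
  have h1 := sum_two_params (fun w => if w ∈ J then 1 else 0) D0 hD0 x
  have h2 : ∑ w : ZMod M, (if w ∈ J then 1 else 0) = J.card := by simp
  rw [h2] at h1
  have h3 : ∀ j ∈ Finset.range D0, (univ.filter (fun s : ZMod M => za (x + (D0 : ZMod M) * s) ≤ X)).card ≤
      ∑ s : ZMod M, (if x + (j : ZMod M) + (D0 : ZMod M) * s ∈ J then 1 else 0) := by
    intro j hj
    rw [Finset.mem_range] at hj
    rw [Finset.card_filter]
    apply Finset.sum_le_sum
    intro s _
    by_cases h : za (x + (D0 : ZMod M) * s) ≤ X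
    · rw [if_pos h, if_pos]
      rw [hJ, Finset.mem_image]
      refine ⟨(x + (D0 : ZMod M) * s).valMinAbs + j, ?_, ?_⟩
      · rw [Finset.mem_Icc]
        unfold za at h
        omega
      · push_cast
        ring
    · rw [if_neg h]
      exact Nat.zero_le _
  have h4 := Finset.sum_le_sum h3
  rw [h1, Finset.sum_const, Finset.card_range, smul_eq_mul] at h4
  exact (Nat.le_of_mul_le_mul_left h4 hD0).trans hJcard

/-- number of solutions in a window: lower bound -/
lemma count_lower {M : ℕ} [NeZero M] (D0 : ℕ) (hD0 : 0 < D0) (x : ZMod M) (X : ℕ) (hX : 2 * X + 1 ≤ M) :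
    2 * X + 2 ≤ (univ.filter (fun s : ZMod M => za (x + (D0 : ZMod M) * s) ≤ X)).card + D0 := by
  classical
  set J : Finset (ZMod M) := (Finset.Icc (-(X:ℤ) + D0 - 1) X).image (fun v : ℤ => (v : ZMod M)) with hJ
  have hJcard : 2 * X + 2 ≤ J.card + D0 := by
    rw [hJ, Finset.card_image_of_injOn]
    · rw [Int.card_Icc]
      omega
    · intro v hv w hw h
      simp only [Finset.coe_Icc, Set.mem_Icc] at hv hw
      simp only at h
      rw [ZMod.intCast_eq_intCast_iff_dvd_sub] at h
      have h5 : w - v = 0 := by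
        by_contra h6
        have h7 := Int.le_of_dvd (abs_pos.mpr h6) ((dvd_abs _ _).mpr h)
        have h8 : |w - v| ≤ 2 * X := by
          rw [abs_le]
          constructor <;> omega
        omega
      omega
  have h1 := sum_two_params (fun w => if w ∈ J then 1 else 0) D0 hD0 x
  have h2 : ∑ w : ZMod M, (if w ∈ J then 1 else 0) = J.card := by simp
  rw [h2] at h1
  have h3 : ∀ j ∈ Finset.range D0, ∑ s : ZMod M, (if x + (j : ZMod M) + (D0 : ZMod M) * s ∈ J then 1 else 0) ≤
      (univ.filter (fun s : ZMod M => za (x + (D0 : ZMod M) * s) ≤ X)).card := by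
    intro j hj
    rw [Finset.mem_range] at hj
    rw [Finset.card_filter]
    apply Finset.sum_le_sum
    intro s _
    by_cases h : x + (j : ZMod M) + (D0 : ZMod M) * s ∈ J
    · rw [if_pos h, if_pos]
      rw [hJ, Finset.mem_image] at h
      obtain ⟨v, hv, he⟩ := h
      rw [Finset.mem_Icc] at hv
      have h9 : x + (D0 : ZMod M) * s = ((v - j : ℤ) : ZMod M) := by
        push_cast
        linear_combination -he
      rw [h9]
      refine (za_intCast_le _).trans ?_
      omega
    · rw [if_neg h]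
      exact Nat.zero_le _
  have h4 := Finset.sum_le_sum h3
  rw [h1, Finset.sum_const, Finset.card_range, smul_eq_mul] at h4
  have h5 := Nat.le_of_mul_le_mul_left h4 hD0
  omega


lemma count_upper_unit {M : ℕ} [NeZero M] (u : (ZMod M)ˣ) (D0 : ℤ) (hD0 : D0 ≠ 0) (x : ZMod M) (X : ℕ) :
    (univ.filter (fun s : ZMod M => za (x + (u : ZMod M) * ((D0 : ZMod M) * s)) ≤ X)).card ≤ 2 * X + D0.natAbs := by
  classical
  -- reduce to a positive multiplier
  have key : ∀ (u : (ZMod M)ˣ) (n : ℕ), 0 < n →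
      (univ.filter (fun s : ZMod M => za (x + (u : ZMod M) * ((n : ZMod M) * s)) ≤ X)).card ≤ 2 * X + n := by
    intro u n hn
    refine le_trans (le_of_eq ?_) (count_upper n hn x X)
    apply Finset.card_bij (fun (s : ZMod M) _ => (u : ZMod M) * s)
    · intro s hs
      simp only [Finset.mem_filter, Finset.mem_univ, true_and] at hs ⊢
      have : x + (n : ZMod M) * ((u : ZMod M) * s) = x + (u : ZMod M) * ((n : ZMod M) * s) := by ring
      rw [this]
      exact hs
    · intro s _ t _ h
      exact (Units.isUnit u).mul_left_cancel h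
    · intro s hs
      simp only [Finset.mem_filter, Finset.mem_univ, true_and] at hs
      refine ⟨((u⁻¹ : (ZMod M)ˣ) : ZMod M) * s, ?_, ?_⟩
      · simp only [Finset.mem_filter, Finset.mem_univ, true_and]
        have : (u : ZMod M) * ((n : ZMod M) * (((u⁻¹ : (ZMod M)ˣ) : ZMod M) * s)) = (n : ZMod M) * s := by
          have h1 : (u : ZMod M) * ((u⁻¹ : (ZMod M)ˣ) : ZMod M) = 1 := Units.mul_inv u
          linear_combination (n : ZMod M) * s * h1
        rw [this]
        exact hs
      · rw [← mul_assoc, Units.mul_inv, one_mul]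
  rcases Int.natAbs_eq D0 with h | h
  · have h1 := key u D0.natAbs (Int.natAbs_pos.mpr hD0)
    have h2 : ((D0.natAbs : ℕ) : ZMod M) = (D0 : ZMod M) := by
      conv_rhs => rw [h]
      simp
    rwa [h2] at h1
  · have h1 := key (-u) D0.natAbs (Int.natAbs_pos.mpr hD0)
    have h2 : ((D0.natAbs : ℕ) : ZMod M) = -(D0 : ZMod M) := by
      conv_rhs => rw [h]
      simp
    rw [h2] at h1
    simpa using h1

lemma count_lower_unit {M : ℕ} [NeZero M] (u : (ZMod M)ˣ) (n : ℕ) (hn : 0 < n) (x : ZMod M) (X : ℕ)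
    (hX : 2 * X + 1 ≤ M) :
    2 * X + 2 ≤ (univ.filter (fun s : ZMod M => za (x + (u : ZMod M) * ((n : ZMod M) * s)) ≤ X)).card + n := by
  classical
  refine le_trans (count_lower n hn x X hX) (le_of_eq ?_)
  congr 1
  symm
  apply Finset.card_bij (fun (s : ZMod M) _ => (u : ZMod M) * s)
  · intro s hs
    simp only [Finset.mem_filter, Finset.mem_univ, true_and] at hs ⊢
    have : x + (n : ZMod M) * ((u : ZMod M) * s) = x + (u : ZMod M) * ((n : ZMod M) * s) := by ring
    rw [this]
    exact hs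
  · intro s _ t _ h
    exact (Units.isUnit u).mul_left_cancel h
  · intro s hs
    simp only [Finset.mem_filter, Finset.mem_univ, true_and] at hs
    refine ⟨((u⁻¹ : (ZMod M)ˣ) : ZMod M) * s, ?_, ?_⟩
    · simp only [Finset.mem_filter, Finset.mem_univ, true_and]
      have : (u : ZMod M) * ((n : ZMod M) * (((u⁻¹ : (ZMod M)ˣ) : ZMod M) * s)) = (n : ZMod M) * s := by
        have h1 : (u : ZMod M) * ((u⁻¹ : (ZMod M)ˣ) : ZMod M) = 1 := Units.mul_inv u
        linear_combination (n : ZMod M) * s * h1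
      rw [this]
      exact hs
    · rw [← mul_assoc, Units.mul_inv, one_mul]

/-- the last coordinate of the dual vector over `h`, as a function of the free parameter `y` -/
def zf {D M : ℕ} (u : (ZMod M)ˣ) (c : ZMod M) (h : Fin D → ℕ) (y : Fin D → ZMod M) : ZMod M :=
  (u : ZMod M) * (c + ∑ i, (h i : ZMod M) * y i)

lemma zf_shift {D M : ℕ} (u : (ZMod M)ˣ) (c : ZMod M) (h : Fin D → ℕ) (y t : Fin D → ZMod M) :
    zf u c h (y + t) = zf u c h y + (u : ZMod M) * ∑ i, (h i : ZMod M) * t i := by
  unfold zf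
  simp only [Pi.add_apply, mul_add, Finset.sum_add_distrib]
  ring

/-- one-variable upper bound -/
lemma F1_upper {D M : ℕ} [NeZero M] (u : (ZMod M)ˣ) (c : ZMod M) (h : Fin D → ℕ) (i : Fin D)
    (hi : 0 < h i) (X : ℕ) :
    (univ.filter (fun y : Fin D → ZMod M => za (zf u c h y) ≤ X)).card * M ≤ M ^ D * (2 * X + h i) := by
  classical
  have h1 : ∀ s : ZMod M, (univ.filter (fun y : Fin D → ZMod M => za (zf u c h y) ≤ X)).card =
      (univ.filter (fun y : Fin D → ZMod M => za (zf u c h y + (u : ZMod M) * ((h i : ZMod M) * s)) ≤ X)).card := by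
    intro s
    apply Finset.card_bij (fun (y : Fin D → ZMod M) _ => y + (-(Pi.single i s : Fin D → ZMod M)))
    · intro y hy
      simp only [Finset.mem_filter, Finset.mem_univ, true_and] at hy ⊢
      rw [zf_shift]
      have : ∑ k, (h k : ZMod M) * (-(Pi.single i s : Fin D → ZMod M)) k = -((h i : ZMod M) * s) := by
        rw [Finset.sum_eq_single i]
        · simp
        · intro b _ hb
          simp [Pi.single_eq_of_ne hb]
        · simp
      rw [this]
      have e : zf u c h y + ↑u * -((h i : ZMod M) * s) + ↑u * ((h i : ZMod M) * s) = zf u c h y := by ring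
      rw [e]
      exact hy
    · intro y _ y' _ he
      simpa using he
    · intro y hy
      simp only [Finset.mem_filter, Finset.mem_univ, true_and] at hy
      refine ⟨y + (Pi.single i s : Fin D → ZMod M), ?_, by simp⟩
      simp only [Finset.mem_filter, Finset.mem_univ, true_and]
      rw [zf_shift]
      have : ∑ k, (h k : ZMod M) * ((Pi.single i s : Fin D → ZMod M)) k = ((h i : ZMod M) * s) := by
        rw [Finset.sum_eq_single i]
        · simp
        · intro b _ hb
          simp [Pi.single_eq_of_ne hb]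
        · simp
      rw [this]
      exact hy
  have h2 : (univ.filter (fun y : Fin D → ZMod M => za (zf u c h y) ≤ X)).card * M =
      ∑ s : ZMod M, (univ.filter (fun y : Fin D → ZMod M => za (zf u c h y + (u : ZMod M) * ((h i : ZMod M) * s)) ≤ X)).card := by
    rw [← Finset.sum_congr rfl (fun s _ => h1 s), Finset.sum_const, Finset.card_univ, ZMod.card, smul_eq_mul, mul_comm]
  rw [h2]
  simp_rw [Finset.card_filter]
  rw [Finset.sum_comm]
  have h3 : ∀ y ∈ (univ : Finset (Fin D → ZMod M)), ∑ s : ZMod M, (if za (zf u c h y + (u : ZMod M) * ((h i : ZMod M) * s)) ≤ X then 1 else 0) ≤ 2 * X + h i := by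
    intro y _
    rw [← Finset.card_filter]
    have := count_upper_unit u (h i : ℤ) (by exact_mod_cast hi.ne') (zf u c h y) X
    simpa using this
  refine (Finset.sum_le_card_nsmul _ _ _ h3).trans (le_of_eq ?_)
  rw [smul_eq_mul]
  congr 1
  simp [ZMod.card]

/-- one-variable lower bound -/
lemma F1_lower {D M : ℕ} [NeZero M] (u : (ZMod M)ˣ) (c : ZMod M) (h : Fin D → ℕ) (i : Fin D)
    (hi : 0 < h i) (X : ℕ) (hX : 2 * X + 1 ≤ M) :
    M ^ D * (2 * X + 2) ≤ (univ.filter (fun y : Fin D → ZMod M => za (zf u c h y) ≤ X)).card * M + M ^ D * h i := by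
  classical
  have h1 : ∀ s : ZMod M, (univ.filter (fun y : Fin D → ZMod M => za (zf u c h y) ≤ X)).card =
      (univ.filter (fun y : Fin D → ZMod M => za (zf u c h y + (u : ZMod M) * ((h i : ZMod M) * s)) ≤ X)).card := by
    intro s
    apply Finset.card_bij (fun (y : Fin D → ZMod M) _ => y + (-(Pi.single i s : Fin D → ZMod M)))
    · intro y hy
      simp only [Finset.mem_filter, Finset.mem_univ, true_and] at hy ⊢
      rw [zf_shift]
      have : ∑ k, (h k : ZMod M) * (-(Pi.single i s : Fin D → ZMod M)) k = -((h i : ZMod M) * s) := by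
        rw [Finset.sum_eq_single i]
        · simp
        · intro b _ hb
          simp [Pi.single_eq_of_ne hb]
        · simp
      rw [this]
      have e : zf u c h y + ↑u * -((h i : ZMod M) * s) + ↑u * ((h i : ZMod M) * s) = zf u c h y := by ring
      rw [e]
      exact hy
    · intro y _ y' _ he
      simpa using he
    · intro y hy
      simp only [Finset.mem_filter, Finset.mem_univ, true_and] at hy
      refine ⟨y + (Pi.single i s : Fin D → ZMod M), ?_, by simp⟩
      simp only [Finset.mem_filter, Finset.mem_univ, true_and]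
      rw [zf_shift]
      have : ∑ k, (h k : ZMod M) * ((Pi.single i s : Fin D → ZMod M)) k = ((h i : ZMod M) * s) := by
        rw [Finset.sum_eq_single i]
        · simp
        · intro b _ hb
          simp [Pi.single_eq_of_ne hb]
        · simp
      rw [this]
      exact hy
  have h2 : (univ.filter (fun y : Fin D → ZMod M => za (zf u c h y) ≤ X)).card * M =
      ∑ s : ZMod M, (univ.filter (fun y : Fin D → ZMod M => za (zf u c h y + (u : ZMod M) * ((h i : ZMod M) * s)) ≤ X)).card := by
    rw [← Finset.sum_congr rfl (fun s _ => h1 s), Finset.sum_const, Finset.card_univ, ZMod.card, smul_eq_mul, mul_comm]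
  rw [h2]
  simp_rw [Finset.card_filter]
  rw [Finset.sum_comm]
  have h3 : ∀ y ∈ (univ : Finset (Fin D → ZMod M)), 2 * X + 2 - h i ≤ ∑ s : ZMod M, (if za (zf u c h y + (u : ZMod M) * ((h i : ZMod M) * s)) ≤ X then 1 else 0) := by
    intro y _
    rw [← Finset.card_filter]
    have := count_lower_unit u (h i) hi (zf u c h y) X hX
    omega
  have h4 := Finset.card_nsmul_le_sum _ _ _ h3
  rw [smul_eq_mul] at h4
  have h5 : (univ : Finset (Fin D → ZMod M)).card = M ^ D := by simp [ZMod.card]
  rw [h5] at h4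
  calc M ^ D * (2 * X + 2) ≤ M ^ D * ((2 * X + 2 - h i) + h i) := Nat.mul_le_mul_left _ (by omega)
    _ = M ^ D * (2 * X + 2 - h i) + M ^ D * h i := by ring
    _ ≤ _ := Nat.add_le_add_right h4 _

/-- two-variable upper bound -/
lemma F2_upper {D M : ℕ} [NeZero M] (u : (ZMod M)ˣ) (c c' : ZMod M) (h h' : Fin D → ℕ) (i j : Fin D)
    (hij : (h i : ℤ) * h' j - h j * h' i ≠ 0) (X X' : ℕ) :
    (univ.filter (fun y : Fin D → ZMod M => za (zf u c h y) ≤ X ∧ za (zf u c' h' y) ≤ X')).card * M ^ 2
      ≤ M ^ D * ((2 * X + ((h i : ℤ) * h' j - h j * h' i).natAbs) * (2 * X' + ((h i : ℤ) * h' j - h j * h' i).natAbs)) := by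
  classical
  set Δ : ℤ := (h i : ℤ) * h' j - h j * h' i with hΔ
  have hne : i ≠ j := by
    rintro rfl
    apply hij
    rw [hΔ]
    ring
  set τ : ZMod M → ZMod M → (Fin D → ZMod M) := fun s s' =>
    Pi.single i ((h' j : ZMod M) * s - (h j : ZMod M) * s') + Pi.single j (-(h' i : ZMod M) * s + (h i : ZMod M) * s') with hτ
  have hτ1 : ∀ s s', ∑ k, (h k : ZMod M) * τ s s' k = (Δ : ZMod M) * s := by
    intro s s'
    rw [hτ]
    simp only [Pi.add_apply, mul_add, Finset.sum_add_distrib]
    rw [Finset.sum_eq_single i, Finset.sum_eq_single j]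
    · simp only [Pi.single_eq_same]
      rw [hΔ]
      push_cast
      ring
    · intro b _ hb
      simp [Pi.single_eq_of_ne hb]
    · simp
    · intro b _ hb
      simp [Pi.single_eq_of_ne hb]
    · simp
  have hτ2 : ∀ s s', ∑ k, (h' k : ZMod M) * τ s s' k = (Δ : ZMod M) * s' := by
    intro s s'
    rw [hτ]
    simp only [Pi.add_apply, mul_add, Finset.sum_add_distrib]
    rw [Finset.sum_eq_single i, Finset.sum_eq_single j]
    · simp only [Pi.single_eq_same]
      rw [hΔ]
      push_cast
      ring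
    · intro b _ hb
      simp [Pi.single_eq_of_ne hb]
    · simp
    · intro b _ hb
      simp [Pi.single_eq_of_ne hb]
    · simp
  have hneg1 : ∀ s s', ∑ k, (h k : ZMod M) * (-τ s s') k = -((Δ : ZMod M) * s) := by
    intro s s'
    rw [← hτ1 s s', ← Finset.sum_neg_distrib]
    apply Finset.sum_congr rfl
    intro k _
    simp
  have hneg2 : ∀ s s', ∑ k, (h' k : ZMod M) * (-τ s s') k = -((Δ : ZMod M) * s') := by
    intro s s'
    rw [← hτ2 s s', ← Finset.sum_neg_distrib]
    apply Finset.sum_congr rfl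
    intro k _
    simp
  have h1 : ∀ s s' : ZMod M, (univ.filter (fun y : Fin D → ZMod M => za (zf u c h y) ≤ X ∧ za (zf u c' h' y) ≤ X')).card =
      (univ.filter (fun y : Fin D → ZMod M => za (zf u c h y + (u : ZMod M) * ((Δ : ZMod M) * s)) ≤ X ∧ za (zf u c' h' y + (u : ZMod M) * ((Δ : ZMod M) * s')) ≤ X')).card := by
    intro s s'
    apply Finset.card_bij (fun (y : Fin D → ZMod M) _ => y + (-τ s s'))
    · intro y hy
      simp only [Finset.mem_filter, Finset.mem_univ, true_and] at hy ⊢
      rw [zf_shift, zf_shift, hneg1, hneg2]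
      have e : zf u c h y + ↑u * -((Δ : ZMod M) * s) + ↑u * ((Δ : ZMod M) * s) = zf u c h y := by ring
      have e' : zf u c' h' y + ↑u * -((Δ : ZMod M) * s') + ↑u * ((Δ : ZMod M) * s') = zf u c' h' y := by ring
      rw [e, e']
      exact hy
    · intro y _ y' _ he
      simpa using he
    · intro y hy
      simp only [Finset.mem_filter, Finset.mem_univ, true_and] at hy
      refine ⟨y + τ s s', ?_, by simp⟩
      simp only [Finset.mem_filter, Finset.mem_univ, true_and]
      rw [zf_shift, zf_shift, hτ1, hτ2]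
      exact hy
  have h2 : (univ.filter (fun y : Fin D → ZMod M => za (zf u c h y) ≤ X ∧ za (zf u c' h' y) ≤ X')).card * M ^ 2 =
      ∑ s : ZMod M, ∑ s' : ZMod M, (univ.filter (fun y : Fin D → ZMod M => za (zf u c h y + (u : ZMod M) * ((Δ : ZMod M) * s)) ≤ X ∧ za (zf u c' h' y + (u : ZMod M) * ((Δ : ZMod M) * s')) ≤ X')).card := by
    rw [← Finset.sum_congr rfl (fun s _ => Finset.sum_congr rfl (fun s' _ => h1 s s'))]
    simp only [Finset.sum_const, Finset.card_univ, ZMod.card, smul_eq_mul]
    ring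
  rw [h2]
  simp_rw [Finset.card_filter]
  have h3 : ∀ s : ZMod M, ∑ s' : ZMod M, ∑ y : Fin D → ZMod M, (if za (zf u c h y + (u : ZMod M) * ((Δ : ZMod M) * s)) ≤ X ∧ za (zf u c' h' y + (u : ZMod M) * ((Δ : ZMod M) * s')) ≤ X' then 1 else 0)
      = ∑ y : Fin D → ZMod M, ∑ s' : ZMod M, (if za (zf u c h y + (u : ZMod M) * ((Δ : ZMod M) * s)) ≤ X ∧ za (zf u c' h' y + (u : ZMod M) * ((Δ : ZMod M) * s')) ≤ X' then 1 else 0) :=
    fun s => Finset.sum_comm
  simp_rw [h3]
  rw [Finset.sum_comm]
  have h4 : ∀ y ∈ (univ : Finset (Fin D → ZMod M)), ∑ s : ZMod M, ∑ s' : ZMod M, (if za (zf u c h y + (u : ZMod M) * ((Δ : ZMod M) * s)) ≤ X ∧ za (zf u c' h' y + (u : ZMod M) * ((Δ : ZMod M) * s')) ≤ X' then 1 else 0)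
      ≤ (2 * X + Δ.natAbs) * (2 * X' + Δ.natAbs) := by
    intro y _
    have e1 : ∀ s s' : ZMod M, (if za (zf u c h y + (u : ZMod M) * ((Δ : ZMod M) * s)) ≤ X ∧ za (zf u c' h' y + (u : ZMod M) * ((Δ : ZMod M) * s')) ≤ X' then 1 else 0)
        = (if za (zf u c h y + (u : ZMod M) * ((Δ : ZMod M) * s)) ≤ X then 1 else 0) * (if za (zf u c' h' y + (u : ZMod M) * ((Δ : ZMod M) * s')) ≤ X' then 1 else 0) := by
      intro s s'
      by_cases h5 : za (zf u c h y + (u : ZMod M) * ((Δ : ZMod M) * s)) ≤ X <;>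
      by_cases h6 : za (zf u c' h' y + (u : ZMod M) * ((Δ : ZMod M) * s')) ≤ X' <;> simp [h5, h6]
    simp_rw [e1]
    rw [← Finset.sum_mul_sum, ← Finset.card_filter, ← Finset.card_filter]
    exact Nat.mul_le_mul (count_upper_unit u Δ hij _ X) (count_upper_unit u Δ hij _ X')
  refine (Finset.sum_le_card_nsmul _ _ _ h4).trans (le_of_eq ?_)
  rw [smul_eq_mul]
  congr 1
  simp [ZMod.card]

end Pool.Agent.H89.Disc
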