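import Mathlib

open Finset

namespace Pool.Agent.H89.Disc

/-- harmonic sums over a residue class: upper bound -/
lemma int_sum_upper (g : ℕ) (hg : 0 < g) (x : ℝ) (hx : 0 < x) (S : Finset ℕ) :
    (∀ n ∈ S, ∀ m ∈ S, n ≡ m [MOD g]) → (∀ n ∈ S, x ≤ n) → ∀ y : ℝ, x ≤ y → (∀ n ∈ S, (n:ℝ) ≤ y) →
    ∑ n ∈ S, (1:ℝ) / n ≤ 1 / x + 1 / g * Real.log (y / x) := by
  have hg' : (0:ℝ) < g := by exact_mod_cast hg
  induction S using Finset.induction_on_max with
  | empty =>
    intro _ _ y hy _
    have : 0 ≤ Real.log (y / x) := Real.log_nonneg (by rw [le_div_iff₀ hx]; linarith)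
    simp only [Finset.sum_empty]
    positivity
  | insert n S hmax ih =>
    intro hcong hlow y hy hup
    have hnS : n ∉ S := fun h => lt_irrefl _ (hmax n h)
    rw [Finset.sum_insert hnS]
    have hxn : x ≤ n := hlow n (Finset.mem_insert_self _ _)
    have hny : (n:ℝ) ≤ y := hup n (Finset.mem_insert_self _ _)
    have hnpos : (0:ℝ) < n := lt_of_lt_of_le hx hxn
    rcases S.eq_empty_or_nonempty with hS | hS
    · subst hS
      have h1 : (1:ℝ) / n ≤ 1 / x := one_div_le_one_div_of_le hx hxn
      have h2 : 0 ≤ Real.log (y / x) := Real.log_nonneg (by rw [le_div_iff₀ hx]; linarith)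
      have h3 : 0 ≤ 1 / (g:ℝ) * Real.log (y / x) := by positivity
      simp only [Finset.sum_empty]
      linarith
    · obtain ⟨k, hk⟩ := hS
      have hmod : ∀ m ∈ S, m + g ≤ n := by
        intro m hm
        have h1 : m ≡ n [MOD g] := hcong m (Finset.mem_insert_of_mem hm) n (Finset.mem_insert_self _ _)
        have h2 := hmax m hm
        have h3 : g ∣ n - m := (Nat.modEq_iff_dvd' h2.le).mp h1
        have h4 := Nat.le_of_dvd (by omega) h3
        omega
      have hkn := hmod k hk
      have hng : ((n - g : ℕ) : ℝ) = n - g := by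
        rw [Nat.cast_sub (by omega)]
      have hxk : x ≤ k := hlow k (Finset.mem_insert_of_mem hk)
      have hkng : (k:ℝ) ≤ n - g := by
        rw [← hng]
        exact_mod_cast (by omega : k ≤ n - g)
      have h1 := ih (fun a ha b hb => hcong a (Finset.mem_insert_of_mem ha) b (Finset.mem_insert_of_mem hb))
        (fun a ha => hlow a (Finset.mem_insert_of_mem ha)) (n - g) (by linarith) (by
          intro m hm
          rw [← hng]
          exact_mod_cast (by have := hmod m hm; omega : m ≤ n - g))
      have hngpos : (0:ℝ) < n - g := by linarith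
      have h2 : (g:ℝ) / n ≤ Real.log (n / (n - g)) := by
        have h3 := Real.log_le_sub_one_of_pos (x := (n - g) / n) (by positivity)
        have h4 : Real.log (n / (n - g)) = - Real.log ((n - g) / n) := by
          rw [← Real.log_inv, inv_div]
        rw [h4]
        have h5 : (n - g : ℝ) / n = 1 - g / n := by field_simp
        rw [h5] at h3 ⊢
        linarith
      have h6 : Real.log ((n - g) / x) + Real.log (n / (n - g)) = Real.log (n / x) := by
        rw [← Real.log_mul (by positivity) (by positivity)]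
        congr 1
        field_simp
      have h7 : Real.log (n / x) ≤ Real.log (y / x) :=
        Real.log_le_log (by positivity) (by gcongr)
      have h8 : (1:ℝ) / n ≤ 1 / g * Real.log (n / (n - g)) := by
        have : (1:ℝ) / n = 1 / g * (g / n) := by field_simp
        rw [this]
        exact mul_le_mul_of_nonneg_left h2 (by positivity)
      calc (1:ℝ) / n + ∑ i ∈ S, (1:ℝ) / i ≤ 1 / g * Real.log (n / (n - g)) + (1 / x + 1 / g * Real.log ((n - g) / x)) :=
            add_le_add h8 h1
        _ = 1 / x + 1 / g * (Real.log ((n - g) / x) + Real.log (n / (n - g))) := by ring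
        _ ≤ 1 / x + 1 / g * Real.log (y / x) := by
            rw [h6]
            have : 1 / (g:ℝ) * Real.log (n / x) ≤ 1 / g * Real.log (y / x) := mul_le_mul_of_nonneg_left h7 (by positivity)
            linarith

/-- harmonic sums over a residue class: lower bound -/
lemma int_sum_lower (g : ℕ) [NeZero g] (A B : ℕ) (hA : 0 < A) (r : ZMod g) :
    1 / g * Real.log (B / (A + g)) ≤ ∑ n ∈ (Finset.Ico A B).filter (fun n : ℕ => (n : ZMod g) = r), (1:ℝ) / n := by
  have hg : 0 < g := Nat.pos_of_ne_zero (NeZero.ne g)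
  have hg' : (0:ℝ) < g := by exact_mod_cast hg
  have hA' : (0:ℝ) < A := by exact_mod_cast hA
  -- the first element
  set n1 : ℕ := A + (r - (A : ZMod g)).val with hn1
  have hn1A : n1 < A + g := by
    have := ZMod.val_lt (r - (A : ZMod g))
    omega
  have hn1r : (n1 : ZMod g) = r := by
    rw [hn1]
    push_cast
    rw [ZMod.natCast_val, ZMod.cast_id]
    ring
  have hn1pos : (0:ℝ) < n1 := by exact_mod_cast (by omega : 0 < n1)
  have key : ∀ K : ℕ, 1 / g * Real.log (((n1:ℝ) + K * g) / n1) ≤ ∑ k ∈ Finset.range K, (1:ℝ) / ((n1 + k * g : ℕ) : ℝ) := by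
    intro K
    induction K with
    | zero =>
      simp [div_self hn1pos.ne']
    | succ K ih =>
      rw [Finset.sum_range_succ]
      have h1 : (0:ℝ) < n1 + K * g := by positivity
      have h2 : Real.log (((n1:ℝ) + (K + 1 : ℕ) * g) / n1) = Real.log (((n1:ℝ) + K * g) / n1) + Real.log (((n1:ℝ) + (K + 1 : ℕ) * g) / (n1 + K * g)) := by
        rw [← Real.log_mul (by positivity) (by positivity)]
        congr 1
        field_simp
      have h3 : Real.log (((n1:ℝ) + (K + 1 : ℕ) * g) / (n1 + K * g)) ≤ g / (n1 + K * g) := by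
        have := Real.log_le_sub_one_of_pos (x := ((n1:ℝ) + (K + 1 : ℕ) * g) / (n1 + K * g)) (by positivity)
        refine this.trans (le_of_eq ?_)
        push_cast
        field_simp
        ring
      rw [h2, mul_add]
      apply add_le_add ih
      calc 1 / (g:ℝ) * Real.log (((n1:ℝ) + (K + 1 : ℕ) * g) / (n1 + K * g)) ≤ 1 / g * (g / (n1 + K * g)) :=
            mul_le_mul_of_nonneg_left h3 (by positivity)
        _ = 1 / ((n1 + K * g : ℕ) : ℝ) := by
            push_cast
            field_simp
  by_cases hB : B ≤ n1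
  · have h1 : Real.log ((B:ℝ) / (A + g)) ≤ 0 := by
      apply Real.log_nonpos (by positivity)
      rw [div_le_one (by positivity)]
      have : (B:ℝ) ≤ n1 := by exact_mod_cast hB
      have h2 : (n1:ℝ) ≤ A + g := by exact_mod_cast hn1A.le
      linarith
    have h2 : 1 / (g:ℝ) * Real.log (B / (A + g)) ≤ 0 := mul_nonpos_of_nonneg_of_nonpos (by positivity) h1
    refine h2.trans (Finset.sum_nonneg (fun n _ => by positivity))
  · have hB' : n1 < B := not_le.mp hB
    set K : ℕ := (B - n1 - 1) / g + 1 with hK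
    have hK1 : B ≤ n1 + K * g := by
      have h1 : B - n1 - 1 < K * g := by
        rw [hK]
        have := Nat.lt_div_mul_add (a := B - n1 - 1) hg
        calc B - n1 - 1 < (B - n1 - 1) / g * g + g := this
          _ = ((B - n1 - 1) / g + 1) * g := by ring
      omega
    have hK2 : ∀ k < K, n1 + k * g < B := by
      intro k hk
      have h1 : k ≤ (B - n1 - 1) / g := by omega
      have h2 : k * g ≤ B - n1 - 1 := (Nat.le_div_iff_mul_le hg).mp h1
      omega
    have h1 := key K
    have h2 : Real.log ((B:ℝ) / (A + g)) ≤ Real.log (((n1:ℝ) + K * g) / n1) := by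
      have hBpos : (0:ℝ) < B := by exact_mod_cast (by omega : 0 < B)
      apply Real.log_le_log (by positivity)
      have h3 : (B:ℝ) ≤ n1 + K * g := by exact_mod_cast hK1
      have h4 : (n1:ℝ) ≤ A + g := by exact_mod_cast hn1A.le
      gcongr
    calc 1 / (g:ℝ) * Real.log (B / (A + g)) ≤ 1 / g * Real.log (((n1:ℝ) + K * g) / n1) :=
          mul_le_mul_of_nonneg_left h2 (by positivity)
      _ ≤ ∑ k ∈ Finset.range K, (1:ℝ) / ((n1 + k * g : ℕ) : ℝ) := h1
      _ = ∑ n ∈ (Finset.range K).image (fun k => n1 + k * g), (1:ℝ) / n := by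
          rw [Finset.sum_image]
          intro k _ k' _ h
          have : k * g = k' * g := by
            have h : n1 + k * g = n1 + k' * g := h
            omega
          exact Nat.eq_of_mul_eq_mul_right hg this
      _ ≤ _ := by
          apply Finset.sum_le_sum_of_subset_of_nonneg
          · intro n hn
            rw [Finset.mem_image] at hn
            obtain ⟨k, hk, rfl⟩ := hn
            rw [Finset.mem_filter, Finset.mem_Ico]
            refine ⟨⟨by omega, hK2 k (Finset.mem_range.mp hk)⟩, ?_⟩
            push_cast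
            rw [hn1r]
            simp
          · intro n _ _
            positivity

/-- residues of a vector -/
def res (g : ℕ) {D : ℕ} (h : Fin D → ℕ) : Fin D → ZMod g := fun i => (h i : ZMod g)

/-- the weight of a vector -/
noncomputable def wt {D : ℕ} (h : Fin D → ℕ) : ℝ := ∏ i, (1:ℝ) / (h i)

lemma wt_nonneg {D : ℕ} (h : Fin D → ℕ) : 0 ≤ wt h := Finset.prod_nonneg (fun i _ => by positivity)

/-- box sums split into residue classes -/
lemma box_sum_res {D g : ℕ} [NeZero g] (I : Fin D → Finset ℕ) (r : Fin D → ZMod g) :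
    ∑ h ∈ (Fintype.piFinset I).filter (fun h => res g h = r), wt h =
      ∏ i, ∑ n ∈ (I i).filter (fun n : ℕ => (n : ZMod g) = r i), (1:ℝ) / n := by
  classical
  rw [Finset.prod_univ_sum]
  apply Finset.sum_congr
  · ext h
    simp only [Finset.mem_filter, Fintype.mem_piFinset]
    constructor
    · rintro ⟨h1, h2⟩ i
      exact ⟨h1 i, congrFun h2 i⟩
    · intro h1
      exact ⟨fun i => (h1 i).1, funext fun i => (h1 i).2⟩
  · intro h _
    rfl

lemma box_sum_split {D g : ℕ} [NeZero g] (S : Finset (Fin D → ℕ)) (P : Finset (Fin D → ZMod g)) :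
    ∑ h ∈ S.filter (fun h => res g h ∈ P), wt h = ∑ r ∈ P, ∑ h ∈ S.filter (fun h => res g h = r), wt h := by
  classical
  rw [← Finset.sum_fiberwise_of_maps_to (s := S.filter (fun h => res g h ∈ P)) (t := P) (g := fun h => res g h)
    (fun h hh => (Finset.mem_filter.mp hh).2)]
  apply Finset.sum_congr rfl
  intro r hr
  apply Finset.sum_congr _ (fun _ _ => rfl)
  ext h
  simp only [Finset.mem_filter]
  constructor
  · rintro ⟨⟨h1, _⟩, h2⟩
    exact ⟨h1, h2⟩
  · rintro ⟨h1, h2⟩
    exact ⟨⟨h1, h2 ▸ hr⟩, h2⟩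

lemma class_sum_upper {g : ℕ} [NeZero g] (I : Finset ℕ) (x y : ℝ) (hx : 0 < x) (hxy : x ≤ y)
    (hI : ∀ n ∈ I, x ≤ n ∧ (n:ℝ) ≤ y) (r : ZMod g) :
    ∑ n ∈ I.filter (fun n : ℕ => (n : ZMod g) = r), (1:ℝ) / n ≤ 1 / x + 1 / g * Real.log (y / x) := by
  apply int_sum_upper g (Nat.pos_of_ne_zero (NeZero.ne g)) x hx
  · intro n hn m hm
    have h1 := (Finset.mem_filter.mp hn).2
    have h2 := (Finset.mem_filter.mp hm).2
    rw [← ZMod.natCast_eq_natCast_iff]
    rw [h1, h2]
  · intro n hn
    exact (hI n (Finset.mem_filter.mp hn).1).1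
  · exact hxy
  · intro n hn
    exact (hI n (Finset.mem_filter.mp hn).1).2

/-- box sums over residue classes: upper bound -/
lemma box_upper {D g : ℕ} [NeZero g] (I : Fin D → Finset ℕ) (x y : Fin D → ℝ) (hx : ∀ i, 0 < x i)
    (hxy : ∀ i, x i ≤ y i) (hI : ∀ i, ∀ n ∈ I i, x i ≤ n ∧ (n:ℝ) ≤ y i) (P : Finset (Fin D → ZMod g)) :
    ∑ h ∈ (Fintype.piFinset I).filter (fun h => res g h ∈ P), wt h ≤
      P.card * ∏ i, (1 / x i + 1 / g * Real.log (y i / x i)) := by
  classical
  rw [box_sum_split]
  rw [← nsmul_eq_mul]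
  apply Finset.sum_le_card_nsmul
  intro r _
  rw [box_sum_res]
  apply Finset.prod_le_prod
  · intro i _
    exact Finset.sum_nonneg (fun n _ => by positivity)
  · intro i _
    exact class_sum_upper (I i) (x i) (y i) (hx i) (hxy i) (hI i) (r i)

/-- box sums over residue classes: lower bound -/
lemma box_lower {D g : ℕ} [NeZero g] (A B : ℕ) (hA : 0 < A) (hB : A + g ≤ B) (P : Finset (Fin D → ZMod g)) :
    P.card * (1 / g * Real.log (B / (A + g))) ^ D ≤
    ∑ h ∈ (Fintype.piFinset (fun _ : Fin D => Finset.Ico A B)).filter (fun h => res g h ∈ P), wt h := by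
  classical
  rw [box_sum_split]
  rw [← nsmul_eq_mul]
  apply Finset.card_nsmul_le_sum
  intro r _
  rw [box_sum_res]
  have h1 : ∀ i ∈ (univ : Finset (Fin D)), 1 / g * Real.log (B / (A + g)) ≤ ∑ n ∈ (Finset.Ico A B).filter (fun n : ℕ => (n : ZMod g) = r i), (1:ℝ) / n :=
    fun i _ => int_sum_lower g A B hA (r i)
  have h2 := Finset.prod_le_prod (s := (univ : Finset (Fin D))) (f := fun _ => 1 / (g:ℝ) * Real.log (B / (A + g))) (fun i _ => by
    have : 0 ≤ Real.log ((B:ℝ) / (A + g)) := by
      apply Real.log_nonneg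
      have hA' : (0:ℝ) < A := by exact_mod_cast hA
      rw [le_div_iff₀ (by positivity)]
      have : ((A + g : ℕ):ℝ) ≤ B := by exact_mod_cast hB
      push_cast at this
      linarith
    positivity) h1
  simpa using h2

end Pool.Agent.H89.Disc
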