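import Mathlib
import Pool.Agent.H89.Sums

open Finset

namespace Pool.Agent.H89.Disc

lemma wt_succ {E : ℕ} (h : Fin (E + 1) → ℕ) : wt h = (1 / (h 0 : ℝ)) * wt (Fin.tail h) := by
  unfold wt
  rw [Fin.prod_univ_succ]
  rfl

/-- sums over vectors whose product lies in a short interval -/
lemma prod_conflict {E g : ℕ} [NeZero g] (I : Finset ℕ) (x y : ℝ) (hx : 0 < x) (hxy : x ≤ y)
    (hI : ∀ n ∈ I, x ≤ n ∧ (n:ℝ) ≤ y) (P : Finset (Fin (E + 1) → ZMod g)) (Q ρ : ℝ) (hQ : 0 < Q) (hρ : 1 ≤ ρ) :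
    ∑ h ∈ (Fintype.piFinset (fun _ : Fin (E + 1) => I)).filter
      (fun h => res g h ∈ P ∧ Q ≤ ∏ i, (h i : ℝ) ∧ ∏ i, (h i : ℝ) ≤ Q * ρ), wt h ≤
      P.card * ((1 / x + 1 / g * Real.log ρ) * (1 / x + 1 / g * Real.log (y / x)) ^ E) := by
  classical
  set S := (Fintype.piFinset (fun _ : Fin (E + 1) => I)).filter
    (fun h => Q ≤ ∏ i, (h i : ℝ) ∧ ∏ i, (h i : ℝ) ≤ Q * ρ) with hS
  have e0 : (Fintype.piFinset (fun _ : Fin (E + 1) => I)).filter
      (fun h => res g h ∈ P ∧ Q ≤ ∏ i, (h i : ℝ) ∧ ∏ i, (h i : ℝ) ≤ Q * ρ) = S.filter (fun h => res g h ∈ P) := by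
    ext h
    simp only [hS, Finset.mem_filter]
    tauto
  rw [e0, box_sum_split, ← nsmul_eq_mul]
  apply Finset.sum_le_card_nsmul
  intro r _
  set t := (Fintype.piFinset (fun _ : Fin E => I)).filter (fun h => res g h = Fin.tail r) with ht
  have hmaps : ∀ h ∈ S.filter (fun h => res g h = r), Fin.tail h ∈ t := by
    intro h hh
    rw [Finset.mem_filter, hS, Finset.mem_filter, Fintype.mem_piFinset] at hh
    rw [ht, Finset.mem_filter, Fintype.mem_piFinset]
    refine ⟨fun i => hh.1.1 i.succ, ?_⟩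
    rw [← hh.2]
    rfl
  rw [← Finset.sum_fiberwise_of_maps_to hmaps]
  have hlogρ : 0 ≤ Real.log ρ := Real.log_nonneg hρ
  have hc0 : 0 ≤ 1 / x + 1 / g * Real.log ρ := by positivity
  have hinner : ∀ h'' ∈ t, ∑ h ∈ (S.filter (fun h => res g h = r)).filter (fun h => Fin.tail h = h''), wt h ≤
      wt h'' * (1 / x + 1 / g * Real.log ρ) := by
    intro h'' hh''
    rw [ht, Finset.mem_filter, Fintype.mem_piFinset] at hh''
    have hpos'' : 0 < ∏ i, (h'' i : ℝ) := Finset.prod_pos (fun i _ => lt_of_lt_of_le hx (hI _ (hh''.1 i)).1)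
    have e1 : ∑ h ∈ (S.filter (fun h => res g h = r)).filter (fun h => Fin.tail h = h''), wt h =
        wt h'' * ∑ h ∈ (S.filter (fun h => res g h = r)).filter (fun h => Fin.tail h = h''), (1:ℝ) / (h 0 : ℝ) := by
      rw [Finset.mul_sum]
      apply Finset.sum_congr rfl
      intro h hh
      rw [wt_succ, (Finset.mem_filter.mp hh).2]
      ring
    rw [e1]
    apply mul_le_mul_of_nonneg_left _ (wt_nonneg _)
    obtain ⟨U, hU⟩ : ∃ U : Finset ℕ, U = ((S.filter (fun h => res g h = r)).filter (fun h => Fin.tail h = h'')).image (fun h => h 0) := ⟨_, rfl⟩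
    have e2 : ∑ h ∈ (S.filter (fun h => res g h = r)).filter (fun h => Fin.tail h = h''), (1:ℝ) / (h 0 : ℝ) =
        ∑ n ∈ U, (1:ℝ) / n := by
      rw [hU, Finset.sum_image]
      intro h hh h' hh' he
      rw [Finset.mem_coe, Finset.mem_filter] at hh hh'
      have he : h 0 = h' 0 := he
      rw [← Fin.cons_self_tail h, ← Fin.cons_self_tail h', hh.2, hh'.2, he]
    rw [e2]
    have hmem : ∀ n ∈ U,
        n ∈ I ∧ (n : ZMod g) = r 0 ∧ Q / (∏ i, (h'' i : ℝ)) ≤ n ∧ (n:ℝ) ≤ Q / (∏ i, (h'' i : ℝ)) * ρ := by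
      intro n hn
      rw [hU, Finset.mem_image] at hn
      obtain ⟨h, hh, rfl⟩ := hn
      rw [Finset.mem_filter, Finset.mem_filter, hS, Finset.mem_filter, Fintype.mem_piFinset] at hh
      obtain ⟨⟨⟨h1, h2, h3⟩, h4⟩, h5⟩ := hh
      have e3 : ∏ i, (h i : ℝ) = (h 0 : ℝ) * ∏ i, (h'' i : ℝ) := by
        rw [Fin.prod_univ_succ, ← h5]
        rfl
      rw [e3] at h2 h3
      refine ⟨h1 0, congrFun h4 0, ?_, ?_⟩
      · rw [div_le_iff₀ hpos'']
        exact h2
      · have : Q / (∏ i, (h'' i : ℝ)) * ρ = Q * ρ / (∏ i, (h'' i : ℝ)) := by ring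
        rw [this, le_div_iff₀ hpos'']
        exact h3
    clear hU e2 e1
    obtain ⟨q, hq⟩ : ∃ q : ℝ, q = Q / (∏ i, (h'' i : ℝ)) := ⟨_, rfl⟩
    have hqpos : 0 < q := by rw [hq]; positivity
    rw [← hq] at hmem
    rcases U.eq_empty_or_nonempty with he | hne
    · rw [he, Finset.sum_empty]
      exact hc0
    · obtain ⟨k, hk⟩ := hne
      have hk' := hmem k hk
      have h6 : max x q ≤ q * ρ := by
        apply max_le
        · exact (hI k hk'.1).1.trans hk'.2.2.2
        · exact hk'.2.2.1.trans hk'.2.2.2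
      have h7 := int_sum_upper g (Nat.pos_of_ne_zero (NeZero.ne g)) (max x q) (lt_of_lt_of_le hx (le_max_left _ _)) U
        (by
          intro n hn m hm
          rw [← ZMod.natCast_eq_natCast_iff, (hmem n hn).2.1, (hmem m hm).2.1])
        (fun n hn => max_le (hI n (hmem n hn).1).1 (hmem n hn).2.2.1) (q * ρ) h6 (fun n hn => (hmem n hn).2.2.2)
      refine h7.trans ?_
      have h8 : 1 / max x q ≤ 1 / x := one_div_le_one_div_of_le hx (le_max_left _ _)
      have h9 : Real.log (q * ρ / max x q) ≤ Real.log ρ := by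
        have hm : 0 < max x q := lt_of_lt_of_le hx (le_max_left _ _)
        apply Real.log_le_log (by positivity)
        rw [div_le_iff₀ hm]
        have : q ≤ max x q := le_max_right _ _
        nlinarith
      have h10 : 1 / (g:ℝ) * Real.log (q * ρ / max x q) ≤ 1 / g * Real.log ρ := mul_le_mul_of_nonneg_left h9 (by positivity)
      linarith
  refine (Finset.sum_le_sum hinner).trans ?_
  rw [← Finset.sum_mul, mul_comm]
  apply mul_le_mul_of_nonneg_left _ hc0
  rw [ht, box_sum_res]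
  calc ∏ i, ∑ n ∈ I.filter (fun n : ℕ => (n : ZMod g) = Fin.tail r i), (1:ℝ) / n
      ≤ ∏ _i : Fin E, (1 / x + 1 / g * Real.log (y / x)) := by
        apply Finset.prod_le_prod
        · intro i _
          exact Finset.sum_nonneg (fun n _ => by positivity)
        · intro i _
          exact class_sum_upper I x y hx hxy hI _
    _ = _ := by simp

/-- sums over vectors with one coordinate in a short interval -/
lemma coord_conflict {E g : ℕ} [NeZero g] (I : Finset ℕ) (x y : ℝ) (hx : 0 < x) (hxy : x ≤ y)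
    (hI : ∀ n ∈ I, x ≤ n ∧ (n:ℝ) ≤ y) (P : Finset (Fin (E + 1) → ZMod g)) (i0 : Fin (E + 1)) (Q ρ : ℝ) (hQ : 0 < Q) (hρ : 1 ≤ ρ) :
    ∑ h ∈ (Fintype.piFinset (fun _ : Fin (E + 1) => I)).filter
      (fun h => res g h ∈ P ∧ Q ≤ (h i0 : ℝ) ∧ (h i0 : ℝ) ≤ Q * ρ), wt h ≤
      P.card * ((1 / x + 1 / g * Real.log ρ) * (1 / x + 1 / g * Real.log (y / x)) ^ E) := by
  classical
  have hlogρ : 0 ≤ Real.log ρ := Real.log_nonneg hρ
  have hlogxy : 0 ≤ Real.log (y / x) := Real.log_nonneg (by rw [le_div_iff₀ hx]; linarith)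
  rcases (I.filter (fun n : ℕ => Q ≤ (n : ℝ) ∧ (n : ℝ) ≤ Q * ρ)).eq_empty_or_nonempty with he | hne
  · have : (Fintype.piFinset (fun _ : Fin (E + 1) => I)).filter
      (fun h => res g h ∈ P ∧ Q ≤ (h i0 : ℝ) ∧ (h i0 : ℝ) ≤ Q * ρ) = ∅ := by
      rw [Finset.eq_empty_iff_forall_notMem]
      intro h hh
      rw [Finset.mem_filter, Fintype.mem_piFinset] at hh
      have : h i0 ∈ I.filter (fun n : ℕ => Q ≤ (n : ℝ) ∧ (n : ℝ) ≤ Q * ρ) := by
        rw [Finset.mem_filter]
        exact ⟨hh.1 i0, hh.2.2⟩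
      rw [he] at this
      exact absurd this (Finset.notMem_empty _)
    rw [this, Finset.sum_empty]
    positivity
  · obtain ⟨k, hk⟩ := hne
    rw [Finset.mem_filter] at hk
    set J : Fin (E + 1) → Finset ℕ := fun i => if i = i0 then I.filter (fun n : ℕ => Q ≤ (n : ℝ) ∧ (n : ℝ) ≤ Q * ρ) else I with hJ
    have e1 : (Fintype.piFinset (fun _ : Fin (E + 1) => I)).filter
      (fun h => res g h ∈ P ∧ Q ≤ (h i0 : ℝ) ∧ (h i0 : ℝ) ≤ Q * ρ) = (Fintype.piFinset J).filter (fun h => res g h ∈ P) := by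
      ext h
      simp only [Finset.mem_filter, Fintype.mem_piFinset, hJ]
      constructor
      · rintro ⟨h1, h2, h3⟩
        refine ⟨?_, h2⟩
        intro i
        by_cases hi : i = i0
        · subst hi
          rw [if_pos rfl, Finset.mem_filter]
          exact ⟨h1 _, h3⟩
        · rw [if_neg hi]
          exact h1 i
      · rintro ⟨h1, h2⟩
        have h3 := h1 i0
        rw [if_pos rfl, Finset.mem_filter] at h3
        refine ⟨?_, h2, h3.2⟩
        intro i
        have h4 := h1 i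
        by_cases hi : i = i0
        · rw [if_pos hi, Finset.mem_filter] at h4
          exact h4.1
        · rw [if_neg hi] at h4
          exact h4
    rw [e1]
    have h6 : max x Q ≤ Q * ρ := by
      apply max_le
      · exact (hI k hk.1).1.trans hk.2.2
      · exact hk.2.1.trans hk.2.2
    have h2 := box_upper (g := g) J (fun i => if i = i0 then max x Q else x) (fun i => if i = i0 then Q * ρ else y)
      (by
        intro i
        by_cases hi : i = i0
        · simp only [hi, if_true]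
          exact lt_of_lt_of_le hx (le_max_left _ _)
        · simp only [hi, if_false]
          exact hx)
      (by
        intro i
        by_cases hi : i = i0
        · simp only [hi, if_true]
          exact h6
        · simp only [hi, if_false]
          exact hxy)
      (by
        intro i n hn
        simp only [hJ] at hn
        by_cases hi : i = i0
        · rw [if_pos hi, Finset.mem_filter] at hn
          simp only [hi, if_true]
          exact ⟨max_le (hI n hn.1).1 hn.2.1, hn.2.2⟩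
        · rw [if_neg hi] at hn
          simp only [hi, if_false]
          exact hI n hn) P
    refine h2.trans ?_
    apply mul_le_mul_of_nonneg_left _ (Nat.cast_nonneg _)
    rw [← Finset.mul_prod_erase univ _ (Finset.mem_univ i0)]
    apply mul_le_mul
    · simp only [if_true]
      have h8 : 1 / max x Q ≤ 1 / x := one_div_le_one_div_of_le hx (le_max_left _ _)
      have h9 : Real.log (Q * ρ / max x Q) ≤ Real.log ρ := by
        have hm : 0 < max x Q := lt_of_lt_of_le hx (le_max_left _ _)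
        apply Real.log_le_log (by positivity)
        rw [div_le_iff₀ hm]
        have : Q ≤ max x Q := le_max_right _ _
        nlinarith
      have h10 : 1 / (g:ℝ) * Real.log (Q * ρ / max x Q) ≤ 1 / g * Real.log ρ := mul_le_mul_of_nonneg_left h9 (by positivity)
      linarith
    · apply le_of_eq
      have : ∀ i ∈ univ.erase i0, (1 / (if i = i0 then max x Q else x) + 1 / (g:ℝ) * Real.log ((if i = i0 then Q * ρ else y) / (if i = i0 then max x Q else x)))
          = 1 / x + 1 / g * Real.log (y / x) := by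
        intro i hi
        have := Finset.ne_of_mem_erase hi
        simp only [this, if_false]
      rw [Finset.prod_congr rfl this]
      simp
    · apply Finset.prod_nonneg
      intro i hi
      have := Finset.ne_of_mem_erase hi
      simp only [this, if_false]
      positivity
    · positivity

lemma sum_biUnion_le' {α β : Type*} [DecidableEq α] [DecidableEq β] (s : Finset α) (t : α → Finset β)
    (f : β → ℝ) (hf : ∀ x, 0 ≤ f x) :
    ∑ x ∈ s.biUnion t, f x ≤ ∑ a ∈ s, ∑ x ∈ t a, f x := by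
  induction s using Finset.induction_on with
  | empty => simp
  | insert a s ha ih =>
    rw [Finset.biUnion_insert, Finset.sum_insert ha]
    have := Finset.sum_union_inter (s₁ := t a) (s₂ := s.biUnion t) (f := f)
    have h0 : 0 ≤ ∑ x ∈ t a ∩ s.biUnion t, f x := Finset.sum_nonneg (fun x _ => hf x)
    linarith

lemma sum_sq_tail (a b : ℕ) (ha : 1 ≤ a) : ∑ ρ ∈ Finset.Ico (a + 1) b, (1:ℝ) / (ρ:ℝ) ^ 2 ≤ 1 / a := by
  have key : ∀ b : ℕ, a + 1 ≤ b → ∑ ρ ∈ Finset.Ico (a + 1) b, (1:ℝ) / (ρ:ℝ) ^ 2 ≤ 1 / a - 1 / ((b:ℝ) - 1) := by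
    intro b hb
    induction b, hb using Nat.le_induction with
    | base => simp
    | succ b hb ih =>
      rw [Finset.sum_Ico_succ_top hb]
      have hb' : (1:ℝ) < b := by exact_mod_cast (by omega : 1 < b)
      have h1 : (1:ℝ) / (b:ℝ) ^ 2 ≤ 1 / ((b:ℝ) - 1) - 1 / b := by
        rw [div_sub_div _ _ (by linarith) (by linarith), div_le_div_iff₀ (by positivity) (by nlinarith)]
        nlinarith
      push_cast
      have : (b:ℝ) + 1 - 1 = b := by ring
      rw [this]
      linarith
  by_cases hb : a + 1 ≤ b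
  · have h1 := key b hb
    have h2 : (0:ℝ) ≤ 1 / ((b:ℝ) - 1) := by
      apply one_div_nonneg.mpr
      have : (1:ℝ) ≤ b := by exact_mod_cast (by omega : 1 ≤ b)
      linarith
    linarith
  · rw [Finset.Ico_eq_empty (by omega)]
    simp

lemma sum_sq_two (b : ℕ) : ∑ ρ ∈ Finset.Ico 2 b, (1:ℝ) / (ρ:ℝ) ^ 2 ≤ 3 / 4 := by
  by_cases hb : 2 < b
  · rw [Finset.sum_eq_sum_Ico_succ_bot hb]
    have h1 := sum_sq_tail 2 b (by norm_num)
    norm_num at h1 ⊢
    linarith
  · rw [Finset.Ico_eq_empty (by omega)]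
    norm_num

/-- full box sums without congruence condition -/
lemma full_upper {D : ℕ} (B : ℕ) (hB : 1 ≤ B) :
    ∑ h ∈ Fintype.piFinset (fun _ : Fin D => Finset.Icc 1 B), wt h ≤ (1 + Real.log B) ^ D := by
  classical
  have h1 : ∑ n ∈ Finset.Icc 1 B, (1:ℝ) / n ≤ 1 + Real.log B := by
    have hB' : (1:ℝ) ≤ B := by exact_mod_cast hB
    have := int_sum_upper 1 one_pos 1 one_pos (Finset.Icc 1 B) (fun n _ m _ => Nat.modEq_one)
      (fun n hn => by exact_mod_cast (Finset.mem_Icc.mp hn).1) B hB'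
      (fun n hn => by exact_mod_cast (Finset.mem_Icc.mp hn).2)
    simpa using this
  have h2 : ∑ h ∈ Fintype.piFinset (fun _ : Fin D => Finset.Icc 1 B), wt h = ∏ _i : Fin D, ∑ n ∈ Finset.Icc 1 B, (1:ℝ) / n := by
    rw [Finset.prod_univ_sum]
    rfl
  rw [h2, Finset.prod_const, Finset.card_univ, Fintype.card_fin]
  apply pow_le_pow_left₀ _ h1
  exact Finset.sum_nonneg (fun n _ => by positivity)

/-- `h` is not a proper multiple of a vector with residues in `P` -/
def Prim {D : ℕ} (g : ℕ) (P : Finset (Fin D → ZMod g)) (h : Fin D → ℕ) : Prop :=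
  ¬ ∃ (ρ : ℕ) (l : Fin D → ℕ), 2 ≤ ρ ∧ res g l ∈ P ∧ h = fun i => ρ * l i

open Classical in
/-- the sieve for primitive vectors -/
lemma prim_sieve {D g : ℕ} [NeZero g] (hD : 2 ≤ D) (P : Finset (Fin D → ZMod g)) (A B ρ0 : ℕ) (hA : 0 < A)
    (hAB : A + g ≤ B) (hρ0 : 2 ≤ ρ0) :
    (P.card : ℝ) * (1 / g * Real.log (B / (A + g))) ^ D ≤
      ∑ h ∈ (Fintype.piFinset (fun _ : Fin D => Finset.Ico A B)).filter (fun h => res g h ∈ P ∧ Prim g P h), wt h
      + 3 / 4 * (P.card * (ρ0 / A + 1 / g * Real.log (B / A)) ^ D) + 1 / ρ0 * (1 + Real.log B) ^ D := by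
  have hA' : (0:ℝ) < A := by exact_mod_cast hA
  have hg0 : 0 < g := Nat.pos_of_ne_zero (NeZero.ne g)
  have hAltB : A < B := by omega
  have hB' : (0:ℝ) < B := by exact_mod_cast (by omega : 0 < B)
  have hlogB : 0 ≤ Real.log B := Real.log_natCast_nonneg B
  refine (box_lower A B hA hAB P).trans ?_
  set S := (Fintype.piFinset (fun _ : Fin D => Finset.Ico A B)).filter (fun h => res g h ∈ P) with hS
  have e1 := Finset.sum_filter_add_sum_filter_not S (fun h => Prim g P h) wt
  have e2 : S.filter (fun h => Prim g P h) = (Fintype.piFinset (fun _ : Fin D => Finset.Ico A B)).filter (fun h => res g h ∈ P ∧ Prim g P h) := by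
    rw [hS, Finset.filter_filter]
  rw [← e1, e2, add_assoc]
  apply add_le_add le_rfl
  -- the box for the quotient vectors
  set Bx : ℕ → Finset (Fin D → ℕ) := fun ρ => (Fintype.piFinset (fun _ : Fin D => (Finset.Icc 1 B).filter (fun n => A ≤ ρ * n ∧ ρ * n < B))).filter (fun l => res g l ∈ P) with hBx
  have h1 : ∑ h ∈ S.filter (fun h => ¬ Prim g P h), wt h ≤ ∑ ρ ∈ Finset.Ico 2 B, (1 / (ρ:ℝ)) ^ D * ∑ l ∈ Bx ρ, wt l := by
    have h2 : ∀ ρ ∈ Finset.Ico 2 B, (1 / (ρ:ℝ)) ^ D * ∑ l ∈ Bx ρ, wt l = ∑ h ∈ (Bx ρ).image (fun l => fun i => ρ * l i), wt h := by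
      intro ρ hρ
      have hρ2 := (Finset.mem_Ico.mp hρ).1
      rw [Finset.sum_image, Finset.mul_sum]
      · apply Finset.sum_congr rfl
        intro l _
        unfold wt
        push_cast
        rw [← Fin.prod_const, ← Finset.prod_mul_distrib]
        apply Finset.prod_congr rfl
        intro i _
        rw [one_div_mul_one_div]
      · intro l _ l' _ he
        funext i
        have h3 := congrFun he i
        simp only at h3
        exact Nat.eq_of_mul_eq_mul_left (by omega) h3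
    rw [Finset.sum_congr rfl h2]
    have h3 : S.filter (fun h => ¬ Prim g P h) ⊆ (Finset.Ico 2 B).biUnion (fun ρ => (Bx ρ).image (fun l => fun i => ρ * l i)) := by
      intro h hh
      rw [Finset.mem_filter, hS, Finset.mem_filter, Fintype.mem_piFinset] at hh
      obtain ⟨⟨h4, h5⟩, h6⟩ := hh
      unfold Prim at h6
      rw [not_not] at h6
      obtain ⟨ρ, l, h7, h8, h9⟩ := h6
      have hi : ∀ i, A ≤ ρ * l i ∧ ρ * l i < B := by
        intro i
        have := h4 i
        rw [h9, Finset.mem_Ico] at this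
        exact this
      have hlpos : ∀ i, 1 ≤ l i := by
        intro i
        by_contra hcon
        have : l i = 0 := by omega
        have h10 := (hi i).1
        rw [this] at h10
        omega
      rw [Finset.mem_biUnion]
      refine ⟨ρ, ?_, ?_⟩
      · rw [Finset.mem_Ico]
        refine ⟨h7, ?_⟩
        have i0 : Fin D := ⟨0, by omega⟩
        have h10 := (hi i0).2
        have h11 := hlpos i0
        nlinarith
      · rw [Finset.mem_image]
        refine ⟨l, ?_, h9.symm⟩
        rw [hBx]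
        simp only [Finset.mem_filter, Fintype.mem_piFinset, Finset.mem_Icc]
        refine ⟨fun i => ⟨⟨hlpos i, ?_⟩, hi i⟩, h8⟩
        have h10 := (hi i).2
        nlinarith [hlpos i]
    refine (Finset.sum_le_sum_of_subset_of_nonneg h3 (fun h _ _ => wt_nonneg h)).trans ?_
    exact sum_biUnion_le' _ _ _ (fun h => wt_nonneg h)
  refine h1.trans ?_
  -- bound each inner sum
  have hsmall : ∀ ρ ∈ Finset.Ico 2 B, ρ ≤ ρ0 → (1 / (ρ:ℝ)) ^ D * ∑ l ∈ Bx ρ, wt l ≤
      1 / (ρ:ℝ) ^ 2 * (P.card * (ρ0 / A + 1 / g * Real.log (B / A)) ^ D) := by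
    intro ρ hρ hle
    have hρ2 := (Finset.mem_Ico.mp hρ).1
    have hρ' : (0:ℝ) < ρ := by exact_mod_cast (by omega : 0 < ρ)
    have hρ1 : (1:ℝ) ≤ ρ := by exact_mod_cast (by omega : 1 ≤ ρ)
    have hb := box_upper (g := g) (fun _ : Fin D => (Finset.Icc 1 B).filter (fun n => A ≤ ρ * n ∧ ρ * n < B))
      (fun _ => (A:ℝ) / ρ) (fun _ => (B:ℝ) / ρ) (fun _ => by positivity)
      (fun _ => by
        have : (A:ℝ) ≤ B := by exact_mod_cast hAltB.le
        gcongr)
      (fun _ n hn => by
        rw [Finset.mem_filter] at hn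
        constructor
        · rw [div_le_iff₀ hρ']
          have : (A:ℝ) ≤ ρ * n := by exact_mod_cast hn.2.1
          linarith
        · rw [le_div_iff₀ hρ']
          have : ((ρ * n : ℕ):ℝ) ≤ B := by exact_mod_cast hn.2.2.le
          push_cast at this
          linarith) P
    have hpow : (1 / (ρ:ℝ)) ^ D ≤ 1 / (ρ:ℝ) ^ 2 := by
      rw [one_div_pow]
      apply one_div_le_one_div_of_le (by positivity)
      exact pow_le_pow_right₀ hρ1 hD
    apply mul_le_mul hpow _ (Finset.sum_nonneg (fun h _ => wt_nonneg h)) (by positivity)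
    refine hb.trans ?_
    apply mul_le_mul_of_nonneg_left _ (Nat.cast_nonneg _)
    simp only [Finset.prod_const, Finset.card_univ, Fintype.card_fin]
    have hlog : 0 ≤ Real.log ((B:ℝ) / A) := by
      apply Real.log_nonneg
      rw [le_div_iff₀ hA', one_mul]
      exact_mod_cast hAltB.le
    have e3 : (B:ℝ) / ρ / (A / ρ) = B / A := by field_simp
    rw [e3]
    apply pow_le_pow_left₀ (by positivity)
    apply add_le_add _ le_rfl
    rw [one_div_div]
    have : (ρ:ℝ) ≤ ρ0 := by exact_mod_cast hle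
    gcongr
  have hlarge : ∀ ρ ∈ Finset.Ico 2 B, (1 / (ρ:ℝ)) ^ D * ∑ l ∈ Bx ρ, wt l ≤ 1 / (ρ:ℝ) ^ 2 * (1 + Real.log B) ^ D := by
    intro ρ hρ
    have hρ2 := (Finset.mem_Ico.mp hρ).1
    have hρ' : (0:ℝ) < ρ := by exact_mod_cast (by omega : 0 < ρ)
    have hρ1 : (1:ℝ) ≤ ρ := by exact_mod_cast (by omega : 1 ≤ ρ)
    have hpow : (1 / (ρ:ℝ)) ^ D ≤ 1 / (ρ:ℝ) ^ 2 := by
      rw [one_div_pow]
      apply one_div_le_one_div_of_le (by positivity)
      exact pow_le_pow_right₀ hρ1 hD
    apply mul_le_mul hpow _ (Finset.sum_nonneg (fun h _ => wt_nonneg h)) (by positivity)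
    refine le_trans ?_ (full_upper (D := D) B (by omega))
    apply Finset.sum_le_sum_of_subset_of_nonneg
    · intro l hl
      rw [hBx] at hl
      simp only [Finset.mem_filter, Fintype.mem_piFinset] at hl
      rw [Fintype.mem_piFinset]
      intro i
      exact (hl.1 i).1
    · intro h _ _
      exact wt_nonneg h
  have hpos1 : 0 ≤ (P.card : ℝ) * (ρ0 / A + 1 / g * Real.log (B / A)) ^ D := by
    have hlog : 0 ≤ Real.log ((B:ℝ) / A) := by
      apply Real.log_nonneg
      rw [le_div_iff₀ hA', one_mul]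
      exact_mod_cast hAltB.le
    positivity
  have hpos2 : 0 ≤ (1 + Real.log (B:ℝ)) ^ D := by positivity
  calc ∑ ρ ∈ Finset.Ico 2 B, (1 / (ρ:ℝ)) ^ D * ∑ l ∈ Bx ρ, wt l
      ≤ ∑ ρ ∈ Finset.Ico 2 B, (1 / (ρ:ℝ) ^ 2 * (P.card * (ρ0 / A + 1 / g * Real.log (B / A)) ^ D)
        + if ρ ∈ Finset.Ico (ρ0 + 1) B then 1 / (ρ:ℝ) ^ 2 * (1 + Real.log B) ^ D else 0) := by
        apply Finset.sum_le_sum
        intro ρ hρ
        by_cases hle : ρ ≤ ρ0
        · have h2 := hsmall ρ hρ hle
          have h3 : (0:ℝ) ≤ if ρ ∈ Finset.Ico (ρ0 + 1) B then 1 / (ρ:ℝ) ^ 2 * (1 + Real.log B) ^ D else 0 := by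
            split_ifs
            · positivity
            · exact le_rfl
          linarith
        · have h2 := hlarge ρ hρ
          have h3 : ρ ∈ Finset.Ico (ρ0 + 1) B := by
            rw [Finset.mem_Ico] at hρ ⊢
            omega
          rw [if_pos h3]
          have h4 : 0 ≤ 1 / (ρ:ℝ) ^ 2 * (P.card * (ρ0 / A + 1 / g * Real.log (B / A)) ^ D) := by positivity
          linarith
    _ = (∑ ρ ∈ Finset.Ico 2 B, 1 / (ρ:ℝ) ^ 2) * (P.card * (ρ0 / A + 1 / g * Real.log (B / A)) ^ D)
        + (∑ ρ ∈ Finset.Ico (ρ0 + 1) B, 1 / (ρ:ℝ) ^ 2) * (1 + Real.log B) ^ D := by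
        rw [Finset.sum_add_distrib, ← Finset.sum_mul, Finset.sum_ite_mem, Finset.inter_eq_right.mpr, ← Finset.sum_mul]
        intro ρ hρ
        rw [Finset.mem_Ico] at hρ ⊢
        omega
    _ ≤ 3 / 4 * (P.card * (ρ0 / A + 1 / g * Real.log (B / A)) ^ D) + 1 / ρ0 * (1 + Real.log B) ^ D := by
        apply add_le_add
        · exact mul_le_mul_of_nonneg_right (sum_sq_two B) hpos1
        · exact mul_le_mul_of_nonneg_right (sum_sq_tail ρ0 B (by omega)) hpos2

end Pool.Agent.H89.Disc
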