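import Mathlib
import Pool.Agent.H89.Count
import Pool.Agent.H89.Sums2

open Finset

namespace Pool.Agent.H89.Disc

/-- the residues mod `g` of the projected dual lattice -/
def PL {D : ℕ} (g : ℕ) [NeZero g] (av : Fin D → ℕ) : Finset (Fin D → ZMod g) :=
  univ.filter (fun r => ∑ i, r i * (av i : ZMod g) = 0)

lemma res_mem_PL {D : ℕ} {g : ℕ} [NeZero g] {av : Fin D → ℕ} {h : Fin D → ℕ} :
    res g h ∈ PL g av ↔ g ∣ ∑ i, h i * av i := by
  unfold PL res
  rw [Finset.mem_filter]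
  simp only [Finset.mem_univ, true_and]
  rw [← ZMod.natCast_eq_zero_iff]
  push_cast
  rfl

/-- the constant `c_h` -/
def cc {D : ℕ} (g M : ℕ) (av : Fin D → ℕ) (h : Fin D → ℕ) : ZMod M := (((∑ i, h i * av i) / g : ℕ) : ZMod M)

/-- the dual vector over `h` -/
def dv {D M : ℕ} (u : (ZMod M)ˣ) (g : ℕ) (av : Fin D → ℕ) (y : Fin D → ZMod M) (h : Fin D → ℕ) : Fin (D + 1) → ℤ :=
  Fin.cons (zf u (cc g M av h) h y).valMinAbs (fun i => (h i : ℤ))

lemma dv_dual {D g M N : ℕ} [NeZero g] [NeZero M] (hN : N = g * M) (u : (ZMod M)ˣ) (α0 : ℕ)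
    (hu : (u : ZMod M) * (α0 : ZMod M) = -1) (av : Fin D → ℕ) (y : Fin D → ZMod M) (a : Fin (D + 1) → ℕ)
    (ha0 : ((a 0 : ℕ) : ZMod N) = ((g * α0 : ℕ) : ZMod N))
    (ha : ∀ i : Fin D, ((a i.succ : ℕ) : ZMod N) = ((av i + g * (y i).val : ℕ) : ZMod N))
    (h : Fin D → ℕ) (hh : res g h ∈ PL g av) :
    ((∑ i, dv u g av y h i * (a i : ℤ) : ℤ) : ZMod N) = 0 := by
  rw [res_mem_PL] at hh
  obtain ⟨C, hC⟩ := hh
  have hg : 0 < g := Nat.pos_of_ne_zero (NeZero.ne g)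
  have hcc : cc g M av h = (C : ZMod M) := by
    unfold cc
    rw [hC, Nat.mul_div_cancel_left _ hg]
  set z : ℤ := (zf u (cc g M av h) h y).valMinAbs with hz
  have hz' : ((z : ℤ) : ZMod M) = (u : ZMod M) * ((C : ZMod M) + ∑ i, (h i : ZMod M) * y i) := by
    rw [hz, ZMod.coe_valMinAbs, zf, hcc]
  have e1 : ((∑ i, dv u g av y h i * (a i : ℤ) : ℤ) : ZMod N) =
      ((g * (z * α0 + C + ∑ i, (h i : ℤ) * ((y i).val : ℤ)) : ℤ) : ZMod N) := by
    rw [Fin.sum_univ_succ]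
    unfold dv
    simp only [Fin.cons_zero, Fin.cons_succ]
    push_cast
    rw [ha0]
    have e2 : ∑ i : Fin D, (h i : ZMod N) * ((a i.succ : ℕ) : ZMod N) = ((∑ i, h i * av i : ℕ) : ZMod N) + (g : ZMod N) * ∑ i, (h i : ZMod N) * ((y i).val : ZMod N) := by
      rw [Finset.mul_sum]
      push_cast
      rw [← Finset.sum_add_distrib]
      apply Finset.sum_congr rfl
      intro i _
      rw [ha i]
      push_cast
      ring
    rw [e2, hC]
    push_cast
    ring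
  rw [e1]
  have h2 : ((z * α0 + C + ∑ i, (h i : ℤ) * ((y i).val : ℤ) : ℤ) : ZMod M) = 0 := by
    push_cast
    rw [hz']
    have e3 : ∑ i : Fin D, (h i : ZMod M) * (((y i).val : ℕ) : ZMod M) = ∑ i, (h i : ZMod M) * y i := by
      apply Finset.sum_congr rfl
      intro i _
      rw [ZMod.natCast_val, ZMod.cast_id]
    rw [e3]
    linear_combination ((C : ZMod M) + ∑ i, (h i : ZMod M) * y i) * hu
  rw [ZMod.intCast_zmod_eq_zero_iff_dvd] at h2 ⊢
  obtain ⟨k, hk⟩ := h2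
  rw [hk, hN]
  exact ⟨k, by push_cast; ring⟩

/-- level sets -/
noncomputable def Lv {D : ℕ} (g M N : ℕ) [NeZero M] (u : (ZMod M)ˣ) (av : Fin D → ℕ) (h : Fin D → ℕ) (t : ℝ) :
    Finset (Fin D → ZMod M) :=
  univ.filter (fun y => za (zf u (cc g M av h) h y) ≤ ⌊N * wt h / t⌋₊)

lemma card_Ω (D M : ℕ) [NeZero M] : (Fintype.card (Fin D → ZMod M) : ℝ) = (M:ℝ) ^ D := by
  rw [Fintype.card_fun, ZMod.card, Fintype.card_fin]
  push_cast
  rfl

lemma Lv_upper {D g M N : ℕ} [NeZero M] (hN : N = g * M) (u : (ZMod M)ˣ) (av h : Fin D → ℕ) (t : ℝ) (ht : 0 < t)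
    (i : Fin D) (hi : 0 < h i) (η : ℝ) (hη : (h i : ℝ) * t ≤ η * (2 * (N * wt h))) :
    t * (Lv g M N u av h t).card ≤ (1 + η) * (2 * g * wt h) * Fintype.card (Fin D → ZMod M) := by
  have hM : (0:ℝ) < M := by exact_mod_cast Nat.pos_of_ne_zero (NeZero.ne M)
  rw [card_Ω]
  have h1 := F1_upper u (cc g M av h) h i hi ⌊N * wt h / t⌋₊
  have h2 : ((Lv g M N u av h t).card : ℝ) * M ≤ (M:ℝ) ^ D * (2 * (⌊N * wt h / t⌋₊ : ℝ) + h i) := by
    exact_mod_cast h1
  have h3 : (⌊N * wt h / t⌋₊ : ℝ) ≤ N * wt h / t := Nat.floor_le (by have := wt_nonneg h; positivity)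
  have h4 : t * ((Lv g M N u av h t).card : ℝ) * M ≤ (M:ℝ) ^ D * (2 * (N * wt h) + h i * t) := by
    calc t * ((Lv g M N u av h t).card : ℝ) * M = t * (((Lv g M N u av h t).card : ℝ) * M) := by ring
      _ ≤ t * ((M:ℝ) ^ D * (2 * (⌊N * wt h / t⌋₊ : ℝ) + h i)) := mul_le_mul_of_nonneg_left h2 ht.le
      _ ≤ t * ((M:ℝ) ^ D * (2 * (N * wt h / t) + h i)) := by gcongr
      _ = _ := by field_simp
  have h5 : (M:ℝ) ^ D * (2 * (N * wt h) + h i * t) ≤ (M:ℝ) ^ D * ((1 + η) * (2 * (N * wt h))) := by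
    apply mul_le_mul_of_nonneg_left _ (by positivity)
    linarith
  have hN' : (N:ℝ) = g * M := by rw [hN]; push_cast; ring
  have h6 : (M:ℝ) ^ D * ((1 + η) * (2 * (N * wt h))) = ((1 + η) * (2 * g * wt h) * (M:ℝ) ^ D) * M := by
    rw [hN']; ring
  rw [h6] at h5
  exact le_of_mul_le_mul_right (h4.trans h5) hM

lemma Lv_lower {D g M N : ℕ} [NeZero M] (hN : N = g * M) (u : (ZMod M)ˣ) (av h : Fin D → ℕ) (t : ℝ) (ht : 0 < t)
    (i : Fin D) (hi : 0 < h i) (η : ℝ) (hη : (h i : ℝ) * t ≤ η * (2 * (N * wt h)))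
    (hsm : 2 * (N * wt h / t) + 1 ≤ M) :
    (1 - η) * (2 * g * wt h) * Fintype.card (Fin D → ZMod M) ≤ t * (Lv g M N u av h t).card := by
  have hM : (0:ℝ) < M := by exact_mod_cast Nat.pos_of_ne_zero (NeZero.ne M)
  rw [card_Ω]
  have h3 : (⌊N * wt h / t⌋₊ : ℝ) ≤ N * wt h / t := Nat.floor_le (by have := wt_nonneg h; positivity)
  have h1 := F1_lower u (cc g M av h) h i hi ⌊N * wt h / t⌋₊ (by
    have : (2 * (⌊N * wt h / t⌋₊ : ℝ) + 1) ≤ M := by linarith
    exact_mod_cast this)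
  have h2 : (M:ℝ) ^ D * (2 * (⌊N * wt h / t⌋₊ : ℝ) + 2) ≤ ((Lv g M N u av h t).card : ℝ) * M + (M:ℝ) ^ D * h i := by
    exact_mod_cast h1
  have h4 : N * wt h / t < (⌊N * wt h / t⌋₊ : ℝ) + 1 := Nat.lt_floor_add_one _
  have hMD : (0:ℝ) < (M:ℝ) ^ D := by positivity
  have h5 : (M:ℝ) ^ D * (2 * (N * wt h / t)) ≤ ((Lv g M N u av h t).card : ℝ) * M + (M:ℝ) ^ D * h i := by
    refine le_trans ?_ h2
    apply mul_le_mul_of_nonneg_left _ hMD.le
    linarith
  have h6 : (M:ℝ) ^ D * (2 * (N * wt h) - h i * t) ≤ t * ((Lv g M N u av h t).card : ℝ) * M := by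
    have h7 := mul_le_mul_of_nonneg_left h5 ht.le
    have e : t * ((M:ℝ) ^ D * (2 * (N * wt h / t))) = (M:ℝ) ^ D * (2 * (N * wt h)) := by field_simp
    rw [e] at h7
    nlinarith
  have hN' : (N:ℝ) = g * M := by rw [hN]; push_cast; ring
  have h8 : ((1 - η) * (2 * g * wt h) * (M:ℝ) ^ D) * M = (M:ℝ) ^ D * ((1 - η) * (2 * (N * wt h))) := by
    rw [hN']; ring
  have h9 : (M:ℝ) ^ D * ((1 - η) * (2 * (N * wt h))) ≤ (M:ℝ) ^ D * (2 * (N * wt h) - h i * t) := by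
    apply mul_le_mul_of_nonneg_left _ hMD.le
    linarith
  exact le_of_mul_le_mul_right (by rw [h8]; exact h9.trans h6) hM

lemma Lv_pair {D g M N : ℕ} [NeZero M] (hN : N = g * M) (u : (ZMod M)ˣ) (av h h' : Fin D → ℕ) (t t' : ℝ)
    (ht : 0 < t) (ht' : 0 < t') (i j : Fin D) (hij : (h i : ℤ) * h' j - h j * h' i ≠ 0) (η : ℝ) (hη0 : 0 ≤ η)
    (hη : (((h i : ℤ) * h' j - h j * h' i).natAbs : ℝ) * t ≤ η * (2 * (N * wt h)))
    (hη' : (((h i : ℤ) * h' j - h j * h' i).natAbs : ℝ) * t' ≤ η * (2 * (N * wt h'))) :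
    t * t' * (Lv g M N u av h t ∩ Lv g M N u av h' t').card ≤
      (1 + η) ^ 2 * ((2 * g * wt h) * (2 * g * wt h')) * Fintype.card (Fin D → ZMod M) := by
  have hM : (0:ℝ) < M := by exact_mod_cast Nat.pos_of_ne_zero (NeZero.ne M)
  rw [card_Ω]
  have h1 := F2_upper u (cc g M av h) (cc g M av h') h h' i j hij ⌊N * wt h / t⌋₊ ⌊N * wt h' / t'⌋₊
  have hint : Lv g M N u av h t ∩ Lv g M N u av h' t' =
      univ.filter (fun y : Fin D → ZMod M => za (zf u (cc g M av h) h y) ≤ ⌊N * wt h / t⌋₊ ∧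
        za (zf u (cc g M av h') h' y) ≤ ⌊N * wt h' / t'⌋₊) := by
    unfold Lv
    rw [← Finset.filter_and]
  rw [← hint] at h1
  set Δ : ℝ := (((h i : ℤ) * h' j - h j * h' i).natAbs : ℝ) with hΔ
  have hΔ0 : 0 ≤ Δ := Nat.cast_nonneg _
  have h2 : ((Lv g M N u av h t ∩ Lv g M N u av h' t').card : ℝ) * M ^ 2 ≤
      (M:ℝ) ^ D * ((2 * (⌊N * wt h / t⌋₊ : ℝ) + Δ) * (2 * (⌊N * wt h' / t'⌋₊ : ℝ) + Δ)) := by
    rw [hΔ]
    exact_mod_cast h1
  have hw := wt_nonneg h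
  have hw' := wt_nonneg h'
  have h3 : (⌊N * wt h / t⌋₊ : ℝ) ≤ N * wt h / t := Nat.floor_le (by positivity)
  have h3' : (⌊N * wt h' / t'⌋₊ : ℝ) ≤ N * wt h' / t' := Nat.floor_le (by positivity)
  have h4 : t * (2 * (⌊N * wt h / t⌋₊ : ℝ) + Δ) ≤ (1 + η) * (2 * (N * wt h)) := by
    have : t * (2 * (N * wt h / t)) = 2 * (N * wt h) := by field_simp
    nlinarith
  have h4' : t' * (2 * (⌊N * wt h' / t'⌋₊ : ℝ) + Δ) ≤ (1 + η) * (2 * (N * wt h')) := by
    have : t' * (2 * (N * wt h' / t')) = 2 * (N * wt h') := by field_simp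
    nlinarith
  have h5 : t * t' * ((Lv g M N u av h t ∩ Lv g M N u av h' t').card : ℝ) * M ^ 2 ≤
      (M:ℝ) ^ D * (((1 + η) * (2 * (N * wt h))) * ((1 + η) * (2 * (N * wt h')))) := by
    calc _ = (t * t') * (((Lv g M N u av h t ∩ Lv g M N u av h' t').card : ℝ) * M ^ 2) := by ring
      _ ≤ (t * t') * ((M:ℝ) ^ D * ((2 * (⌊N * wt h / t⌋₊ : ℝ) + Δ) * (2 * (⌊N * wt h' / t'⌋₊ : ℝ) + Δ))) :=
          mul_le_mul_of_nonneg_left h2 (by positivity)
      _ = (M:ℝ) ^ D * ((t * (2 * (⌊N * wt h / t⌋₊ : ℝ) + Δ)) * (t' * (2 * (⌊N * wt h' / t'⌋₊ : ℝ) + Δ))) := by ring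
      _ ≤ _ := by
          apply mul_le_mul_of_nonneg_left _ (by positivity)
          apply mul_le_mul h4 h4' (by positivity) (by positivity)
  have hN' : (N:ℝ) = g * M := by rw [hN]; push_cast; ring
  have h6 : (M:ℝ) ^ D * (((1 + η) * (2 * (N * wt h))) * ((1 + η) * (2 * (N * wt h')))) =
      ((1 + η) ^ 2 * ((2 * g * wt h) * (2 * g * wt h')) * (M:ℝ) ^ D) * M ^ 2 := by
    rw [hN']; ring
  rw [h6] at h5
  exact le_of_mul_le_mul_right h5 (by positivity)

/-- distinct primitive vectors are not parallel -/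
lemma prim_nonparallel {D g : ℕ} [NeZero g] (hD : 0 < D) (av : Fin D → ℕ) (h h' : Fin D → ℕ)
    (hpos : ∀ i, 0 < h i) (hpos' : ∀ i, 0 < h' i)
    (hP : res g h ∈ PL g av) (hP' : res g h' ∈ PL g av)
    (hpr : Prim g (PL g av) h) (hpr' : Prim g (PL g av) h') (hne : h ≠ h') :
    ∃ i j, (h i : ℤ) * h' j - h j * h' i ≠ 0 := by
  by_contra hcon
  push Not at hcon
  have hpar : ∀ i j, h i * h' j = h j * h' i := by
    intro i j
    have := hcon i j
    have h1 : ((h i : ℤ) * h' j) = (h j * h' i) := by linarith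
    exact_mod_cast h1
  set i0 : Fin D := ⟨0, hD⟩ with hi0
  set e : ℕ := Nat.gcd (h i0) (h' i0) with he
  have hepos : 0 < e := Nat.gcd_pos_of_pos_left _ (hpos i0)
  obtain ⟨p, hp⟩ : e ∣ h i0 := Nat.gcd_dvd_left _ _
  obtain ⟨q, hq⟩ : e ∣ h' i0 := Nat.gcd_dvd_right _ _
  have hcop : Nat.Coprime p q := by
    have h1 := Nat.coprime_div_gcd_div_gcd (m := h i0) (n := h' i0) hepos
    rw [← he] at h1
    have e1 : h i0 / e = p := by rw [hp, Nat.mul_div_cancel_left _ hepos]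
    have e2 : h' i0 / e = q := by rw [hq, Nat.mul_div_cancel_left _ hepos]
    rwa [e1, e2] at h1
  have hppos : 0 < p := by
    rcases Nat.eq_zero_or_pos p with h1 | h1
    · have := hpos i0
      rw [hp, h1] at this
      omega
    · exact h1
  have hqpos : 0 < q := by
    rcases Nat.eq_zero_or_pos q with h1 | h1
    · have := hpos' i0
      rw [hq, h1] at this
      omega
    · exact h1
  -- p h'_i = q h_i
  have hrel : ∀ i, p * h' i = q * h i := by
    intro i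
    have h1 := hpar i0 i
    rw [hp, hq] at h1
    have h2 : e * (p * h' i) = e * (q * h i) := by
      calc e * (p * h' i) = e * p * h' i := by ring
        _ = h i * (e * q) := h1
        _ = e * (q * h i) := by ring
    exact Nat.eq_of_mul_eq_mul_left hepos h2
  have hdvd : ∀ i, p ∣ h i := by
    intro i
    apply hcop.dvd_of_dvd_mul_left
    exact ⟨h' i, (hrel i).symm⟩
  choose l hl using hdvd
  have hl' : ∀ i, h' i = q * l i := by
    intro i
    have h1 := hrel i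
    rw [hl i] at h1
    have h2 : p * h' i = p * (q * l i) := by rw [h1]; ring
    exact Nat.eq_of_mul_eq_mul_left hppos h2
  -- l has residues in PL
  have hlP : res g l ∈ PL g av := by
    unfold PL res at hP hP' ⊢
    rw [Finset.mem_filter] at hP hP' ⊢
    refine ⟨Finset.mem_univ _, ?_⟩
    set S : ZMod g := ∑ i, (l i : ZMod g) * (av i : ZMod g) with hS
    have h1 : (p : ZMod g) * S = 0 := by
      rw [← hP.2, hS, Finset.mul_sum]
      apply Finset.sum_congr rfl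
      intro i _
      show _ = ((h i : ℕ) : ZMod g) * _
      rw [hl i]
      push_cast
      ring
    have h2 : (q : ZMod g) * S = 0 := by
      rw [← hP'.2, hS, Finset.mul_sum]
      apply Finset.sum_congr rfl
      intro i _
      show _ = ((h' i : ℕ) : ZMod g) * _
      rw [hl' i]
      push_cast
      ring
    have h3 := Nat.gcd_eq_gcd_ab p q
    rw [hcop.gcd_eq_one] at h3
    have h4 : (1 : ZMod g) = (p : ZMod g) * (Nat.gcdA p q : ZMod g) + (q : ZMod g) * (Nat.gcdB p q : ZMod g) := by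
      have := congrArg (fun x : ℤ => (x : ZMod g)) h3
      push_cast at this
      exact this
    calc S = 1 * S := by ring
      _ = (Nat.gcdA p q : ZMod g) * ((p : ZMod g) * S) + (Nat.gcdB p q : ZMod g) * ((q : ZMod g) * S) := by
          rw [h4]; ring
      _ = 0 := by rw [h1, h2]; ring
  have hp1 : p = 1 := by
    by_contra hp1
    apply hpr
    exact ⟨p, l, by omega, hlP, funext hl⟩
  have hq1 : q = 1 := by
    by_contra hq1
    apply hpr'
    exact ⟨q, l, by omega, hlP, funext hl'⟩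
  apply hne
  funext i
  rw [hl i, hl' i, hp1, hq1]

/-- the weights are dominated by `2 N / (|z| ∏ h_i)` -/
lemma geom_levels (J : ℕ) (t0 x : ℝ) (ht0 : 0 < t0) (hx : 0 ≤ x) :
    ∑ j ∈ Finset.range J, (if t0 * 2 ^ j ≤ x then t0 * 2 ^ j else 0) ≤ 2 * x := by
  induction J with
  | zero => simp; exact hx
  | succ J ih =>
    rw [Finset.sum_range_succ]
    by_cases h : t0 * 2 ^ J ≤ x
    · rw [if_pos h]
      have h1 : ∑ j ∈ Finset.range J, (if t0 * 2 ^ j ≤ x then t0 * 2 ^ j else 0) ≤ ∑ j ∈ Finset.range J, t0 * 2 ^ j := by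
        apply Finset.sum_le_sum
        intro j _
        split_ifs
        · exact le_rfl
        · positivity
      have h2 : ∑ j ∈ Finset.range J, t0 * (2:ℝ) ^ j = t0 * (2 ^ J - 1) := by
        rw [← Finset.mul_sum, geom_sum_eq (by norm_num)]
        norm_num
      rw [h2] at h1
      linarith
    · rw [if_neg h, add_zero]
      exact ih

end Pool.Agent.H89.Disc
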