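import Mathlib

open Finset

namespace Pool.Agent.H89.Disc

/-- Chebyshev for the lower tail -/
lemma cheb {Ω : Type*} [Fintype Ω] (Z : Ω → ℝ) (v η : ℝ) (hv : 0 < v)
    (h1 : (1 - η) * v * Fintype.card Ω ≤ ∑ ω, Z ω)
    (h2 : ∑ ω, (Z ω) ^ 2 ≤ (1 + η) * v ^ 2 * Fintype.card Ω) :
    ((univ.filter (fun ω => Z ω < v / 2)).card : ℝ) ≤ 12 * η * Fintype.card Ω := by
  classical
  have h3 : ∑ ω, (Z ω - v) ^ 2 ≤ 3 * η * v ^ 2 * Fintype.card Ω := by
    have e : ∑ ω, (Z ω - v) ^ 2 = ∑ ω, (Z ω) ^ 2 - 2 * v * ∑ ω, Z ω + v ^ 2 * Fintype.card Ω := by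
      have : ∀ ω, (Z ω - v) ^ 2 = (Z ω) ^ 2 - 2 * v * Z ω + v ^ 2 := fun ω => by ring
      simp_rw [this]
      rw [Finset.sum_add_distrib, Finset.sum_sub_distrib, ← Finset.mul_sum]
      simp
      ring
    rw [e]
    nlinarith
  have h4 : (v / 2) ^ 2 * ((univ.filter (fun ω => Z ω < v / 2)).card : ℝ) ≤ ∑ ω, (Z ω - v) ^ 2 := by
    calc (v / 2) ^ 2 * ((univ.filter (fun ω => Z ω < v / 2)).card : ℝ)
        = ∑ ω ∈ univ.filter (fun ω => Z ω < v / 2), (v / 2) ^ 2 := by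
          rw [Finset.sum_const, nsmul_eq_mul]
          ring
      _ ≤ ∑ ω ∈ univ.filter (fun ω => Z ω < v / 2), (Z ω - v) ^ 2 := by
          apply Finset.sum_le_sum
          intro ω hω
          have := (Finset.mem_filter.mp hω).2
          nlinarith
      _ ≤ ∑ ω, (Z ω - v) ^ 2 := by
          apply Finset.sum_le_sum_of_subset_of_nonneg (Finset.filter_subset _ _)
          intro ω _ _
          positivity
  have h5 : v ^ 2 * ((univ.filter (fun ω => Z ω < v / 2)).card : ℝ) ≤ v ^ 2 * (12 * η * Fintype.card Ω) := by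
    nlinarith
  exact le_of_mul_le_mul_left h5 (by positivity)

section core

variable {Ω : Type*} [Fintype Ω] [DecidableEq Ω] {ι : Type*} [DecidableEq ι]

/-- the truncated weight -/
noncomputable def Wt (J : ℕ) (τ : ℕ → ℝ) (E : ι → ℕ → Finset Ω) (h : ι) (ω : Ω) : ℝ :=
  ∑ j ∈ Finset.range J, if ω ∈ E h j then τ j else 0

omit [Fintype Ω] [DecidableEq ι] in
lemma Wt_nonneg (J : ℕ) (τ : ℕ → ℝ) (hτ : ∀ j, 0 < τ j) (E : ι → ℕ → Finset Ω) (h : ι) (ω : Ω) :
    0 ≤ Wt J τ E h ω := by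
  apply Finset.sum_nonneg
  intro j _
  split_ifs
  · exact (hτ j).le
  · exact le_rfl

omit [DecidableEq ι] in
lemma sum_Wt (J : ℕ) (τ : ℕ → ℝ) (E : ι → ℕ → Finset Ω) (h : ι) :
    ∑ ω, Wt J τ E h ω = ∑ j ∈ Finset.range J, τ j * (E h j).card := by
  unfold Wt
  rw [Finset.sum_comm]
  apply Finset.sum_congr rfl
  intro j _
  rw [Finset.sum_ite_mem, Finset.univ_inter, Finset.sum_const, nsmul_eq_mul, mul_comm]

omit [DecidableEq ι] in
lemma sum_Wt_mul (J : ℕ) (τ : ℕ → ℝ) (E : ι → ℕ → Finset Ω) (h h' : ι) :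
    ∑ ω, Wt J τ E h ω * Wt J τ E h' ω =
      ∑ j ∈ Finset.range J, ∑ j' ∈ Finset.range J, τ j * τ j' * (E h j ∩ E h' j').card := by
  unfold Wt
  simp_rw [Finset.sum_mul_sum]
  rw [Finset.sum_comm]
  apply Finset.sum_congr rfl
  intro j _
  rw [Finset.sum_comm]
  apply Finset.sum_congr rfl
  intro j' _
  have : ∀ ω, ((if ω ∈ E h j then τ j else 0) * (if ω ∈ E h' j' then τ j' else 0) : ℝ) =
      if ω ∈ E h j ∩ E h' j' then τ j * τ j' else 0 := by
    intro ω
    by_cases h1 : ω ∈ E h j <;> by_cases h2 : ω ∈ E h' j' <;> simp [Finset.mem_inter, h1, h2]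
  simp_rw [this]
  rw [Finset.sum_ite_mem, Finset.univ_inter, Finset.sum_const, nsmul_eq_mul, mul_comm]

/-- the second moment bound -/
lemma second_moment (H : Finset ι) (J : ℕ) (τ : ℕ → ℝ) (hτ : ∀ j, 0 < τ j) (E : ι → ℕ → Finset Ω)
    (b : ι → ℝ) (hb : ∀ h ∈ H, 0 ≤ b h) (η : ℝ) (hη : 0 ≤ η)
    (U1 : ∀ h ∈ H, ∀ j < J, τ j * (E h j).card ≤ (1 + η) * b h * Fintype.card Ω)
    (U2 : ∀ h ∈ H, ∀ h' ∈ H, h ≠ h' → ∀ j < J, ∀ j' < J,
      τ j * τ j' * (E h j ∩ E h' j').card ≤ (1 + η) * (b h * b h') * Fintype.card Ω) :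
    ∑ ω, (∑ h ∈ H, Wt J τ E h ω) ^ 2 ≤ (1 + η) * (J * ∑ h ∈ H, b h) ^ 2 * Fintype.card Ω +
      (1 + η) * (∑ j ∈ Finset.range J, τ j) * (J * ∑ h ∈ H, b h) * Fintype.card Ω := by
  classical
  set n : ℝ := (Fintype.card Ω : ℝ) with hn
  have hn0 : 0 ≤ n := by rw [hn]; positivity
  set T : ℝ := ∑ j ∈ Finset.range J, τ j with hT
  have hT0 : 0 ≤ T := Finset.sum_nonneg (fun j _ => (hτ j).le)
  have e1 : ∑ ω, (∑ h ∈ H, Wt J τ E h ω) ^ 2 = ∑ h ∈ H, ∑ h' ∈ H, ∑ ω, Wt J τ E h ω * Wt J τ E h' ω := by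
    simp_rw [sq, Finset.sum_mul_sum]
    rw [Finset.sum_comm]
    apply Finset.sum_congr rfl
    intro h _
    rw [Finset.sum_comm]
  rw [e1]
  have hdiag : ∀ h ∈ H, ∑ ω, Wt J τ E h ω * Wt J τ E h ω ≤ (1 + η) * T * (J * b h) * n := by
    intro h hh
    have h1 : ∀ ω, Wt J τ E h ω ≤ T := by
      intro ω
      apply Finset.sum_le_sum
      intro j _
      split_ifs
      · exact le_rfl
      · exact (hτ j).le
    calc ∑ ω, Wt J τ E h ω * Wt J τ E h ω ≤ ∑ ω, T * Wt J τ E h ω := by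
          apply Finset.sum_le_sum
          intro ω _
          exact mul_le_mul_of_nonneg_right (h1 ω) (Wt_nonneg J τ hτ E h ω)
      _ = T * ∑ j ∈ Finset.range J, τ j * (E h j).card := by
          rw [← Finset.mul_sum, sum_Wt]
      _ ≤ T * ∑ j ∈ Finset.range J, (1 + η) * b h * n := by
          apply mul_le_mul_of_nonneg_left _ hT0
          apply Finset.sum_le_sum
          intro j hj
          exact U1 h hh j (Finset.mem_range.mp hj)
      _ = (1 + η) * T * (J * b h) * n := by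
          rw [Finset.sum_const, Finset.card_range, nsmul_eq_mul]
          ring
  have hoff : ∀ h ∈ H, ∀ h' ∈ H, h ≠ h' → ∑ ω, Wt J τ E h ω * Wt J τ E h' ω ≤ (1 + η) * (J * b h) * (J * b h') * n := by
    intro h hh h' hh' hne
    rw [sum_Wt_mul]
    calc ∑ j ∈ Finset.range J, ∑ j' ∈ Finset.range J, τ j * τ j' * (E h j ∩ E h' j').card
        ≤ ∑ j ∈ Finset.range J, ∑ j' ∈ Finset.range J, (1 + η) * (b h * b h') * n := by
          apply Finset.sum_le_sum
          intro j hj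
          apply Finset.sum_le_sum
          intro j' hj'
          exact U2 h hh h' hh' hne j (Finset.mem_range.mp hj) j' (Finset.mem_range.mp hj')
      _ = _ := by
          simp only [Finset.sum_const, Finset.card_range, nsmul_eq_mul]
          ring
  have h3 : ∀ h ∈ H, ∑ h' ∈ H, ∑ ω, Wt J τ E h ω * Wt J τ E h' ω ≤
      (1 + η) * T * (J * b h) * n + ∑ h' ∈ H, (1 + η) * (J * b h) * (J * b h') * n := by
    intro h hh
    have h4 : ∀ h' ∈ H, ∑ ω, Wt J τ E h ω * Wt J τ E h' ω ≤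
        (if h' = h then (1 + η) * T * (J * b h) * n else 0) + (1 + η) * (J * b h) * (J * b h') * n := by
      intro h' hh'
      have hpos : 0 ≤ (1 + η) * (J * b h) * (J * b h') * n := by
        have := hb h hh
        have := hb h' hh'
        positivity
      by_cases he : h' = h
      · rw [if_pos he, he]
        rw [he] at hpos
        have := hdiag h hh
        linarith
      · rw [if_neg he, zero_add]
        exact hoff h hh h' hh' (fun h => he h.symm)
    refine (Finset.sum_le_sum h4).trans ?_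
    rw [Finset.sum_add_distrib, Finset.sum_ite_eq' H h, if_pos hh]
  refine (Finset.sum_le_sum h3).trans (le_of_eq ?_)
  rw [Finset.sum_add_distrib]
  have e2 : ∑ h ∈ H, (1 +  η) * T * (J * b h) * n = (1 + η) * T * (J * ∑ h ∈ H, b h) * n := by
    rw [Finset.mul_sum H b (J:ℝ), Finset.mul_sum H _ ((1 + η) * T), Finset.sum_mul]
  have e3 : ∑ h ∈ H, ∑ h' ∈ H, (1 + η) * (J * b h) * (J * b h') * n = (1 + η) * (J * ∑ h ∈ H, b h) ^ 2 * n := by
    rw [sq, Finset.mul_sum, Finset.sum_mul_sum, Finset.mul_sum, Finset.sum_mul]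
    apply Finset.sum_congr rfl
    intro h _
    rw [Finset.mul_sum, Finset.sum_mul]
    apply Finset.sum_congr rfl
    intro h' _
    ring
  rw [e2, e3]
  ring

/-- the total weight is large with high probability -/
lemma lower_tail (H : Finset ι) (J : ℕ) (τ : ℕ → ℝ) (hτ : ∀ j, 0 < τ j) (E : ι → ℕ → Finset Ω)
    (b : ι → ℝ) (hb : ∀ h ∈ H, 0 ≤ b h) (η : ℝ) (hη : 0 ≤ η) (hη1 : η ≤ 1)
    (U1 : ∀ h ∈ H, ∀ j < J, τ j * (E h j).card ≤ (1 + η) * b h * Fintype.card Ω)
    (U2 : ∀ h ∈ H, ∀ h' ∈ H, h ≠ h' → ∀ j < J, ∀ j' < J,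
      τ j * τ j' * (E h j ∩ E h' j').card ≤ (1 + η) * (b h * b h') * Fintype.card Ω)
    (v : ℝ) (hv : v = J * ∑ h ∈ H, b h) (hv0 : 0 < v)
    (hL : (1 - η) * v * Fintype.card Ω ≤ ∑ h ∈ H, ∑ j ∈ Finset.range J, τ j * (E h j).card)
    (hT : ∑ j ∈ Finset.range J, τ j ≤ η * v) :
    ((univ.filter (fun ω => ∑ h ∈ H, Wt J τ E h ω < v / 2)).card : ℝ) ≤ 36 * η * Fintype.card Ω := by
  have h1 := second_moment H J τ hτ E b hb η hη U1 U2
  rw [← hv] at h1
  have hn0 : (0:ℝ) ≤ Fintype.card Ω := by positivity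
  have h2 := cheb (fun ω => ∑ h ∈ H, Wt J τ E h ω) v (3 * η) hv0 (by
    rw [Finset.sum_comm]
    simp_rw [sum_Wt]
    refine le_trans ?_ hL
    have : 0 ≤ η * v * Fintype.card Ω := by positivity
    nlinarith) (by
    refine h1.trans ?_
    have h3 : (1 + η) * (∑ j ∈ Finset.range J, τ j) * v * Fintype.card Ω ≤ (1 + η) * (η * v) * v * Fintype.card Ω := by
      gcongr
    have h4 : (1 + η) * v ^ 2 * Fintype.card Ω + (1 + η) * (η * v) * v * Fintype.card Ω =
        (1 + 2 * η + η ^ 2) * (v ^ 2 * Fintype.card Ω) := by ring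
    have h5 : 0 ≤ v ^ 2 * (Fintype.card Ω : ℝ) := by positivity
    have h6 : η ^ 2 ≤ η := by nlinarith
    calc _ ≤ (1 + η) * v ^ 2 * Fintype.card Ω + (1 + η) * (η * v) * v * Fintype.card Ω := by linarith
      _ = (1 + 2 * η + η ^ 2) * (v ^ 2 * Fintype.card Ω) := h4
      _ ≤ (1 + 3 * η) * (v ^ 2 * Fintype.card Ω) := by
          apply mul_le_mul_of_nonneg_right _ h5
          linarith
      _ = _ := by ring)
  refine h2.trans (le_of_eq ?_)
  ring

open Classical in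
/-- Removing the conflicting indices costs little. -/
lemma conflict_tail (H : Finset ι) (J : ℕ) (hJ : 0 < J) (τ : ℕ → ℝ) (hτ : ∀ j, 0 < τ j) (E : ι → ℕ → Finset Ω)
    (hE : ∀ h ∈ H, ∀ j < J, E h j ⊆ E h 0)
    (b : ι → ℝ) (hb : ∀ h ∈ H, 0 ≤ b h) (η : ℝ) (hη : 0 ≤ η) (hη1 : η ≤ 1)
    (U1 : ∀ h ∈ H, ∀ j < J, τ j * (E h j).card ≤ (1 + η) * b h * Fintype.card Ω)
    (U2 : ∀ h ∈ H, ∀ h' ∈ H, h ≠ h' → ∀ j < J, ∀ j' < J,
      τ j * τ j' * (E h j ∩ E h' j').card ≤ (1 + η) * (b h * b h') * Fintype.card Ω)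
    (v : ℝ) (hv : v = J * ∑ h ∈ H, b h) (hv0 : 0 < v)
    (hL : (1 - η) * v * Fintype.card Ω ≤ ∑ h ∈ H, ∑ j ∈ Finset.range J, τ j * (E h j).card)
    (hT : ∑ j ∈ Finset.range J, τ j ≤ η * v)
    (conf : ι → ι → Prop) (Λ : ℝ)
    (hΛ : ∀ h ∈ H, ∑ h' ∈ H.filter (fun h' => h' ≠ h ∧ conf h h'), b h' ≤ Λ) :
    ((univ.filter (fun ω => ∑ h ∈ H.filter (fun h => ω ∈ E h 0 ∧ ∀ h' ∈ H, h' ≠ h → ω ∈ E h' 0 → ¬ conf h h'),
      Wt J τ E h ω < v / 4)).card : ℝ) ≤ (36 * η + 8 * Λ / τ 0) * Fintype.card Ω := by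
  set n : ℝ := (Fintype.card Ω : ℝ) with hn
  have hn0 : 0 ≤ n := by rw [hn]; positivity
  have hA := lower_tail H J τ hτ E b hb η hη hη1 U1 U2 v hv hv0 hL hT
  rw [← hn] at hA
  set Cw : Ω → ℝ := fun ω => ∑ h ∈ H, ∑ h' ∈ H.filter (fun h' => h' ≠ h ∧ conf h h'),
    (if ω ∈ E h' 0 then Wt J τ E h ω else 0) with hCw
  have hsum : ∑ ω, Cw ω ≤ 2 * v * (Λ / τ 0) * n := by
    rw [hCw]
    have e1 : ∑ ω, ∑ h ∈ H, ∑ h' ∈ H.filter (fun h' => h' ≠ h ∧ conf h h'), (if ω ∈ E h' 0 then Wt J τ E h ω else 0)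
        = ∑ h ∈ H, ∑ h' ∈ H.filter (fun h' => h' ≠ h ∧ conf h h'), ∑ ω, (if ω ∈ E h' 0 then Wt J τ E h ω else 0) := by
      rw [Finset.sum_comm]
      apply Finset.sum_congr rfl
      intro h _
      rw [Finset.sum_comm]
    rw [e1]
    have h1 : ∀ h ∈ H, ∀ h' ∈ H.filter (fun h' => h' ≠ h ∧ conf h h'),
        ∑ ω, (if ω ∈ E h' 0 then Wt J τ E h ω else 0) ≤ 2 * J * b h * n / τ 0 * b h' := by
      intro h hh h' hh'
      rw [Finset.mem_filter] at hh'
      have e2 : ∑ ω, (if ω ∈ E h' 0 then Wt J τ E h ω else 0) = ∑ j ∈ Finset.range J, τ j * ((E h j ∩ E h' 0).card : ℝ) := by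
        unfold Wt
        have : ∀ ω, (if ω ∈ E h' 0 then ∑ j ∈ Finset.range J, (if ω ∈ E h j then τ j else 0) else 0) =
            ∑ j ∈ Finset.range J, (if ω ∈ E h j ∩ E h' 0 then τ j else 0) := by
          intro ω
          by_cases h3 : ω ∈ E h' 0
          · simp [h3]
          · simp [h3]
        simp_rw [this]
        rw [Finset.sum_comm]
        apply Finset.sum_congr rfl
        intro j _
        rw [Finset.sum_ite_mem, Finset.univ_inter, Finset.sum_const, nsmul_eq_mul, mul_comm]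
      rw [e2]
      have h4 : ∀ j ∈ Finset.range J, τ j * ((E h j ∩ E h' 0).card : ℝ) ≤ 2 * b h * n / τ 0 * b h' := by
        intro j hj
        have h5 := U2 h hh h' hh'.1 (fun h => hh'.2.1 h.symm) j (Finset.mem_range.mp hj) 0 hJ
        have h6 : τ j * ((E h j ∩ E h' 0).card : ℝ) ≤ (1 + η) * (b h * b h') * n / τ 0 := by
          rw [le_div_iff₀ (hτ 0)]
          linarith
        refine h6.trans ?_
        have h7 : 0 ≤ b h := hb h hh
        have h8 : 0 ≤ b h' := hb h' hh'.1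
        have h9 : (1 + η) * (b h * b h') * n / τ 0 = (1 + η) * ((b h * b h') * n / τ 0) := by ring
        have h10 : 2 * b h * n / τ 0 * b h' = 2 * ((b h * b h') * n / τ 0) := by ring
        rw [h9, h10]
        have h11 := (hτ 0).le
        apply mul_le_mul_of_nonneg_right _ (by positivity)
        linarith
      refine (Finset.sum_le_sum h4).trans (le_of_eq ?_)
      rw [Finset.sum_const, Finset.card_range, nsmul_eq_mul]
      ring
    calc _ ≤ ∑ h ∈ H, ∑ h' ∈ H.filter (fun h' => h' ≠ h ∧ conf h h'), 2 * J * b h * n / τ 0 * b h' := by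
          apply Finset.sum_le_sum
          intro h hh
          apply Finset.sum_le_sum
          intro h' hh'
          exact h1 h hh h' hh'
      _ ≤ ∑ h ∈ H, 2 * J * b h * n / τ 0 * Λ := by
          apply Finset.sum_le_sum
          intro h hh
          rw [← Finset.mul_sum]
          apply mul_le_mul_of_nonneg_left (hΛ h hh)
          have := hb h hh
          have := hτ 0
          positivity
      _ = 2 * v * (Λ / τ 0) * n := by
          rw [hv, ← Finset.sum_mul]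
          have : ∑ h ∈ H, 2 * (J:ℝ) * b h * n / τ 0 = 2 * J * (∑ h ∈ H, b h) * n / τ 0 := by
            rw [Finset.mul_sum, Finset.sum_mul, Finset.sum_div]
          rw [this]
          ring
  have hCw0 : ∀ ω, 0 ≤ Cw ω := by
    intro ω
    apply Finset.sum_nonneg
    intro h _
    apply Finset.sum_nonneg
    intro h' _
    split_ifs
    · exact Wt_nonneg J τ hτ E h ω
    · exact le_rfl
  have hB : ((univ.filter (fun ω => v / 4 < Cw ω)).card : ℝ) ≤ 8 * Λ / τ 0 * n := by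
    have h1 : (v / 4) * ((univ.filter (fun ω => v / 4 < Cw ω)).card : ℝ) ≤ ∑ ω, Cw ω := by
      calc (v / 4) * ((univ.filter (fun ω => v / 4 < Cw ω)).card : ℝ)
          = ∑ ω ∈ univ.filter (fun ω => v / 4 < Cw ω), v / 4 := by
            rw [Finset.sum_const, nsmul_eq_mul]
            ring
        _ ≤ ∑ ω ∈ univ.filter (fun ω => v / 4 < Cw ω), Cw ω := by
            apply Finset.sum_le_sum
            intro ω hω
            exact (Finset.mem_filter.mp hω).2.le
        _ ≤ ∑ ω, Cw ω := Finset.sum_le_sum_of_subset_of_nonneg (Finset.filter_subset _ _) (fun ω _ _ => hCw0 ω)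
    have h2 : (v / 4) * ((univ.filter (fun ω => v / 4 < Cw ω)).card : ℝ) ≤ (v / 4) * (8 * Λ / τ 0 * n) := by
      refine h1.trans (hsum.trans (le_of_eq ?_))
      ring
    exact le_of_mul_le_mul_left h2 (by positivity)
  have hsub : univ.filter (fun ω => ∑ h ∈ H.filter (fun h => ω ∈ E h 0 ∧ ∀ h' ∈ H, h' ≠ h → ω ∈ E h' 0 → ¬ conf h h'),
      Wt J τ E h ω < v / 4) ⊆ univ.filter (fun ω => ∑ h ∈ H, Wt J τ E h ω < v / 2) ∪ univ.filter (fun ω => v / 4 < Cw ω) := by
    intro ω hω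
    rw [Finset.mem_filter] at hω
    rw [Finset.mem_union, Finset.mem_filter, Finset.mem_filter]
    by_contra hcon
    rw [not_or] at hcon
    have h1 : v / 2 ≤ ∑ h ∈ H, Wt J τ E h ω := by
      by_contra h; exact hcon.1 ⟨Finset.mem_univ _, not_le.mp h⟩
    have h2 : Cw ω ≤ v / 4 := by
      by_contra h; exact hcon.2 ⟨Finset.mem_univ _, not_le.mp h⟩
    have h3 := Finset.sum_filter_add_sum_filter_not H (fun h => ω ∈ E h 0 ∧ ∀ h' ∈ H, h' ≠ h → ω ∈ E h' 0 → ¬ conf h h') (fun h => Wt J τ E h ω)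
    have h4 : ∑ h ∈ H.filter (fun h => ¬ (ω ∈ E h 0 ∧ ∀ h' ∈ H, h' ≠ h → ω ∈ E h' 0 → ¬ conf h h')), Wt J τ E h ω ≤ Cw ω := by
      rw [hCw]
      calc _ ≤ ∑ h ∈ H.filter (fun h => ¬ (ω ∈ E h 0 ∧ ∀ h' ∈ H, h' ≠ h → ω ∈ E h' 0 → ¬ conf h h')),
            ∑ h' ∈ H.filter (fun h' => h' ≠ h ∧ conf h h'), (if ω ∈ E h' 0 then Wt J τ E h ω else 0) := by
            apply Finset.sum_le_sum
            intro h hh
            rw [Finset.mem_filter] at hh
            have hnn : ∀ h' ∈ H.filter (fun h' => h' ≠ h ∧ conf h h'), 0 ≤ (if ω ∈ E h' 0 then Wt J τ E h ω else 0) := by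
              intro h' _
              split_ifs
              · exact Wt_nonneg J τ hτ E h ω
              · exact le_rfl
            by_cases h5 : ω ∈ E h 0
            · have h6 : ∃ h' ∈ H, h' ≠ h ∧ ω ∈ E h' 0 ∧ conf h h' := by
                by_contra h7
                apply hh.2
                refine ⟨h5, ?_⟩
                intro h' hh' hne hω' hc
                exact h7 ⟨h', hh', hne, hω', hc⟩
              obtain ⟨h', hh', hne, hω', hc⟩ := h6
              have h8 := Finset.single_le_sum hnn (Finset.mem_filter.mpr ⟨hh', hne, hc⟩)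
              rw [if_pos hω'] at h8
              exact h8
            · have h6 : Wt J τ E h ω = 0 := by
                apply Finset.sum_eq_zero
                intro j hj
                rw [if_neg]
                intro h7
                exact h5 (hE h hh.1 j (Finset.mem_range.mp hj) h7)
              rw [h6] at hnn ⊢
              exact Finset.sum_nonneg hnn
        _ ≤ _ := by
            apply Finset.sum_le_sum_of_subset_of_nonneg (Finset.filter_subset _ _)
            intro h _ _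
            apply Finset.sum_nonneg
            intro h' _
            split_ifs
            · exact Wt_nonneg J τ hτ E h ω
            · exact le_rfl
    have h5 := hω.2
    linarith
  have h9 : ((univ.filter (fun ω => ∑ h ∈ H.filter (fun h => ω ∈ E h 0 ∧ ∀ h' ∈ H, h' ≠ h → ω ∈ E h' 0 → ¬ conf h h'),
      Wt J τ E h ω < v / 4)).card : ℝ) ≤
      ((univ.filter (fun ω => ∑ h ∈ H, Wt J τ E h ω < v / 2)).card : ℝ) + ((univ.filter (fun ω => v / 4 < Cw ω)).card : ℝ) := by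
    exact_mod_cast (Finset.card_le_card hsub).trans (Finset.card_union_le _ _)
  calc _ ≤ _ := h9
    _ ≤ 36 * η * n + 8 * Λ / τ 0 * n := add_le_add hA hB
    _ = _ := by ring

end core

end Pool.Agent.H89.Disc
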