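import Mathlib

namespace Pool.Agent.H89.Disc

/-- The number of indices `0 ≤ n < N` for which the `n`-th point
`({n a_1 / N}, ..., {n a_d / N})` of the lattice point set lies in the box `∏ [u_i, v_i)`. -/
noncomputable def boxCount (d N : ℕ) (a : Fin d → ℕ) (u v : Fin d → ℝ) : ℕ :=
  Set.ncard {n : ℕ | n < N ∧ ∀ i, Int.fract ((n : ℝ) * (a i : ℝ) / (N : ℝ)) ∈ Set.Ico (u i) (v i)}

/-- The (extreme) discrepancy of the lattice point set `P_N(a)`: the supremum of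
`|#{0 ≤ n < N : x_n ∈ J} / N - λ(J)|` over all boxes `J = ∏ [u_i, v_i) ⊆ [0,1)^d`. -/
noncomputable def discrepancy (d N : ℕ) (a : Fin d → ℕ) : ℝ :=
  sSup {x : ℝ | ∃ u v : Fin d → ℝ, (∀ i, 0 ≤ u i ∧ u i ≤ v i ∧ v i ≤ 1) ∧
    x = |(boxCount d N a u v : ℝ) / (N : ℝ) - ∏ i, (v i - u i)|}

end Pool.Agent.H89.Disc
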