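import Mathlib
import Pool.Agent.H89.DiscDef

open Finset

namespace Pool.Agent.H89.Disc

lemma boxCount_le (d N : ℕ) (a : Fin d → ℕ) (u v : Fin d → ℝ) : boxCount d N a u v ≤ N := by
  unfold boxCount
  have h : {n : ℕ | n < N ∧ ∀ i, Int.fract ((n : ℝ) * (a i : ℝ) / (N : ℝ)) ∈ Set.Ico (u i) (v i)} ⊆ (Finset.range N : Set ℕ) := by
    intro n hn
    simp only [Finset.coe_range, Set.mem_Iio]
    exact hn.1
  have h2 := Set.ncard_le_ncard h (Finset.finite_toSet _)
  rw [Set.ncard_coe_finset, Finset.card_range] at h2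
  exact h2

lemma disc_bdd (d N : ℕ) (a : Fin d → ℕ) : BddAbove {x : ℝ | ∃ u v : Fin d → ℝ,
    (∀ i, 0 ≤ u i ∧ u i ≤ v i ∧ v i ≤ 1) ∧
    x = |(boxCount d N a u v : ℝ) / (N : ℝ) - ∏ i, (v i - u i)|} := by
  refine ⟨2, ?_⟩
  rintro x ⟨u, v, h, rfl⟩
  have h1 : (boxCount d N a u v : ℝ) / (N : ℝ) ≤ 1 := by
    rcases Nat.eq_zero_or_pos N with h0 | h0
    · subst h0
      simp
    · rw [div_le_one (by exact_mod_cast h0)]
      exact_mod_cast boxCount_le d N a u v
  have h2 : 0 ≤ (boxCount d N a u v : ℝ) / (N : ℝ) := by positivity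
  have h3 : 0 ≤ ∏ i, (v i - u i) := Finset.prod_nonneg fun i _ => by linarith [(h i).2.1]
  have h4 : ∏ i, (v i - u i) ≤ 1 := by
    apply Finset.prod_le_one
    · intro i _; linarith [(h i).2.1]
    · intro i _; linarith [(h i).2.2, (h i).1]
  rw [abs_le]
  constructor <;> linarith

lemma le_disc (d N : ℕ) (a : Fin d → ℕ) (u v : Fin d → ℝ)
    (h : ∀ i, 0 ≤ u i ∧ u i ≤ v i ∧ v i ≤ 1) :
    |(boxCount d N a u v : ℝ) / (N : ℝ) - ∏ i, (v i - u i)| ≤ discrepancy d N a :=
  le_csSup (disc_bdd d N a) ⟨u, v, h, rfl⟩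

/-- integer boxes -/
lemma int_box (d N : ℕ) (hN : 0 < N) (a : Fin d → ℕ) (s t : Fin d → ℕ)
    (hst : ∀ i, s i ≤ t i) (ht : ∀ i, t i ≤ N) :
    |((((Finset.range N).filter (fun n : ℕ => ∀ i, s i ≤ (n * a i) % N ∧ (n * a i) % N < t i)).card : ℕ) : ℝ)
      - N * ∏ i, (((t i : ℝ) - s i) / N)| ≤ N * discrepancy d N a := by
  have hN' : (0:ℝ) < N := by exact_mod_cast hN
  have h1 := le_disc d N a (fun i => (s i : ℝ) / N) (fun i => (t i : ℝ) / N) (by
    intro i
    refine ⟨by positivity, ?_, ?_⟩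
    · apply div_le_div_of_nonneg_right _ hN'.le
      exact_mod_cast hst i
    · rw [div_le_one hN']
      exact_mod_cast ht i)
  have h2 : boxCount d N a (fun i => (s i : ℝ) / N) (fun i => (t i : ℝ) / N) =
      ((Finset.range N).filter (fun n : ℕ => ∀ i, s i ≤ (n * a i) % N ∧ (n * a i) % N < t i)).card := by
    unfold boxCount
    rw [← Set.ncard_coe_finset]
    congr 1
    ext n
    simp only [Set.mem_ofPred_eq, Finset.coe_filter, Finset.mem_range]
    apply and_congr_right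
    intro hn
    apply forall_congr'
    intro i
    have h3 : Int.fract ((n : ℝ) * (a i : ℝ) / (N : ℝ)) = (((n * a i) % N : ℕ) : ℝ) / N := by
      rw [← Nat.cast_mul]
      exact Int.fract_div_natCast_eq_div_natCast_mod
    rw [h3, Set.mem_Ico]
    constructor
    · rintro ⟨h4, h5⟩
      rw [div_le_div_iff_of_pos_right hN'] at h4
      rw [div_lt_div_iff_of_pos_right hN'] at h5
      exact ⟨by exact_mod_cast h4, by exact_mod_cast h5⟩
    · rintro ⟨h4, h5⟩
      rw [div_le_div_iff_of_pos_right hN', div_lt_div_iff_of_pos_right hN']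
      exact ⟨by exact_mod_cast h4, by exact_mod_cast h5⟩
  rw [h2] at h1
  have h6 : ∏ i, ((t i : ℝ) / N - (s i : ℝ) / N) = ∏ i, (((t i : ℝ) - s i) / N) := by
    apply Finset.prod_congr rfl
    intro i _
    rw [sub_div]
  simp only [h6] at h1
  have h7 : ((((Finset.range N).filter (fun n : ℕ => ∀ i, s i ≤ (n * a i) % N ∧ (n * a i) % N < t i)).card : ℕ) : ℝ)
      - N * ∏ i, (((t i : ℝ) - s i) / N) = N * (((((Finset.range N).filter (fun n : ℕ => ∀ i, s i ≤ (n * a i) % N ∧ (n * a i) % N < t i)).card : ℕ) : ℝ) / N - ∏ i, (((t i : ℝ) - s i) / N)) := by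
    field_simp
  rw [h7, abs_mul, abs_of_pos hN']
  exact mul_le_mul_of_nonneg_left h1 hN'.le


lemma zmod_sub_val {N : ℕ} [NeZero N] (w u : ZMod N) :
    (w - u).val = if u.val ≤ w.val then w.val - u.val else w.val + N - u.val := by
  have hu := ZMod.val_lt u
  have hw := ZMod.val_lt w
  have h1 : w - u = ((w.val + (N - u.val) : ℕ) : ZMod N) := by
    rw [Nat.cast_add, Nat.cast_sub hu.le]
    simp
    ring
  rw [h1, ZMod.val_natCast]
  split_ifs with h
  · have : w.val + (N - u.val) = (w.val - u.val) + N := by omega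
    rw [this, Nat.add_mod_right, Nat.mod_eq_of_lt (by omega)]
  · rw [Nat.mod_eq_of_lt (by omega)]
    omega

/-- splitting a cyclic interval into two ordinary ones -/
lemma cyc_split {N : ℕ} [NeZero N] (u : ZMod N) (y : ℕ) (hy : y ≤ N) : ∃ s t : Fin 2 → ℕ,
    (∀ k, s k ≤ t k) ∧ (∀ k, t k ≤ N) ∧
    (∀ w : ZMod N, (if (w - u).val < y then (1:ℝ) else 0) =
      ∑ k : Fin 2, (if s k ≤ w.val ∧ w.val < t k then (1:ℝ) else 0)) ∧
    (y : ℝ) = ∑ k : Fin 2, ((t k : ℝ) - s k) := by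
  have hu := ZMod.val_lt u
  by_cases h : u.val + y ≤ N
  · refine ⟨![u.val, 0], ![u.val + y, 0], ?_, ?_, ?_, ?_⟩
    · intro k
      fin_cases k <;> simp
    · intro k
      fin_cases k <;> simp [h]
    · intro w
      have hw := ZMod.val_lt w
      rw [zmod_sub_val, Fin.sum_univ_two]
      simp only [Matrix.cons_val_zero, Matrix.cons_val_one, not_lt_zero, and_false, if_false, add_zero]
      congr 1
      apply propext
      split_ifs <;> omega
    · rw [Fin.sum_univ_two]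
      simp
  · refine ⟨![u.val, 0], ![N, u.val + y - N], ?_, ?_, ?_, ?_⟩
    · intro k
      fin_cases k
      · simpa using hu.le
      · simp
    · intro k
      fin_cases k
      · simp
      · simp; omega
    · intro w
      have hw := ZMod.val_lt w
      rw [zmod_sub_val, Fin.sum_univ_two]
      have e0 : (if (![u.val, 0] : Fin 2 → ℕ) 0 ≤ w.val ∧ w.val < (![N, u.val + y - N] : Fin 2 → ℕ) 0 then (1:ℝ) else 0) =
          if u.val ≤ w.val then 1 else 0 := by
        apply if_congr _ rfl rfl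
        simp [hw]
      have e1 : (if (![u.val, 0] : Fin 2 → ℕ) 1 ≤ w.val ∧ w.val < (![N, u.val + y - N] : Fin 2 → ℕ) 1 then (1:ℝ) else 0) =
          if w.val < u.val + y - N then 1 else 0 := by
        apply if_congr _ rfl rfl
        simp
      rw [e0, e1]
      split_ifs <;> first | (exfalso; omega) | norm_num
    · rw [Fin.sum_univ_two]
      simp only [Matrix.cons_val_zero, Matrix.cons_val_one]
      have h3 : u.val + y - N + N = u.val + y := by omega
      have h4 : ((u.val + y - N : ℕ) : ℝ) + N = u.val + y := by exact_mod_cast h3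
      simp only [Nat.cast_zero, sub_zero]
      linarith

/-- number of points in a cyclic box -/
noncomputable def F (d N : ℕ) [NeZero N] (a : Fin d → ℕ) (y : Fin d → ℕ) (u : Fin d → ZMod N) : ℝ :=
  ∑ n : ZMod N, ∏ i, (if (n * (a i : ZMod N) - u i).val < y i then (1:ℝ) else 0)

lemma F_bound (d N : ℕ) [NeZero N] (a : Fin d → ℕ) (y : Fin d → ℕ) (hy : ∀ i, y i ≤ N)
    (u : Fin d → ZMod N) :
    |F d N a y u - N * ∏ i, ((y i : ℝ) / N)| ≤ 2 ^ d * (N * discrepancy d N a) := by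
  classical
  have hN : 0 < N := Nat.pos_of_ne_zero (NeZero.ne N)
  choose s t hst ht hind hlen using fun i => cyc_split (u i) (y i) (hy i)
  have h1 : F d N a y u = ∑ e : Fin d → Fin 2,
      ((((Finset.range N).filter (fun n : ℕ => ∀ i, s i (e i) ≤ (n * a i) % N ∧ (n * a i) % N < t i (e i))).card : ℕ) : ℝ) := by
    unfold F
    have e1 : ∀ n : ZMod N, ∏ i, (if (n * (a i : ZMod N) - u i).val < y i then (1:ℝ) else 0) =
        ∑ e : Fin d → Fin 2, ∏ i, (if s i (e i) ≤ (n * (a i : ZMod N)).val ∧ (n * (a i : ZMod N)).val < t i (e i) then (1:ℝ) else 0) := by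
      intro n
      have := Finset.prod_univ_sum (fun _ : Fin d => (Finset.univ : Finset (Fin 2)))
        (fun i k => (if s i k ≤ (n * (a i : ZMod N)).val ∧ (n * (a i : ZMod N)).val < t i k then (1:ℝ) else 0))
      rw [Fintype.piFinset_univ] at this
      rw [← this]
      apply Finset.prod_congr rfl
      intro i _
      exact hind i _
    simp_rw [e1]
    rw [Finset.sum_comm]
    apply Finset.sum_congr rfl
    intro e _
    have e2 : ∀ n : ZMod N, ∏ i, (if s i (e i) ≤ (n * (a i : ZMod N)).val ∧ (n * (a i : ZMod N)).val < t i (e i) then (1:ℝ) else 0)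
        = if (∀ i, s i (e i) ≤ (n.val * a i) % N ∧ (n.val * a i) % N < t i (e i)) then (1:ℝ) else 0 := by
      intro n
      have e3 : ∀ i, (n * (a i : ZMod N)).val = (n.val * a i) % N := by
        intro i
        rw [ZMod.val_mul, ZMod.val_natCast, Nat.mul_mod, Nat.mod_mod, ← Nat.mul_mod]
      simp_rw [e3]
      by_cases h : ∀ i, s i (e i) ≤ (n.val * a i) % N ∧ (n.val * a i) % N < t i (e i)
      · rw [if_pos h]
        apply Finset.prod_eq_one
        intro i _
        rw [if_pos (h i)]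
      · rw [if_neg h]
        push Not at h
        obtain ⟨i, hi⟩ := h
        apply Finset.prod_eq_zero (Finset.mem_univ i)
        rw [if_neg]
        intro h'
        have := hi h'.1
        omega
    simp_rw [e2]
    rw [← Finset.sum_filter, Finset.sum_const, nsmul_eq_mul, mul_one]
    congr 1
    apply Finset.card_bij (fun (n : ZMod N) _ => n.val)
    · intro n hn
      simp only [Finset.mem_filter, Finset.mem_univ, true_and, Finset.mem_range] at hn ⊢
      exact ⟨ZMod.val_lt n, hn⟩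
    · intro n _ m _ h
      exact ZMod.val_injective N h
    · intro n hn
      simp only [Finset.mem_filter, Finset.mem_range] at hn
      refine ⟨(n : ZMod N), ?_, ?_⟩
      · simp only [Finset.mem_filter, Finset.mem_univ, true_and]
        rw [ZMod.val_natCast, Nat.mod_eq_of_lt hn.1]
        exact hn.2
      · rw [ZMod.val_natCast, Nat.mod_eq_of_lt hn.1]
  have h2 : (N:ℝ) * ∏ i, ((y i : ℝ) / N) = ∑ e : Fin d → Fin 2, N * ∏ i, (((t i (e i) : ℝ) - s i (e i)) / N) := by
    rw [← Finset.mul_sum]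
    congr 1
    have := Finset.prod_univ_sum (fun _ : Fin d => (Finset.univ : Finset (Fin 2)))
        (fun i k => (((t i k : ℝ) - s i k) / N))
    rw [Fintype.piFinset_univ] at this
    rw [← this]
    apply Finset.prod_congr rfl
    intro i _
    rw [hlen i, Finset.sum_div]
  rw [h1, h2, ← Finset.sum_sub_distrib]
  refine (Finset.abs_sum_le_sum_abs _ _).trans ?_
  refine (Finset.sum_le_card_nsmul _ _ (N * discrepancy d N a) ?_).trans ?_
  · intro e _
    exact int_box d N hN a (fun i => s i (e i)) (fun i => t i (e i)) (fun i => hst i (e i)) (fun i => ht i (e i))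
  · rw [nsmul_eq_mul]
    simp


/-- the Fourier coefficient of a cyclic interval -/
noncomputable def Dk {N : ℕ} [NeZero N] (y : ℕ) (g : ℤ) : ℂ :=
  ∑ v : ZMod N, if v.val < y then ZMod.stdAddChar (-((g : ZMod N) * v)) else 0

lemma sum_pi_prod {d N : ℕ} [NeZero N] (f : Fin d → ZMod N → ℂ) :
    ∑ u : Fin d → ZMod N, ∏ i, f i (u i) = ∏ i, ∑ x : ZMod N, f i x := by
  classical
  have := Finset.prod_univ_sum (fun _ : Fin d => (Finset.univ : Finset (ZMod N))) f
  rw [Fintype.piFinset_univ] at this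
  exact this.symm

lemma addChar_sum {A ι : Type*} [AddCommMonoid A] (ψ : AddChar A ℂ) (s : Finset ι) (f : ι → A) :
    ψ (∑ i ∈ s, f i) = ∏ i ∈ s, ψ (f i) := by
  classical
  induction s using Finset.induction_on with
  | empty => simp
  | insert i s hi ih => rw [Finset.sum_insert hi, Finset.prod_insert hi, AddChar.map_add_eq_mul, ih]

lemma Fsum {d N : ℕ} [NeZero N] (a : Fin d → ℕ) (y : Fin d → ℕ) (g : Fin d → ℤ)
    (hg : ((∑ i, g i * (a i : ℤ) : ℤ) : ZMod N) = 0) :
    ∑ u : Fin d → ZMod N, (F d N a y u : ℂ) * ∏ i, ZMod.stdAddChar ((g i : ZMod N) * u i)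
      = N * ∏ i, Dk (N := N) (y i) (g i) := by
  classical
  have h1 : ∀ u : Fin d → ZMod N, (F d N a y u : ℂ) * ∏ i, ZMod.stdAddChar ((g i : ZMod N) * u i)
      = ∑ n : ZMod N, ∏ i, ((if (n * (a i : ZMod N) - u i).val < y i then (1:ℂ) else 0) *
        ZMod.stdAddChar ((g i : ZMod N) * u i)) := by
    intro u
    unfold F
    rw [Complex.ofReal_sum, Finset.sum_mul]
    apply Finset.sum_congr rfl
    intro n _
    rw [Finset.prod_mul_distrib, Complex.ofReal_prod]
    congr 1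
    apply Finset.prod_congr rfl
    intro i _
    split_ifs <;> simp
  simp_rw [h1]
  rw [Finset.sum_comm]
  have h2 : ∀ n : ZMod N, ∑ u : Fin d → ZMod N, ∏ i, ((if (n * (a i : ZMod N) - u i).val < y i then (1:ℂ) else 0) *
        ZMod.stdAddChar ((g i : ZMod N) * u i)) = ∏ i, Dk (N := N) (y i) (g i) := by
    intro n
    refine Eq.trans (sum_pi_prod (fun (i : Fin d) (x : ZMod N) => (if (n * (a i : ZMod N) - x).val < y i then (1:ℂ) else 0) *
        ZMod.stdAddChar ((g i : ZMod N) * x))) ?_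
    have h3 : ∀ i, ∑ x : ZMod N, (if (n * (a i : ZMod N) - x).val < y i then (1:ℂ) else 0) *
        ZMod.stdAddChar ((g i : ZMod N) * x) =
        ZMod.stdAddChar ((g i : ZMod N) * (n * (a i : ZMod N))) * Dk (N := N) (y i) (g i) := by
      intro i
      rw [Dk, Finset.mul_sum]
      rw [← Equiv.sum_comp (Equiv.subLeft (n * (a i : ZMod N)))]
      apply Finset.sum_congr rfl
      intro v _
      simp only [Equiv.subLeft_apply, sub_sub_cancel]
      split_ifs with h
      · rw [one_mul, ← AddChar.map_add_eq_mul]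
        congr 1
        ring
      · simp
    simp_rw [h3]
    rw [Finset.prod_mul_distrib]
    have h4 : ∏ i, ZMod.stdAddChar ((g i : ZMod N) * (n * (a i : ZMod N))) = (1:ℂ) := by
      rw [← addChar_sum]
      have h5 : ∑ i, (g i : ZMod N) * (n * (a i : ZMod N)) = n * ((∑ i, g i * (a i : ℤ) : ℤ) : ZMod N) := by
        push_cast
        rw [Finset.mul_sum]
        apply Finset.sum_congr rfl
        intro i _
        ring
      rw [h5, hg, mul_zero, AddChar.map_zero_eq_one]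
    rw [h4, one_mul]
  simp_rw [h2]
  rw [Finset.sum_const, nsmul_eq_mul, Finset.card_univ, ZMod.card]

lemma norm_stdAddChar {N : ℕ} [NeZero N] (x : ZMod N) : ‖ZMod.stdAddChar x‖ = 1 :=
  AddChar.norm_apply _ _

lemma norm_e_sub_one {N : ℕ} [NeZero N] (g : ℤ) :
    ‖ZMod.stdAddChar (g : ZMod N) - 1‖ = 2 * |Real.sin (Real.pi * g / N)| := by
  rw [ZMod.stdAddChar_coe]
  have h := Complex.norm_exp_I_mul_ofReal_sub_one (2 * Real.pi * g / N)
  have e : Complex.exp (2 * Real.pi * Complex.I * g / N) = Complex.exp (Complex.I * ((2 * Real.pi * g / N : ℝ) : ℂ)) := by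
    congr 1
    push_cast
    ring
  rw [e, h, Real.norm_eq_abs, abs_mul, abs_two]
  congr 3
  ring

lemma e_sub_one_lower {N : ℕ} [NeZero N] (g : ℤ) (hg : 2 * |g| ≤ N) :
    4 * |(g:ℝ)| / N ≤ ‖ZMod.stdAddChar (g : ZMod N) - 1‖ := by
  have hN : (0:ℝ) < N := by exact_mod_cast Nat.pos_of_ne_zero (NeZero.ne N)
  rw [norm_e_sub_one]
  have hg' : 2 * |(g:ℝ)| ≤ N := by exact_mod_cast hg
  have h := Real.mul_abs_le_abs_sin (x := Real.pi * g / N) (by
    rw [abs_div, abs_mul, abs_of_pos Real.pi_pos, abs_of_pos hN, div_le_div_iff₀ hN (by norm_num)]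
    nlinarith [Real.pi_pos])
  rw [abs_div, abs_mul, abs_of_pos Real.pi_pos, abs_of_pos hN] at h
  have e : 2 / Real.pi * (Real.pi * |(g:ℝ)| / N) = 2 * |(g:ℝ)| / N := by
    field_simp
  rw [e] at h
  calc 4 * |(g:ℝ)| / N = 2 * (2 * |(g:ℝ)| / N) := by ring
    _ ≤ _ := by linarith

lemma e_sub_one_upper {N : ℕ} [NeZero N] (g : ℤ) :
    ‖ZMod.stdAddChar (g : ZMod N) - 1‖ ≤ 2 * Real.pi * |(g:ℝ)| / N := by
  have hN : (0:ℝ) < N := by exact_mod_cast Nat.pos_of_ne_zero (NeZero.ne N)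
  rw [norm_e_sub_one]
  have h := Real.abs_sin_le_abs (x := Real.pi * g / N)
  rw [abs_div, abs_mul, abs_of_pos Real.pi_pos, abs_of_pos hN] at h
  calc 2 * |Real.sin (Real.pi * g / N)| ≤ 2 * (Real.pi * |(g:ℝ)| / N) := by linarith
    _ = _ := by ring

lemma Dk_eq_geom {N : ℕ} [NeZero N] (y : ℕ) (hy : y ≤ N) (g : ℤ) :
    Dk (N := N) y g = ∑ v ∈ Finset.range y, (ZMod.stdAddChar ((-g : ℤ) : ZMod N)) ^ v := by
  unfold Dk
  rw [← Finset.sum_filter]
  symm
  apply Finset.sum_bij (fun (v : ℕ) _ => (v : ZMod N))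
  · intro v hv
    rw [Finset.mem_range] at hv
    simp only [Finset.mem_filter, Finset.mem_univ, true_and]
    rw [ZMod.val_natCast, Nat.mod_eq_of_lt (by omega)]
    exact hv
  · intro v hv w hw h
    rw [Finset.mem_range] at hv hw
    have := congrArg ZMod.val h
    rwa [ZMod.val_natCast, ZMod.val_natCast, Nat.mod_eq_of_lt (by omega), Nat.mod_eq_of_lt (by omega)] at this
  · intro v hv
    simp only [Finset.mem_filter, Finset.mem_univ, true_and] at hv
    exact ⟨v.val, Finset.mem_range.mpr hv, by simp⟩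
  · intro v _
    rw [← AddChar.map_nsmul_eq_pow]
    congr 1
    push_cast
    rw [nsmul_eq_mul]
    ring

lemma norm_Dk_le {N : ℕ} [NeZero N] (y : ℕ) (hy : y ≤ N) (g : ℤ) (hg0 : g ≠ 0) (hg : 2 * |g| ≤ N) :
    ‖Dk (N := N) y g‖ ≤ N / (2 * |(g:ℝ)|) := by
  have hN : (0:ℝ) < N := by exact_mod_cast Nat.pos_of_ne_zero (NeZero.ne N)
  have hgp : 0 < |(g:ℝ)| := abs_pos.mpr (by exact_mod_cast hg0)
  have h1 : 4 * |(g:ℝ)| / N ≤ ‖ZMod.stdAddChar ((-g : ℤ) : ZMod N) - 1‖ := by
    have h := e_sub_one_lower (N := N) (-g) (by rwa [abs_neg])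
    have e : |((-g : ℤ) : ℝ)| = |(g:ℝ)| := by push_cast; exact abs_neg _
    rwa [e] at h
  have h2 : 0 < ‖ZMod.stdAddChar ((-g : ℤ) : ZMod N) - 1‖ := lt_of_lt_of_le (by positivity) h1
  have h3 : ZMod.stdAddChar ((-g : ℤ) : ZMod N) ≠ 1 := by
    intro h
    rw [h] at h2
    simp at h2
  rw [Dk_eq_geom y hy, geom_sum_eq h3, norm_div]
  have h4 : ‖(ZMod.stdAddChar ((-g : ℤ) : ZMod N)) ^ y - 1‖ ≤ 2 := by
    refine (norm_sub_le _ _).trans ?_
    rw [norm_pow, norm_stdAddChar]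
    norm_num
  rw [div_le_div_iff₀ h2 (by positivity)]
  have h5 : 4 * |(g:ℝ)| ≤ N * ‖ZMod.stdAddChar ((-g : ℤ) : ZMod N) - 1‖ := by
    have := (div_le_iff₀ hN).mp h1
    linarith
  nlinarith [norm_nonneg ((ZMod.stdAddChar ((-g : ℤ) : ZMod N)) ^ y - 1)]

lemma sum_Dk_lower {N : ℕ} [NeZero N] (g : ℤ) (hg0 : g ≠ 0) (hg : ((g : ℤ) : ZMod N) ≠ 0) :
    (N:ℝ) * (N / (2 * Real.pi * |(g:ℝ)|)) ≤ ∑ y ∈ Finset.range N, ‖Dk (N := N) y g‖ := by
  have hN : (0:ℝ) < N := by exact_mod_cast Nat.pos_of_ne_zero (NeZero.ne N)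
  have hgp : 0 < |(g:ℝ)| := abs_pos.mpr (by exact_mod_cast hg0)
  set ζ := ZMod.stdAddChar ((-g : ℤ) : ZMod N) with hζ
  have hζ1 : ζ ≠ 1 := by
    intro h
    have h2 : ZMod.stdAddChar ((-g : ℤ) : ZMod N) = ZMod.stdAddChar (0 : ZMod N) := by
      rw [AddChar.map_zero_eq_one]; exact h
    have h3 := ZMod.injective_stdAddChar h2
    apply hg
    push_cast at h3
    exact neg_eq_zero.mp h3
  have hnorm : ‖ζ‖ = 1 := norm_stdAddChar _
  have hpos : 0 < ‖ζ - 1‖ := by
    rw [norm_pos_iff]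
    exact sub_ne_zero.mpr hζ1
  have hup : ‖ζ - 1‖ ≤ 2 * Real.pi * |(g:ℝ)| / N := by
    have h := e_sub_one_upper (N := N) (-g)
    have e : |((-g : ℤ) : ℝ)| = |(g:ℝ)| := by push_cast; exact abs_neg _
    rwa [e] at h
  -- sum of |ζ^y - 1|
  have hsum : (N:ℝ) ≤ ∑ y ∈ Finset.range N, ‖ζ ^ y - 1‖ := by
    have h1 : ∀ y ∈ Finset.range N, 1 - (ζ ^ y).re ≤ ‖ζ ^ y - 1‖ := by
      intro y _
      have h2 : ‖ζ ^ y - 1‖ ≤ 2 := by
        refine (norm_sub_le _ _).trans ?_
        rw [norm_pow, hnorm]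
        norm_num
      have h3 : ‖ζ ^ y - 1‖ ^ 2 = 2 - 2 * (ζ ^ y).re := by
        rw [Complex.sq_norm, Complex.normSq_sub]
        have h4 : Complex.normSq (ζ ^ y) = 1 := by
          rw [← Complex.sq_norm, norm_pow, hnorm]
          norm_num
        rw [h4]
        simp
        ring
      nlinarith [norm_nonneg (ζ ^ y - 1)]
    have h5 := Finset.sum_le_sum h1
    have h6 : ∑ y ∈ Finset.range N, (1 - (ζ ^ y).re) = N := by
      rw [Finset.sum_sub_distrib]
      have h7 : ∑ y ∈ Finset.range N, (ζ ^ y).re = 0 := by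
        rw [← Complex.re_sum, geom_sum_eq hζ1]
        have h8 : ζ ^ N = 1 := by
          rw [hζ, ← AddChar.map_nsmul_eq_pow]
          simp
        rw [h8]
        simp
      rw [h7]
      simp
    rw [h6] at h5
    exact h5
  have hterm : ∀ y ∈ Finset.range N, ‖ζ ^ y - 1‖ * (N / (2 * Real.pi * |(g:ℝ)|)) ≤ ‖Dk (N := N) y g‖ := by
    intro y hy
    rw [Finset.mem_range] at hy
    rw [Dk_eq_geom y hy.le, geom_sum_eq (by exact hζ1), norm_div, div_eq_mul_inv ‖_‖]
    apply mul_le_mul_of_nonneg_left _ (norm_nonneg _)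
    rw [le_inv_comm₀ (by have := Real.pi_pos; positivity) hpos, inv_div]
    exact hup
  refine le_trans ?_ (Finset.sum_le_sum hterm)
  rw [← Finset.sum_mul]
  apply mul_le_mul_of_nonneg_right hsum
  have := Real.pi_pos
  positivity


/-- characters of `(ZMod N)^d` -/
noncomputable def E {d N : ℕ} [NeZero N] (g : Fin d → ℤ) (u : Fin d → ZMod N) : ℂ :=
  ∏ i, ZMod.stdAddChar ((g i : ZMod N) * u i)

lemma E_eq {d N : ℕ} [NeZero N] (g : Fin d → ℤ) (u : Fin d → ZMod N) :
    E g u = ZMod.stdAddChar (∑ i, (g i : ZMod N) * u i) := by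
  rw [E, addChar_sum]

lemma E_add {d N : ℕ} [NeZero N] (g g' : Fin d → ℤ) (u : Fin d → ZMod N) :
    E (g + g') u = E g u * E g' u := by
  rw [E_eq, E_eq, E_eq, ← AddChar.map_add_eq_mul]
  congr 1
  rw [← Finset.sum_add_distrib]
  apply Finset.sum_congr rfl
  intro i _
  simp
  ring

lemma E_zero {d N : ℕ} [NeZero N] (u : Fin d → ZMod N) : E (0 : Fin d → ℤ) u = 1 := by
  rw [E_eq]
  simp

lemma norm_E {d N : ℕ} [NeZero N] (g : Fin d → ℤ) (u : Fin d → ZMod N) : ‖E g u‖ = 1 := by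
  rw [E_eq, norm_stdAddChar]

lemma conj_E {d N : ℕ} [NeZero N] (g : Fin d → ℤ) (u : Fin d → ZMod N) :
    (starRingEnd ℂ) (E g u) = E (-g) u := by
  have h1 : E g u * E (-g) u = 1 := by
    rw [← E_add, add_neg_cancel, E_zero]
  have h2 : E g u * (starRingEnd ℂ) (E g u) = 1 := by
    rw [Complex.mul_conj, Complex.normSq_eq_norm_sq, norm_E]
    simp
  have h3 : E g u ≠ 0 := by
    intro h
    rw [h] at h1
    simp at h1
  exact mul_left_cancel₀ h3 (h2.trans h1.symm)

lemma E_sum {d N : ℕ} [NeZero N] (T : Finset (Fin d → ℤ)) (u : Fin d → ZMod N) :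
    ∏ h ∈ T, E h u = E (∑ h ∈ T, h) u := by
  classical
  induction T using Finset.induction_on with
  | empty => simp [E_zero]
  | insert i s hi ih => rw [Finset.sum_insert hi, Finset.prod_insert hi, E_add, ih]

lemma sum_E {d N : ℕ} [NeZero N] (g : Fin d → ℤ) (i : Fin d) (hi : ((g i : ℤ) : ZMod N) ≠ 0) :
    ∑ u : Fin d → ZMod N, E g u = 0 := by
  unfold E
  refine Eq.trans (sum_pi_prod (fun (i : Fin d) (x : ZMod N) => ZMod.stdAddChar ((g i : ZMod N) * x))) ?_
  apply Finset.prod_eq_zero (Finset.mem_univ i)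
  have h := AddChar.sum_mulShift (ψ := (ZMod.stdAddChar : AddChar (ZMod N) ℂ)) (g i : ZMod N)
    (ZMod.isPrimitive_stdAddChar N)
  rw [if_neg hi, Nat.cast_zero] at h
  rw [← h]
  apply Finset.sum_congr rfl
  intro x _
  rw [mul_comm]

/-- the coefficient -/
noncomputable def K {d N : ℕ} [NeZero N] (y : Fin d → ℕ) (g : Fin d → ℤ) : ℂ :=
  N * ∏ i, Dk (N := N) (y i) (g i)

lemma Fsum' {d N : ℕ} [NeZero N] (a : Fin d → ℕ) (y : Fin d → ℕ) (g : Fin d → ℤ)
    (hg : ((∑ i, g i * (a i : ℤ) : ℤ) : ZMod N) = 0) :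
    ∑ u : Fin d → ZMod N, (F d N a y u : ℂ) * E g u = K (N := N) y g :=
  Fsum a y g hg

lemma K_zero {d N : ℕ} [NeZero N] (y : Fin d → ℕ) (hy : ∀ i, y i ≤ N) :
    K (N := N) y (0 : Fin d → ℤ) = ((N * ∏ i, (y i : ℝ) : ℝ) : ℂ) := by
  unfold K
  push_cast
  congr 1
  apply Finset.prod_congr rfl
  intro i _
  rw [Dk_eq_geom _ (hy i)]
  simp

lemma norm_K_le {d N : ℕ} [NeZero N] (y : Fin d → ℕ) (hy : ∀ i, y i ≤ N) (g : Fin d → ℤ)
    (m : Fin d → ℝ) (hm0 : ∀ i, 0 < m i) (hm : ∀ i, m i ≤ |((g i : ℤ) : ℝ)|) (hg : ∀ i, 2 * |g i| ≤ N) :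
    ‖K (N := N) y g‖ ≤ N * (N ^ d / ∏ i, (2 * m i)) := by
  unfold K
  rw [norm_mul, Complex.norm_natCast, norm_prod]
  apply mul_le_mul_of_nonneg_left _ (Nat.cast_nonneg _)
  have h1 : (N:ℝ) ^ d / ∏ i, (2 * m i) = ∏ i, ((N:ℝ) / (2 * m i)) := by
    rw [Finset.prod_div_distrib]
    simp
  rw [h1]
  apply Finset.prod_le_prod
  · intro i _
    exact norm_nonneg _
  · intro i _
    have h0 : g i ≠ 0 := by
      intro h
      have := hm i
      rw [h] at this
      simp at this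
      linarith [hm0 i]
    refine (norm_Dk_le (y i) (hy i) (g i) h0 (hg i)).trans ?_
    have := hm0 i
    apply div_le_div_of_nonneg_left (Nat.cast_nonneg _) (by positivity)
    linarith [hm i]

/-- The Riesz product inequality for a fixed box shape. -/
lemma riesz_fixed {d N : ℕ} [NeZero N] (a : Fin d → ℕ) (H : Finset (Fin d → ℤ)) (hd : 0 < d)
    (hdual : ∀ h ∈ H, ((∑ i, h i * (a i : ℤ) : ℤ) : ZMod N) = 0)
    (m : Finset (Fin d → ℤ) → Fin d → ℝ)
    (hm : ∀ S ⊆ H, S.Nonempty → ∀ T ⊆ S, ∀ i, 0 < m S i ∧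
      m S i ≤ |((∑ h ∈ T, h i - ∑ h ∈ S \ T, h i : ℤ) : ℝ)| ∧
      2 * |∑ h ∈ T, h i - ∑ h ∈ S \ T, h i| ≤ N)
    (y : Fin d → ℕ) (hy : ∀ i, y i ≤ N) :
    ∑ h ∈ H, ‖K (N := N) y h‖ ≤ N ^ d * (2 ^ d * (N * discrepancy d N a)) +
      ∑ S ∈ H.powerset.filter (fun S => 2 ≤ S.card), N * (N ^ d / ∏ i, (2 * m S i)) := by
  classical
  have hN : 0 < N := Nat.pos_of_ne_zero (NeZero.ne N)
  set Δ : ℝ := 2 ^ d * (N * discrepancy d N a) with hΔ
  -- phases
  have hw : ∀ h : Fin d → ℤ, ∃ w : ℂ, ‖w‖ = 1 ∧ (w * K (N := N) y h).re = ‖K (N := N) y h‖ := by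
    intro h
    by_cases h0 : K (N := N) y h = 0
    · exact ⟨1, by simp, by simp [h0]⟩
    · refine ⟨(starRingEnd ℂ) (K (N := N) y h) / ‖K (N := N) y h‖, ?_, ?_⟩
      · rw [norm_div, RCLike.norm_conj, Complex.norm_real, norm_norm, div_self (norm_ne_zero_iff.mpr h0)]
      · rw [div_mul_eq_mul_div, mul_comm ((starRingEnd ℂ) _), Complex.mul_conj, Complex.normSq_eq_norm_sq]
        have : (((‖K (N := N) y h‖ ^ 2 : ℝ) : ℂ) / ((‖K (N := N) y h‖ : ℝ) : ℂ)) = ((‖K (N := N) y h‖ : ℝ) : ℂ) := by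
          rw [← Complex.ofReal_div]
          congr 1
          rw [sq, mul_div_assoc, div_self (norm_ne_zero_iff.mpr h0), mul_one]
        rw [this, Complex.ofReal_re]
  choose w hw1 hw2 using hw
  set x : (Fin d → ℤ) → (Fin d → ZMod N) → ℝ := fun h u => (w h * E h u).re with hx
  set P : (Fin d → ZMod N) → ℝ := fun u => ∏ h ∈ H, (1 + x h u) with hP
  have hPexp : ∀ u, P u = ∑ S ∈ H.powerset, ∏ h ∈ S, x h u := by
    intro u
    rw [hP]
    simp only
    exact Finset.prod_one_add H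
  have hPnn : ∀ u, 0 ≤ P u := by
    intro u
    apply Finset.prod_nonneg
    intro h _
    have h1 : |x h u| ≤ 1 := by
      rw [hx]
      refine (Complex.abs_re_le_norm _).trans ?_
      rw [norm_mul, hw1, norm_E, one_mul]
    linarith [(abs_le.mp h1).1]
  -- expansion of the products
  have hprod : ∀ (S : Finset (Fin d → ℤ)) (u : Fin d → ZMod N),
      ((∏ h ∈ S, x h u : ℝ) : ℂ) = (1/2 : ℂ) ^ S.card * ∑ T ∈ S.powerset,
        ((∏ h ∈ T, w h) * (∏ h ∈ S \ T, (starRingEnd ℂ) (w h))) * E (∑ h ∈ T, h - ∑ h ∈ S \ T, h) u := by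
    intro S u
    rw [Complex.ofReal_prod]
    have h1 : ∀ h, ((x h u : ℝ) : ℂ) = (1/2 : ℂ) * (w h * E h u + (starRingEnd ℂ) (w h) * E (-h) u) := by
      intro h
      rw [hx]
      simp only
      rw [Complex.re_eq_add_conj, map_mul, conj_E]
      ring
    simp_rw [h1]
    rw [Finset.prod_mul_distrib, Finset.prod_const, Finset.prod_add]
    congr 1
    apply Finset.sum_congr rfl
    intro T hT
    rw [Finset.prod_mul_distrib, Finset.prod_mul_distrib, E_sum]
    have h2 : ∏ h ∈ S \ T, E (-h) u = E (-∑ h ∈ S \ T, h) u := by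
      rw [← conj_E, ← E_sum, map_prod]
      apply Finset.prod_congr rfl
      intro h _
      rw [conj_E]
    rw [h2, sub_eq_add_neg, E_add]
    ring
  have hcoord : ∀ (S T : Finset (Fin d → ℤ)) (i : Fin d),
      (∑ h ∈ T, h - ∑ h ∈ S \ T, h) i = ∑ h ∈ T, h i - ∑ h ∈ S \ T, h i := by
    intro S T i
    rw [Pi.sub_apply, Finset.sum_apply, Finset.sum_apply]
  -- the sums of P
  have hsumP : ∑ u, P u = (N:ℝ) ^ d := by
    simp_rw [hPexp]
    rw [Finset.sum_comm, Finset.sum_eq_single ∅]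
    · simp
    · intro S hS hS0
      have hSH : S ⊆ H := Finset.mem_powerset.mp hS
      have hSn : S.Nonempty := Finset.nonempty_iff_ne_empty.mpr hS0
      have h1 : ((∑ u, ∏ h ∈ S, x h u : ℝ) : ℂ) = 0 := by
        rw [Complex.ofReal_sum]
        simp_rw [hprod]
        rw [← Finset.mul_sum, Finset.sum_comm]
        have h2 : ∀ T ∈ S.powerset, ∑ u, ((∏ h ∈ T, w h) * (∏ h ∈ S \ T, (starRingEnd ℂ) (w h))) * E (N := N) (∑ h ∈ T, h - ∑ h ∈ S \ T, h) u = 0 := by
          intro T hT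
          rw [← Finset.mul_sum]
          obtain ⟨h3, h4, h5⟩ := hm S hSH hSn T (Finset.mem_powerset.mp hT) ⟨0, hd⟩
          rw [sum_E _ ⟨0, hd⟩, mul_zero]
          rw [hcoord]
          intro h6
          rw [ZMod.intCast_zmod_eq_zero_iff_dvd] at h6
          have h7 : ∑ h ∈ T, h ⟨0, hd⟩ - ∑ h ∈ S \ T, h ⟨0, hd⟩ ≠ 0 := by
            intro h8
            rw [h8] at h4
            simp at h4
            linarith
          have h8 := Int.le_of_dvd (abs_pos.mpr h7) ((dvd_abs _ _).mpr h6)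
          have h9 : (0:ℤ) < N := by exact_mod_cast hN
          omega
        rw [Finset.sum_eq_zero h2, mul_zero]
      exact_mod_cast h1
    · intro h
      exact absurd (Finset.empty_mem_powerset H) h
  -- the sums against F
  have hA : ∀ S ⊆ H, ((∑ u, F d N a y u * ∏ h ∈ S, x h u : ℝ) : ℂ) = (1/2 : ℂ) ^ S.card * ∑ T ∈ S.powerset,
        ((∏ h ∈ T, w h) * (∏ h ∈ S \ T, (starRingEnd ℂ) (w h))) * K (N := N) y (∑ h ∈ T, h - ∑ h ∈ S \ T, h) := by
    intro S hS
    rw [Complex.ofReal_sum]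
    simp_rw [Complex.ofReal_mul, hprod]
    have h1 : ∀ u, (F d N a y u : ℂ) * ((1/2 : ℂ) ^ S.card * ∑ T ∈ S.powerset,
        ((∏ h ∈ T, w h) * (∏ h ∈ S \ T, (starRingEnd ℂ) (w h))) * E (∑ h ∈ T, h - ∑ h ∈ S \ T, h) u) =
        (1/2 : ℂ) ^ S.card * ∑ T ∈ S.powerset, ((∏ h ∈ T, w h) * (∏ h ∈ S \ T, (starRingEnd ℂ) (w h))) * ((F d N a y u : ℂ) * E (∑ h ∈ T, h - ∑ h ∈ S \ T, h) u) := by
      intro u
      rw [Finset.mul_sum, Finset.mul_sum, Finset.mul_sum]
      apply Finset.sum_congr rfl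
      intro T _
      ring
    simp_rw [h1]
    rw [← Finset.mul_sum, Finset.sum_comm]
    congr 1
    apply Finset.sum_congr rfl
    intro T hT
    rw [← Finset.mul_sum, Fsum']
    -- the frequency is dual
    have h2 : (∑ i, (∑ h ∈ T, h - ∑ h ∈ S \ T, h) i * (a i : ℤ) : ℤ) = ∑ h ∈ T, (∑ i, h i * (a i : ℤ)) - ∑ h ∈ S \ T, (∑ i, h i * (a i : ℤ)) := by
      simp_rw [hcoord, sub_mul, Finset.sum_sub_distrib, Finset.sum_mul]
      rw [Finset.sum_comm, Finset.sum_comm (s := Finset.univ) (t := S \ T)]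
    rw [h2]
    push_cast
    have h3 : ∀ h ∈ H, (∑ i, ((h i : ℤ) : ZMod N) * (a i : ZMod N)) = 0 := by
      intro h hh
      have := hdual h hh
      push_cast at this
      exact this
    rw [Finset.sum_eq_zero, Finset.sum_eq_zero, sub_zero]
    · intro h hh
      exact h3 h (hS (Finset.sdiff_subset hh))
    · intro h hh
      exact h3 h (hS (Finset.mem_powerset.mp hT hh))
  have hA0 : ∑ u, F d N a y u = N * ∏ i, (y i : ℝ) := by
    have h1 := hA ∅ (Finset.empty_subset _)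
    simp at h1
    have h2 := K_zero (N := N) y hy
    rw [h2] at h1
    exact_mod_cast h1
  have hA1 : ∀ h ∈ H, ∑ u, F d N a y u * x h u = ‖K (N := N) y h‖ := by
    intro h hh
    have h1 : ∑ u, (F d N a y u : ℂ) * E h u = K (N := N) y h := Fsum' a y h (hdual h hh)
    have h2 : ∀ u, F d N a y u * x h u = (w h * ((F d N a y u : ℂ) * E h u)).re := by
      intro u
      rw [hx]
      simp only
      rw [← Complex.re_ofReal_mul]
      congr 1
      ring
    simp_rw [h2]
    rw [← Complex.re_sum, ← Finset.mul_sum, h1, hw2]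
  have hA2 : ∀ S ⊆ H, 2 ≤ S.card → |∑ u, F d N a y u * ∏ h ∈ S, x h u| ≤ N * (N ^ d / ∏ i, (2 * m S i)) := by
    intro S hS hS2
    have hSn : S.Nonempty := Finset.card_pos.mp (by omega)
    have h1 : |∑ u, F d N a y u * ∏ h ∈ S, x h u| = ‖((∑ u, F d N a y u * ∏ h ∈ S, x h u : ℝ) : ℂ)‖ := by
      rw [Complex.norm_real, Real.norm_eq_abs]
    rw [h1, hA S hS, norm_mul, norm_pow]
    have h2 : ‖∑ T ∈ S.powerset, ((∏ h ∈ T, w h) * (∏ h ∈ S \ T, (starRingEnd ℂ) (w h))) * K (N := N) y (∑ h ∈ T, h - ∑ h ∈ S \ T, h)‖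
        ≤ 2 ^ S.card * (N * (N ^ d / ∏ i, (2 * m S i))) := by
      refine (norm_sum_le _ _).trans ?_
      refine (Finset.sum_le_card_nsmul _ _ (N * (N ^ d / ∏ i, (2 * m S i))) ?_).trans ?_
      · intro T hT
        rw [norm_mul, norm_mul, norm_prod, norm_prod]
        have e1 : ∏ h ∈ T, ‖w h‖ = 1 := Finset.prod_eq_one fun h _ => hw1 h
        have e2 : ∏ h ∈ S \ T, ‖(starRingEnd ℂ) (w h)‖ = 1 := Finset.prod_eq_one fun h _ => by rw [RCLike.norm_conj, hw1]
        rw [e1, e2, one_mul, one_mul]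
        apply norm_K_le y hy
        · intro i
          exact (hm S hS hSn T (Finset.mem_powerset.mp hT) i).1
        · intro i
          rw [hcoord]
          exact (hm S hS hSn T (Finset.mem_powerset.mp hT) i).2.1
        · intro i
          rw [hcoord]
          exact (hm S hS hSn T (Finset.mem_powerset.mp hT) i).2.2
      · rw [Finset.card_powerset, nsmul_eq_mul]
        push_cast
        exact le_rfl
    have h3 : ‖(1/2 : ℂ)‖ = 1/2 := by norm_num
    rw [h3]
    calc (1/2 : ℝ) ^ S.card * _ ≤ (1/2 : ℝ) ^ S.card * (2 ^ S.card * (N * (N ^ d / ∏ i, (2 * m S i)))) := by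
          apply mul_le_mul_of_nonneg_left h2 (by positivity)
      _ = ((1/2 : ℝ) * 2) ^ S.card * (N * (N ^ d / ∏ i, (2 * m S i))) := by
          rw [mul_pow]; ring
      _ = _ := by norm_num
  -- the total sum
  have htotal : ∑ u, (F d N a y u - N * ∏ i, ((y i : ℝ) / N)) * P u ≤ N ^ d * Δ := by
    calc ∑ u, (F d N a y u - N * ∏ i, ((y i : ℝ) / N)) * P u ≤ ∑ u, Δ * P u := by
          apply Finset.sum_le_sum
          intro u _
          apply mul_le_mul_of_nonneg_right _ (hPnn u)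
          exact (le_abs_self _).trans (F_bound d N a y hy u)
      _ = N ^ d * Δ := by
          rw [← Finset.mul_sum, hsumP, mul_comm]
  have hsplit : ∑ u, (F d N a y u - N * ∏ i, ((y i : ℝ) / N)) * P u =
      ∑ S ∈ H.powerset, (∑ u, F d N a y u * ∏ h ∈ S, x h u) - N * ∏ i, (y i : ℝ) := by
    have h1 : ∀ u, (F d N a y u - N * ∏ i, ((y i : ℝ) / N)) * P u =
        F d N a y u * P u - (N * ∏ i, ((y i : ℝ) / N)) * P u := fun u => by ring
    simp_rw [h1]
    rw [Finset.sum_sub_distrib, ← Finset.mul_sum, hsumP]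
    congr 1
    · rw [Finset.sum_comm]
      apply Finset.sum_congr rfl
      intro u _
      rw [hPexp, Finset.mul_sum]
    · rw [Finset.prod_div_distrib]
      have hN' : (N:ℝ) ≠ 0 := by exact_mod_cast hN.ne'
      have : ∏ _i : Fin d, (N:ℝ) = (N:ℝ) ^ d := by simp
      rw [this]
      field_simp
  rw [hsplit] at htotal
  -- split the powerset according to cardinality
  have hps : ∑ S ∈ H.powerset, (∑ u, F d N a y u * ∏ h ∈ S, x h u) =
      N * ∏ i, (y i : ℝ) + ∑ h ∈ H, ‖K (N := N) y h‖ +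
      ∑ S ∈ H.powerset.filter (fun S => 2 ≤ S.card), (∑ u, F d N a y u * ∏ h ∈ S, x h u) := by
    have h1 : H.powerset = (H.powerset.filter (fun S => 2 ≤ S.card)) ∪ (H.powerset.filter (fun S => ¬ 2 ≤ S.card)) :=
      (Finset.filter_union_filter_not_eq _ _).symm
    rw [← Finset.sum_filter_add_sum_filter_not H.powerset (fun S => 2 ≤ S.card)]
    rw [add_comm]
    congr 1
    have h2 : H.powerset.filter (fun S => ¬ 2 ≤ S.card) = insert ∅ (H.map ⟨fun h => ({h} : Finset (Fin d → ℤ)), Finset.singleton_injective⟩) := by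
      ext S
      simp only [Finset.mem_filter, Finset.mem_powerset, Finset.mem_insert, Finset.mem_map, Function.Embedding.coeFn_mk, not_le]
      constructor
      · rintro ⟨h3, h4⟩
        have h5 : S.card = 0 ∨ S.card = 1 := by omega
        rcases h5 with h5 | h5
        · left
          exact Finset.card_eq_zero.mp h5
        · right
          obtain ⟨h, rfl⟩ := Finset.card_eq_one.mp h5
          exact ⟨h, h3 (Finset.mem_singleton_self h), rfl⟩
      · rintro (rfl | ⟨h, hh, rfl⟩)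
        · simp
        · simp [hh]
    rw [h2, Finset.sum_insert]
    · rw [Finset.sum_map]
      congr 1
      · simp [hA0]
      · apply Finset.sum_congr rfl
        intro h hh
        simp only [Function.Embedding.coeFn_mk, Finset.prod_singleton]
        exact hA1 h hh
    · simp
  rw [hps] at htotal
  have hneg : -∑ S ∈ H.powerset.filter (fun S => 2 ≤ S.card), N * (N ^ d / ∏ i, (2 * m S i)) ≤
      ∑ S ∈ H.powerset.filter (fun S => 2 ≤ S.card), (∑ u, F d N a y u * ∏ h ∈ S, x h u) := by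
    rw [← Finset.sum_neg_distrib]
    apply Finset.sum_le_sum
    intro S hS
    rw [Finset.mem_filter, Finset.mem_powerset] at hS
    have := hA2 S hS.1 hS.2
    linarith [(abs_le.mp this).1]
  linarith


/-- **Riesz product lower bound for the discrepancy.** -/
theorem riesz {d N : ℕ} [NeZero N] (a : Fin d → ℕ) (H : Finset (Fin d → ℤ)) (hd : 0 < d)
    (hdual : ∀ h ∈ H, ((∑ i, h i * (a i : ℤ) : ℤ) : ZMod N) = 0)
    (m : Finset (Fin d → ℤ) → Fin d → ℝ)
    (hm : ∀ S ⊆ H, S.Nonempty → ∀ T ⊆ S, ∀ i, 0 < m S i ∧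
      m S i ≤ |((∑ h ∈ T, h i - ∑ h ∈ S \ T, h i : ℤ) : ℝ)| ∧
      2 * |∑ h ∈ T, h i - ∑ h ∈ S \ T, h i| ≤ N) :
    (∑ h ∈ H, N / ∏ i, |((h i : ℤ) : ℝ)|) / (2 * Real.pi) ^ d ≤ 2 ^ d * (N * discrepancy d N a) +
      ∑ S ∈ H.powerset.filter (fun S => 2 ≤ S.card), N / ∏ i, (2 * m S i) := by
  classical
  have hN : 0 < N := Nat.pos_of_ne_zero (NeZero.ne N)
  have hN' : (0:ℝ) < N := by exact_mod_cast hN
  have h1 : ∀ y ∈ Fintype.piFinset (fun _ : Fin d => Finset.range N),
      ∑ h ∈ H, ‖K (N := N) y h‖ ≤ N ^ d * (2 ^ d * (N * discrepancy d N a)) +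
      ∑ S ∈ H.powerset.filter (fun S => 2 ≤ S.card), N * (N ^ d / ∏ i, (2 * m S i)) := by
    intro y hy
    rw [Fintype.mem_piFinset] at hy
    exact riesz_fixed a H hd hdual m hm y (fun i => (Finset.mem_range.mp (hy i)).le)
  have h2 := Finset.sum_le_sum h1
  rw [Finset.sum_const, Fintype.card_piFinset, nsmul_eq_mul, Finset.sum_comm] at h2
  simp only [Finset.card_range, Finset.prod_const, Finset.card_univ, Fintype.card_fin] at h2
  have h3 : ∀ h ∈ H, (N:ℝ) * (((N:ℝ) ^ 2) ^ d / ((2 * Real.pi) ^ d * ∏ i, |((h i : ℤ) : ℝ)|)) ≤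
      ∑ y ∈ Fintype.piFinset (fun _ : Fin d => Finset.range N), ‖K (N := N) y h‖ := by
    intro h hh
    have e1 : ∀ y : Fin d → ℕ, ‖K (N := N) y h‖ = N * ∏ i, ‖Dk (N := N) (y i) (h i)‖ := by
      intro y
      unfold K
      rw [norm_mul, Complex.norm_natCast, norm_prod]
    simp_rw [e1]
    rw [← Finset.mul_sum]
    apply mul_le_mul_of_nonneg_left _ hN'.le
    rw [← Finset.prod_univ_sum (fun _ : Fin d => Finset.range N) (fun i y => ‖Dk (N := N) y (h i)‖)]
    have e2 : ((N:ℝ) ^ 2) ^ d / ((2 * Real.pi) ^ d * ∏ i, |((h i : ℤ) : ℝ)|) =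
        ∏ i, ((N:ℝ) * (N / (2 * Real.pi * |((h i : ℤ) : ℝ)|))) := by
      have : ∀ i, (N:ℝ) * (N / (2 * Real.pi * |((h i : ℤ) : ℝ)|)) = (N:ℝ)^2 / ((2 * Real.pi) * |((h i : ℤ) : ℝ)|) := by
        intro i
        ring
      simp_rw [this]
      rw [Finset.prod_div_distrib, Finset.prod_mul_distrib]
      simp
    rw [e2]
    apply Finset.prod_le_prod
    · intro i _
      have := Real.pi_pos
      positivity
    · intro i _
      have h4 := hm {h} (Finset.singleton_subset_iff.mpr hh) (Finset.singleton_nonempty h) {h} (Finset.Subset.refl _) i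
      simp only [Finset.sum_singleton, Finset.sdiff_self, Finset.sum_empty, sub_zero] at h4
      have h5 : h i ≠ 0 := by
        intro h6
        rw [h6] at h4
        simp at h4
        linarith [h4.1, h4.2]
      apply sum_Dk_lower _ h5
      intro h6
      rw [ZMod.intCast_zmod_eq_zero_iff_dvd] at h6
      have h7 := Int.le_of_dvd (abs_pos.mpr h5) ((dvd_abs _ _).mpr h6)
      have h9 : (0:ℤ) < N := by exact_mod_cast hN
      omega
  have h4 := Finset.sum_le_sum h3
  have h5 := h4.trans h2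
  have e3 : ∑ h ∈ H, (N:ℝ) * (((N:ℝ) ^ 2) ^ d / ((2 * Real.pi) ^ d * ∏ i, |((h i : ℤ) : ℝ)|)) =
      (N:ℝ) ^ d * ((N:ℝ) ^ d * ((∑ h ∈ H, N / ∏ i, |((h i : ℤ) : ℝ)|) / (2 * Real.pi) ^ d)) := by
    rw [Finset.sum_div, Finset.mul_sum, Finset.mul_sum]
    apply Finset.sum_congr rfl
    intro h _
    rw [← pow_mul, mul_comm 2 d, pow_mul, sq]
    field_simp
  have e4 : (((N ^ d : ℕ) : ℝ)) * (N ^ d * (2 ^ d * (N * discrepancy d N a)) +
      ∑ S ∈ H.powerset.filter (fun S => 2 ≤ S.card), N * (N ^ d / ∏ i, (2 * m S i))) =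
      (N:ℝ) ^ d * ((N:ℝ) ^ d * (2 ^ d * (N * discrepancy d N a) +
      ∑ S ∈ H.powerset.filter (fun S => 2 ≤ S.card), N / ∏ i, (2 * m S i))) := by
    push_cast
    congr 1
    rw [mul_add, Finset.mul_sum]
    congr 1
    apply Finset.sum_congr rfl
    intro S _
    ring
  rw [e3, e4] at h5
  have hp : (0:ℝ) < (N:ℝ) ^ d := by positivity
  exact le_of_mul_le_mul_left (le_of_mul_le_mul_left h5 hp) hp

end Pool.Agent.H89.Disc
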