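import Mathlib
import Pool.Agent.H89.Riesz

open Finset

namespace Pool.Agent.H89.Disc

/-- the maximum of `|h_i|` over `S` -/
def mx {d : ℕ} (S : Finset (Fin d → ℤ)) (i : Fin d) : ℕ := S.sup (fun h => (h i).natAbs)

lemma mx_attained {d : ℕ} {S : Finset (Fin d → ℤ)} (hS : S.Nonempty) (i : Fin d) :
    ∃ h ∈ S, (h i).natAbs = mx S i := by
  obtain ⟨h, hh, he⟩ := Finset.exists_mem_eq_sup S hS (fun h => (h i).natAbs)
  exact ⟨h, hh, he.symm⟩

lemma le_mx {d : ℕ} {S : Finset (Fin d → ℤ)} {h : Fin d → ℤ} (hh : h ∈ S) (i : Fin d) :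
    (h i).natAbs ≤ mx S i :=
  Finset.le_sup (f := fun h : Fin d → ℤ => (h i).natAbs) hh

lemma abs_signed_le {d : ℕ} {S T : Finset (Fin d → ℤ)} (hT : T ⊆ S) (i : Fin d) :
    |∑ h ∈ T, h i - ∑ h ∈ S \ T, h i| ≤ ∑ h ∈ S, |h i| := by
  classical
  calc |∑ h ∈ T, h i - ∑ h ∈ S \ T, h i| ≤ |∑ h ∈ T, h i| + |∑ h ∈ S \ T, h i| := abs_sub _ _
    _ ≤ ∑ h ∈ T, |h i| + ∑ h ∈ S \ T, |h i| := add_le_add (Finset.abs_sum_le_sum_abs _ _) (Finset.abs_sum_le_sum_abs _ _)
    _ = ∑ h ∈ S, |h i| := by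
        rw [add_comm]
        exact Finset.sum_sdiff hT

lemma abs_signed_ge {d : ℕ} {S T : Finset (Fin d → ℤ)} (hT : T ⊆ S) (i : Fin d) (h0 : Fin d → ℤ)
    (hh0 : h0 ∈ S) :
    2 * |h0 i| - ∑ h ∈ S, |h i| ≤ |∑ h ∈ T, h i - ∑ h ∈ S \ T, h i| := by
  classical
  have hsum : ∑ h ∈ S, |h i| = |h0 i| + ∑ h ∈ S.erase h0, |h i| := (Finset.add_sum_erase S _ hh0).symm
  by_cases hm : h0 ∈ T
  · have e1 : ∑ h ∈ T, h i - ∑ h ∈ S \ T, h i = h0 i + (∑ h ∈ T.erase h0, h i - ∑ h ∈ S \ T, h i) := by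
      rw [← Finset.add_sum_erase T _ hm]
      ring
    have e2 : |∑ h ∈ T.erase h0, h i - ∑ h ∈ S \ T, h i| ≤ ∑ h ∈ S.erase h0, |h i| := by
      have h3 : S \ T = (S.erase h0) \ (T.erase h0) := by
        ext x
        simp only [Finset.mem_sdiff, Finset.mem_erase]
        constructor
        · rintro ⟨h4, h5⟩
          refine ⟨⟨?_, h4⟩, ?_⟩
          · rintro rfl; exact h5 hm
          · rintro ⟨_, h6⟩; exact h5 h6
        · rintro ⟨⟨h4, h5⟩, h6⟩
          refine ⟨h5, fun h7 => h6 ⟨h4, h7⟩⟩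
      rw [h3]
      exact abs_signed_le (Finset.erase_subset_erase _ hT) i
    rw [e1, hsum]
    have h7 := abs_sub_abs_le_abs_sub (h0 i) (-(∑ h ∈ T.erase h0, h i - ∑ h ∈ S \ T, h i))
    rw [sub_neg_eq_add, abs_neg] at h7
    linarith
  · have hm' : h0 ∈ S \ T := Finset.mem_sdiff.mpr ⟨hh0, hm⟩
    have e1 : ∑ h ∈ T, h i - ∑ h ∈ S \ T, h i = -(h0 i) + (∑ h ∈ T, h i - ∑ h ∈ (S \ T).erase h0, h i) := by
      rw [← Finset.add_sum_erase (S \ T) _ hm']
      ring
    have e2 : |∑ h ∈ T, h i - ∑ h ∈ (S \ T).erase h0, h i| ≤ ∑ h ∈ S.erase h0, |h i| := by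
      have h3 : (S \ T).erase h0 = (S.erase h0) \ T := by
        ext x
        simp only [Finset.mem_sdiff, Finset.mem_erase]
        tauto
      rw [h3]
      apply abs_signed_le
      intro x hx
      rw [Finset.mem_erase]
      exact ⟨fun h => hm (h ▸ hx), hT hx⟩
    rw [e1, hsum]
    have h7 := abs_sub_abs_le_abs_sub (-(h0 i)) (-(∑ h ∈ T, h i - ∑ h ∈ (S \ T).erase h0, h i))
    rw [sub_neg_eq_add, abs_neg, abs_neg] at h7
    linarith

/-- The Riesz product inequality under a domination hypothesis for partial sums. -/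
theorem riesz2 {d N : ℕ} [NeZero N] (a : Fin d → ℕ) (H : Finset (Fin d → ℤ)) (hd : 0 < d)
    (hdual : ∀ h ∈ H, ((∑ i, h i * (a i : ℤ) : ℤ) : ZMod N) = 0)
    (hne : ∀ h ∈ H, ∀ i, h i ≠ 0)
    (hsmall : ∀ h ∈ H, ∀ i, 3 * |h i| ≤ N)
    (hsum : ∀ S ⊆ H, S.Nonempty → ∀ i, 2 * ∑ h ∈ S, |h i| ≤ 3 * (mx S i : ℤ)) :
    (∑ h ∈ H, N / ∏ i, |((h i : ℤ) : ℝ)|) / (2 * Real.pi) ^ d ≤ 2 ^ d * (N * discrepancy d N a) +
      ∑ S ∈ H.powerset.filter (fun S => 2 ≤ S.card), N / ∏ i, (mx S i : ℝ) := by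
  have h := riesz a H hd hdual (fun S i => (mx S i : ℝ) / 2) (by
    intro S hS hSn T hT i
    obtain ⟨h0, hh0, he⟩ := mx_attained hSn i
    have hpos : 0 < mx S i := by
      rw [← he]
      exact Int.natAbs_pos.mpr (hne h0 (hS hh0) i)
    have hposR : (0:ℝ) < mx S i := by exact_mod_cast hpos
    have he' : |h0 i| = (mx S i : ℤ) := by rw [← he, Int.natCast_natAbs]
    have h1 := hsum S hS hSn i
    have h2 := abs_signed_ge hT i h0 hh0
    have h3 := abs_signed_le hT i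
    have h4 := hsmall h0 (hS hh0) i
    rw [he'] at h2 h4
    refine ⟨by positivity, ?_, by omega⟩
    have h5 : (mx S i : ℤ) ≤ 2 * |∑ h ∈ T, h i - ∑ h ∈ S \ T, h i| := by omega
    have h6 : (mx S i : ℝ) ≤ 2 * |((∑ h ∈ T, h i - ∑ h ∈ S \ T, h i : ℤ) : ℝ)| := by
      exact_mod_cast h5
    linarith)
  refine h.trans (le_of_eq ?_)
  congr 1
  apply Finset.sum_congr rfl
  intro S _
  congr 1
  apply Finset.prod_congr rfl
  intro i _
  ring

/-- summing over subsets with at least two elements -/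
lemma sum_subsets_le {α : Type*} [DecidableEq α] (H : Finset α) (R : ℝ) (hR : 0 < R)
    (hH : (H.card : ℝ) ≤ R) :
    ∑ S ∈ H.powerset.filter (fun S => 2 ≤ S.card), (1 / R) ^ (S.card - 1) ≤ H.card ^ 2 / R := by
  have h1 : ∑ S ∈ H.powerset, (1 / R) ^ S.card = (1 + 1 / R) ^ H.card := by
    have := Finset.prod_one_add (f := fun _ : α => 1 / R) H
    simp only [Finset.prod_const] at this
    exact this.symm
  have h2 : H.powerset.filter (fun S => ¬ 2 ≤ S.card) = insert ∅ (H.map ⟨fun h => ({h} : Finset α), Finset.singleton_injective⟩) := by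
    ext S
    simp only [Finset.mem_filter, Finset.mem_powerset, Finset.mem_insert, Finset.mem_map, Function.Embedding.coeFn_mk, not_le]
    constructor
    · rintro ⟨h3, h4⟩
      have h5 : S.card = 0 ∨ S.card = 1 := by omega
      rcases h5 with h5 | h5
      · left
        exact Finset.card_eq_zero.mp h5
      · right
        obtain ⟨h, rfl⟩ := Finset.card_eq_one.mp h5
        exact ⟨h, h3 (Finset.mem_singleton_self h), rfl⟩
    · rintro (rfl | ⟨h, hh, rfl⟩)
      · simp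
      · simp [hh]
  have h3 : ∑ S ∈ H.powerset.filter (fun S => ¬ 2 ≤ S.card), (1 / R) ^ S.card = 1 + H.card * (1 / R) := by
    rw [h2, Finset.sum_insert (by simp), Finset.sum_map]
    simp
  have h4 : ∑ S ∈ H.powerset.filter (fun S => 2 ≤ S.card), (1 / R) ^ S.card = (1 + 1 / R) ^ H.card - 1 - H.card * (1 / R) := by
    have := Finset.sum_filter_add_sum_filter_not H.powerset (fun S => 2 ≤ S.card) (fun S => (1 / R) ^ S.card)
    rw [h1, h3] at this
    linarith
  have h5 : ∑ S ∈ H.powerset.filter (fun S => 2 ≤ S.card), (1 / R) ^ (S.card - 1) =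
      R * ∑ S ∈ H.powerset.filter (fun S => 2 ≤ S.card), (1 / R) ^ S.card := by
    rw [Finset.mul_sum]
    apply Finset.sum_congr rfl
    intro S hS
    have h6 : 2 ≤ S.card := (Finset.mem_filter.mp hS).2
    obtain ⟨k, hk⟩ : ∃ k, S.card = k + 1 := ⟨S.card - 1, by omega⟩
    rw [hk, Nat.add_sub_cancel, pow_succ]
    field_simp
  rw [h5, h4]
  have hx : (H.card : ℝ) / R ≤ 1 := by rw [div_le_one hR]; exact hH
  have hx0 : 0 ≤ (H.card : ℝ) / R := by positivity
  have h7 : (1 + 1 / R) ^ H.card ≤ Real.exp ((H.card : ℝ) / R) := by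
    have h8 : 1 + 1 / R ≤ Real.exp (1 / R) := by
      have := Real.add_one_le_exp (1 / R)
      linarith
    calc (1 + 1 / R) ^ H.card ≤ (Real.exp (1 / R)) ^ H.card := pow_le_pow_left₀ (by positivity) h8 _
      _ = Real.exp ((H.card : ℝ) / R) := by
          rw [← Real.exp_nat_mul]
          congr 1
          ring
  have h8 : Real.exp ((H.card : ℝ) / R) ≤ 1 + (H.card : ℝ) / R + ((H.card : ℝ) / R) ^ 2 := by
    have h9 := Real.abs_exp_sub_one_sub_id_le (x := (H.card : ℝ) / R) (by rw [abs_of_nonneg hx0]; exact hx)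
    have h10 := (abs_le.mp h9).2
    linarith
  calc R * ((1 + 1 / R) ^ H.card - 1 - H.card * (1 / R)) ≤ R * ((H.card : ℝ) / R) ^ 2 := by
        apply mul_le_mul_of_nonneg_left _ hR.le
        have : (H.card : ℝ) * (1 / R) = (H.card : ℝ) / R := by ring
        rw [this]
        linarith
    _ = H.card ^ 2 / R := by
        field_simp

/-- in a lacunary family the maximum grows geometrically with the cardinality -/
lemma mx_ge {d : ℕ} (i : Fin d) (R : ℝ) (hR : 1 ≤ R) :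
    ∀ (n : ℕ) (S : Finset (Fin d → ℤ)), S.card = n → S.Nonempty →
    (∀ h ∈ S, ∀ h' ∈ S, h ≠ h' → R * |((h i : ℤ):ℝ)| ≤ |((h' i : ℤ):ℝ)| ∨ R * |((h' i : ℤ):ℝ)| ≤ |((h i : ℤ):ℝ)|) →
    ∃ h0 ∈ S, R ^ (n - 1) * |((h0 i : ℤ):ℝ)| ≤ (mx S i : ℝ) := by
  intro n
  induction n with
  | zero =>
    intro S hS hSn
    rw [Finset.card_eq_zero] at hS
    rw [hS] at hSn
    exact absurd hSn (by simp)
  | succ n ih =>
    intro S hS hSn hlac
    classical
    obtain ⟨hm, hhm, hme⟩ := mx_attained hSn i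
    by_cases hn : n = 0
    · subst hn
      refine ⟨hm, hhm, ?_⟩
      rw [← hme]
      simp
    · have hcard : (S.erase hm).card = n := by
        rw [Finset.card_erase_of_mem hhm, hS]
        rfl
      have hne : (S.erase hm).Nonempty := by
        rw [← Finset.card_pos, hcard]
        omega
      obtain ⟨h0, hh0, h1⟩ := ih (S.erase hm) hcard hne (by
        intro h hh h' hh' hne
        exact hlac h (Finset.mem_of_mem_erase hh) h' (Finset.mem_of_mem_erase hh') hne)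
      refine ⟨h0, Finset.mem_of_mem_erase hh0, ?_⟩
      obtain ⟨hm', hhm', hme'⟩ := mx_attained hne i
      have h2 : R * (mx (S.erase hm) i : ℝ) ≤ (mx S i : ℝ) := by
        rw [← hme, ← hme']
        have h3 := hlac hm hhm hm' (Finset.mem_of_mem_erase hhm') (Finset.ne_of_mem_erase hhm').symm
        have h4 : ((hm' i).natAbs : ℝ) = |((hm' i : ℤ) : ℝ)| := by rw [Nat.cast_natAbs]; push_cast; rfl
        have h5 : ((hm i).natAbs : ℝ) = |((hm i : ℤ) : ℝ)| := by rw [Nat.cast_natAbs]; push_cast; rfl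
        rw [h4, h5]
        rcases h3 with h3 | h3
        · -- the maximum is at `hm`, so equality is forced
          have h6 : |((hm' i : ℤ) : ℝ)| ≤ |((hm i : ℤ) : ℝ)| := by
            rw [← h4, ← h5]
            rw [hme]
            exact_mod_cast le_mx (Finset.mem_of_mem_erase hhm') i
          nlinarith [abs_nonneg ((hm i : ℤ) : ℝ), abs_nonneg ((hm' i : ℤ) : ℝ)]
        · exact h3
      obtain ⟨k, hk⟩ : ∃ k, n = k + 1 := ⟨n - 1, by omega⟩
      subst hk
      simp only [Nat.add_sub_cancel] at h1 ⊢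
      calc R ^ (k + 1) * |((h0 i : ℤ):ℝ)| = R * (R ^ k * |((h0 i : ℤ):ℝ)|) := by ring
        _ ≤ R * (mx (S.erase hm) i : ℝ) := by
            apply mul_le_mul_of_nonneg_left h1
            linarith
        _ ≤ _ := h2


/-- The Riesz product inequality for lacunary families. -/
theorem riesz_lac {d N : ℕ} [NeZero N] (a : Fin d → ℕ) (H : Finset (Fin d → ℤ)) (hd : 0 < d)
    (hdual : ∀ h ∈ H, ((∑ i, h i * (a i : ℤ) : ℤ) : ZMod N) = 0)
    (hne : ∀ h ∈ H, ∀ i, h i ≠ 0)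
    (hsmall : ∀ h ∈ H, ∀ i, 3 * |h i| ≤ N)
    (R : ℝ) (hR2 : 2 ≤ R) (hR : 2 * (H.card : ℝ) ≤ R)
    (hlac : ∀ h ∈ H, ∀ h' ∈ H, h ≠ h' → ∀ i, R * |((h i : ℤ):ℝ)| ≤ |((h' i : ℤ):ℝ)| ∨ R * |((h' i : ℤ):ℝ)| ≤ |((h i : ℤ):ℝ)|)
    (T1 : ℝ) (hT1 : 0 < T1) (hprod : ∀ h ∈ H, (N:ℝ) ≤ T1 * ∏ i, |((h i : ℤ):ℝ)|) :
    (∑ h ∈ H, N / ∏ i, |((h i : ℤ) : ℝ)|) / (2 * Real.pi) ^ d ≤ 2 ^ d * (N * discrepancy d N a) +
      T1 * (H.card ^ 2 / R) := by
  classical
  have hN : 0 < N := Nat.pos_of_ne_zero (NeZero.ne N)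
  have hN' : (0:ℝ) < N := by exact_mod_cast hN
  have hRpos : 0 < R := by linarith
  have hsum : ∀ S ⊆ H, S.Nonempty → ∀ i, 2 * ∑ h ∈ S, |h i| ≤ 3 * (mx S i : ℤ) := by
    intro S hS hSn i
    obtain ⟨h0, hh0, he⟩ := mx_attained hSn i
    have he' : |((h0 i : ℤ):ℝ)| = (mx S i : ℝ) := by rw [← he, Nat.cast_natAbs]; push_cast; rfl
    have h1 : ∀ h ∈ S.erase h0, |((h i : ℤ):ℝ)| ≤ (mx S i : ℝ) / R := by
      intro h hh
      have hhS := Finset.mem_of_mem_erase hh
      have hle : |((h i : ℤ):ℝ)| ≤ (mx S i : ℝ) := by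
        have : ((h i).natAbs : ℝ) = |((h i : ℤ) : ℝ)| := by rw [Nat.cast_natAbs]; push_cast; rfl
        rw [← this]
        exact_mod_cast le_mx hhS i
      have hpos : 0 < |((h0 i : ℤ):ℝ)| := abs_pos.mpr (by exact_mod_cast hne h0 (hS hh0) i)
      rw [le_div_iff₀ hRpos]
      rcases hlac h (hS hhS) h0 (hS hh0) (Finset.ne_of_mem_erase hh) i with h2 | h2
      · rw [he'] at h2
        linarith
      · rw [he'] at h2 hpos
        nlinarith
    have h2 : ∑ h ∈ S, |((h i : ℤ):ℝ)| ≤ (mx S i : ℝ) + (mx S i : ℝ) / 2 := by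
      rw [← Finset.add_sum_erase S _ hh0, he']
      have h3 := Finset.sum_le_card_nsmul _ _ _ h1
      rw [nsmul_eq_mul] at h3
      have h4 : ((S.erase h0).card : ℝ) ≤ H.card := by
        exact_mod_cast (Finset.card_le_card (Finset.erase_subset _ _)).trans (Finset.card_le_card hS)
      have h5 : ((S.erase h0).card : ℝ) * ((mx S i : ℝ) / R) ≤ (mx S i : ℝ) / 2 := by
        have h6 : (0:ℝ) ≤ mx S i := Nat.cast_nonneg _
        calc ((S.erase h0).card : ℝ) * ((mx S i : ℝ) / R) ≤ (R / 2) * ((mx S i : ℝ) / R) := by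
              apply mul_le_mul_of_nonneg_right _ (by positivity)
              linarith
          _ = (mx S i : ℝ) / 2 := by field_simp
      linarith
    have h3 : (2:ℝ) * ∑ h ∈ S, |((h i : ℤ):ℝ)| ≤ 3 * (mx S i : ℝ) := by linarith
    exact_mod_cast h3
  have h1 := riesz2 a H hd hdual hne hsmall hsum
  refine h1.trans ?_
  apply add_le_add le_rfl
  have h2 : ∀ S ∈ H.powerset.filter (fun S => 2 ≤ S.card), (N:ℝ) / ∏ i, (mx S i : ℝ) ≤ T1 * (1 / R) ^ (S.card - 1) := by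
    intro S hS
    rw [Finset.mem_filter, Finset.mem_powerset] at hS
    have hSn : S.Nonempty := Finset.card_pos.mp (by omega)
    obtain ⟨h0, hh0, h3⟩ := mx_ge (⟨0, hd⟩ : Fin d) R (by linarith) S.card S rfl hSn
      (fun h hh h' hh' hne => hlac h (hS.1 hh) h' (hS.1 hh') hne _)
    have h4 : R ^ (S.card - 1) * ∏ i, |((h0 i : ℤ):ℝ)| ≤ ∏ i, (mx S i : ℝ) := by
      rw [← Finset.mul_prod_erase Finset.univ _ (Finset.mem_univ (⟨0, hd⟩ : Fin d)),
        ← Finset.mul_prod_erase Finset.univ (fun i => (mx S i : ℝ)) (Finset.mem_univ (⟨0, hd⟩ : Fin d)), ← mul_assoc]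
      apply mul_le_mul h3
      · apply Finset.prod_le_prod
        · intro i _
          exact abs_nonneg _
        · intro i _
          have : ((h0 i).natAbs : ℝ) = |((h0 i : ℤ) : ℝ)| := by rw [Nat.cast_natAbs]; push_cast; rfl
          rw [← this]
          exact_mod_cast le_mx hh0 i
      · apply Finset.prod_nonneg
        intro i _
        exact abs_nonneg _
      · exact Nat.cast_nonneg _
    have h5 := hprod h0 (hS.1 hh0)
    have hprodpos : 0 < ∏ i, |((h0 i : ℤ):ℝ)| := by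
      apply Finset.prod_pos
      intro i _
      exact abs_pos.mpr (by exact_mod_cast hne h0 (hS.1 hh0) i)
    have hRk : 0 < R ^ (S.card - 1) := by positivity
    have hpos : 0 < ∏ i, (mx S i : ℝ) := lt_of_lt_of_le (by positivity) h4
    rw [div_le_iff₀ hpos, one_div, inv_pow]
    calc (N:ℝ) ≤ T1 * ∏ i, |((h0 i : ℤ):ℝ)| := h5
      _ = T1 * (R ^ (S.card - 1))⁻¹ * (R ^ (S.card - 1) * ∏ i, |((h0 i : ℤ):ℝ)|) := by
          field_simp
      _ ≤ T1 * (R ^ (S.card - 1))⁻¹ * ∏ i, (mx S i : ℝ) := by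
          apply mul_le_mul_of_nonneg_left h4
          positivity
  refine (Finset.sum_le_sum h2).trans ?_
  rw [← Finset.mul_sum]
  apply mul_le_mul_of_nonneg_left _ hT1.le
  apply sum_subsets_le H R hRpos
  have : (0:ℝ) ≤ H.card := Nat.cast_nonneg _
  linarith

end Pool.Agent.H89.Disc
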