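import Mathlib
import Pool.Agent.H89.Prob
import Pool.Agent.H89.High1
import Pool.Agent.H89.Riesz2

open Finset

namespace Pool.Agent.H89.Disc

lemma prod_inv_wt {D : ℕ} (h : Fin D → ℕ) : wt h = 1 / ∏ i, (h i : ℝ) := by
  unfold wt
  rw [Finset.prod_div_distrib]
  simp

lemma wt_lower {D : ℕ} (h : Fin D → ℕ) (B : ℕ) (hpos : ∀ i, 0 < h i) (hB : ∀ i, h i ≤ B) :
    1 ≤ (B:ℝ) ^ D * wt h := by
  have : (B:ℝ) ^ D * wt h = ∏ i, ((B:ℝ) * (1 / (h i : ℝ))) := by
    unfold wt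
    rw [Finset.prod_mul_distrib]
    simp
  rw [this]
  apply Finset.one_le_prod
  intro i _
  have h1 : (0:ℝ) < h i := by exact_mod_cast hpos i
  rw [mul_one_div, le_div_iff₀ h1, one_mul]
  exact_mod_cast hB i

lemma wt_upper {E : ℕ} (h : Fin (E + 1) → ℕ) (A : ℕ) (hA : 0 < A) (hB : ∀ i, A ≤ h i) :
    wt h ≤ 1 / A := by
  have hA' : (1:ℝ) ≤ A := by exact_mod_cast hA
  rw [wt_succ]
  have h1 : wt (Fin.tail h) ≤ 1 := by
    unfold wt
    apply Finset.prod_le_one
    · intro i _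
      positivity
    · intro i _
      have : (1:ℝ) ≤ (Fin.tail h i : ℝ) := by
        have h2 : A ≤ Fin.tail h i := hB i.succ
        exact_mod_cast (by omega : 1 ≤ Fin.tail h i)
      rw [div_le_one (by linarith)]
      exact this
  have h2 : (1:ℝ) / (h 0 : ℝ) ≤ 1 / A := by
    apply one_div_le_one_div_of_le (by linarith)
    exact_mod_cast hB 0
  have h3 := wt_nonneg (Fin.tail h)
  have h4 : (0:ℝ) ≤ 1 / (h 0 : ℝ) := by positivity
  nlinarith

lemma natAbs_minor_le (a b c d B : ℕ) (ha : a ≤ B) (hb : b ≤ B) (hc : c ≤ B) (hd : d ≤ B) :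
    ((a : ℤ) * b - c * d).natAbs ≤ B ^ 2 := by
  have h1 : a * b ≤ B ^ 2 := by rw [sq]; exact Nat.mul_le_mul ha hb
  have h2 : c * d ≤ B ^ 2 := by rw [sq]; exact Nat.mul_le_mul hc hd
  have h1' : ((a : ℤ) * b) ≤ (B:ℤ) ^ 2 := by exact_mod_cast h1
  have h2' : ((c : ℤ) * d) ≤ (B:ℤ) ^ 2 := by exact_mod_cast h2
  have h3 : 0 ≤ (a : ℤ) * b := by positivity
  have h4 : 0 ≤ (c : ℤ) * d := by positivity
  zify
  rw [abs_le]
  constructor <;> linarith

/-- being within a bounded ratio in some coordinate, or in the product -/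
def Conf {D : ℕ} (R R1 : ℝ) (h h' : Fin D → ℕ) : Prop :=
  (∃ i, (h i : ℝ) < R * h' i ∧ (h' i : ℝ) < R * h i) ∨
    ((∏ i, (h i : ℝ)) < R1 * ∏ i, (h' i : ℝ) ∧ (∏ i, (h' i : ℝ)) < R1 * ∏ i, (h i : ℝ))

open Classical in
/-- the family of vectors -/
noncomputable def Fam (E g : ℕ) [NeZero g] (av : Fin (E + 1) → ℕ) (A B : ℕ) : Finset (Fin (E + 1) → ℕ) :=
  (Fintype.piFinset (fun _ : Fin (E + 1) => Finset.Ico A B)).filter
    (fun h => res g h ∈ PL g av ∧ Prim g (PL g av) h)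

open Classical in
lemma conf_sum {E g : ℕ} [NeZero g] (av : Fin (E + 1) → ℕ) (A B : ℕ) (hA : 0 < A) (hAB : A ≤ B)
    (R R1 : ℝ) (hR : 1 ≤ R) (hRR1 : R ≤ R1) (h : Fin (E + 1) → ℕ) (hh : ∀ i, 0 < h i) :
    ∑ h' ∈ (Fam E g av A B).filter (fun h' => h' ≠ h ∧ Conf R R1 h h'), wt h' ≤
      (E + 2) * ((PL g av).card * ((1 / A + 1 / g * Real.log (R1 ^ 2)) * (1 / A + 1 / g * Real.log (B / A)) ^ E)) := by
  set X : ℝ := (PL g av).card * ((1 / A + 1 / g * Real.log (R1 ^ 2)) * (1 / A + 1 / g * Real.log (B / A)) ^ E) with hX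
  have hA' : (0:ℝ) < A := by exact_mod_cast hA
  have hAB' : (A:ℝ) ≤ B := by exact_mod_cast hAB
  have hR0 : 0 < R := by linarith
  have hR10 : 0 < R1 := by linarith
  have hR1sq : 1 ≤ R1 ^ 2 := by nlinarith
  have hI : ∀ n ∈ Finset.Ico A B, (A:ℝ) ≤ n ∧ (n:ℝ) ≤ B := by
    intro n hn
    rw [Finset.mem_Ico] at hn
    exact ⟨by exact_mod_cast hn.1, by exact_mod_cast hn.2.le⟩
  set Sc : Fin (E + 1) → Finset (Fin (E + 1) → ℕ) := fun i => (Fintype.piFinset (fun _ : Fin (E + 1) => Finset.Ico A B)).filter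
      (fun h' => res g h' ∈ PL g av ∧ (h i : ℝ) / R1 ≤ (h' i : ℝ) ∧ (h' i : ℝ) ≤ (h i : ℝ) / R1 * R1 ^ 2) with hSc
  set Sp : Finset (Fin (E + 1) → ℕ) := (Fintype.piFinset (fun _ : Fin (E + 1) => Finset.Ico A B)).filter
      (fun h' => res g h' ∈ PL g av ∧ (∏ i, (h i : ℝ)) / R1 ≤ ∏ i, (h' i : ℝ) ∧ ∏ i, (h' i : ℝ) ≤ (∏ i, (h i : ℝ)) / R1 * R1 ^ 2) with hSp
  have hc : ∀ i ∈ (univ : Finset (Fin (E + 1))), ∑ h' ∈ Sc i, wt h' ≤ X := by
    intro i _
    have hi : (0:ℝ) < h i := by exact_mod_cast hh i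
    exact coord_conflict (Finset.Ico A B) A B hA' hAB' hI (PL g av) i ((h i : ℝ) / R1) (R1 ^ 2) (by positivity) hR1sq
  have hp : ∑ h' ∈ Sp, wt h' ≤ X := by
    have hpos : 0 < ∏ i, (h i : ℝ) := Finset.prod_pos (fun i _ => by exact_mod_cast hh i)
    exact prod_conflict (Finset.Ico A B) A B hA' hAB' hI (PL g av) ((∏ i, (h i : ℝ)) / R1) (R1 ^ 2) (by positivity) hR1sq
  have hsub : (Fam E g av A B).filter (fun h' => h' ≠ h ∧ Conf R R1 h h') ⊆ (univ.biUnion Sc) ∪ Sp := by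
    intro h' hh'
    rw [Finset.mem_filter, Fam, Finset.mem_filter] at hh'
    obtain ⟨⟨h1, h2, _⟩, _, h3⟩ := hh'
    have hpos' : ∀ i, (0:ℝ) < h' i := by
      intro i
      have := Finset.mem_Ico.mp (Fintype.mem_piFinset.mp h1 i)
      exact_mod_cast (by omega : 0 < h' i)
    rw [Finset.mem_union]
    rcases h3 with ⟨i, h4, h5⟩ | ⟨h4, h5⟩
    · left
      rw [Finset.mem_biUnion]
      refine ⟨i, Finset.mem_univ _, ?_⟩
      rw [hSc]
      simp only [Finset.mem_filter]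
      have hi : (0:ℝ) < h i := by exact_mod_cast hh i
      have hi' := hpos' i
      refine ⟨h1, h2, ?_, ?_⟩
      · rw [div_le_iff₀ hR10]
        nlinarith
      · have e : (h i : ℝ) / R1 * R1 ^ 2 = R1 * h i := by field_simp
        rw [e]
        nlinarith
    · right
      rw [hSp, Finset.mem_filter]
      refine ⟨h1, h2, ?_, ?_⟩
      · rw [div_le_iff₀ hR10]
        linarith
      · have e : (∏ i, (h i : ℝ)) / R1 * R1 ^ 2 = R1 * ∏ i, (h i : ℝ) := by field_simp
        rw [e]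
        exact h5.le
  have h1 : ∑ h' ∈ (Fam E g av A B).filter (fun h' => h' ≠ h ∧ Conf R R1 h h'), wt h' ≤ ∑ h' ∈ (univ.biUnion Sc) ∪ Sp, wt h' :=
    Finset.sum_le_sum_of_subset_of_nonneg hsub (fun h' _ _ => wt_nonneg h')
  have h2 : ∑ h' ∈ (univ.biUnion Sc) ∪ Sp, wt h' ≤ ∑ h' ∈ univ.biUnion Sc, wt h' + ∑ h' ∈ Sp, wt h' := by
    rw [← Finset.sum_union_inter]
    have := Finset.sum_nonneg (s := univ.biUnion Sc ∩ Sp) (f := wt) (fun h _ => wt_nonneg h)
    linarith
  have h3 : ∑ h' ∈ univ.biUnion Sc, wt h' ≤ ∑ i, ∑ h' ∈ Sc i, wt h' := sum_biUnion_le' _ _ _ (fun h => wt_nonneg h)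
  have h4 : ∑ i, ∑ h' ∈ Sc i, wt h' ≤ (E + 1) * X := by
    refine (Finset.sum_le_card_nsmul _ _ _ hc).trans (le_of_eq ?_)
    rw [Finset.card_univ, Fintype.card_fin, nsmul_eq_mul]
    push_cast
    ring
  calc _ ≤ (E + 1) * X + X := by linarith
    _ = _ := by ring

/-- a family whose `i`-th coordinates have ratios at least `2` is small -/
lemma card_le_log {D : ℕ} (i : Fin D) (H : Finset (Fin D → ℕ)) (B : ℕ) (R : ℝ) (hR : 2 ≤ R)
    (hpos : ∀ h ∈ H, 0 < h i) (hB : ∀ h ∈ H, h i < B)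
    (hlac : ∀ h ∈ H, ∀ h' ∈ H, h ≠ h' → R * (h i : ℝ) ≤ h' i ∨ R * (h' i : ℝ) ≤ h i) :
    H.card ≤ Nat.log 2 B + 1 := by
  have h1 : H.card ≤ (Finset.range (Nat.log 2 B + 1)).card := by
    apply Finset.card_le_card_of_injOn (fun h => Nat.log 2 (h i))
    · intro h hh
      have h2 : Nat.log 2 (h i) ≤ Nat.log 2 B := Nat.log_mono_right (hB h hh).le
      simp only [Finset.coe_range, Set.mem_Iio]
      omega
    · have key : ∀ h ∈ H, ∀ h' ∈ H, R * (h i : ℝ) ≤ h' i → Nat.log 2 (h i) ≠ Nat.log 2 (h' i) := by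
        intro h hh h' hh' hle he
        have h3 : (2:ℝ) * (h i : ℝ) ≤ h' i := by
          have : (0:ℝ) ≤ h i := Nat.cast_nonneg _
          nlinarith
        have h4 : h i * 2 ≤ h' i := by
          have : ((h i * 2 : ℕ) : ℝ) ≤ h' i := by push_cast; linarith
          exact_mod_cast this
        have h5 : Nat.log 2 (h i * 2) ≤ Nat.log 2 (h' i) := Nat.log_mono_right h4
        rw [Nat.log_mul_base (by norm_num) (hpos h hh).ne'] at h5
        omega
      intro h hh h' hh' he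
      by_contra hne
      rcases hlac h hh h' hh' hne with h3 | h3
      · exact key h hh h' hh' h3 he
      · exact key h' hh' h hh h3 he.symm
  rwa [Finset.card_range] at h1

open Classical in
/-- The good event implies the discrepancy bound. -/
lemma high_det {E g M N : ℕ} [NeZero g] [NeZero M] [NeZero N] (hN : N = g * M)
    (u : (ZMod M)ˣ) (α0 : ℕ) (hu : (u : ZMod M) * (α0 : ZMod M) = -1) (av : Fin (E + 1) → ℕ)
    (y : Fin (E + 1) → ZMod M) (a : Fin (E + 2) → ℕ)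
    (ha0 : ((a 0 : ℕ) : ZMod N) = ((g * α0 : ℕ) : ZMod N))
    (ha : ∀ i : Fin (E + 1), ((a i.succ : ℕ) : ZMod N) = ((av i + g * (y i).val : ℕ) : ZMod N))
    (A B J : ℕ) (hA : 0 < A) (t0 T1 R : ℝ) (ht0 : 3 ≤ t0) (hT1 : t0 ≤ T1)
    (hB3 : 3 * (B:ℝ) ≤ N)
    (hR : 2 * ((Nat.log 2 B : ℝ) + 1) ≤ R) (hR2 : 2 ≤ R)
    (v : ℝ)
    (hsum : v / 4 ≤ ∑ h ∈ (Fam E g av A B).filter (fun h => y ∈ Lv g M N u av h (t0 * 2 ^ 0) ∧
      ∀ h' ∈ Fam E g av A B, h' ≠ h → y ∈ Lv g M N u av h' (t0 * 2 ^ 0) → ¬ Conf R (R * T1 / t0) h h'),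
      Wt J (fun j => t0 * 2 ^ j) (fun h j => Lv g M N u av h (t0 * 2 ^ j)) h y)
    (hnz : ∀ h ∈ Fam E g av A B, y ∉ Lv g M N u av h T1) :
    v / 8 / (2 * Real.pi) ^ (E + 2) ≤ 2 ^ (E + 2) * (N * discrepancy (E + 2) N a) +
      T1 * (((Nat.log 2 B : ℝ) + 1) ^ 2 / R) := by
  have ht0' : 0 < t0 := by linarith
  have hT1' : 0 < T1 := by linarith
  have hR0 : 0 < R := by linarith
  have hNpos : (0:ℝ) < N := by exact_mod_cast Nat.pos_of_ne_zero (NeZero.ne N)
  set Hy := (Fam E g av A B).filter (fun h => y ∈ Lv g M N u av h (t0 * 2 ^ 0) ∧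
      ∀ h' ∈ Fam E g av A B, h' ≠ h → y ∈ Lv g M N u av h' (t0 * 2 ^ 0) → ¬ Conf R (R * T1 / t0) h h') with hHy
  have hfam : ∀ h ∈ Hy, (∀ i, A ≤ h i ∧ h i < B) ∧ res g h ∈ PL g av := by
    intro h hh
    rw [hHy, Finset.mem_filter, Fam, Finset.mem_filter, Fintype.mem_piFinset] at hh
    exact ⟨fun i => Finset.mem_Ico.mp (hh.1.1 i), hh.1.2.1⟩
  have hpos : ∀ h ∈ Hy, ∀ i, 0 < h i := fun h hh i => lt_of_lt_of_le hA ((hfam h hh).1 i).1
  have hprodpos : ∀ h ∈ Hy, 0 < ∏ i, (h i : ℝ) := fun h hh => Finset.prod_pos (fun i _ => by exact_mod_cast hpos h hh i)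
  -- the size of the special coordinate
  have hza_up : ∀ h ∈ Hy, (za (zf u (cc g M av h) h y) : ℝ) * ∏ i, (h i : ℝ) ≤ N / t0 := by
    intro h hh
    have h1 := (Finset.mem_filter.mp hh).2.1
    rw [Lv, Finset.mem_filter] at h1
    have h2 : (za (zf u (cc g M av h) h y) : ℝ) ≤ N * wt h / (t0 * 2 ^ 0) := by
      refine le_trans (by exact_mod_cast h1.2) (Nat.floor_le (by have := wt_nonneg h; positivity))
    rw [pow_zero, mul_one, prod_inv_wt] at h2
    have h3 := hprodpos h hh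
    calc (za (zf u (cc g M av h) h y) : ℝ) * ∏ i, (h i : ℝ) ≤ (N * (1 / ∏ i, (h i : ℝ)) / t0) * ∏ i, (h i : ℝ) :=
          mul_le_mul_of_nonneg_right h2 h3.le
      _ = N / t0 := by field_simp
  have hza_lo : ∀ h ∈ Hy, N / T1 < (za (zf u (cc g M av h) h y) : ℝ) * ∏ i, (h i : ℝ) := by
    intro h hh
    have h1 := hnz h (Finset.mem_filter.mp hh).1
    rw [Lv, Finset.mem_filter, not_and] at h1
    have h2 := h1 (Finset.mem_univ _)
    rw [not_le, Nat.floor_lt (by have := wt_nonneg h; positivity), prod_inv_wt] at h2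
    have h3 := hprodpos h hh
    calc N / T1 = (N * (1 / ∏ i, (h i : ℝ)) / T1) * ∏ i, (h i : ℝ) := by field_simp
      _ < _ := mul_lt_mul_of_pos_right h2 h3
  have hzapos : ∀ h ∈ Hy, (0:ℝ) < (za (zf u (cc g M av h) h y) : ℝ) := by
    intro h hh
    have h1 := hza_lo h hh
    have h3 := hprodpos h hh
    by_contra hcon
    have : (za (zf u (cc g M av h) h y) : ℝ) = 0 := le_antisymm (not_lt.mp hcon) (Nat.cast_nonneg _)
    rw [this, zero_mul] at h1
    have : 0 < N / T1 := by positivity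
    linarith
  have hdv0 : ∀ h : Fin (E + 1) → ℕ, |((dv u g av y h 0 : ℤ) : ℝ)| = (za (zf u (cc g M av h) h y) : ℝ) := by
    intro h
    unfold dv za
    rw [Fin.cons_zero, Nat.cast_natAbs]
    push_cast
    rfl
  have hdvs : ∀ (h : Fin (E + 1) → ℕ) (i : Fin (E + 1)), |((dv u g av y h i.succ : ℤ) : ℝ)| = (h i : ℝ) := by
    intro h i
    unfold dv
    rw [Fin.cons_succ]
    simp
  have hinj : Set.InjOn (dv u g av y) (Hy : Set (Fin (E + 1) → ℕ)) := by
    intro h _ h' _ he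
    funext i
    have := congrFun he i.succ
    unfold dv at this
    rw [Fin.cons_succ, Fin.cons_succ] at this
    exact_mod_cast this
  have hlacH : ∀ h ∈ Hy, ∀ h' ∈ Hy, h ≠ h' → ¬ Conf R (R * T1 / t0) h h' := by
    intro h hh h' hh' hne
    have h1 := (Finset.mem_filter.mp hh).2.2 h' (Finset.mem_filter.mp hh').1 (fun h => hne h.symm)
      (Finset.mem_filter.mp hh').2.1
    exact h1
  have hcardH : Hy.card ≤ Nat.log 2 B + 1 := by
    apply card_le_log (0 : Fin (E + 1)) Hy B R hR2 (fun h hh => hpos h hh 0) (fun h hh => ((hfam h hh).1 0).2)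
    intro h hh h' hh' hne
    have h1 := hlacH h hh h' hh' hne
    unfold Conf at h1
    rw [not_or, not_exists] at h1
    have h2 := h1.1 0
    rw [not_and_or, not_lt, not_lt] at h2
    exact h2.symm
  have hcardI : (Hy.image (dv u g av y)).card = Hy.card := Finset.card_image_of_injOn hinj
  have hcardR : ((Hy.card : ℕ) : ℝ) ≤ (Nat.log 2 B : ℝ) + 1 := by exact_mod_cast hcardH
  have hr := riesz_lac a (Hy.image (dv u g av y)) (by omega)
    (by
      intro k hk
      rw [Finset.mem_image] at hk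
      obtain ⟨h, hh, rfl⟩ := hk
      exact dv_dual hN u α0 hu av y a ha0 ha h (hfam h hh).2)
    (by
      intro k hk i
      rw [Finset.mem_image] at hk
      obtain ⟨h, hh, rfl⟩ := hk
      refine Fin.cases ?_ ?_ i
      · intro h1
        have h2 := hdv0 h
        rw [h1] at h2
        have h3 := hzapos h hh
        rw [← h2] at h3
        simp at h3
      · intro i h1
        have h2 := hdvs h i
        rw [h1] at h2
        have h3 := hpos h hh i
        have h4 : (h i : ℝ) = 0 := by rw [← h2]; simp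
        have h5 : h i = 0 := by exact_mod_cast h4
        omega)
    (by
      intro k hk i
      rw [Finset.mem_image] at hk
      obtain ⟨h, hh, rfl⟩ := hk
      have key : 3 * |((dv u g av y h i : ℤ) : ℝ)| ≤ N := by
        refine Fin.cases ?_ ?_ i
        · rw [hdv0]
          have h1 := hza_up h hh
          have h2 : (1:ℝ) ≤ ∏ i, (h i : ℝ) := by
            apply Finset.one_le_prod
            intro i _
            exact_mod_cast hpos h hh i
          have h3 := hzapos h hh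
          have h4 : (za (zf u (cc g M av h) h y) : ℝ) ≤ N / t0 := by nlinarith
          have h5 : N / t0 ≤ N / 3 := by gcongr
          linarith
        · intro i
          rw [hdvs]
          have h1 : (h i : ℝ) ≤ B := by exact_mod_cast ((hfam h hh).1 i).2.le
          linarith
      exact_mod_cast key)
    R hR2 (by rw [hcardI]; linarith)
    (by
      intro k hk k' hk' hne i
      rw [Finset.mem_image] at hk hk'
      obtain ⟨h, hh, rfl⟩ := hk
      obtain ⟨h', hh', rfl⟩ := hk'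
      have hne' : h ≠ h' := fun h => hne (by rw [h])
      have h1 := hlacH h hh h' hh' hne'
      unfold Conf at h1
      rw [not_or, not_exists] at h1
      refine Fin.cases ?_ ?_ i
      · rw [hdv0, hdv0]
        have h2 := h1.2
        rw [not_and_or, not_lt, not_lt] at h2
        have hu1 := hza_up h hh
        have hu2 := hza_up h' hh'
        have hl1 := hza_lo h hh
        have hl2 := hza_lo h' hh'
        have hp1 := hprodpos h hh
        have hp2 := hprodpos h' hh'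
        have hz1 := hzapos h hh
        have hz2 := hzapos h' hh'
        have key : ∀ (z z' p p' : ℝ), 0 < z → 0 < z' → 0 < p → 0 < p' → z * p ≤ N / t0 → N / T1 < z' * p' →
            R * T1 / t0 * p' ≤ p → R * z ≤ z' := by
          intro z z' p p' hz hz' hp hp' h1 h2 h3
          have h4 : z * (R * T1 / t0 * p') ≤ N / t0 := le_trans (mul_le_mul_of_nonneg_left h3 hz.le) h1
          have h5 : R * z * p' ≤ N / T1 := by
            rw [le_div_iff₀ hT1']
            have : z * (R * T1 / t0 * p') = (R * z * p' * T1) / t0 := by ring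
            rw [this] at h4
            exact (div_le_div_iff_of_pos_right ht0').mp h4
          have h6 : R * z * p' < z' * p' := lt_of_le_of_lt h5 h2
          exact (lt_of_mul_lt_mul_right h6 hp'.le).le
        rcases h2 with h2 | h2
        · left
          exact key _ _ _ _ hz1 hz2 hp1 hp2 hu1 hl2 h2
        · right
          exact key _ _ _ _ hz2 hz1 hp2 hp1 hu2 hl1 h2
      · intro i
        rw [hdvs, hdvs]
        have h2 := h1.1 i
        rw [not_and_or, not_lt, not_lt] at h2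
        exact h2.symm)
    T1 hT1'
    (by
      intro k hk
      rw [Finset.mem_image] at hk
      obtain ⟨h, hh, rfl⟩ := hk
      rw [Fin.prod_univ_succ, hdv0]
      have e : ∏ i : Fin (E + 1), |((dv u g av y h i.succ : ℤ) : ℝ)| = ∏ i, (h i : ℝ) :=
        Finset.prod_congr rfl (fun i _ => hdvs h i)
      rw [e]
      have h1 := hza_lo h hh
      rw [div_lt_iff₀ hT1'] at h1
      linarith)
  have hsum2 : v / 8 ≤ ∑ k ∈ Hy.image (dv u g av y), N / ∏ i, |((k i : ℤ) : ℝ)| := by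
    rw [Finset.sum_image hinj]
    have h1 : ∀ h ∈ Hy, Wt J (fun j => t0 * 2 ^ j) (fun h j => Lv g M N u av h (t0 * 2 ^ j)) h y ≤
        2 * (N / ∏ i, |((dv u g av y h i : ℤ) : ℝ)|) := by
      intro h hh
      rw [Fin.prod_univ_succ, hdv0]
      have e : ∏ i : Fin (E + 1), |((dv u g av y h i.succ : ℤ) : ℝ)| = ∏ i, (h i : ℝ) :=
        Finset.prod_congr rfl (fun i _ => hdvs h i)
      rw [e]
      have hp := hprodpos h hh
      have hz := hzapos h hh
      refine le_trans ?_ (geom_levels J t0 (N / ((za (zf u (cc g M av h) h y) : ℝ) * ∏ i, (h i : ℝ))) ht0' (by positivity))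
      unfold Wt
      apply Finset.sum_le_sum
      intro j _
      by_cases h2 : y ∈ Lv g M N u av h (t0 * 2 ^ j)
      · rw [if_pos h2, if_pos]
        rw [Lv, Finset.mem_filter] at h2
        have h3 : (za (zf u (cc g M av h) h y) : ℝ) ≤ N * wt h / (t0 * 2 ^ j) :=
          le_trans (by exact_mod_cast h2.2) (Nat.floor_le (by have := wt_nonneg h; positivity))
        rw [prod_inv_wt] at h3
        rw [le_div_iff₀ (by positivity)]
        have h4 : (za (zf u (cc g M av h) h y) : ℝ) * (t0 * 2 ^ j) ≤ N * (1 / ∏ i, (h i : ℝ)) := by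
          rwa [le_div_iff₀ (by positivity)] at h3
        calc t0 * 2 ^ j * ((za (zf u (cc g M av h) h y) : ℝ) * ∏ i, (h i : ℝ))
            = ((za (zf u (cc g M av h) h y) : ℝ) * (t0 * 2 ^ j)) * ∏ i, (h i : ℝ) := by ring
          _ ≤ (N * (1 / ∏ i, (h i : ℝ))) * ∏ i, (h i : ℝ) := mul_le_mul_of_nonneg_right h4 hp.le
          _ = N := by field_simp
      · rw [if_neg h2]
        split_ifs
        · positivity
        · exact le_rfl
    have h2 := hsum.trans (Finset.sum_le_sum h1)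
    rw [← Finset.mul_sum] at h2
    linarith
  rw [hcardI] at hr
  calc v / 8 / (2 * Real.pi) ^ (E + 2)
      ≤ (∑ k ∈ Hy.image (dv u g av y), N / ∏ i, |((k i : ℤ) : ℝ)|) / (2 * Real.pi) ^ (E + 2) := by
        have := Real.pi_pos
        gcongr
    _ ≤ 2 ^ (E + 2) * (N * discrepancy (E + 2) N a) + T1 * ((Hy.card : ℝ) ^ 2 / R) := hr
    _ ≤ _ := by gcongr

open Classical in
theorem high_core {E g M N : ℕ} [NeZero g] [NeZero M] [NeZero N] (hN : N = g * M)
    (u : (ZMod M)ˣ) (α0 : ℕ) (hu : (u : ZMod M) * (α0 : ZMod M) = -1) (av : Fin (E + 1) → ℕ)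
    (a : (Fin (E + 1) → ZMod M) → (Fin (E + 2) → ℕ))
    (ha0 : ∀ y, ((a y 0 : ℕ) : ZMod N) = ((g * α0 : ℕ) : ZMod N))
    (ha : ∀ y, ∀ i : Fin (E + 1), ((a y i.succ : ℕ) : ZMod N) = ((av i + g * (y i).val : ℕ) : ZMod N))
    (A B J : ℕ) (hgA : 4 * g ≤ A) (hAB : A < B) (hJ : 0 < J) (hM : 2 ≤ M)
    (t0 T1 R η : ℝ) (ht0 : 3 ≤ t0) (hT1 : t0 * 2 ^ J ≤ T1) (hη : 0 < η) (hη1 : η ≤ 1)
    (hbig : 3 * (T1 * (B:ℝ) ^ (E + 3)) ≤ η * (2 * N))
    (hR : 2 * ((Nat.log 2 B : ℝ) + 1) ≤ R) (hR2 : 2 ≤ R)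
    (v : ℝ) (hv : v = J * ∑ h ∈ Fam E g av A B, 2 * g * wt h) (hvT : t0 * 2 ^ J ≤ η * v)
    (hv0 : 0 < v) :
    ((univ.filter (fun y => ¬ (v / 8 / (2 * Real.pi) ^ (E + 2) ≤
      2 ^ (E + 2) * (N * discrepancy (E + 2) N (a y)) +
      T1 * (((Nat.log 2 B : ℝ) + 1) ^ 2 / R)))).card : ℝ) ≤
      (36 * η + 8 * (2 * g * ((E + 2) * ((PL g av).card *
        ((1 / A + 1 / g * Real.log ((R * T1 / t0) ^ 2)) * (1 / A + 1 / g * Real.log (B / A)) ^ E)))) / t0
       + 4 * g * ((PL g av).card * (1 / A + 1 / g * Real.log (B / A)) ^ (E + 1)) / T1) * (M:ℝ) ^ (E + 1) := by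
  have hg0 : 0 < g := Nat.pos_of_ne_zero (NeZero.ne g)
  have hg' : (0:ℝ) < g := by exact_mod_cast hg0
  have hA : 0 < A := by omega
  have hA' : (0:ℝ) < A := by exact_mod_cast hA
  have hB2 : 2 ≤ B := by omega
  have hB' : (2:ℝ) ≤ B := by exact_mod_cast hB2
  have hAB' : (A:ℝ) ≤ B := by exact_mod_cast hAB.le
  have ht0' : 0 < t0 := by linarith
  have h2J : (1:ℝ) ≤ 2 ^ J := one_le_pow₀ (by norm_num)
  have ht0T1 : t0 ≤ T1 := by nlinarith
  have hT1' : 0 < T1 := by linarith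
  have hNpos : (0:ℝ) < N := by exact_mod_cast Nat.pos_of_ne_zero (NeZero.ne N)
  have hMpos : (0:ℝ) < M := by exact_mod_cast Nat.pos_of_ne_zero (NeZero.ne M)
  have hN' : (N:ℝ) = g * M := by rw [hN]; push_cast; ring
  have hlogBA : 0 ≤ Real.log ((B:ℝ) / A) := Real.log_nonneg (by rw [le_div_iff₀ hA']; linarith)
  have hfam : ∀ h ∈ Fam E g av A B, (∀ i, A ≤ h i ∧ h i < B) ∧ res g h ∈ PL g av ∧ Prim g (PL g av) h := by
    intro h hh
    rw [Fam, Finset.mem_filter, Fintype.mem_piFinset] at hh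
    exact ⟨fun i => Finset.mem_Ico.mp (hh.1 i), hh.2⟩
  have hpos : ∀ h ∈ Fam E g av A B, ∀ i, 0 < h i := fun h hh i => lt_of_lt_of_le hA ((hfam h hh).1 i).1
  have hlev : ∀ t, 0 < t → t ≤ T1 → ∀ h ∈ Fam E g av A B, (B:ℝ) ^ 2 * t ≤ η / 3 * (2 * (N * wt h)) := by
    intro t ht htT h hh
    have h1 := wt_lower h B (hpos h hh) (fun i => ((hfam h hh).1 i).2.le)
    have h2 := wt_nonneg h
    calc (B:ℝ) ^ 2 * t ≤ (B:ℝ) ^ 2 * T1 := by gcongr
      _ ≤ (B:ℝ) ^ 2 * T1 * ((B:ℝ) ^ (E + 1) * wt h) := le_mul_of_one_le_right (by positivity) h1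
      _ = (3 * (T1 * (B:ℝ) ^ (E + 3))) * wt h / 3 := by ring
      _ ≤ (η * (2 * N)) * wt h / 3 := by gcongr
      _ = _ := by ring
  set n : ℝ := (Fintype.card (Fin (E + 1) → ZMod M) : ℝ) with hn
  have hn' : n = (M:ℝ) ^ (E + 1) := card_Ω (E + 1) M
  have hn0 : 0 ≤ n := by rw [hn']; positivity
  have hτ : ∀ j : ℕ, (0:ℝ) < t0 * 2 ^ j := fun j => by positivity
  have hτT : ∀ j < J, t0 * 2 ^ j ≤ T1 := by
    intro j hj
    refine le_trans ?_ hT1
    apply mul_le_mul_of_nonneg_left _ ht0'.le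
    exact pow_le_pow_right₀ (by norm_num) hj.le
  have hupper : ∀ h ∈ Fam E g av A B, ∀ t, 0 < t → t ≤ T1 →
      t * (Lv g M N u av h t).card ≤ (1 + η) * (2 * g * wt h) * n := by
    intro h hh t ht htT
    apply Lv_upper hN u av h t ht 0 (hpos h hh 0)
    have h1 := hlev t ht htT h hh
    have h2 : (h 0 : ℝ) ≤ B := by exact_mod_cast ((hfam h hh).1 0).2.le
    have h3 := wt_nonneg h
    have h4 : 0 ≤ N * wt h := by positivity
    calc (h 0 : ℝ) * t ≤ (B:ℝ) ^ 2 * t := by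
          apply mul_le_mul_of_nonneg_right _ ht.le
          nlinarith
      _ ≤ η / 3 * (2 * (N * wt h)) := h1
      _ ≤ η * (2 * (N * wt h)) := by nlinarith
  have hlower : ∀ h ∈ Fam E g av A B, ∀ j < J,
      (1 - η) * (2 * g * wt h) * n ≤ (t0 * 2 ^ j) * (Lv g M N u av h (t0 * 2 ^ j)).card := by
    intro h hh j hj
    apply Lv_lower hN u av h (t0 * 2 ^ j) (hτ j) 0 (hpos h hh 0)
    · have h1 := hlev _ (hτ j) (hτT j hj) h hh
      have h2 : (h 0 : ℝ) ≤ B := by exact_mod_cast ((hfam h hh).1 0).2.le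
      have h3 := wt_nonneg h
      have h4 : 0 ≤ N * wt h := by positivity
      calc (h 0 : ℝ) * (t0 * 2 ^ j) ≤ (B:ℝ) ^ 2 * (t0 * 2 ^ j) := by
            apply mul_le_mul_of_nonneg_right _ (hτ j).le
            nlinarith
        _ ≤ η / 3 * (2 * (N * wt h)) := h1
        _ ≤ η * (2 * (N * wt h)) := by nlinarith
    · have h1 := wt_upper h A hA (fun i => ((hfam h hh).1 i).1)
      have h2 := wt_nonneg h
      have h3 : (1:ℝ) ≤ t0 * 2 ^ j := by
        have : (1:ℝ) ≤ 2 ^ j := one_le_pow₀ (by norm_num)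
        nlinarith
      have h4 : N * wt h / (t0 * 2 ^ j) ≤ N * wt h := div_le_self (by positivity) h3
      have h5 : (4:ℝ) * g ≤ A := by exact_mod_cast hgA
      have h6 : N * wt h ≤ M / 4 := by
        calc N * wt h ≤ N * (1 / A) := mul_le_mul_of_nonneg_left h1 hNpos.le
          _ = g * M / A := by rw [hN']; ring
          _ ≤ g * M / (4 * g) := by gcongr
          _ = M / 4 := by field_simp
      have h7 : (2:ℝ) ≤ M := by exact_mod_cast hM
      linarith
  have hpair : ∀ h ∈ Fam E g av A B, ∀ h' ∈ Fam E g av A B, h ≠ h' → ∀ j < J, ∀ j' < J,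
      (t0 * 2 ^ j) * (t0 * 2 ^ j') * (Lv g M N u av h (t0 * 2 ^ j) ∩ Lv g M N u av h' (t0 * 2 ^ j')).card ≤
      (1 + η) * ((2 * g * wt h) * (2 * g * wt h')) * n := by
    intro h hh h' hh' hne j hj j' hj'
    obtain ⟨i, k, hik⟩ := prim_nonparallel (by omega) av h h' (hpos h hh) (hpos h' hh') (hfam h hh).2.1 (hfam h' hh').2.1
      (hfam h hh).2.2 (hfam h' hh').2.2 hne
    have hΔ : (((h i : ℤ) * h' k - h k * h' i).natAbs : ℝ) ≤ (B:ℝ) ^ 2 := by
      have := natAbs_minor_le (h i) (h' k) (h k) (h' i) B ((hfam h hh).1 i).2.le ((hfam h' hh').1 k).2.le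
        ((hfam h hh).1 k).2.le ((hfam h' hh').1 i).2.le
      exact_mod_cast this
    have h1 := Lv_pair hN u av h h' (t0 * 2 ^ j) (t0 * 2 ^ j') (hτ j) (hτ j') i k hik (η / 3) (by positivity)
      (le_trans (mul_le_mul_of_nonneg_right hΔ (hτ j).le) (hlev _ (hτ j) (hτT j hj) h hh))
      (le_trans (mul_le_mul_of_nonneg_right hΔ (hτ j').le) (hlev _ (hτ j') (hτT j' hj') h' hh'))
    refine h1.trans ?_
    have h2 := wt_nonneg h
    have h3 := wt_nonneg h'
    apply mul_le_mul_of_nonneg_right _ hn0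
    apply mul_le_mul_of_nonneg_right _ (by positivity)
    nlinarith
  have hgeo : ∑ j ∈ Finset.range J, t0 * (2:ℝ) ^ j ≤ η * v := by
    have h2 : ∑ j ∈ Finset.range J, t0 * (2:ℝ) ^ j = t0 * (2 ^ J - 1) := by
      rw [← Finset.mul_sum, geom_sum_eq (by norm_num)]
      norm_num
    rw [h2]
    nlinarith
  have hΛ : ∀ h ∈ Fam E g av A B, ∑ h' ∈ (Fam E g av A B).filter (fun h' => h' ≠ h ∧ Conf R (R * T1 / t0) h h'), 2 * g * wt h' ≤
      2 * g * ((E + 2) * ((PL g av).card *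
        ((1 / A + 1 / g * Real.log ((R * T1 / t0) ^ 2)) * (1 / A + 1 / g * Real.log (B / A)) ^ E))) := by
    intro h hh
    rw [← Finset.mul_sum]
    apply mul_le_mul_of_nonneg_left _ (by positivity)
    apply conf_sum av A B hA hAB.le R (R * T1 / t0) (by linarith)
    · rw [le_div_iff₀ ht0']
      nlinarith
    · exact hpos h hh
  have hct := conflict_tail (Fam E g av A B) J hJ (fun j => t0 * 2 ^ j) hτ (fun h j => Lv g M N u av h (t0 * 2 ^ j))
    (by
      intro h hh j hj y hy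
      rw [Lv, Finset.mem_filter] at hy ⊢
      refine ⟨Finset.mem_univ _, hy.2.trans ?_⟩
      apply Nat.floor_le_floor
      have := wt_nonneg h
      have h1 : t0 * 2 ^ 0 ≤ t0 * 2 ^ j := by
        apply mul_le_mul_of_nonneg_left _ ht0'.le
        exact pow_le_pow_right₀ (by norm_num) (Nat.zero_le _)
      gcongr)
    (fun h => 2 * g * wt h) (fun h _ => by have := wt_nonneg h; positivity) η hη.le hη1
    (fun h hh j hj => hupper h hh _ (hτ j) (hτT j hj)) hpair v hv hv0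
    (by
      have h1 : ∀ h ∈ Fam E g av A B, (J:ℝ) * ((1 - η) * (2 * g * wt h) * n) ≤
          ∑ j ∈ Finset.range J, (t0 * 2 ^ j) * ((Lv g M N u av h (t0 * 2 ^ j)).card : ℝ) := by
        intro h hh
        have := Finset.card_nsmul_le_sum (Finset.range J) (fun j => (t0 * 2 ^ j) * ((Lv g M N u av h (t0 * 2 ^ j)).card : ℝ))
          ((1 - η) * (2 * g * wt h) * n) (fun j hj => hlower h hh j (Finset.mem_range.mp hj))
        rwa [Finset.card_range, nsmul_eq_mul] at this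
      refine le_trans (le_of_eq ?_) (Finset.sum_le_sum h1)
      rw [hv, Finset.mul_sum, Finset.mul_sum, Finset.sum_mul]
      apply Finset.sum_congr rfl
      intro h _
      ring)
    hgeo (Conf R (R * T1 / t0)) _ hΛ
  -- near-zero events
  have hnz : (((Fam E g av A B).biUnion (fun h => Lv g M N u av h T1)).card : ℝ) ≤
      4 * g * ((PL g av).card * (1 / A + 1 / g * Real.log (B / A)) ^ (E + 1)) / T1 * n := by
    have h1 : (((Fam E g av A B).biUnion (fun h => Lv g M N u av h T1)).card : ℝ) ≤ ∑ h ∈ Fam E g av A B, ((Lv g M N u av h T1).card : ℝ) := by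
      exact_mod_cast Finset.card_biUnion_le
    have h2 : ∀ h ∈ Fam E g av A B, ((Lv g M N u av h T1).card : ℝ) ≤ (4 * g * n / T1) * wt h := by
      intro h hh
      have h3 := hupper h hh T1 hT1' le_rfl
      have h4 := wt_nonneg h
      have h5 : (4 * g * n / T1) * wt h = (4 * g * wt h * n) / T1 := by ring
      rw [h5, le_div_iff₀ hT1']
      calc ((Lv g M N u av h T1).card : ℝ) * T1 = T1 * (Lv g M N u av h T1).card := by ring
        _ ≤ (1 + η) * (2 * g * wt h) * n := h3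
        _ ≤ 2 * (2 * g * wt h) * n := by
            apply mul_le_mul_of_nonneg_right _ hn0
            apply mul_le_mul_of_nonneg_right _ (by positivity)
            linarith
        _ = _ := by ring
    refine h1.trans ((Finset.sum_le_sum h2).trans ?_)
    rw [← Finset.mul_sum]
    have h3 : ∑ h ∈ Fam E g av A B, wt h ≤ (PL g av).card * (1 / A + 1 / g * Real.log (B / A)) ^ (E + 1) := by
      have h4 := box_upper (g := g) (fun _ : Fin (E + 1) => Finset.Ico A B) (fun _ => (A:ℝ)) (fun _ => (B:ℝ))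
        (fun _ => hA') (fun _ => hAB') (fun _ n hn => by
          rw [Finset.mem_Ico] at hn
          exact ⟨by exact_mod_cast hn.1, by exact_mod_cast hn.2.le⟩) (PL g av)
      simp only [Finset.prod_const, Finset.card_univ, Fintype.card_fin] at h4
      refine le_trans ?_ h4
      apply Finset.sum_le_sum_of_subset_of_nonneg
      · intro h hh
        rw [Fam, Finset.mem_filter] at hh
        rw [Finset.mem_filter]
        exact ⟨hh.1, hh.2.1⟩
      · intro h _ _
        exact wt_nonneg h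
    calc (4 * g * n / T1) * ∑ h ∈ Fam E g av A B, wt h ≤
          (4 * g * n / T1) * ((PL g av).card * (1 / A + 1 / g * Real.log (B / A)) ^ (E + 1)) := by gcongr
      _ = _ := by ring
  have hB3 : 3 * (B:ℝ) ≤ N := by
    have h1 : (B:ℝ) ≤ (B:ℝ) ^ (E + 3) := by
      calc (B:ℝ) = (B:ℝ) ^ 1 := (pow_one _).symm
        _ ≤ (B:ℝ) ^ (E + 3) := pow_le_pow_right₀ (by linarith) (by omega)
    have h2 : (2:ℝ) ≤ 2 ^ J := by
      calc (2:ℝ) = 2 ^ 1 := (pow_one _).symm
        _ ≤ 2 ^ J := pow_le_pow_right₀ (by norm_num) hJ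
    have h3 : 6 ≤ T1 := by nlinarith
    have h4 : 3 * (6 * (B:ℝ)) ≤ 3 * (T1 * (B:ℝ) ^ (E + 3)) := by gcongr
    nlinarith
  have hsub : univ.filter (fun y => ¬ (v / 8 / (2 * Real.pi) ^ (E + 2) ≤
      2 ^ (E + 2) * (N * discrepancy (E + 2) N (a y)) + T1 * (((Nat.log 2 B : ℝ) + 1) ^ 2 / R))) ⊆
      (univ.filter (fun y => ∑ h ∈ (Fam E g av A B).filter (fun h => y ∈ Lv g M N u av h (t0 * 2 ^ 0) ∧
      ∀ h' ∈ Fam E g av A B, h' ≠ h → y ∈ Lv g M N u av h' (t0 * 2 ^ 0) → ¬ Conf R (R * T1 / t0) h h'),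
      Wt J (fun j => t0 * 2 ^ j) (fun h j => Lv g M N u av h (t0 * 2 ^ j)) h y < v / 4)) ∪
      (Fam E g av A B).biUnion (fun h => Lv g M N u av h T1) := by
    intro y hy
    rw [Finset.mem_filter] at hy
    rw [Finset.mem_union, Finset.mem_filter, Finset.mem_biUnion]
    by_contra hcon
    rw [not_or, not_and, not_exists] at hcon
    apply hy.2
    apply high_det hN u α0 hu av y (a y) (ha0 y) (ha y) A B J hA t0 T1 R ht0 ht0T1 hB3 hR hR2 v
    · exact not_lt.mp (hcon.1 (Finset.mem_univ _))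
    · intro h hh hmem
      exact hcon.2 h ⟨hh, hmem⟩
  have hcard := (Finset.card_le_card hsub).trans (Finset.card_union_le _ _)
  have hcard' : ((univ.filter (fun y => ¬ (v / 8 / (2 * Real.pi) ^ (E + 2) ≤
      2 ^ (E + 2) * (N * discrepancy (E + 2) N (a y)) + T1 * (((Nat.log 2 B : ℝ) + 1) ^ 2 / R)))).card : ℝ) ≤
      ((univ.filter (fun y => ∑ h ∈ (Fam E g av A B).filter (fun h => y ∈ Lv g M N u av h (t0 * 2 ^ 0) ∧
      ∀ h' ∈ Fam E g av A B, h' ≠ h → y ∈ Lv g M N u av h' (t0 * 2 ^ 0) → ¬ Conf R (R * T1 / t0) h h'),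
      Wt J (fun j => t0 * 2 ^ j) (fun h j => Lv g M N u av h (t0 * 2 ^ j)) h y < v / 4)).card : ℝ) +
      (((Fam E g av A B).biUnion (fun h => Lv g M N u av h T1)).card : ℝ) := by exact_mod_cast hcard
  refine hcard'.trans ?_
  rw [← hn']
  have e0 : t0 * (2:ℝ) ^ 0 = t0 := by ring
  rw [← hn] at hct
  simp only [e0] at hct ⊢
  calc _ ≤ (36 * η + 8 * (2 * g * ((E + 2) * ((PL g av).card *
        ((1 / A + 1 / g * Real.log ((R * T1 / t0) ^ 2)) * (1 / A + 1 / g * Real.log (B / A)) ^ E)))) / t0) * n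
       + 4 * g * ((PL g av).card * (1 / A + 1 / g * Real.log (B / A)) ^ (E + 1)) / T1 * n := add_le_add hct hnz
    _ = _ := by ring

end Pool.Agent.H89.Disc
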