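import Mathlib
import Pool.Agent.H89.High2

open Finset Filter Topology

namespace Pool.Agent.H89.Disc

/-- the integer fourth root -/
def rt (a0 : ℕ) : ℕ := Nat.sqrt (Nat.sqrt a0)

lemma rt_pow_le (a0 : ℕ) : (rt a0) ^ 4 ≤ a0 := by
  unfold rt
  have h1 := Nat.sqrt_le' a0
  have h2 := Nat.sqrt_le' (Nat.sqrt a0)
  calc (Nat.sqrt (Nat.sqrt a0)) ^ 4 = ((Nat.sqrt (Nat.sqrt a0)) ^ 2) ^ 2 := by ring
    _ ≤ (Nat.sqrt a0) ^ 2 := Nat.pow_le_pow_left h2 2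
    _ ≤ a0 := h1

lemma lt_rt_succ (a0 : ℕ) : a0 < (rt a0 + 1) ^ 4 := by
  unfold rt
  have h1 := Nat.lt_succ_sqrt' a0
  have h2 := Nat.lt_succ_sqrt' (Nat.sqrt a0)
  have h3 : Nat.sqrt a0 + 1 ≤ (Nat.sqrt (Nat.sqrt a0) + 1) ^ 2 := h2
  calc a0 < (Nat.sqrt a0 + 1) ^ 2 := h1
    _ ≤ ((Nat.sqrt (Nat.sqrt a0) + 1) ^ 2) ^ 2 := Nat.pow_le_pow_left h3 2
    _ = _ := by ring

lemma rt_tendsto : Tendsto rt atTop atTop := by
  rw [tendsto_atTop]
  intro b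
  filter_upwards [eventually_ge_atTop (b ^ 4)] with a ha
  unfold rt
  rw [Nat.le_sqrt', Nat.le_sqrt']
  calc (b ^ 2) ^ 2 = b ^ 4 := by ring
    _ ≤ a := ha

lemma card_PL_ge {E g : ℕ} [NeZero g] (av : Fin (E + 1) → ℕ) : g ^ E ≤ (PL g av).card := by
  classical
  have hg : 0 < g := Nat.pos_of_ne_zero (NeZero.ne g)
  have h1 : ∀ c : ZMod g, (univ.filter (fun r : Fin (E + 1) → ZMod g => ∑ i, r i * (av i : ZMod g) = c)).card ≤ (PL g av).card := by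
    intro c
    rcases (univ.filter (fun r : Fin (E + 1) → ZMod g => ∑ i, r i * (av i : ZMod g) = c)).eq_empty_or_nonempty with he | hne
    · rw [he]
      simp
    · obtain ⟨r0, hr0⟩ := hne
      rw [Finset.mem_filter] at hr0
      apply Finset.card_le_card_of_injOn (fun r => r - r0)
      · intro r hr
        simp only [Finset.coe_filter, Finset.mem_univ, true_and] at hr
        have hr : ∑ i, r i * (av i : ZMod g) = c := hr
        rw [Finset.mem_coe, PL, Finset.mem_filter]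
        refine ⟨Finset.mem_univ _, ?_⟩
        simp only [Pi.sub_apply, sub_mul, Finset.sum_sub_distrib]
        rw [hr, hr0.2, sub_self]
      · intro r _ r' _ he
        simpa using he
  have h2 : ∑ c : ZMod g, (univ.filter (fun r : Fin (E + 1) → ZMod g => ∑ i, r i * (av i : ZMod g) = c)).card = g ^ (E + 1) := by
    rw [← Finset.card_eq_sum_card_fiberwise (fun r _ => Finset.mem_univ _)]
    simp [ZMod.card]
  have h3 : g ^ (E + 1) ≤ g * (PL g av).card := by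
    rw [← h2]
    refine (Finset.sum_le_card_nsmul _ _ _ (fun c _ => h1 c)).trans (le_of_eq ?_)
    rw [Finset.card_univ, ZMod.card, smul_eq_mul]
  have h4 : g * g ^ E ≤ g * (PL g av).card := by
    calc g * g ^ E = g ^ (E + 1) := by ring
      _ ≤ _ := h3
  exact Nat.le_of_mul_le_mul_left h4 hg

/-- numerical lemma -/
lemma num_ev (D : ℕ) : ∀ᶠ a0 : ℕ in atTop,
    ((a0:ℝ) * (4 * Real.log 2)) ^ D / 10 ≤ ((a0:ℝ) * (4 * Real.log 2) - 1) ^ D - 3 / 4 * ((a0:ℝ) * (4 * Real.log 2) + 1) ^ D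
      - (1 / 2) ^ a0 * (1 + 2 * ((a0:ℝ) * (4 * Real.log 2))) ^ D := by
  have hl2 : 0 < 4 * Real.log 2 := by have := Real.log_pos (by norm_num : (1:ℝ) < 2); linarith
  have h1 : Tendsto (fun a0 : ℕ => (a0:ℝ) * (4 * Real.log 2)) atTop atTop :=
    tendsto_natCast_atTop_atTop.atTop_mul_const hl2
  have h2 : Tendsto (fun a0 : ℕ => ((a0:ℝ) * (4 * Real.log 2))⁻¹) atTop (𝓝 0) := tendsto_inv_atTop_zero.comp h1
  have h3 : Tendsto (fun a0 : ℕ => ((1:ℝ) / 2) ^ a0) atTop (𝓝 0) :=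
    tendsto_pow_atTop_nhds_zero_of_lt_one (by norm_num) (by norm_num)
  have h4 : Tendsto (fun a0 : ℕ => (1 - ((a0:ℝ) * (4 * Real.log 2))⁻¹) ^ D - 3 / 4 * (1 + ((a0:ℝ) * (4 * Real.log 2))⁻¹) ^ D
      - (1 / 2) ^ a0 * (((a0:ℝ) * (4 * Real.log 2))⁻¹ + 2) ^ D) atTop (𝓝 ((1 - 0) ^ D - 3 / 4 * (1 + 0) ^ D - 0 * (0 + 2) ^ D)) := by
    apply Tendsto.sub
    · apply Tendsto.sub
      · exact (tendsto_const_nhds.sub h2).pow D
      · exact ((tendsto_const_nhds.add h2).pow D).const_mul _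
    · exact h3.mul ((h2.add tendsto_const_nhds).pow D)
  have h5 : (1:ℝ) / 10 < (1 - 0) ^ D - 3 / 4 * (1 + 0) ^ D - 0 * (0 + 2) ^ D := by norm_num
  filter_upwards [h4.eventually (lt_mem_nhds h5), h1.eventually (eventually_gt_atTop 0)] with a0 h6 h7
  generalize (a0:ℝ) * (4 * Real.log 2) = l at h6 h7 ⊢
  have h8 : 0 < l ^ D := by positivity
  have h9 := mul_le_mul_of_nonneg_left h6.le h8.le
  have e1 : l ^ D * ((1 - l⁻¹) ^ D - 3 / 4 * (1 + l⁻¹) ^ D - (1 / 2) ^ a0 * (l⁻¹ + 2) ^ D) =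
      (l * (1 - l⁻¹)) ^ D - 3 / 4 * (l * (1 + l⁻¹)) ^ D - (1 / 2) ^ a0 * (l * (l⁻¹ + 2)) ^ D := by
    rw [mul_pow, mul_pow, mul_pow]
    ring
  rw [e1] at h9
  have e2 : l * (1 - l⁻¹) = l - 1 := by field_simp
  have e3 : l * (1 + l⁻¹) = l + 1 := by field_simp
  have e4 : l * (l⁻¹ + 2) = 1 + 2 * l := by field_simp
  rw [e2, e3, e4] at h9
  calc l ^ D / 10 = l ^ D * (1 / 10) := by ring
    _ ≤ _ := h9

open Classical in
/-- the total weight is of the right order -/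
lemma fam_lower (E : ℕ) (hE : 1 ≤ E) : ∀ᶠ a0 : ℕ in atTop, ∀ (g : ℕ) [NeZero g] (av : Fin (E + 1) → ℕ), g ≤ 2 ^ a0 →
    (a0:ℝ) ^ (E + 1) / 5 ≤ ∑ h ∈ Fam E g av (2 ^ (4 * a0)) (2 ^ (8 * a0)), 2 * g * wt h := by
  filter_upwards [num_ev (E + 1), eventually_ge_atTop 1] with a0 hnum ha0 g hgz av hg
  have hg0 : 0 < g := Nat.pos_of_ne_zero (NeZero.ne g)
  have hg' : (0:ℝ) < g := by exact_mod_cast hg0
  have hl2 : 1 / 2 < Real.log 2 := by have := Real.log_two_gt_d9; linarith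
  have hl2' : Real.log 2 < 1 := by have := Real.log_two_lt_d9; linarith
  set l : ℝ := (a0:ℝ) * (4 * Real.log 2) with hl
  have ha0' : (1:ℝ) ≤ a0 := by exact_mod_cast ha0
  have hl1 : 2 * (a0:ℝ) ≤ l := by rw [hl]; nlinarith
  have hAB : 2 ^ (4 * a0) + g ≤ 2 ^ (8 * a0) := by
    have h1 : g ≤ 2 ^ (4 * a0) := hg.trans (Nat.pow_le_pow_right (by norm_num) (by omega))
    have h2 : 2 ^ (8 * a0) = 2 ^ (4 * a0) * 2 ^ (4 * a0) := by rw [← pow_add]; congr 1; ring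
    have h3 : 2 ≤ 2 ^ (4 * a0) := by
      calc 2 = 2 ^ 1 := rfl
        _ ≤ 2 ^ (4 * a0) := Nat.pow_le_pow_right (by norm_num) (by omega)
    rw [h2]
    nlinarith
  have hs := prim_sieve (D := E + 1) (g := g) (by omega) (PL g av) (2 ^ (4 * a0)) (2 ^ (8 * a0)) (2 ^ (2 * a0))
    (by positivity) hAB (by
      calc 2 = 2 ^ 1 := rfl
        _ ≤ 2 ^ (2 * a0) := Nat.pow_le_pow_right (by norm_num) (by omega))
  have hfam : (Fintype.piFinset (fun _ : Fin (E + 1) => Finset.Ico (2 ^ (4 * a0)) (2 ^ (8 * a0)))).filter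
      (fun h => res g h ∈ PL g av ∧ Prim g (PL g av) h) = Fam E g av (2 ^ (4 * a0)) (2 ^ (8 * a0)) := by
    unfold Fam
    rfl
  rw [hfam] at hs
  set Sp : ℝ := ∑ h ∈ Fam E g av (2 ^ (4 * a0)) (2 ^ (8 * a0)), wt h with hSp
  have hA : (((2 ^ (4 * a0) : ℕ)) : ℝ) = 2 ^ (4 * a0) := by push_cast; rfl
  have hB : (((2 ^ (8 * a0) : ℕ)) : ℝ) = 2 ^ (8 * a0) := by push_cast; rfl
  have hr : (((2 ^ (2 * a0) : ℕ)) : ℝ) = 2 ^ (2 * a0) := by push_cast; rfl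
  rw [hA, hB, hr] at hs
  have hBA : (2:ℝ) ^ (8 * a0) / 2 ^ (4 * a0) = 2 ^ (4 * a0) := by
    rw [div_eq_iff (by positivity), ← pow_add]
    congr 1
    ring
  have hlogA : Real.log ((2:ℝ) ^ (4 * a0)) = l := by
    rw [Real.log_pow, hl]
    push_cast
    ring
  have hlogB : Real.log ((2:ℝ) ^ (8 * a0)) = 2 * l := by
    rw [Real.log_pow, hl]
    push_cast
    ring
  have hgA : (g:ℝ) ≤ 2 ^ (4 * a0) := by
    have : (g:ℝ) ≤ 2 ^ a0 := by exact_mod_cast hg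
    refine this.trans ?_
    apply pow_le_pow_right₀ (by norm_num)
    omega
  have hL1 : l - 1 ≤ Real.log ((2:ℝ) ^ (8 * a0) / (2 ^ (4 * a0) + g)) := by
    have h1 : (2:ℝ) ^ (4 * a0) / 2 ≤ (2:ℝ) ^ (8 * a0) / (2 ^ (4 * a0) + g) := by
      rw [div_le_div_iff₀ (by norm_num) (by positivity)]
      have h2 : (2:ℝ) ^ (8 * a0) = 2 ^ (4 * a0) * 2 ^ (4 * a0) := by rw [← pow_add]; congr 1; ring
      rw [h2]
      have h3 : (0:ℝ) < 2 ^ (4 * a0) := by positivity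
      nlinarith
    calc l - 1 ≤ l - Real.log 2 := by linarith
      _ = Real.log ((2:ℝ) ^ (4 * a0) / 2) := by
          rw [Real.log_div (by positivity) (by norm_num), hlogA]
      _ ≤ _ := Real.log_le_log (by positivity) h1
  rw [hBA, hlogA, hlogB] at hs
  have hρA : (g:ℝ) * (2 ^ (2 * a0) / 2 ^ (4 * a0)) ≤ 1 := by
    have h1 : (g:ℝ) ≤ 2 ^ (2 * a0) := by
      have : (g:ℝ) ≤ 2 ^ a0 := by exact_mod_cast hg
      refine this.trans ?_
      apply pow_le_pow_right₀ (by norm_num)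
      omega
    have h2 : (2:ℝ) ^ (4 * a0) = 2 ^ (2 * a0) * 2 ^ (2 * a0) := by rw [← pow_add]; congr 1; ring
    rw [h2]
    have h3 : (0:ℝ) < 2 ^ (2 * a0) := by positivity
    calc (g:ℝ) * (2 ^ (2 * a0) / (2 ^ (2 * a0) * 2 ^ (2 * a0))) = g / 2 ^ (2 * a0) := by field_simp
      _ ≤ 1 := by rw [div_le_one h3]; exact h1
  have hgρ : (g:ℝ) * (1 / 2 ^ (2 * a0)) ≤ (1 / 2) ^ a0 := by
    have h1 : (g:ℝ) ≤ 2 ^ a0 := by exact_mod_cast hg
    calc (g:ℝ) * (1 / 2 ^ (2 * a0)) ≤ 2 ^ a0 * (1 / 2 ^ (2 * a0)) := by gcongr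
      _ = (1 / 2) ^ a0 := by
          rw [one_div_pow, two_mul, pow_add]
          field_simp
  -- normalise
  set P : ℝ := ((PL g av).card : ℝ) with hP
  have hPge : (g:ℝ) ^ E ≤ P := by
    rw [hP]
    exact_mod_cast card_PL_ge av
  set p : ℝ := P / (g:ℝ) ^ E with hp
  have hp1 : 1 ≤ p := by
    rw [hp, le_div_iff₀ (by positivity), one_mul]
    exact hPge
  have hPp : P = p * (g:ℝ) ^ E := by rw [hp]; field_simp
  have hl0 : 0 ≤ l - 1 := by linarith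
  have h1 : p * (l - 1) ^ (E + 1) ≤ g * Sp + 3 / 4 * (p * (l + 1) ^ (E + 1)) + (1 / 2) ^ a0 * (1 + 2 * l) ^ (E + 1) := by
    have h2 := mul_le_mul_of_nonneg_left hs hg'.le
    have e1 : (g:ℝ) * (P * (1 / g * Real.log ((2:ℝ) ^ (8 * a0) / (2 ^ (4 * a0) + g))) ^ (E + 1)) =
        p * (Real.log ((2:ℝ) ^ (8 * a0) / (2 ^ (4 * a0) + g))) ^ (E + 1) := by
      rw [hPp, mul_pow, div_pow, one_pow, pow_succ]
      field_simp
    have e2 : (g:ℝ) * (Sp + 3 / 4 * (P * (2 ^ (2 * a0) / 2 ^ (4 * a0) + 1 / g * l) ^ (E + 1)) + 1 / 2 ^ (2 * a0) * (1 + 2 * l) ^ (E + 1))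
        = g * Sp + 3 / 4 * (p * (g * (2 ^ (2 * a0) / 2 ^ (4 * a0)) + l) ^ (E + 1)) + (g * (1 / 2 ^ (2 * a0))) * (1 + 2 * l) ^ (E + 1) := by
      have e3 : (g:ℝ) * (2 ^ (2 * a0) / 2 ^ (4 * a0)) + l = g * (2 ^ (2 * a0) / 2 ^ (4 * a0) + 1 / g * l) := by
        field_simp
      rw [e3, mul_pow, hPp, pow_succ (g:ℝ) E]
      ring
    rw [e1, e2] at h2
    have hp0 : 0 ≤ p := by linarith
    have h3 : p * (l - 1) ^ (E + 1) ≤ p * (Real.log ((2:ℝ) ^ (8 * a0) / (2 ^ (4 * a0) + g))) ^ (E + 1) :=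
      mul_le_mul_of_nonneg_left (pow_le_pow_left₀ hl0 hL1 _) hp0
    have h4 : 3 / 4 * (p * (g * (2 ^ (2 * a0) / 2 ^ (4 * a0)) + l) ^ (E + 1)) ≤ 3 / 4 * (p * (l + 1) ^ (E + 1)) := by
      have hl0' : 0 ≤ l := by linarith
      have h5 : g * ((2:ℝ) ^ (2 * a0) / 2 ^ (4 * a0)) + l ≤ l + 1 := by linarith
      have h50 : 0 ≤ g * ((2:ℝ) ^ (2 * a0) / 2 ^ (4 * a0)) + l := by
        apply add_nonneg (mul_nonneg hg'.le (div_nonneg _ _)) hl0'
        · exact pow_nonneg (by norm_num) _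
        · exact pow_nonneg (by norm_num) _
      exact mul_le_mul_of_nonneg_left (mul_le_mul_of_nonneg_left (pow_le_pow_left₀ h50 h5 _) hp0) (by norm_num)
    have h6 : (g * (1 / 2 ^ (2 * a0))) * (1 + 2 * l) ^ (E + 1) ≤ (1 / 2) ^ a0 * (1 + 2 * l) ^ (E + 1) := by
      have : 0 ≤ l := by linarith
      gcongr
    linarith
  have h2 : l ^ (E + 1) / 10 ≤ g * Sp := by
    have h3 : 0 ≤ (l - 1) ^ (E + 1) - 3 / 4 * (l + 1) ^ (E + 1) := by
      have h40 : 0 ≤ l := by linarith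
      have h4 : 0 ≤ l ^ (E + 1) / 10 := by positivity
      have h5 : 0 ≤ (1 / 2) ^ a0 * (1 + 2 * l) ^ (E + 1) := by
        have : 0 ≤ l := by linarith
        positivity
      linarith
    have h6 : (l - 1) ^ (E + 1) - 3 / 4 * (l + 1) ^ (E + 1) ≤ p * ((l - 1) ^ (E + 1) - 3 / 4 * (l + 1) ^ (E + 1)) :=
      le_mul_of_one_le_left h3 hp1
    linarith
  have h3 : (a0:ℝ) ^ (E + 1) ≤ l ^ (E + 1) := by
    apply pow_le_pow_left₀ (by positivity)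
    linarith
  rw [← Finset.mul_sum, ← hSp]
  linarith

end Pool.Agent.H89.Disc
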