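import Mathlib
import Pool.Agent.H89.High3

open Finset Filter Topology

namespace Pool.Agent.H89.Disc

/-- the number of levels -/
def Jp (a0 : ℕ) : ℕ := Nat.log 2 (rt a0)

/-- the constant -/
noncomputable def cE (E : ℕ) : ℝ := 1 / (80 * 2 ^ (E + 2) * (2 * Real.pi) ^ (E + 2))

lemma cE_pos (E : ℕ) : 0 < cE E := by
  unfold cE
  have := Real.pi_pos
  positivity

open Classical in
theorem high_class (E : ℕ) (hE : 1 ≤ E) (K : ℕ) (ε : ℝ) (hε : 0 < ε) :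
    ∀ᶠ a0 : ℕ in atTop, ∀ (g M N : ℕ) [NeZero g] [NeZero M] [NeZero N], N = g * M →
      2 ^ (32 * (E + 3) * a0) ≤ N → g ≤ 2 ^ a0 →
      ∀ (u : (ZMod M)ˣ) (α0 : ℕ), (u : ZMod M) * (α0 : ZMod M) = -1 →
      ∀ (av : Fin (E + 1) → ℕ), (PL g av).card ≤ K * g ^ E →
      ∀ (a : (Fin (E + 1) → ZMod M) → (Fin (E + 2) → ℕ)),
      (∀ y, ((a y 0 : ℕ) : ZMod N) = ((g * α0 : ℕ) : ZMod N)) →
      (∀ y, ∀ i : Fin (E + 1), ((a y i.succ : ℕ) : ZMod N) = ((av i + g * (y i).val : ℕ) : ZMod N)) →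
      ((univ.filter (fun y => N * discrepancy (E + 2) N (a y) < cE E * Jp a0 * (a0:ℝ) ^ (E + 1))).card : ℝ) ≤
        ε * (M:ℝ) ^ (E + 1) := by
  obtain ⟨C, hC⟩ : ∃ C : ℝ, C = 180 + 16 * ((E:ℝ) + 2) * (K * (16 * E + 53) * 65 ^ E) + 4 * (K * 65 ^ (E + 1)) := ⟨_, rfl⟩
  have hm1 : ∀ᶠ a0 : ℕ in atTop, 5 ≤ rt a0 := rt_tendsto.eventually (eventually_ge_atTop 5)
  have hm2 : ∀ᶠ a0 : ℕ in atTop, C / ε ≤ (rt a0 : ℝ) := by
    obtain ⟨k, hk⟩ := exists_nat_ge (C / ε)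
    filter_upwards [rt_tendsto.eventually (eventually_ge_atTop k)] with a0 h
    exact hk.trans (by exact_mod_cast h)
  have ha1 : ∀ᶠ a0 : ℕ in atTop, 80 * (2 * Real.pi) ^ (E + 2) ≤ (a0 : ℝ) :=
    tendsto_natCast_atTop_atTop.eventually (eventually_ge_atTop _)
  filter_upwards [hm1, hm2, ha1, eventually_ge_atTop 1, fam_lower E hE] with a0 hm5 hmC ha80 ha01 hfl
    g M N _ _ _ hN hN2 hg u α0 hu av hPL a hya0 hya
  set m : ℕ := rt a0 with hm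
  have hm4 : m ^ 4 ≤ a0 := rt_pow_le a0
  have hm4' : a0 < (m + 1) ^ 4 := lt_rt_succ a0
  have hm5' : (5:ℝ) ≤ m := by exact_mod_cast hm5
  have hm0 : (0:ℝ) < m := by linarith
  have hm1' : (1:ℝ) ≤ m := by linarith
  have ha0m : (m:ℝ) ^ 4 ≤ a0 := by exact_mod_cast hm4
  have ha0m' : (a0:ℝ) ≤ 16 * (m:ℝ) ^ 4 := by
    have h1 : (a0:ℝ) ≤ ((m:ℝ) + 1) ^ 4 := by exact_mod_cast hm4'.le
    have h2 : ((m:ℝ) + 1) ^ 4 ≤ (2 * (m:ℝ)) ^ 4 := by
      apply pow_le_pow_left₀ (by linarith)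
      linarith
    have h3 : (2 * (m:ℝ)) ^ 4 = 16 * (m:ℝ) ^ 4 := by ring
    linarith
  have ha0' : (1:ℝ) ≤ a0 := by exact_mod_cast ha01
  have hg0 : 0 < g := Nat.pos_of_ne_zero (NeZero.ne g)
  have hg' : (0:ℝ) < g := by exact_mod_cast hg0
  have hg1 : (1:ℝ) ≤ g := by exact_mod_cast hg0
  have hMpos : (0:ℝ) < M := by exact_mod_cast Nat.pos_of_ne_zero (NeZero.ne M)
  have hJ : 0 < Jp a0 := by
    unfold Jp
    exact Nat.log_pos (by norm_num) (by omega)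
  have hJm : (2:ℝ) ^ (Jp a0) ≤ m := by
    have : 2 ^ (Jp a0) ≤ m := Nat.pow_log_le_self 2 (by omega)
    exact_mod_cast this
  have hlogB : Nat.log 2 (2 ^ (8 * a0)) = 8 * a0 := Nat.log_pow (by norm_num) _
  set t0 : ℝ := (m:ℝ) ^ (4 * E + 2) with ht0
  set T1 : ℝ := (m:ℝ) ^ (4 * E + 5) with hT1
  set R : ℝ := T1 * (8 * (a0:ℝ) + 1) ^ 2 with hR
  set b : ℝ := ∑ h ∈ Fam E g av (2 ^ (4 * a0)) (2 ^ (8 * a0)), 2 * g * wt h with hb
  have hbl : (a0:ℝ) ^ (E + 1) / 5 ≤ b := hfl g av hg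
  have ht01 : 5 ≤ t0 := by
    calc (5:ℝ) ≤ m := hm5'
      _ = (m:ℝ) ^ 1 := (pow_one _).symm
      _ ≤ (m:ℝ) ^ (4 * E + 2) := pow_le_pow_right₀ hm1' (by omega)
  have hT11 : 5 ≤ T1 := by
    calc (5:ℝ) ≤ m := hm5'
      _ = (m:ℝ) ^ 1 := (pow_one _).symm
      _ ≤ (m:ℝ) ^ (4 * E + 5) := pow_le_pow_right₀ hm1' (by omega)
  have ht2 : t0 * 2 ^ (Jp a0) ≤ (m:ℝ) ^ (4 * E + 3) := by
    calc t0 * 2 ^ (Jp a0) ≤ (m:ℝ) ^ (4 * E + 2) * m := by rw [ht0]; gcongr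
      _ = _ := by ring
  have hv1 : (m:ℝ) ^ (4 * E + 4) / 5 ≤ (Jp a0 : ℝ) * b := by
    have h1 : (1:ℝ) ≤ Jp a0 := by exact_mod_cast hJ
    have h2 : (m:ℝ) ^ (4 * E + 4) ≤ (a0:ℝ) ^ (E + 1) := by
      calc (m:ℝ) ^ (4 * E + 4) = ((m:ℝ) ^ 4) ^ (E + 1) := by rw [← pow_mul]; congr 1
        _ ≤ (a0:ℝ) ^ (E + 1) := pow_le_pow_left₀ (by positivity) ha0m _
    have h3 : 0 ≤ b := le_trans (by positivity) hbl
    nlinarith
  have hvpos : 0 < (Jp a0 : ℝ) * b := lt_of_lt_of_le (by positivity) hv1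
  have hcore := high_core (E := E) (g := g) (M := M) (N := N) hN u α0 hu av a hya0 hya
    (2 ^ (4 * a0)) (2 ^ (8 * a0)) (Jp a0)
    (by
      calc 4 * g ≤ 4 * 2 ^ a0 := by omega
        _ = 2 ^ (a0 + 2) := by rw [pow_add]; ring
        _ ≤ 2 ^ (4 * a0) := Nat.pow_le_pow_right (by norm_num) (by omega))
    (Nat.pow_lt_pow_right (by norm_num) (by omega)) hJ
    (by
      by_contra hM
      have hM1 : M ≤ 1 := by omega
      have h1 : 2 ^ (32 * (E + 3) * a0) ≤ 2 ^ a0 := by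
        calc 2 ^ (32 * (E + 3) * a0) ≤ N := hN2
          _ = g * M := hN
          _ ≤ g * 1 := Nat.mul_le_mul_left _ hM1
          _ = g := by ring
          _ ≤ 2 ^ a0 := hg
      have h2 : 32 * (E + 3) * a0 ≤ a0 := (Nat.pow_le_pow_iff_right (by norm_num)).mp h1
      nlinarith)
    t0 T1 R (5 / m) (by linarith)
    (by
      refine ht2.trans ?_
      rw [hT1]
      exact pow_le_pow_right₀ hm1' (by omega))
    (by positivity) (by rw [div_le_one hm0]; exact hm5')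
    (by
      have h1 : (2:ℝ) ^ (32 * (E + 3) * a0) ≤ N := by exact_mod_cast hN2
      have h2 : (m:ℝ) ≤ 2 ^ a0 := by
        have h3 : m ≤ a0 := le_trans (by
          calc m = m ^ 1 := (pow_one _).symm
            _ ≤ m ^ 4 := Nat.pow_le_pow_right (by omega) (by norm_num)) hm4
        have h4 : a0 < 2 ^ a0 := Nat.lt_two_pow_self
        exact_mod_cast (by omega : m ≤ 2 ^ a0)
      have h3 : (m:ℝ) ^ (4 * E + 6) * (2:ℝ) ^ (8 * a0 * (E + 3)) ≤ (2:ℝ) ^ (32 * (E + 3) * a0) := by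
        calc (m:ℝ) ^ (4 * E + 6) * (2:ℝ) ^ (8 * a0 * (E + 3)) ≤ ((2:ℝ) ^ a0) ^ (4 * E + 6) * (2:ℝ) ^ (8 * a0 * (E + 3)) := by
              gcongr
          _ = (2:ℝ) ^ (a0 * (4 * E + 6) + 8 * a0 * (E + 3)) := by rw [← pow_mul, ← pow_add]
          _ ≤ (2:ℝ) ^ (32 * (E + 3) * a0) := by
              apply pow_le_pow_right₀ (by norm_num)
              nlinarith
      have h4 : (m:ℝ) ^ (4 * E + 6) * (2:ℝ) ^ (8 * a0 * (E + 3)) = m * (T1 * (((2 ^ (8 * a0) : ℕ)) : ℝ) ^ (E + 3)) := by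
        rw [hT1]
        push_cast
        rw [← pow_mul]
        ring
      rw [h4] at h3
      have h5 : T1 * (((2 ^ (8 * a0) : ℕ)) : ℝ) ^ (E + 3) ≤ N / m := by
        rw [le_div_iff₀ hm0]
        calc T1 * (((2 ^ (8 * a0) : ℕ)) : ℝ) ^ (E + 3) * m = m * (T1 * (((2 ^ (8 * a0) : ℕ)) : ℝ) ^ (E + 3)) := by ring
          _ ≤ _ := h3.trans h1
      have h6 : 5 / (m:ℝ) * (2 * N) = 10 * (N / m) := by ring
      rw [h6]
      have h7 : (0:ℝ) ≤ N / m := by positivity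
      linarith)
    (by
      rw [hlogB, hR]
      push_cast
      nlinarith)
    (by
      rw [hR]
      nlinarith)
    ((Jp a0 : ℝ) * b) (by rw [hb])
    (by
      refine ht2.trans ?_
      have e4 : (m:ℝ) ^ (4 * E + 4) = (m:ℝ) ^ (4 * E + 3) * m := by ring
      calc (m:ℝ) ^ (4 * E + 3) = 5 / m * ((m:ℝ) ^ (4 * E + 4) / 5) := by
            rw [e4]
            field_simp
        _ ≤ 5 / m * ((Jp a0 : ℝ) * b) := by gcongr)
    hvpos
  -- the bad set is contained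
  have hR0 : 0 < R := by rw [hR]; positivity
  have hone : T1 * ((((Nat.log 2 (2 ^ (8 * a0)) : ℕ) : ℝ) + 1) ^ 2 / R) = 1 := by
    rw [hlogB, ← mul_div_assoc]
    push_cast
    rw [← hR]
    exact div_self hR0.ne'
  have hsub : univ.filter (fun y => N * discrepancy (E + 2) N (a y) < cE E * Jp a0 * (a0:ℝ) ^ (E + 1)) ⊆
      univ.filter (fun y => ¬ ((Jp a0 : ℝ) * b / 8 / (2 * Real.pi) ^ (E + 2) ≤
      2 ^ (E + 2) * (N * discrepancy (E + 2) N (a y)) +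
      T1 * ((((Nat.log 2 (2 ^ (8 * a0)) : ℕ) : ℝ) + 1) ^ 2 / R))) := by
    intro y hy
    rw [Finset.mem_filter] at hy ⊢
    refine ⟨Finset.mem_univ _, ?_⟩
    intro hcon
    have h1 := hy.2
    rw [hone] at hcon
    have hpi := Real.pi_pos
    set W : ℝ := (2 * Real.pi) ^ (E + 2) with hW
    have hWpos : 0 < W := by rw [hW]; positivity
    have h2 : (Jp a0 : ℝ) * ((a0:ℝ) ^ (E + 1) / 5) / 8 / W ≤ (Jp a0 : ℝ) * b / 8 / W := by gcongr
    have h3 : 80 * W ≤ (Jp a0 : ℝ) * (a0:ℝ) ^ (E + 1) := by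
      have h4 : (1:ℝ) ≤ Jp a0 := by exact_mod_cast hJ
      have h5 : (a0:ℝ) ≤ (a0:ℝ) ^ (E + 1) := by
        calc (a0:ℝ) = (a0:ℝ) ^ 1 := (pow_one _).symm
          _ ≤ _ := pow_le_pow_right₀ ha0' (by omega)
      nlinarith
    have h4 : (Jp a0 : ℝ) * ((a0:ℝ) ^ (E + 1) / 5) / 8 / W = ((Jp a0 : ℝ) * (a0:ℝ) ^ (E + 1)) / (40 * W) := by
      field_simp
      ring
    rw [h4] at h2
    have h5 : 2 ^ (E + 2) * (N * discrepancy (E + 2) N (a y)) < 2 ^ (E + 2) * (cE E * Jp a0 * (a0:ℝ) ^ (E + 1)) :=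
      mul_lt_mul_of_pos_left h1 (by positivity)
    have h6 : 2 ^ (E + 2) * (cE E * Jp a0 * (a0:ℝ) ^ (E + 1)) = ((Jp a0 : ℝ) * (a0:ℝ) ^ (E + 1)) / (80 * W) := by
      unfold cE
      rw [← hW]
      field_simp
    rw [h6] at h5
    have h7 : ((Jp a0 : ℝ) * (a0:ℝ) ^ (E + 1)) / (40 * W) = 2 * (((Jp a0 : ℝ) * (a0:ℝ) ^ (E + 1)) / (80 * W)) := by
      field_simp
      ring
    have h8 : 1 ≤ ((Jp a0 : ℝ) * (a0:ℝ) ^ (E + 1)) / (80 * W) := by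
      rw [le_div_iff₀ (by positivity)]
      linarith
    linarith
  have hcard : ((univ.filter (fun y => N * discrepancy (E + 2) N (a y) < cE E * Jp a0 * (a0:ℝ) ^ (E + 1))).card : ℝ) ≤ _ :=
    le_trans (by exact_mod_cast Finset.card_le_card hsub) hcore
  refine hcard.trans ?_
  apply mul_le_mul_of_nonneg_right _ (by positivity)
  -- the error terms
  have hA : (((2 ^ (4 * a0) : ℕ)) : ℝ) = 2 ^ (4 * a0) := by push_cast; rfl
  have hB : (((2 ^ (8 * a0) : ℕ)) : ℝ) = 2 ^ (8 * a0) := by push_cast; rfl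
  rw [hA, hB]
  have hBA : (2:ℝ) ^ (8 * a0) / 2 ^ (4 * a0) = 2 ^ (4 * a0) := by
    rw [div_eq_iff (by positivity), ← pow_add]
    congr 1
    ring
  rw [hBA]
  have hl2' : Real.log 2 < 1 := by have := Real.log_two_lt_d9; linarith
  have hl2'' : 0 < Real.log 2 := Real.log_pos (by norm_num)
  have hlogA : Real.log ((2:ℝ) ^ (4 * a0)) ≤ 64 * (m:ℝ) ^ 4 := by
    rw [Real.log_pow]
    push_cast
    nlinarith
  have hlogA0 : 0 ≤ Real.log ((2:ℝ) ^ (4 * a0)) := Real.log_nonneg (one_le_pow₀ (by norm_num))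
  have hgA : (g:ℝ) * (1 / 2 ^ (4 * a0)) ≤ 1 := by
    have h1 : (g:ℝ) ≤ 2 ^ (4 * a0) := by
      have : (g:ℝ) ≤ 2 ^ a0 := by exact_mod_cast hg
      refine this.trans ?_
      apply pow_le_pow_right₀ (by norm_num)
      omega
    rw [mul_one_div, div_le_one (by positivity)]
    exact h1
  obtain ⟨x2, hx2⟩ : ∃ x2 : ℝ, x2 = 1 / (2:ℝ) ^ (4 * a0) + 1 / g * Real.log ((2:ℝ) ^ (4 * a0)) := ⟨_, rfl⟩
  obtain ⟨x1, hx1⟩ : ∃ x1 : ℝ, x1 = 1 / (2:ℝ) ^ (4 * a0) + 1 / g * Real.log ((R * T1 / t0) ^ 2) := ⟨_, rfl⟩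
  rw [← hx1, ← hx2]
  have hm4one : (1:ℝ) ≤ (m:ℝ) ^ 4 := one_le_pow₀ hm1'
  have hgx2 : g * x2 ≤ 65 * (m:ℝ) ^ 4 := by
    have e : g * x2 = g * (1 / 2 ^ (4 * a0)) + Real.log ((2:ℝ) ^ (4 * a0)) := by
      rw [hx2, mul_add]
      congr 1
      field_simp
    rw [e]
    linarith
  have hgx20 : 0 ≤ g * x2 := by
    rw [hx2]
    have h1 : (0:ℝ) ≤ 1 / 2 ^ (4 * a0) := by positivity
    have h2 : (0:ℝ) ≤ 1 / g * Real.log ((2:ℝ) ^ (4 * a0)) := mul_nonneg (by positivity) hlogA0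
    exact mul_nonneg hg'.le (add_nonneg h1 h2)
  have hRT : R * T1 / t0 ≤ (m:ℝ) ^ (8 * E + 26) := by
    have h1 : 8 * (a0:ℝ) + 1 ≤ (m:ℝ) ^ 8 := by
      have h2 : (m:ℝ) ^ 8 = (m:ℝ) ^ 4 * (m:ℝ) ^ 4 := by ring
      have h3 : (625:ℝ) ≤ (m:ℝ) ^ 4 := by
        calc (625:ℝ) = 5 ^ 4 := by norm_num
          _ ≤ (m:ℝ) ^ 4 := pow_le_pow_left₀ (by norm_num) hm5' 4
      rw [h2]
      nlinarith
    calc R * T1 / t0 ≤ R * T1 / 1 := by
          apply div_le_div_of_nonneg_left (by positivity) (by norm_num)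
          linarith
      _ = T1 * T1 * (8 * (a0:ℝ) + 1) ^ 2 := by rw [hR]; ring
      _ ≤ T1 * T1 * ((m:ℝ) ^ 8) ^ 2 := by gcongr
      _ = _ := by rw [hT1]; ring
  have hRT1 : 1 ≤ R * T1 / t0 := by
    have h1 : t0 ≤ T1 := by
      rw [ht0, hT1]
      exact pow_le_pow_right₀ hm1' (by omega)
    have h2 : 1 ≤ R := by
      rw [hR]
      nlinarith
    rw [le_div_iff₀ (by linarith)]
    nlinarith
  have hlogRT0 : 0 ≤ Real.log ((R * T1 / t0) ^ 2) := Real.log_nonneg (one_le_pow₀ hRT1)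
  have hlogRT : Real.log ((R * T1 / t0) ^ 2) ≤ (16 * E + 52) * m := by
    rw [Real.log_pow]
    have h1 : Real.log (R * T1 / t0) ≤ Real.log ((m:ℝ) ^ (8 * E + 26)) :=
      Real.log_le_log (by linarith) hRT
    rw [Real.log_pow] at h1
    have h2 : Real.log (m:ℝ) ≤ m := by
      have := Real.log_le_sub_one_of_pos hm0
      linarith
    push_cast at h1 ⊢
    have h3 : (8 * (E:ℝ) + 26) * Real.log m ≤ (8 * E + 26) * m := by gcongr
    linarith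
  have hgx1 : g * x1 ≤ (16 * E + 53) * m := by
    have e : g * x1 = g * (1 / 2 ^ (4 * a0)) + Real.log ((R * T1 / t0) ^ 2) := by
      rw [hx1, mul_add]
      congr 1
      field_simp
    rw [e]
    linarith
  have hgx10 : 0 ≤ g * x1 := by
    rw [hx1]
    have h1 : (0:ℝ) ≤ 1 / 2 ^ (4 * a0) := by positivity
    have h2 : (0:ℝ) ≤ 1 / g * Real.log ((R * T1 / t0) ^ 2) := mul_nonneg (by positivity) hlogRT0
    exact mul_nonneg hg'.le (add_nonneg h1 h2)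
  have hP : ((PL g av).card : ℝ) ≤ K * (g:ℝ) ^ E := by exact_mod_cast hPL
  have hx10 : 0 ≤ x1 := by
    by_contra h
    have := mul_neg_of_pos_of_neg hg' (not_le.mp h)
    linarith
  have hx20 : 0 ≤ x2 := by
    by_contra h
    have := mul_neg_of_pos_of_neg hg' (not_le.mp h)
    linarith
  have hsecond : 8 * (2 * g * ((E + 2) * ((PL g av).card * (x1 * x2 ^ E)))) / t0 ≤
      16 * ((E:ℝ) + 2) * (K * (16 * E + 53) * 65 ^ E) / m := by
    have h1 : g * ((PL g av).card * (x1 * x2 ^ E)) ≤ K * ((16 * E + 53) * m) * (65 * (m:ℝ) ^ 4) ^ E := by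
      calc g * ((PL g av).card * (x1 * x2 ^ E)) ≤ g * ((K * (g:ℝ) ^ E) * (x1 * x2 ^ E)) := by gcongr
        _ = K * (g * x1) * (g * x2) ^ E := by rw [mul_pow]; ring
        _ ≤ _ := by gcongr
    have h2 : K * ((16 * (E:ℝ) + 53) * m) * (65 * (m:ℝ) ^ 4) ^ E = (K * (16 * E + 53) * 65 ^ E) * (m:ℝ) ^ (4 * E + 1) := by
      rw [mul_pow, ← pow_mul]
      ring
    rw [h2] at h1
    rw [div_le_div_iff₀ (by positivity) hm0]
    have h3 : t0 = (m:ℝ) ^ (4 * E + 1) * m := by rw [ht0]; ring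
    rw [h3]
    calc 8 * (2 * g * ((E + 2) * ((PL g av).card * (x1 * x2 ^ E)))) * m
        = 16 * ((E:ℝ) + 2) * (g * ((PL g av).card * (x1 * x2 ^ E))) * m := by ring
      _ ≤ 16 * ((E:ℝ) + 2) * ((K * (16 * E + 53) * 65 ^ E) * (m:ℝ) ^ (4 * E + 1)) * m := by gcongr
      _ = _ := by ring
  have hthird : 4 * g * ((PL g av).card * x2 ^ (E + 1)) / T1 ≤ 4 * (K * 65 ^ (E + 1)) / m := by
    have h1 : g * ((PL g av).card * x2 ^ (E + 1)) ≤ K * (65 * (m:ℝ) ^ 4) ^ (E + 1) := by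
      calc g * ((PL g av).card * x2 ^ (E + 1)) ≤ g * ((K * (g:ℝ) ^ E) * x2 ^ (E + 1)) := by gcongr
        _ = K * (g * x2) ^ (E + 1) := by rw [mul_pow]; ring
        _ ≤ _ := by gcongr
    have h2 : K * (65 * (m:ℝ) ^ 4) ^ (E + 1) = (K * 65 ^ (E + 1)) * (m:ℝ) ^ (4 * E + 4) := by
      rw [mul_pow, ← pow_mul]
      ring
    rw [h2] at h1
    rw [div_le_div_iff₀ (by positivity) hm0]
    have h3 : T1 = (m:ℝ) ^ (4 * E + 4) * m := by rw [hT1]; ring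
    rw [h3]
    calc 4 * g * ((PL g av).card * x2 ^ (E + 1)) * m = 4 * (g * ((PL g av).card * x2 ^ (E + 1))) * m := by ring
      _ ≤ 4 * ((K * 65 ^ (E + 1)) * (m:ℝ) ^ (4 * E + 4)) * m := by gcongr
      _ = _ := by ring
  calc 36 * (5 / (m:ℝ)) + 8 * (2 * g * ((E + 2) * ((PL g av).card * (x1 * x2 ^ E)))) / t0 + 4 * g * ((PL g av).card * x2 ^ (E + 1)) / T1
      ≤ 36 * (5 / (m:ℝ)) + 16 * ((E:ℝ) + 2) * (K * (16 * E + 53) * 65 ^ E) / m + 4 * (K * 65 ^ (E + 1)) / m := by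
        gcongr
    _ = C / m := by rw [hC]; ring
    _ ≤ ε := by
        rw [div_le_iff₀ hm0]
        rw [div_le_iff₀ hε] at hmC
        linarith

end Pool.Agent.H89.Disc
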