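import Mathlib
import Pool.Agent.H89.Count

open Finset

namespace Pool.Agent.H89.Disc

/-- the multiplier as a function of the free parameter -/
def wf {M : ℕ} (u : (ZMod M)ˣ) (c : ZMod M) (l : ℕ) (s : ZMod M) : ZMod M := (u : ZMod M) * (c + (l : ZMod M) * s)

lemma mul_wf {M : ℕ} (u : (ZMod M)ˣ) (c : ZMod M) (l : ℕ) (s : ZMod M) (n : ℕ) :
    (n : ZMod M) * wf u c l s = (n : ZMod M) * ((u : ZMod M) * c) + (u : ZMod M) * (((n * l : ℕ) : ZMod M) * s) := by
  unfold wf
  push_cast
  ring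

lemma L1_upper {M : ℕ} [NeZero M] (u : (ZMod M)ˣ) (c : ZMod M) (l : ℕ) (hl : 0 < l) (n : ℕ) (hn : 0 < n) (X : ℕ) :
    (univ.filter (fun s : ZMod M => za ((n : ZMod M) * wf u c l s) ≤ X)).card ≤ 2 * X + n * l := by
  have h := count_upper_unit u ((n * l : ℕ) : ℤ) (by exact_mod_cast (Nat.mul_pos hn hl).ne') ((n : ZMod M) * ((u : ZMod M) * c)) X
  rw [Int.natAbs_natCast] at h
  refine le_trans (le_of_eq ?_) h
  congr 1
  apply Finset.filter_congr
  intro s _
  rw [mul_wf, Int.cast_natCast]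

lemma L1_lower {M : ℕ} [NeZero M] (u : (ZMod M)ˣ) (c : ZMod M) (l : ℕ) (hl : 0 < l) (n : ℕ) (hn : 0 < n) (X : ℕ)
    (hX : 2 * X + 1 ≤ M) :
    2 * X + 2 ≤ (univ.filter (fun s : ZMod M => za ((n : ZMod M) * wf u c l s) ≤ X)).card + n * l := by
  have h := count_lower_unit u (n * l) (Nat.mul_pos hn hl) ((n : ZMod M) * ((u : ZMod M) * c)) X hX
  refine le_trans h (le_of_eq ?_)
  congr 2
  apply Finset.filter_congr
  intro s _
  rw [mul_wf]

/-- the number of pairs `(a, k)` with `a n' + k ≡ 0 mod n`, `1 ≤ k ≤ κ` -/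
lemma pairs_count (n n' κ : ℕ) [NeZero n] :
    (((univ : Finset (ZMod n)) ×ˢ (Finset.Icc 1 κ)).filter
      (fun p => p.1 * (n' : ZMod n) + (p.2 : ZMod n) = 0)).card ≤ κ := by
  classical
  set g1 : ℕ := Nat.gcd n n' with hg1
  have hn : 0 < n := Nat.pos_of_ne_zero (NeZero.ne n)
  have hg1pos : 0 < g1 := Nat.gcd_pos_of_pos_left _ hn
  have hker : (univ.filter (fun a : ZMod n => a * (n' : ZMod n) = 0)).card ≤ g1 := by
    have h1 : (univ.filter (fun a : ZMod n => a * (n' : ZMod n) = 0)) ⊆ univ.filter (fun a : ZMod n => g1 • a = 0) := by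
      intro a ha
      rw [Finset.mem_filter] at ha ⊢
      refine ⟨Finset.mem_univ _, ?_⟩
      have h2 := Nat.gcd_eq_gcd_ab n n'
      rw [← hg1] at h2
      have h3 : (g1 : ZMod n) = (n : ZMod n) * (Nat.gcdA n n' : ZMod n) + (n' : ZMod n) * (Nat.gcdB n n' : ZMod n) := by
        have := congrArg (fun x : ℤ => (x : ZMod n)) h2
        push_cast at this
        exact this
      rw [nsmul_eq_mul, h3, ZMod.natCast_self]
      linear_combination (Nat.gcdB n n' : ZMod n) * ha.2
    exact (Finset.card_le_card h1).trans (IsAddCyclic.card_nsmul_eq_zero_le hg1pos)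
  have hfib : ∀ c : ZMod n, (univ.filter (fun a : ZMod n => a * (n' : ZMod n) + c = 0)).card ≤ g1 := by
    intro c
    rcases (univ.filter (fun a : ZMod n => a * (n' : ZMod n) + c = 0)).eq_empty_or_nonempty with he | hne
    · rw [he]; simp
    · obtain ⟨a0, ha0⟩ := hne
      rw [Finset.mem_filter] at ha0
      refine le_trans ?_ hker
      apply Finset.card_le_card_of_injOn (fun a => a - a0)
      · intro a ha
        rw [Finset.mem_coe, Finset.mem_filter] at ha
        rw [Finset.mem_coe, Finset.mem_filter]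
        refine ⟨Finset.mem_univ _, ?_⟩
        simp only
        linear_combination ha.2 - ha0.2
      · intro a _ b _ h
        simpa using h
  have hzero : ∀ k : ℕ, ¬ g1 ∣ k → (univ.filter (fun a : ZMod n => a * (n' : ZMod n) + (k : ZMod n) = 0)).card = 0 := by
    intro k hk
    rw [Finset.card_eq_zero, Finset.filter_eq_empty_iff]
    intro a _ ha
    apply hk
    have h1 : ((a.val * n' + k : ℕ) : ZMod n) = 0 := by
      push_cast
      rw [ZMod.natCast_val, ZMod.cast_id]
      exact ha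
    rw [ZMod.natCast_eq_zero_iff] at h1
    have h2 : g1 ∣ a.val * n' + k := (Nat.gcd_dvd_left n n').trans h1
    have h3 : g1 ∣ a.val * n' := Dvd.dvd.mul_left (Nat.gcd_dvd_right n n') _
    exact (Nat.dvd_add_right h3).mp h2
  have hcard : (((univ : Finset (ZMod n)) ×ˢ (Finset.Icc 1 κ)).filter
      (fun p => p.1 * (n' : ZMod n) + (p.2 : ZMod n) = 0)).card =
      ∑ k ∈ Finset.Icc 1 κ, (univ.filter (fun a : ZMod n => a * (n' : ZMod n) + (k : ZMod n) = 0)).card := by
    rw [Finset.card_filter, Finset.sum_product_right]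
    apply Finset.sum_congr rfl
    intro k _
    rw [Finset.card_filter]
  rw [hcard]
  calc ∑ k ∈ Finset.Icc 1 κ, (univ.filter (fun a : ZMod n => a * (n' : ZMod n) + (k : ZMod n) = 0)).card
      ≤ ∑ k ∈ Finset.Icc 1 κ, (if g1 ∣ k then g1 else 0) := by
        apply Finset.sum_le_sum
        intro k _
        by_cases hk : g1 ∣ k
        · rw [if_pos hk]
          exact hfib k
        · rw [if_neg hk, hzero k hk]
    _ = ((Finset.Icc 1 κ).filter (fun k => g1 ∣ k)).card * g1 := by
        rw [← Finset.sum_filter, Finset.sum_const, smul_eq_mul]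
    _ = (κ / g1) * g1 := by
        congr 1
        have := Nat.Ioc_filter_dvd_card_eq_div κ g1
        rw [← this]
        congr 1
    _ ≤ κ := Nat.div_mul_le_self _ _

/-- the integer part of `n w / M` (nearest) -/
def aI {M : ℕ} (n : ℕ) (w : ZMod M) : ℤ := ((n : ℤ) * (w.val : ℤ) - ((n : ZMod M) * w).valMinAbs) / (M : ℤ)

lemma aI_spec {M : ℕ} [NeZero M] (n : ℕ) (w : ZMod M) :
    aI n w * M = (n : ℤ) * (w.val : ℤ) - ((n : ZMod M) * w).valMinAbs := by
  unfold aI
  apply Int.ediv_mul_cancel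
  rw [← ZMod.intCast_zmod_eq_zero_iff_dvd]
  push_cast
  rw [ZMod.natCast_val, ZMod.cast_id]
  ring

/-- counting parameters whose multiplier lies in a window -/
lemma window_count {M : ℕ} [NeZero M] (u : (ZMod M)ˣ) (c : ZMod M) (l : ℕ) (hl : 0 < l) (n' X' : ℕ) (hn' : 0 < n')
    (a' : ℤ) :
    (univ.filter (fun s : ZMod M => ((n' : ℤ) * ((wf u c l s).val : ℤ) - a' * M).natAbs ≤ X')).card ≤
      2 * (X' / n' + 1) + l := by
  have h := count_upper_unit u ((l : ℕ) : ℤ) (by exact_mod_cast hl.ne')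
    ((u : ZMod M) * c - (((a' * M) / (n' : ℤ) : ℤ) : ZMod M)) (X' / n' + 1)
  rw [Int.natAbs_natCast] at h
  refine le_trans (Finset.card_le_card ?_) h
  intro s hs
  rw [Finset.mem_filter] at hs ⊢
  refine ⟨Finset.mem_univ _, ?_⟩
  have h1 := hs.2
  set w := wf u c l s with hw
  have e : (u : ZMod M) * c - (((a' * M) / (n' : ℤ) : ℤ) : ZMod M) + (u : ZMod M) * (((l : ℕ) : ℤ) : ZMod M) * s
      = ((((w.val : ℕ) : ℤ) - (a' * M) / (n' : ℤ) : ℤ) : ZMod M) := by
    push_cast
    rw [ZMod.natCast_val, ZMod.cast_id, hw]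
    unfold wf
    ring
  have e' : (u : ZMod M) * c - (((a' * M) / (n' : ℤ) : ℤ) : ZMod M) + (u : ZMod M) * ((((l : ℕ) : ℤ) : ZMod M) * s)
      = ((((w.val : ℕ) : ℤ) - (a' * M) / (n' : ℤ) : ℤ) : ZMod M) := by
    rw [← e]; ring
  rw [e']
  refine (za_intCast_le _).trans ?_
  set mid : ℤ := (a' * M) / (n' : ℤ) with hmid
  have hn'' : (0:ℤ) < n' := by exact_mod_cast hn'
  have h2 : mid * n' ≤ a' * M := Int.ediv_mul_le _ hn''.ne'
  have h3 : a' * M < (mid + 1) * n' := Int.lt_ediv_add_one_mul_self _ hn''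
  have h4 : |(n' : ℤ) * (w.val : ℤ) - a' * M| ≤ X' := by
    rw [← Int.natCast_natAbs]
    exact_mod_cast h1
  rw [abs_le] at h4
  set q : ℕ := X' / n' with hq
  have h5 : (X' : ℤ) < (q + 1) * n' := by
    have : X' < n' * (X' / n' + 1) := Nat.lt_mul_div_succ X' hn'
    rw [← hq] at this
    have : ((X' : ℕ) : ℤ) < ((n' * (q + 1) : ℕ) : ℤ) := by exact_mod_cast this
    push_cast at this
    linarith
  have h6 : |(w.val : ℤ) - mid| ≤ q + 1 := by
    rw [abs_le]
    constructor
    · by_contra hcon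
      push Not at hcon
      have h7 : (w.val : ℤ) - mid ≤ -(q + 2) := by linarith
      have h8 : (n' : ℤ) * ((w.val : ℤ) - mid) ≤ n' * (-(q + 2)) := mul_le_mul_of_nonneg_left h7 hn''.le
      nlinarith
    · by_contra hcon
      push Not at hcon
      have h7 : (q:ℤ) + 2 ≤ (w.val : ℤ) - mid := by linarith
      have h8 : (n' : ℤ) * (q + 2) ≤ (n' : ℤ) * ((w.val : ℤ) - mid) := mul_le_mul_of_nonneg_left h7 hn''.le
      nlinarith
  zify
  exact h6

/-- the pair count for one sign -/
lemma L2_sign {M : ℕ} [NeZero M] (u : (ZMod M)ˣ) (c : ZMod M) (l : ℕ) (hl : 0 < l) (n n' X X' : ℕ) (hn : 0 < n)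
    (hn' : 0 < n') (hX : X < M) (hκ : (n' * X + n * X') / M < n) (σ : ℤ) (hσ : σ = 1 ∨ σ = -1) :
    (univ.filter (fun s : ZMod M => za ((n : ZMod M) * wf u c l s) ≤ X ∧ za ((n' : ZMod M) * wf u c l s) ≤ X' ∧
      0 < σ * ((n' : ℤ) * ((n : ZMod M) * wf u c l s).valMinAbs - n * ((n' : ZMod M) * wf u c l s).valMinAbs))).card ≤
      (2 * (X' / n' + 1) + l) * ((n' * X + n * X') / M) := by
  classical
  have : NeZero n := ⟨hn.ne'⟩
  set κ : ℕ := (n' * X + n * X') / M with hκdef
  have hM : 0 < M := Nat.pos_of_ne_zero (NeZero.ne M)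
  have hMz : (0:ℤ) < M := by exact_mod_cast hM
  set S := univ.filter (fun s : ZMod M => za ((n : ZMod M) * wf u c l s) ≤ X ∧ za ((n' : ZMod M) * wf u c l s) ≤ X' ∧
      0 < σ * ((n' : ℤ) * ((n : ZMod M) * wf u c l s).valMinAbs - n * ((n' : ZMod M) * wf u c l s).valMinAbs)) with hS
  set k : ZMod M → ℤ := fun s => aI n' (wf u c l s) * n - aI n (wf u c l s) * n' with hk
  have hkM : ∀ s, k s * M = (n' : ℤ) * ((n : ZMod M) * wf u c l s).valMinAbs - n * ((n' : ZMod M) * wf u c l s).valMinAbs := by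
    intro s
    have h1 := aI_spec n (wf u c l s)
    have h2 := aI_spec n' (wf u c l s)
    rw [hk]
    linear_combination (n:ℤ) * h2 - (n':ℤ) * h1
  have hσ2 : σ * σ = 1 := by rcases hσ with h | h <;> rw [h] <;> norm_num
  have hσabs : |σ| = 1 := by rcases hσ with h | h <;> rw [h] <;> norm_num
  -- properties of elements of S
  have hprop : ∀ s ∈ S, 0 < σ * k s ∧ σ * k s ≤ κ ∧ 0 < aI n (wf u c l s) ∧ aI n (wf u c l s) < n := by
    intro s hs
    rw [hS, Finset.mem_filter] at hs
    obtain ⟨_, h1, h2, h3⟩ := hs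
    have h1' : |((n : ZMod M) * wf u c l s).valMinAbs| ≤ X := by
      unfold za at h1
      rw [← Int.natCast_natAbs]; exact_mod_cast h1
    have h2' : |((n' : ZMod M) * wf u c l s).valMinAbs| ≤ X' := by
      unfold za at h2
      rw [← Int.natCast_natAbs]; exact_mod_cast h2
    have h4 : 0 < σ * k s * M := by
      calc 0 < σ * ((n' : ℤ) * ((n : ZMod M) * wf u c l s).valMinAbs - n * ((n' : ZMod M) * wf u c l s).valMinAbs) := h3
        _ = σ * k s * M := by rw [← hkM]; ring
    have h5 : 0 < σ * k s := (mul_pos_iff_of_pos_right hMz).mp h4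
    have h6 : σ * k s * M ≤ n' * X + n * X' := by
      have h7 : |σ * k s * M| = |(n' : ℤ) * ((n : ZMod M) * wf u c l s).valMinAbs - n * ((n' : ZMod M) * wf u c l s).valMinAbs| := by
        rw [← hkM, mul_assoc, abs_mul σ, hσabs, one_mul]
      have h8 : |(n' : ℤ) * ((n : ZMod M) * wf u c l s).valMinAbs - n * ((n' : ZMod M) * wf u c l s).valMinAbs| ≤ n' * X + n * X' := by
        refine (abs_sub _ _).trans ?_
        rw [abs_mul, abs_mul, Nat.abs_cast, Nat.abs_cast]
        gcongr
      calc σ * k s * M ≤ |σ * k s * M| := le_abs_self _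
        _ ≤ _ := by rw [h7]; exact h8
    have h9 : σ * k s ≤ κ := by
      rw [hκdef]
      push_cast
      rw [Int.le_ediv_iff_mul_le hMz]
      exact h6
    have hrange0 : 0 ≤ aI n (wf u c l s) := by
      have h10 := aI_spec n (wf u c l s)
      rw [abs_le] at h1'
      by_contra hcon
      have h11 : aI n (wf u c l s) ≤ -1 := by omega
      have h12 : aI n (wf u c l s) * M ≤ -1 * M := mul_le_mul_of_nonneg_right h11 hMz.le
      have h13 : (0:ℤ) ≤ (n : ℤ) * ((wf u c l s).val : ℤ) := by positivity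
      have h14 : (X:ℤ) < M := by exact_mod_cast hX
      linarith
    have hrange1 : aI n (wf u c l s) ≤ n := by
      have h10 := aI_spec n (wf u c l s)
      rw [abs_le] at h1'
      by_contra hcon
      have h11 : (n:ℤ) + 1 ≤ aI n (wf u c l s) := by omega
      have h12 : ((n:ℤ) + 1) * M ≤ aI n (wf u c l s) * M := mul_le_mul_of_nonneg_right h11 hMz.le
      have h13 : ((wf u c l s).val : ℤ) ≤ M := by exact_mod_cast (ZMod.val_lt _).le
      have h15 : (n : ℤ) * ((wf u c l s).val : ℤ) ≤ n * M := mul_le_mul_of_nonneg_left h13 (by positivity)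
      have h14 : (X:ℤ) < M := by exact_mod_cast hX
      linarith
    have hκn : σ * k s < n := lt_of_le_of_lt h9 (by exact_mod_cast hκ)
    have hnotdvd : ¬ (n:ℤ) ∣ k s := by
      intro hd
      have h10 : (n:ℤ) ∣ σ * k s := Dvd.dvd.mul_left hd _
      have := Int.le_of_dvd h5 h10
      omega
    refine ⟨h5, h9, ?_, ?_⟩
    · rcases hrange0.lt_or_eq with h10 | h10
      · exact h10
      · exfalso
        apply hnotdvd
        simp only [hk]
        rw [← h10]
        exact ⟨aI n' (wf u c l s), by ring⟩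
    · rcases hrange1.lt_or_eq with h10 | h10
      · exact h10
      · exfalso
        apply hnotdvd
        simp only [hk]
        rw [h10]
        exact ⟨aI n' (wf u c l s) - n', by ring⟩
  set Pr := (((univ : Finset (ZMod n)) ×ˢ (Finset.Icc 1 κ)).filter
      (fun p => p.1 * (n' : ZMod n) + (p.2 : ZMod n) = 0)) with hPr
  set φ : ZMod M → ZMod n × ℕ := fun s => (((σ * aI n (wf u c l s) : ℤ) : ZMod n), (σ * k s).toNat) with hφ
  have hmaps : ∀ s ∈ S, φ s ∈ Pr := by
    intro s hs
    obtain ⟨h1, h2, _, _⟩ := hprop s hs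
    rw [hPr, Finset.mem_filter, Finset.mem_product, Finset.mem_Icc]
    refine ⟨⟨Finset.mem_univ _, ?_, ?_⟩, ?_⟩
    · simp only [hφ]; omega
    · simp only [hφ]; omega
    · simp only [hφ]
      have h3 : (((σ * k s).toNat : ℕ) : ZMod n) = ((σ * k s : ℤ) : ZMod n) := by
        have h4 : (((σ * k s).toNat : ℕ) : ℤ) = σ * k s := Int.toNat_of_nonneg h1.le
        rw [← Int.cast_natCast, h4]
      rw [h3]
      have h5 : (((σ * aI n (wf u c l s) : ℤ) : ZMod n) * (n' : ZMod n) + ((σ * k s : ℤ) : ZMod n)) =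
          ((σ * aI n' (wf u c l s) * n : ℤ) : ZMod n) := by
        simp only [hk]
        push_cast
        ring
      rw [h5]
      push_cast
      rw [ZMod.natCast_self, mul_zero]
  have hfib : ∀ p ∈ Pr, (S.filter (fun s => φ s = p)).card ≤ 2 * (X' / n' + 1) + l := by
    intro p _
    rcases (S.filter (fun s => φ s = p)).eq_empty_or_nonempty with he | hne
    · rw [he]; simp
    · obtain ⟨s0, hs0⟩ := hne
      rw [Finset.mem_filter] at hs0
      refine le_trans (Finset.card_le_card ?_) (window_count u c l hl n' X' hn' (aI n' (wf u c l s0)))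
      intro s hs
      rw [Finset.mem_filter] at hs
      rw [Finset.mem_filter]
      refine ⟨Finset.mem_univ _, ?_⟩
      have heq : φ s = φ s0 := hs.2.trans hs0.2.symm
      obtain ⟨h1, h2, h3, h4⟩ := hprop s hs.1
      obtain ⟨h1', h2', h3', h4'⟩ := hprop s0 hs0.1
      have e1 : ((σ * aI n (wf u c l s) : ℤ) : ZMod n) = ((σ * aI n (wf u c l s0) : ℤ) : ZMod n) := congrArg Prod.fst heq
      have e2 : (σ * k s).toNat = (σ * k s0).toNat := congrArg Prod.snd heq
      have e3 : aI n (wf u c l s) = aI n (wf u c l s0) := by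
        rw [ZMod.intCast_eq_intCast_iff_dvd_sub] at e1
        have e4 : (n:ℤ) ∣ aI n (wf u c l s0) - aI n (wf u c l s) := by
          have : aI n (wf u c l s0) - aI n (wf u c l s) = σ * (σ * aI n (wf u c l s0) - σ * aI n (wf u c l s)) := by
            linear_combination (-(aI n (wf u c l s0) - aI n (wf u c l s))) * hσ2
          rw [this]
          exact Dvd.dvd.mul_left e1 _
        by_contra hne
        have e5 : aI n (wf u c l s0) - aI n (wf u c l s) ≠ 0 := fun h => hne (by linarith)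
        have e6 := Int.le_of_dvd (abs_pos.mpr e5) ((dvd_abs _ _).mpr e4)
        have e7 : |aI n (wf u c l s0) - aI n (wf u c l s)| < n := by
          rw [abs_lt]
          constructor <;> linarith
        linarith
      have e8 : k s = k s0 := by
        have h5 : σ * k s = σ * k s0 := by omega
        have : σ * (σ * k s) = σ * (σ * k s0) := by rw [h5]
        rw [← mul_assoc, ← mul_assoc, hσ2, one_mul, one_mul] at this
        exact this
      have e9 : aI n' (wf u c l s) = aI n' (wf u c l s0) := by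
        simp only [hk] at e8
        rw [e3] at e8
        have h6 : aI n' (wf u c l s) * n = aI n' (wf u c l s0) * n := by linarith
        exact mul_right_cancel₀ (by exact_mod_cast hn.ne') h6
      have h7 := aI_spec n' (wf u c l s)
      rw [e9] at h7
      have h8 : (n' : ℤ) * ((wf u c l s).val : ℤ) - aI n' (wf u c l s0) * M = ((n' : ZMod M) * wf u c l s).valMinAbs := by linarith
      rw [h8]
      have h9 := hs.1
      rw [hS, Finset.mem_filter] at h9
      exact h9.2.2.1
  calc S.card ≤ (2 * (X' / n' + 1) + l) * Pr.card := Finset.card_le_mul_card_image_of_maps_to hmaps _ hfib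
    _ ≤ (2 * (X' / n' + 1) + l) * κ := Nat.mul_le_mul_left _ (pairs_count n n' κ)

lemma L2 {M : ℕ} [NeZero M] (u : (ZMod M)ˣ) (c : ZMod M) (l : ℕ) (hl : 0 < l) (n n' X X' : ℕ) (hn : 0 < n)
    (hn' : 0 < n') (hX : X < M) (hκ : (n' * X + n * X') / M < n) :
    (univ.filter (fun s : ZMod M => za ((n : ZMod M) * wf u c l s) ≤ X ∧ za ((n' : ZMod M) * wf u c l s) ≤ X' ∧
      (n' : ℤ) * ((n : ZMod M) * wf u c l s).valMinAbs ≠ n * ((n' : ZMod M) * wf u c l s).valMinAbs)).card ≤
      2 * ((2 * (X' / n' + 1) + l) * ((n' * X + n * X') / M)) := by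
  classical
  have h1 := L2_sign u c l hl n n' X X' hn hn' hX hκ 1 (Or.inl rfl)
  have h2 := L2_sign u c l hl n n' X X' hn hn' hX hκ (-1) (Or.inr rfl)
  have hsub : (univ.filter (fun s : ZMod M => za ((n : ZMod M) * wf u c l s) ≤ X ∧ za ((n' : ZMod M) * wf u c l s) ≤ X' ∧
      (n' : ℤ) * ((n : ZMod M) * wf u c l s).valMinAbs ≠ n * ((n' : ZMod M) * wf u c l s).valMinAbs)) ⊆
      (univ.filter (fun s : ZMod M => za ((n : ZMod M) * wf u c l s) ≤ X ∧ za ((n' : ZMod M) * wf u c l s) ≤ X' ∧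
      0 < 1 * ((n' : ℤ) * ((n : ZMod M) * wf u c l s).valMinAbs - n * ((n' : ZMod M) * wf u c l s).valMinAbs))) ∪
      (univ.filter (fun s : ZMod M => za ((n : ZMod M) * wf u c l s) ≤ X ∧ za ((n' : ZMod M) * wf u c l s) ≤ X' ∧
      0 < (-1) * ((n' : ℤ) * ((n : ZMod M) * wf u c l s).valMinAbs - n * ((n' : ZMod M) * wf u c l s).valMinAbs))) := by
    intro s hs
    rw [Finset.mem_filter] at hs
    rw [Finset.mem_union, Finset.mem_filter, Finset.mem_filter]
    obtain ⟨_, h3, h4, h5⟩ := hs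
    rcases lt_or_gt_of_ne h5 with h6 | h6
    · right
      exact ⟨Finset.mem_univ _, h3, h4, by linarith⟩
    · left
      exact ⟨Finset.mem_univ _, h3, h4, by linarith⟩
  have h3 := (Finset.card_le_card hsub).trans (Finset.card_union_le _ _)
  omega

end Pool.Agent.H89.Disc
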