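import Mathlib
import Pool.Agent.H89.Low1
import Pool.Agent.H89.Sums2

open Finset

namespace Pool.Agent.H89.Disc

/-- the vector `(z_n, n)` is primitive in the lattice of `w` -/
def Pw {M : ℕ} (n : ℕ) (w : ZMod M) : Prop :=
  ∀ m : ℕ, 2 ≤ m → m ∣ n → ((n : ZMod M) * w).valMinAbs ≠ (m : ℤ) * (((n / m : ℕ) : ZMod M) * w).valMinAbs

open Classical in
lemma nonprim_count {M : ℕ} [NeZero M] (u : (ZMod M)ˣ) (c : ZMod M) (l : ℕ) (hl : 0 < l) (n : ℕ) (hn : 0 < n) (X : ℕ) :
    (univ.filter (fun s : ZMod M => za ((n : ZMod M) * wf u c l s) ≤ X ∧ ¬ Pw n (wf u c l s))).card ≤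
      ∑ m ∈ n.divisors.filter (fun m => 2 ≤ m), (2 * (X / m) + (n / m) * l) := by
  have hsub : (univ.filter (fun s : ZMod M => za ((n : ZMod M) * wf u c l s) ≤ X ∧ ¬ Pw n (wf u c l s))) ⊆
      (n.divisors.filter (fun m => 2 ≤ m)).biUnion (fun m => univ.filter (fun s : ZMod M =>
        za (((n / m : ℕ) : ZMod M) * wf u c l s) ≤ X / m)) := by
    intro s hs
    rw [Finset.mem_filter] at hs
    obtain ⟨_, h1, h2⟩ := hs
    unfold Pw at h2
    push Not at h2
    obtain ⟨m, hm2, hmn, he⟩ := h2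
    rw [Finset.mem_biUnion]
    refine ⟨m, ?_, ?_⟩
    · rw [Finset.mem_filter, Nat.mem_divisors]
      exact ⟨⟨hmn, hn.ne'⟩, hm2⟩
    · rw [Finset.mem_filter]
      refine ⟨Finset.mem_univ _, ?_⟩
      rw [Nat.le_div_iff_mul_le (by omega)]
      unfold za at h1 ⊢
      rw [he, Int.natAbs_mul, Int.natAbs_natCast] at h1
      rw [mul_comm]
      exact h1
  refine (Finset.card_le_card hsub).trans (Finset.card_biUnion_le.trans ?_)
  apply Finset.sum_le_sum
  intro m hm
  rw [Finset.mem_filter, Nat.mem_divisors] at hm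
  apply L1_upper u c l hl
  exact Nat.div_pos (Nat.le_of_dvd hn hm.1.1) (by omega)

/-- primitive vectors are not parallel -/
lemma prim_ne {M : ℕ} [NeZero M] (w : ZMod M) (n n' : ℕ) (hn : 0 < n) (hlt : n < n') (hP : Pw n' w) :
    (n' : ℤ) * ((n : ZMod M) * w).valMinAbs ≠ n * ((n' : ZMod M) * w).valMinAbs := by
  intro he
  set e : ℕ := Nat.gcd n n' with hedef
  have hepos : 0 < e := Nat.gcd_pos_of_pos_left _ hn
  obtain ⟨p, hp⟩ : e ∣ n := Nat.gcd_dvd_left _ _
  obtain ⟨q, hq⟩ : e ∣ n' := Nat.gcd_dvd_right _ _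
  have hcop : Nat.Coprime p q := by
    have h1 := Nat.coprime_div_gcd_div_gcd (m := n) (n := n') hepos
    rw [← hedef] at h1
    have e1 : n / e = p := by rw [hp, Nat.mul_div_cancel_left _ hepos]
    have e2 : n' / e = q := by rw [hq, Nat.mul_div_cancel_left _ hepos]
    rwa [e1, e2] at h1
  have hppos : 0 < p := by
    rcases Nat.eq_zero_or_pos p with h1 | h1
    · rw [hp, h1] at hn; omega
    · exact h1
  have hpq : p < q := by
    rw [hp, hq] at hlt
    exact lt_of_mul_lt_mul_left hlt (Nat.zero_le _)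
  have hq2 : 2 ≤ q := by omega
  have hez : (e:ℤ) ≠ 0 := by exact_mod_cast hepos.ne'
  -- q z = p z'
  have hrel : (q : ℤ) * ((n : ZMod M) * w).valMinAbs = p * ((n' : ZMod M) * w).valMinAbs := by
    have h1 : (e:ℤ) * ((q : ℤ) * ((n : ZMod M) * w).valMinAbs) = e * (p * ((n' : ZMod M) * w).valMinAbs) := by
      have hn'z : (n':ℤ) = e * q := by rw [hq]; push_cast; ring
      have hnz : (n:ℤ) = e * p := by rw [hp]; push_cast; ring
      calc (e:ℤ) * ((q : ℤ) * ((n : ZMod M) * w).valMinAbs) = (n':ℤ) * ((n : ZMod M) * w).valMinAbs := by rw [hn'z]; ring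
        _ = n * ((n' : ZMod M) * w).valMinAbs := he
        _ = (e * p : ℤ) * ((n' : ZMod M) * w).valMinAbs := by rw [← hnz]
        _ = _ := by ring
    exact mul_left_cancel₀ hez h1
  have hdvd : (q:ℤ) ∣ ((n' : ZMod M) * w).valMinAbs := by
    have h1 : (q:ℤ) ∣ p * ((n' : ZMod M) * w).valMinAbs := ⟨_, hrel.symm⟩
    exact (Nat.isCoprime_iff_coprime.mpr hcop).symm.dvd_of_dvd_mul_left h1
  obtain ⟨t, ht⟩ := hdvd
  have hz : ((n : ZMod M) * w).valMinAbs = p * t := by
    have h1 : (q:ℤ) * ((n : ZMod M) * w).valMinAbs = q * (p * t) := by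
      rw [hrel, ht]; ring
    exact mul_left_cancel₀ (by exact_mod_cast (by omega : q ≠ 0)) h1
  -- `t` represents `e w`
  have htw : ((t : ℤ) : ZMod M) = (e : ZMod M) * w := by
    have hbez := Nat.gcd_eq_gcd_ab p q
    rw [hcop.gcd_eq_one] at hbez
    have h4 : (1 : ZMod M) = (p : ZMod M) * (Nat.gcdA p q : ZMod M) + (q : ZMod M) * (Nat.gcdB p q : ZMod M) := by
      have := congrArg (fun x : ℤ => (x : ZMod M)) hbez
      push_cast at this
      exact this
    have h5 : ((p : ℤ) * t : ℤ) = (((n : ZMod M) * w).valMinAbs) := hz.symm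
    have h6 : (((p : ℤ) * t : ℤ) : ZMod M) = (n : ZMod M) * w := by rw [h5, ZMod.coe_valMinAbs]
    have h7 : (((q : ℤ) * t : ℤ) : ZMod M) = (n' : ZMod M) * w := by rw [← ht, ZMod.coe_valMinAbs]
    have h8 : (n : ZMod M) = (e : ZMod M) * p := by rw [hp]; push_cast; ring
    have h9 : (n' : ZMod M) = (e : ZMod M) * q := by rw [hq]; push_cast; ring
    rw [h8] at h6
    rw [h9] at h7
    push_cast at h6 h7
    linear_combination ((t : ZMod M) - (e : ZMod M) * w) * h4 + (Nat.gcdA p q : ZMod M) * h6 + (Nat.gcdB p q : ZMod M) * h7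
  have htval : ((e : ZMod M) * w).valMinAbs = t := by
    rw [ZMod.valMinAbs_spec]
    refine ⟨htw.symm, ?_⟩
    have h1 := ((ZMod.valMinAbs_spec ((n' : ZMod M) * w) (((n' : ZMod M) * w).valMinAbs)).mp rfl).2
    rw [Set.mem_Ioc, ht] at h1
    rw [Set.mem_Ioc]
    have hqz : (2:ℤ) ≤ q := by exact_mod_cast hq2
    have hMz : (0:ℤ) < M := by exact_mod_cast Nat.pos_of_ne_zero (NeZero.ne M)
    constructor
    · by_contra hcon
      push Not at hcon
      have h2 : q * t * 2 ≤ 2 * (t * 2) := by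
        have : t * 2 < 0 := by linarith
        nlinarith
      linarith [h1.1]
    · by_contra hcon
      push Not at hcon
      have h2 : 2 * (t * 2) ≤ q * t * 2 := by
        have : 0 < t * 2 := by linarith
        nlinarith
      linarith [h1.2]
  apply hP q hq2 ⟨e, by rw [hq]; ring⟩
  have h10 : n' / q = e := by
    rw [hq]
    exact Nat.mul_div_cancel _ (by omega)
  rw [h10, htval, ht]

/-- integers congruent to one modulo `P0!` have few divisors, on average -/
lemma div_sum (P0 A B : ℕ) (hP0 : 1 ≤ P0) (hA : 0 < A) (hAB : A ≤ B) :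
    ∑ n ∈ (Finset.Ico A B).filter (fun n : ℕ => (n : ZMod (P0.factorial)) = 1),
      (1:ℝ) / n * ∑ m ∈ n.divisors.filter (fun m => 2 ≤ m), (1:ℝ) / m ≤
      1 / P0 * (1 / (P0.factorial : ℝ) * Real.log (B / A)) + (1 + Real.log B) / A := by
  classical
  set Q : ℕ := P0.factorial with hQ
  have hQpos : 0 < Q := Nat.factorial_pos _
  set S := (Finset.Ico A B).filter (fun n : ℕ => (n : ZMod Q) = 1) with hS
  have hA' : (0:ℝ) < A := by exact_mod_cast hA
  have hAB' : (A:ℝ) ≤ B := by exact_mod_cast hAB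
  have hB1 : 1 ≤ B := by omega
  have hQ' : (0:ℝ) < Q := by exact_mod_cast hQpos
  have hcopS : ∀ n ∈ S, Nat.Coprime n Q := by
    intro n hn
    have h1 := (Finset.mem_filter.mp hn).2
    exact (ZMod.isUnit_iff_coprime n Q).mp (by rw [h1]; exact isUnit_one)
  have hlog : 0 ≤ Real.log ((B:ℝ) / A) := Real.log_nonneg (by rw [le_div_iff₀ hA']; linarith)
  have h1 : ∀ n ∈ S, (1:ℝ) / n * ∑ m ∈ n.divisors.filter (fun m => 2 ≤ m), (1:ℝ) / m ≤
      ∑ m ∈ Finset.Ico (P0 + 1) B, (if m ∣ n then (1:ℝ) / n * (1 / m) else 0) := by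
    intro n hn
    rw [Finset.mul_sum, ← Finset.sum_filter]
    apply Finset.sum_le_sum_of_subset_of_nonneg
    · intro m hm
      rw [Finset.mem_filter, Nat.mem_divisors] at hm
      rw [Finset.mem_filter, Finset.mem_Ico]
      have h2 := Finset.mem_Ico.mp (Finset.mem_filter.mp hn).1
      refine ⟨⟨?_, lt_of_le_of_lt (Nat.le_of_dvd (by omega) hm.1.1) h2.2⟩, hm.1.1⟩
      by_contra hcon
      have h3 : m ∣ Q := Nat.dvd_factorial (by omega) (by omega)
      have h4 := Nat.dvd_gcd hm.1.1 h3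
      rw [hcopS n hn] at h4
      have := Nat.le_of_dvd one_pos h4
      omega
    · intro m _ _
      positivity
  refine (Finset.sum_le_sum h1).trans ?_
  rw [Finset.sum_comm]
  have h2 : ∀ m ∈ Finset.Ico (P0 + 1) B, ∑ n ∈ S, (if m ∣ n then (1:ℝ) / n * (1 / m) else 0) ≤
      (1 / m) * (1 / A) + (1 / (m:ℝ) ^ 2) * (1 / Q * Real.log (B / A)) := by
    intro m hm
    have hm1 := Finset.mem_Ico.mp hm
    have hmpos : 0 < m := by omega
    have hm' : (0:ℝ) < m := by exact_mod_cast hmpos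
    rw [← Finset.sum_filter, ← Finset.sum_mul]
    have h3 := int_sum_upper (m * Q) (Nat.mul_pos hmpos hQpos) A hA' (S.filter (fun n => m ∣ n)) (by
      intro n hn n' hn'
      rw [Finset.mem_filter] at hn hn'
      have hcop : Nat.Coprime m Q := Nat.Coprime.coprime_dvd_left hn.2 (hcopS n hn.1)
      rw [← Nat.modEq_and_modEq_iff_modEq_mul hcop]
      constructor
      · exact ((Nat.modEq_zero_iff_dvd).mpr hn.2).trans ((Nat.modEq_zero_iff_dvd).mpr hn'.2).symm
      · rw [← ZMod.natCast_eq_natCast_iff, (Finset.mem_filter.mp hn.1).2, (Finset.mem_filter.mp hn'.1).2])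
      (by
        intro n hn
        have := Finset.mem_Ico.mp (Finset.mem_filter.mp (Finset.mem_filter.mp hn).1).1
        exact_mod_cast this.1) B hAB' (by
        intro n hn
        have := Finset.mem_Ico.mp (Finset.mem_filter.mp (Finset.mem_filter.mp hn).1).1
        exact_mod_cast this.2.le)
    calc (∑ n ∈ S.filter (fun n => m ∣ n), (1:ℝ) / n) * (1 / m) ≤ (1 / A + 1 / ((m * Q : ℕ):ℝ) * Real.log (B / A)) * (1 / m) :=
          mul_le_mul_of_nonneg_right h3 (by positivity)
      _ = _ := by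
          push_cast
          field_simp
  refine (Finset.sum_le_sum h2).trans ?_
  rw [Finset.sum_add_distrib, ← Finset.sum_mul, ← Finset.sum_mul]
  have h3 := sum_sq_tail P0 B hP0
  have h4 : ∑ m ∈ Finset.Ico (P0 + 1) B, (1:ℝ) / m ≤ 1 + Real.log B := by
    have hB' : (1:ℝ) ≤ B := by exact_mod_cast hB1
    have := int_sum_upper 1 one_pos 1 one_pos (Finset.Ico (P0 + 1) B) (fun n _ m _ => Nat.modEq_one)
      (fun n hn => by
        have := (Finset.mem_Ico.mp hn).1
        exact_mod_cast (by omega : 1 ≤ n)) B hB'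
      (fun n hn => by exact_mod_cast (Finset.mem_Ico.mp hn).2.le)
    simpa using this
  have h5 : 0 ≤ 1 / (Q:ℝ) * Real.log (B / A) := by positivity
  have h6 := mul_le_mul_of_nonneg_right h3 h5
  have h7 : (∑ m ∈ Finset.Ico (P0 + 1) B, (1:ℝ) / m) * (1 / A) ≤ (1 + Real.log B) * (1 / A) :=
    mul_le_mul_of_nonneg_right h4 (by positivity)
  have h8 : (1 + Real.log B) * (1 / A) = (1 + Real.log B) / A := by ring
  linarith

end Pool.Agent.H89.Disc
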