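import Mathlib
import Pool.Agent.H89.Riesz2

open Finset

namespace Pool.Agent.H89.Disc

lemma geo_sum {d : ℕ} (i : Fin d) : ∀ (k : ℕ) (S : Finset (Fin d → ℤ)), S.card = k → S.Nonempty →
    (∀ h ∈ S, h i ≠ 0) →
    (∀ h ∈ S, ∀ h' ∈ S, h ≠ h' → 4 * (h i).natAbs ≤ (h' i).natAbs ∨ 4 * (h' i).natAbs ≤ (h i).natAbs) →
    3 * ∑ h ∈ S, (h i).natAbs ≤ 4 * mx S i := by
  classical
  intro k
  induction k with
  | zero =>
    intro S hS hne
    rw [Finset.card_eq_zero] at hS
    rw [hS] at hne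
    exact absurd hne (by simp)
  | succ k ih =>
    intro S hS hne hnz hgeo
    obtain ⟨h0, hh0, he⟩ := mx_attained hne i
    have hrest : ∀ h ∈ S.erase h0, 4 * (h i).natAbs ≤ (h0 i).natAbs := by
      intro h hh
      have hhS := Finset.mem_of_mem_erase hh
      rcases hgeo h hhS h0 hh0 (Finset.ne_of_mem_erase hh) with h1 | h1
      · exact h1
      · exfalso
        have h2 := le_mx hhS i
        rw [← he] at h2
        have h3 := Int.natAbs_pos.mpr (hnz h0 hh0)
        omega
    rw [← Finset.add_sum_erase S _ hh0]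
    rcases (S.erase h0).eq_empty_or_nonempty with h1 | h1
    · rw [h1, Finset.sum_empty, he]
      omega
    · have hc : (S.erase h0).card = k := by
        rw [Finset.card_erase_of_mem hh0, hS]
        rfl
      have h2 := ih (S.erase h0) hc h1 (fun h hh => hnz h (Finset.mem_of_mem_erase hh))
        (fun h hh h' hh' => hgeo h (Finset.mem_of_mem_erase hh) h' (Finset.mem_of_mem_erase hh'))
      obtain ⟨h3, hh3, he3⟩ := mx_attained h1 i
      have h4 := hrest h3 hh3
      omega

lemma mx_insert {d : ℕ} (y : Fin d → ℤ) (S : Finset (Fin d → ℤ)) (i : Fin d) :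
    mx (insert y S) i = max ((y i).natAbs) (mx S i) := by
  unfold mx
  rw [Finset.sup_insert]

/-- The error sum for geometric families in dimension two. -/
lemma geo_error (N C : ℝ) (hN : 0 ≤ N) (hC : 0 ≤ C) (H : Finset (Fin 2 → ℤ)) :
    (∀ h ∈ H, ∀ i, h i ≠ 0) →
    (∀ h ∈ H, ∀ h' ∈ H, h ≠ h' →
      (4 * (h 1).natAbs ≤ (h' 1).natAbs ∧ 4 * (h' 0).natAbs ≤ (h 0).natAbs ∧ N ≤ C * ((h 0).natAbs * (h' 1).natAbs)) ∨
      (4 * (h' 1).natAbs ≤ (h 1).natAbs ∧ 4 * (h 0).natAbs ≤ (h' 0).natAbs ∧ N ≤ C * ((h' 0).natAbs * (h 1).natAbs))) →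
    (∀ ζ : ℝ, 0 < ζ → (∀ h ∈ H, ζ ≤ ((h 0).natAbs : ℝ)) →
      ∑ S ∈ H.powerset, (if S.Nonempty then 1 / (mx S 0 : ℝ) else 0) ≤ 2 / ζ) ∧
    ∑ S ∈ H.powerset, (if 2 ≤ S.card then N / ∏ i, (mx S i : ℝ) else 0) ≤ 2 * C * H.card := by
  classical
  refine Finset.induction_on_max_value (fun h : Fin 2 → ℤ => (h 1).natAbs) H ?_ ?_
  · intro _ _
    constructor
    · intro ζ hζ _
      simp
      positivity
    · simp
  · intro y H hy hmax ih hnz hgeo
    have hnzH : ∀ h ∈ H, ∀ i, h i ≠ 0 := fun h hh => hnz h (Finset.mem_insert_of_mem hh)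
    have hgeoH : ∀ h ∈ H, ∀ h' ∈ H, h ≠ h' →
      (4 * (h 1).natAbs ≤ (h' 1).natAbs ∧ 4 * (h' 0).natAbs ≤ (h 0).natAbs ∧ N ≤ C * ((h 0).natAbs * (h' 1).natAbs)) ∨
      (4 * (h' 1).natAbs ≤ (h 1).natAbs ∧ 4 * (h 0).natAbs ≤ (h' 0).natAbs ∧ N ≤ C * ((h' 0).natAbs * (h 1).natAbs)) :=
      fun h hh h' hh' => hgeo h (Finset.mem_insert_of_mem hh) h' (Finset.mem_insert_of_mem hh')
    obtain ⟨ih1, ih2⟩ := ih hnzH hgeoH
    have hy0 : (0:ℝ) < ((y 0).natAbs : ℝ) := by exact_mod_cast Int.natAbs_pos.mpr (hnz y (Finset.mem_insert_self _ _) 0)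
    have hy1 : (0:ℝ) < ((y 1).natAbs : ℝ) := by exact_mod_cast Int.natAbs_pos.mpr (hnz y (Finset.mem_insert_self _ _) 1)
    have hrel : ∀ h ∈ H, 4 * (y 0).natAbs ≤ (h 0).natAbs ∧ N ≤ C * ((h 0).natAbs * (y 1).natAbs) := by
      intro h hh
      have hne : h ≠ y := fun he => hy (he ▸ hh)
      have h1 : (h 1).natAbs ≤ (y 1).natAbs := hmax h hh
      have h2 : 0 < (h 1).natAbs := Int.natAbs_pos.mpr (hnzH h hh 1)
      rcases hgeo h (Finset.mem_insert_of_mem hh) y (Finset.mem_insert_self _ _) hne with h3 | h3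
      · exact ⟨h3.2.1, h3.2.2⟩
      · exfalso
        omega
    have hyS : ∀ S ∈ H.powerset, y ∉ S := fun S hS h => hy (Finset.mem_powerset.mp hS h)
    have hmx0 : ∀ S ∈ H.powerset, S.Nonempty → mx (insert y S) 0 = mx S 0 := by
      intro S hS hne
      rw [mx_insert]
      apply max_eq_right
      obtain ⟨h, hh⟩ := hne
      have h1 := (hrel h (Finset.mem_powerset.mp hS hh)).1
      have h2 := le_mx hh (0 : Fin 2)
      omega
    have hmx1 : ∀ S ∈ H.powerset, mx (insert y S) 1 = (y 1).natAbs := by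
      intro S hS
      rw [mx_insert]
      apply max_eq_left
      apply Finset.sup_le
      intro h hh
      exact hmax h (Finset.mem_powerset.mp hS hh)
    have hΨ : ∑ S ∈ H.powerset, (if S.Nonempty then 1 / (mx S 0 : ℝ) else 0) ≤ 1 / (2 * ((y 0).natAbs : ℝ)) := by
      have h1 := ih1 (4 * ((y 0).natAbs : ℝ)) (by positivity) (by
        intro h hh
        exact_mod_cast (hrel h hh).1)
      refine h1.trans (le_of_eq ?_)
      field_simp
      norm_num
    constructor
    · intro ζ hζ hζH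
      rw [Finset.sum_powerset_insert hy]
      have h1 : ∀ S ∈ H.powerset, (if (insert y S).Nonempty then 1 / (mx (insert y S) 0 : ℝ) else 0) ≤
          (if S.Nonempty then 1 / (mx S 0 : ℝ) else 0) + (if S = ∅ then 1 / ((y 0).natAbs : ℝ) else 0) := by
        intro S hS
        rw [if_pos (Finset.insert_nonempty _ _)]
        rcases S.eq_empty_or_nonempty with he | hne
        · subst he
          simp [mx]
        · rw [if_pos hne, if_neg hne.ne_empty, add_zero, hmx0 S hS hne]
      have h2 := Finset.sum_le_sum h1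
      rw [Finset.sum_add_distrib, Finset.sum_ite_eq' H.powerset ∅, if_pos (Finset.empty_mem_powerset H)] at h2
      have h3 : ζ ≤ ((y 0).natAbs : ℝ) := hζH y (Finset.mem_insert_self _ _)
      have h4 : 2 / ((y 0).natAbs : ℝ) ≤ 2 / ζ := by gcongr
      have h5 : 1 / (2 * ((y 0).natAbs : ℝ)) + 1 / (2 * ((y 0).natAbs : ℝ)) + 1 / ((y 0).natAbs : ℝ) = 2 / ((y 0).natAbs : ℝ) := by
        field_simp
        norm_num
      linarith
    · rw [Finset.sum_powerset_insert hy]
      have h1 : ∀ S ∈ H.powerset, (if 2 ≤ (insert y S).card then N / ∏ i, (mx (insert y S) i : ℝ) else 0) =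
          N / ((y 1).natAbs : ℝ) * (if S.Nonempty then 1 / (mx S 0 : ℝ) else 0) := by
        intro S hS
        rw [Finset.card_insert_of_notMem (hyS S hS)]
        rcases S.eq_empty_or_nonempty with he | hne
        · subst he
          simp
        · have : 2 ≤ S.card + 1 := by have := Finset.card_pos.mpr hne; omega
          rw [if_pos this, if_pos hne, Fin.prod_univ_two, hmx0 S hS hne, hmx1 S hS]
          have h3 : (0:ℝ) < (mx S 0 : ℝ) := by
            obtain ⟨h, hh⟩ := hne
            have h4 := le_mx hh (0 : Fin 2)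
            have h5 : 0 < (h 0).natAbs := Int.natAbs_pos.mpr (hnzH h (Finset.mem_powerset.mp hS hh) 0)
            exact_mod_cast (by omega : 0 < mx S 0)
          field_simp
      rw [Finset.sum_congr rfl h1, ← Finset.mul_sum, Finset.card_insert_of_notMem hy]
      push_cast
      have h2 : N / ((y 1).natAbs : ℝ) * ∑ S ∈ H.powerset, (if S.Nonempty then 1 / (mx S 0 : ℝ) else 0) ≤ 2 * C := by
        rcases H.eq_empty_or_nonempty with he | hne
        · subst he
          simp
          positivity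
        · rcases hN.eq_or_lt with h0 | h0
          · rw [← h0]
            simp
            positivity
          · have hCpos : 0 < C := by
              obtain ⟨h, hh⟩ := hne
              have h3 := (hrel h hh).2
              rcases hC.eq_or_lt with h4 | h4
              · rw [← h4, zero_mul] at h3
                linarith
              · exact h4
            have h3 := ih1 (N / (C * ((y 1).natAbs : ℝ))) (by positivity) (by
              intro h hh
              rw [div_le_iff₀ (by positivity)]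
              have h4 := (hrel h hh).2
              linarith)
            calc N / ((y 1).natAbs : ℝ) * ∑ S ∈ H.powerset, (if S.Nonempty then 1 / (mx S 0 : ℝ) else 0)
                ≤ N / ((y 1).natAbs : ℝ) * (2 / (N / (C * ((y 1).natAbs : ℝ)))) := by gcongr
              _ = 2 * C := by field_simp
      linarith

/-- The Riesz product inequality for geometric families in dimension two. -/
theorem riesz_geo {N : ℕ} [NeZero N] (a : Fin 2 → ℕ) (H : Finset (Fin 2 → ℤ))
    (hdual : ∀ h ∈ H, ((∑ i, h i * (a i : ℤ) : ℤ) : ZMod N) = 0)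
    (hne : ∀ h ∈ H, ∀ i, h i ≠ 0)
    (hsmall : ∀ h ∈ H, ∀ i, 3 * |h i| ≤ N) (C : ℝ) (hC : 0 ≤ C)
    (hgeo : ∀ h ∈ H, ∀ h' ∈ H, h ≠ h' →
      (4 * (h 1).natAbs ≤ (h' 1).natAbs ∧ 4 * (h' 0).natAbs ≤ (h 0).natAbs ∧ (N:ℝ) ≤ C * ((h 0).natAbs * (h' 1).natAbs)) ∨
      (4 * (h' 1).natAbs ≤ (h 1).natAbs ∧ 4 * (h 0).natAbs ≤ (h' 0).natAbs ∧ (N:ℝ) ≤ C * ((h' 0).natAbs * (h 1).natAbs))) :
    (∑ h ∈ H, N / ∏ i, |((h i : ℤ) : ℝ)|) / (2 * Real.pi) ^ 2 ≤ 2 ^ 2 * (N * discrepancy 2 N a) +
      2 * C * H.card := by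
  classical
  have h1 := riesz2 a H (by norm_num) hdual hne hsmall (by
    intro S hS hSn i
    have h2 : 3 * ∑ h ∈ S, (h i).natAbs ≤ 4 * mx S i := by
      apply geo_sum i S.card S rfl hSn (fun h hh => hne h (hS hh) i)
      intro h hh h' hh' hn
      rcases hgeo h (hS hh) h' (hS hh') hn with h3 | h3
      · have hi : i = 0 ∨ i = 1 := by fin_cases i <;> simp
        rcases hi with rfl | rfl
        · right; exact h3.2.1
        · left; exact h3.1
      · have hi : i = 0 ∨ i = 1 := by fin_cases i <;> simp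
        rcases hi with rfl | rfl
        · left; exact h3.2.1
        · right; exact h3.1
    have h3 : 3 * ∑ h ∈ S, |h i| ≤ 4 * (mx S i : ℤ) := by
      have h4 : ∑ h ∈ S, |h i| = ((∑ h ∈ S, (h i).natAbs : ℕ) : ℤ) := by
        push_cast
        rfl
      rw [h4]
      exact_mod_cast h2
    have h5 : (0:ℤ) ≤ mx S i := by positivity
    omega)
  refine h1.trans ?_
  apply add_le_add le_rfl
  have h2 := (geo_error (N:ℝ) C (Nat.cast_nonneg _) hC H hne hgeo).2
  rw [← Finset.sum_filter] at h2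
  exact h2

end Pool.Agent.H89.Disc
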