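import Mathlib
import Pool.Agent.H89.Low2
import Pool.Agent.H89.Low3
import Pool.Agent.H89.High1
import Pool.Agent.H89.Prob

open Finset

namespace Pool.Agent.H89.Disc

open Classical in
/-- active primitive parameters -/
noncomputable def En {M : ℕ} [NeZero M] (u : (ZMod M)ˣ) (c : ZMod M) (l γ : ℕ) (n : ℕ) (t : ℝ) : Finset (ZMod M) :=
  univ.filter (fun s : ZMod M => za ((n : ZMod M) * wf u c l s) ≤ ⌊(γ:ℝ) * M / (n * t)⌋₊ ∧ Pw n (wf u c l s))

/-- the family of first coordinates -/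
def Nf (P0 A B : ℕ) : Finset ℕ := (Finset.Ico A B).filter (fun n : ℕ => (n : ZMod (P0.factorial)) = 1)

lemma zf_eq_wf {M g : ℕ} [NeZero g] [NeZero M] (u : (ZMod M)ˣ) (av : Fin 1 → ℕ) (l γ β' : ℕ) (hlγ : g = l * γ)
    (hβ : av 0 = γ * β') (n : ℕ) (y : Fin 1 → ZMod M) :
    zf u (cc g M av (fun _ => n * l)) (fun _ => n * l) y = (n : ZMod M) * wf u (β' : ZMod M) l (y 0) := by
  have hg : 0 < g := Nat.pos_of_ne_zero (NeZero.ne g)
  unfold zf wf cc
  simp only [Finset.univ_unique, Fin.default_eq_zero, Fin.isValue, Finset.sum_singleton]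
  have e : n * l * av 0 / g = n * β' := by
    rw [hβ]
    have : n * l * (γ * β') = g * (n * β') := by rw [hlγ]; ring
    rw [this, Nat.mul_div_cancel_left _ hg]
  rw [e]
  push_cast
  ring

lemma res_mem_low {g : ℕ} [NeZero g] (av : Fin 1 → ℕ) (l γ β' : ℕ) (hlγ : g = l * γ)
    (hβ : av 0 = γ * β') (n : ℕ) : res g (fun _ : Fin 1 => n * l) ∈ PL g av := by
  rw [res_mem_PL]
  simp only [Finset.univ_unique, Fin.default_eq_zero, Fin.isValue, Finset.sum_singleton]
  rw [hβ]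
  exact ⟨n * β', by rw [hlγ]; ring⟩

section

variable {M : ℕ} [NeZero M]

lemma En_za {u : (ZMod M)ˣ} {c : ZMod M} {l γ n : ℕ} {t : ℝ} {s : ZMod M} (hs : s ∈ En u c l γ n t) (hn : 0 < n)
    (ht : 0 < t) : (za ((n : ZMod M) * wf u c l s) : ℝ) * (n * t) ≤ γ * M := by
  classical
  unfold En at hs
  rw [Finset.mem_filter] at hs
  have hn' : (0:ℝ) < n := by exact_mod_cast hn
  have h1 : (za ((n : ZMod M) * wf u c l s) : ℝ) ≤ (γ:ℝ) * M / (n * t) :=
    le_trans (by exact_mod_cast hs.2.1) (Nat.floor_le (by positivity))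
  rwa [le_div_iff₀ (by positivity)] at h1

lemma En_upper (u : (ZMod M)ˣ) (c : ZMod M) (l γ n : ℕ) (hl : 0 < l) (hn : 0 < n) (t : ℝ) (ht : 0 < t) (η : ℝ)
    (hη : t * (n * (n * l)) ≤ η * (2 * γ * M)) :
    t * (En u c l γ n t).card ≤ (1 + η) * (2 * γ / n) * M := by
  classical
  have hn' : (0:ℝ) < n := by exact_mod_cast hn
  have h1 : (En u c l γ n t).card ≤ 2 * ⌊(γ:ℝ) * M / (n * t)⌋₊ + n * l := by
    refine le_trans (Finset.card_le_card ?_) (L1_upper u c l hl n hn ⌊(γ:ℝ) * M / (n * t)⌋₊)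
    intro s hs
    unfold En at hs
    rw [Finset.mem_filter] at hs ⊢
    exact ⟨Finset.mem_univ _, hs.2.1⟩
  have h2 : ((En u c l γ n t).card : ℝ) ≤ 2 * (⌊(γ:ℝ) * M / (n * t)⌋₊ : ℝ) + n * l := by exact_mod_cast h1
  have h3 : (⌊(γ:ℝ) * M / (n * t)⌋₊ : ℝ) ≤ (γ:ℝ) * M / (n * t) := Nat.floor_le (by positivity)
  have h4 : t * ((En u c l γ n t).card : ℝ) ≤ 2 * γ * M / n + t * (n * l) := by
    calc t * ((En u c l γ n t).card : ℝ) ≤ t * (2 * ((γ:ℝ) * M / (n * t)) + n * l) := by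
          apply mul_le_mul_of_nonneg_left _ ht.le
          linarith
      _ = _ := by field_simp
  have h5 : t * (n * l) ≤ η * (2 * γ * M) / n := by
    rw [le_div_iff₀ hn']
    calc t * (n * l) * n = t * (n * (n * l)) := by ring
      _ ≤ _ := hη
  calc t * ((En u c l γ n t).card : ℝ) ≤ 2 * γ * M / n + η * (2 * γ * M) / n := by linarith
    _ = _ := by ring

lemma En_lower (u : (ZMod M)ˣ) (c : ZMod M) (l γ n : ℕ) (hl : 0 < l) (hn : 0 < n) (t : ℝ) (ht : 0 < t)
    (hsm : 2 * ((γ:ℝ) * M / (n * t)) + 1 ≤ M) :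
    2 * γ * M * (1 / n) - 2 * γ * M * ((1 / n) * ∑ m ∈ n.divisors.filter (fun m => 2 ≤ m), (1:ℝ) / m) - 2 * (t * (l * (n:ℝ) ^ 2)) ≤
      t * (En u c l γ n t).card := by
  classical
  have hn' : (0:ℝ) < n := by exact_mod_cast hn
  have hn1 : (1:ℝ) ≤ n := by exact_mod_cast hn
  set X : ℕ := ⌊(γ:ℝ) * M / (n * t)⌋₊ with hX
  have h3 : (X : ℝ) ≤ (γ:ℝ) * M / (n * t) := Nat.floor_le (by positivity)
  have h4 : (γ:ℝ) * M / (n * t) < X + 1 := Nat.lt_floor_add_one _
  have h1 := L1_lower u c l hl n hn X (by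
    have : 2 * (X:ℝ) + 1 ≤ M := by linarith
    exact_mod_cast this)
  have h2 := nonprim_count u c l hl n hn X
  have h5 : (univ.filter (fun s : ZMod M => za ((n : ZMod M) * wf u c l s) ≤ X)).card ≤
      (En u c l γ n t).card + (univ.filter (fun s : ZMod M => za ((n : ZMod M) * wf u c l s) ≤ X ∧ ¬ Pw n (wf u c l s))).card := by
    refine le_trans (Finset.card_le_card ?_) (Finset.card_union_le _ _)
    intro s hs
    rw [Finset.mem_filter] at hs
    unfold En
    rw [Finset.mem_union, Finset.mem_filter, Finset.mem_filter]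
    by_cases hP : Pw n (wf u c l s)
    · left; exact ⟨Finset.mem_univ _, hs.2, hP⟩
    · right; exact ⟨Finset.mem_univ _, hs.2, hP⟩
  have h6 : 2 * (X:ℝ) + 2 ≤ (En u c l γ n t).card + ∑ m ∈ n.divisors.filter (fun m => 2 ≤ m), ((2 * (X / m) + (n / m) * l : ℕ) : ℝ) + n * l := by
    have h7 : 2 * X + 2 ≤ (En u c l γ n t).card + (∑ m ∈ n.divisors.filter (fun m => 2 ≤ m), (2 * (X / m) + (n / m) * l)) + n * l := by
      omega
    exact_mod_cast h7
  have h7 : ∑ m ∈ n.divisors.filter (fun m => 2 ≤ m), ((2 * (X / m) + (n / m) * l : ℕ) : ℝ) ≤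
      (2 * ((γ:ℝ) * M / (n * t))) * (∑ m ∈ n.divisors.filter (fun m => 2 ≤ m), (1:ℝ) / m) + n * (n * l) - n * l := by
    have h8 : ∀ m ∈ n.divisors.filter (fun m => 2 ≤ m), ((2 * (X / m) + (n / m) * l : ℕ) : ℝ) ≤
        (2 * ((γ:ℝ) * M / (n * t))) * ((1:ℝ) / m) + n * l := by
      intro m hm
      rw [Finset.mem_filter] at hm
      have hm' : (0:ℝ) < m := by exact_mod_cast (by omega : 0 < m)
      push_cast
      have h9 : ((X / m : ℕ) : ℝ) ≤ X / m := Nat.cast_div_le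
      have h10 : ((n / m : ℕ) : ℝ) ≤ n := by exact_mod_cast Nat.div_le_self n m
      have h11 : (X:ℝ) / m ≤ ((γ:ℝ) * M / (n * t)) * (1 / m) := by
        rw [mul_one_div]
        gcongr
      have h12 : ((n / m : ℕ) : ℝ) * l ≤ n * l := by gcongr
      linarith
    have h13 := Finset.sum_le_sum h8
    rw [Finset.sum_add_distrib, ← Finset.mul_sum, Finset.sum_const, nsmul_eq_mul] at h13
    have h14 : ((n.divisors.filter (fun m => 2 ≤ m)).card : ℝ) ≤ n - 1 := by
      have h15 : (n.divisors.filter (fun m => 2 ≤ m)).card ≤ n - 1 := by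
        calc (n.divisors.filter (fun m => 2 ≤ m)).card ≤ (Finset.Ico 2 (n + 1)).card := by
              apply Finset.card_le_card
              intro m hm
              rw [Finset.mem_filter, Nat.mem_divisors] at hm
              rw [Finset.mem_Ico]
              have := Nat.le_of_dvd hn hm.1.1
              omega
          _ = n - 1 := by rw [Nat.card_Ico]; omega
      have h16 : (((n - 1 : ℕ)) : ℝ) = n - 1 := by rw [Nat.cast_sub hn]; norm_num
      rw [← h16]
      exact_mod_cast h15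
    have h17 : ((n.divisors.filter (fun m => 2 ≤ m)).card : ℝ) * (n * l) ≤ (n - 1) * (n * l) := by gcongr
    linarith
  set D1 : ℝ := ∑ m ∈ n.divisors.filter (fun m => 2 ≤ m), (1:ℝ) / m with hD1
  have hkey : 2 * ((γ:ℝ) * M / (n * t)) - (2 * ((γ:ℝ) * M / (n * t))) * D1 - n * (n * l) ≤ (En u c l γ n t).card := by
    linarith
  have h18 := mul_le_mul_of_nonneg_left hkey ht.le
  have e : t * (2 * ((γ:ℝ) * M / (n * t)) - (2 * ((γ:ℝ) * M / (n * t))) * D1 - n * (n * l)) =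
      2 * γ * M * (1 / n) - 2 * γ * M * ((1 / n) * D1) - t * (l * (n:ℝ) ^ 2) := by
    field_simp
  rw [e] at h18
  have h19 : 0 ≤ t * (l * (n:ℝ) ^ 2) := by positivity
  linarith

lemma En_pair (u : (ZMod M)ˣ) (c : ZMod M) (l γ A B : ℕ) (hl : 0 < l) (hγ : 0 < γ) (n n' : ℕ) (hA : 0 < A) (hn : A ≤ n) (hlt : n < n')
    (hnB : n' ≤ B) (hBA : B ≤ A ^ 2) (t0 t t' T1 : ℝ) (ht0 : 320 * γ ≤ t0) (ht : t0 ≤ t) (ht' : t0 ≤ t') (htT : t ≤ T1) (htT' : t' ≤ T1)
    (η : ℝ) (hη0 : 0 < η) (hη1 : η ≤ 1) (hη : 8 * γ ≤ η * t0) (hbig : 8 * (T1 * ((l + 2) * (B:ℝ) ^ 2)) ≤ η * (2 * γ * M)) :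
    t * t' * (En u c l γ n t ∩ En u c l γ n' t').card ≤ (1 + η) * ((2 * γ / n) * (2 * γ / n')) * M := by
  classical
  have hγ' : (1:ℝ) ≤ γ := by exact_mod_cast hγ
  have ht0pos : 0 < t0 := by linarith
  have htpos : 0 < t := by linarith
  have ht'pos : 0 < t' := by linarith
  have hn0 : 0 < n := by omega
  have hn'0 : 0 < n' := by omega
  have hnr : (0:ℝ) < n := by exact_mod_cast hn0
  have hn'r : (0:ℝ) < n' := by exact_mod_cast hn'0
  have hMr : (0:ℝ) < M := by exact_mod_cast Nat.pos_of_ne_zero (NeZero.ne M)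
  have hM : 0 < M := Nat.pos_of_ne_zero (NeZero.ne M)
  have hltr : (n:ℝ) ≤ n' := by exact_mod_cast hlt.le
  set X : ℕ := ⌊(γ:ℝ) * M / (n * t)⌋₊ with hX
  set X' : ℕ := ⌊(γ:ℝ) * M / (n' * t')⌋₊ with hX'
  have hXr : (X : ℝ) ≤ (γ:ℝ) * M / (n * t) := Nat.floor_le (by positivity)
  have hX'r : (X' : ℝ) ≤ (γ:ℝ) * M / (n' * t') := Nat.floor_le (by positivity)
  have hXt : (X:ℝ) * (n * t) ≤ γ * M := by rwa [le_div_iff₀ (by positivity)] at hXr
  have hX't : (X':ℝ) * (n' * t') ≤ γ * M := by rwa [le_div_iff₀ (by positivity)] at hX'r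
  have hn1 : (1:ℝ) ≤ n := by exact_mod_cast hn0
  have hn'1 : (1:ℝ) ≤ n' := by exact_mod_cast hn'0
  have hXM : X < M := by
    have h1 : (X:ℝ) * 320 ≤ M := by
      have h2 : (X:ℝ) * (1 * (320 * γ)) ≤ (X:ℝ) * (n * t) := by
        apply mul_le_mul_of_nonneg_left _ (Nat.cast_nonneg _)
        apply mul_le_mul hn1 (by linarith) (by positivity) (by positivity)
      have h3 : γ * ((X:ℝ) * 320) ≤ γ * M := by linarith
      exact le_of_mul_le_mul_left h3 (by linarith)
    have h2 : (X:ℝ) < M := by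
      have : (0:ℝ) ≤ X := Nat.cast_nonneg _
      linarith
    exact_mod_cast h2
  set κ : ℕ := (n' * X + n * X') / M with hκ
  have hκM : (κ:ℝ) * M ≤ n' * X + n * X' := by
    have : κ * M ≤ n' * X + n * X' := Nat.div_mul_le_self _ _
    exact_mod_cast this
  -- real bounds for κ
  have hb1 : (n' : ℝ) * X ≤ (γ * n' / (n * t)) * M := by
    calc (n' : ℝ) * X ≤ n' * ((γ:ℝ) * M / (n * t)) := by gcongr
      _ = _ := by ring
  have hb2 : (n : ℝ) * X' ≤ (γ * n / (n' * t')) * M := by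
    calc (n : ℝ) * X' ≤ n * ((γ:ℝ) * M / (n' * t')) := by gcongr
      _ = _ := by ring
  have hκ1 : (κ:ℝ) ≤ γ * n' / (n * t) + γ * n / (n' * t') := by
    have : (κ:ℝ) * M ≤ (γ * n' / (n * t) + γ * n / (n' * t')) * M := by
      rw [add_mul]
      linarith
    exact le_of_mul_le_mul_right this hMr
  have hb3 : γ * n / (n' * t') ≤ γ / t0 := by
    calc γ * n / (n' * t') ≤ γ * n' / (n' * t0) := by gcongr
      _ = γ / t0 := by field_simp
  have hγt : γ / t0 ≤ 1 / 320 := by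
    rw [div_le_div_iff₀ ht0pos (by norm_num)]
    linarith
  have hκn : κ < n := by
    have h1 : (κ:ℝ) < n := by
      have h2 : γ * n' / (n * t) ≤ n / 320 := by
        have h3 : (n':ℝ) ≤ n * n := by
          have h4 : n' ≤ n * n := by
            calc n' ≤ B := hnB
              _ ≤ A ^ 2 := hBA
              _ ≤ n * n := by rw [sq]; exact Nat.mul_le_mul hn hn
          exact_mod_cast h4
        calc γ * n' / (n * t) ≤ γ * (n * n) / (n * t0) := by gcongr
          _ = n * (γ / t0) := by field_simp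
          _ ≤ n * (1 / 320) := by gcongr
          _ = n / 320 := by ring
      linarith
    exact_mod_cast h1
  have hL2 := L2 u c l hl n n' X X' hn0 hn'0 hXM hκn
  have hcard : (En u c l γ n t ∩ En u c l γ n' t').card ≤ 2 * ((2 * (X' / n' + 1) + l) * κ) := by
    refine le_trans (Finset.card_le_card ?_) hL2
    intro s hs
    unfold En at hs
    rw [Finset.mem_inter, Finset.mem_filter, Finset.mem_filter] at hs
    rw [Finset.mem_filter]
    exact ⟨Finset.mem_univ _, hs.1.2.1, hs.2.2.1, prim_ne (wf u c l s) n n' hn0 hlt hs.2.2.2⟩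
  have hκt : t * κ ≤ (1 + η / 4) * (γ * n' / n) := by
    rcases Nat.eq_zero_or_pos κ with h0 | h0
    · rw [h0]
      simp only [Nat.cast_zero, mul_zero]
      positivity
    · have h1 : (1:ℝ) ≤ κ := by exact_mod_cast h0
      have h2 : 1 / 2 ≤ γ * n' / (n * t) := by linarith
      have h3 : γ / t0 ≤ (η / 4) * (γ * n' / (n * t)) := by
        have h4 : γ / t0 ≤ η / 8 := by
          rw [div_le_iff₀ ht0pos]
          linarith
        nlinarith
      have h5 : (κ:ℝ) ≤ (1 + η / 4) * (γ * n' / (n * t)) := by linarith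
      calc t * κ ≤ t * ((1 + η / 4) * (γ * n' / (n * t))) := mul_le_mul_of_nonneg_left h5 htpos.le
        _ = _ := by field_simp
  have hwin : t' * (2 * ((X' / n' : ℕ) + 1) + l) ≤ (1 + η / 8) * (2 * γ * M / (n':ℝ) ^ 2) := by
    have h1 : ((X' / n' : ℕ) : ℝ) ≤ X' / n' := Nat.cast_div_le
    have h2 : t' * (2 * ((X':ℝ) / n')) ≤ 2 * γ * M / (n':ℝ) ^ 2 := by
      calc t' * (2 * ((X':ℝ) / n')) ≤ t' * (2 * (((γ:ℝ) * M / (n' * t')) / n')) := by gcongr
        _ = _ := by field_simp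
    have h3 : t' * (l + 2) ≤ η / 8 * (2 * γ * M / (n':ℝ) ^ 2) := by
      have h4 : (n':ℝ) ≤ B := by exact_mod_cast hnB
      have h5 : t' * (l + 2) * (n':ℝ) ^ 2 ≤ T1 * ((l + 2) * (B:ℝ) ^ 2) := by
        calc t' * (l + 2) * (n':ℝ) ^ 2 ≤ T1 * (l + 2) * (B:ℝ) ^ 2 := by
              have : 0 ≤ T1 := by linarith
              gcongr
          _ = _ := by ring
      have h6 : η / 8 * (2 * γ * M / (n':ℝ) ^ 2) = (η * (2 * γ * M) / 8) / (n':ℝ) ^ 2 := by ring
      rw [h6, le_div_iff₀ (by positivity)]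
      linarith
    calc t' * (2 * (((X' / n' : ℕ) : ℝ) + 1) + l) ≤ t' * (2 * ((X':ℝ) / n' + 1) + l) := by gcongr
      _ = t' * (2 * ((X':ℝ) / n')) + t' * (l + 2) := by ring
      _ ≤ 2 * γ * M / (n':ℝ) ^ 2 + η / 8 * (2 * γ * M / (n':ℝ) ^ 2) := add_le_add h2 h3
      _ = _ := by ring
  have hcardr : ((En u c l γ n t ∩ En u c l γ n' t').card : ℝ) ≤ 2 * ((2 * (((X' / n' : ℕ) : ℝ) + 1) + l) * κ) := by
    exact_mod_cast hcard
  calc t * t' * ((En u c l γ n t ∩ En u c l γ n' t').card : ℝ)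
      ≤ t * t' * (2 * ((2 * (((X' / n' : ℕ) : ℝ) + 1) + l) * κ)) := mul_le_mul_of_nonneg_left hcardr (by positivity)
    _ = 2 * ((t * κ) * (t' * (2 * (((X' / n' : ℕ) : ℝ) + 1) + l))) := by ring
    _ ≤ 2 * (((1 + η / 4) * (γ * n' / n)) * ((1 + η / 8) * (2 * γ * M / (n':ℝ) ^ 2))) := by
        apply mul_le_mul_of_nonneg_left _ (by norm_num)
        apply mul_le_mul hκt hwin (by positivity) (by positivity)
    _ = ((1 + η / 4) * (1 + η / 8)) * (((2 * γ / n) * (2 * γ / n')) * M) := by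
        field_simp
    _ ≤ (1 + η) * (((2 * γ / n) * (2 * γ / n')) * M) := by
        apply mul_le_mul_of_nonneg_right _ (by positivity)
        nlinarith
    _ = _ := by ring

end

open Classical in
/-- deterministic part in dimension two -/
lemma low_det {g M N : ℕ} [NeZero g] [NeZero M] [NeZero N] (hN : N = g * M)
    (u : (ZMod M)ˣ) (α0 : ℕ) (hu : (u : ZMod M) * (α0 : ZMod M) = -1) (av : Fin 1 → ℕ)
    (l γ β' : ℕ) (hlγ : g = l * γ) (hβ : av 0 = γ * β') (s : ZMod M) (a : Fin 2 → ℕ)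
    (ha0 : ((a 0 : ℕ) : ZMod N) = ((g * α0 : ℕ) : ZMod N))
    (ha1 : ((a 1 : ℕ) : ZMod N) = ((av 0 + g * s.val : ℕ) : ZMod N))
    (P0 A B J : ℕ) (hA : 0 < A) (t0 : ℝ) (ht0 : 320 * (γ:ℝ) ≤ t0)
    (hB3 : 3 * ((B:ℝ) * l) ≤ N) (v : ℝ)
    (hsum : v / 2 ≤ ∑ n ∈ Nf P0 A B, Wt J (fun j => t0 * 2 ^ j) (fun n j => En u (β' : ZMod M) l γ n (t0 * 2 ^ j)) n s)
    (hnz : ∀ n ∈ Nf P0 A B, ((n : ZMod M) * wf u (β' : ZMod M) l s).valMinAbs ≠ 0) :
    v / (32 * (2 * Real.pi) ^ 2) ≤ N * discrepancy 2 N a := by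
  have hg : 0 < g := Nat.pos_of_ne_zero (NeZero.ne g)
  have hγ : 0 < γ := by
    rcases Nat.eq_zero_or_pos γ with h | h
    · rw [h, mul_zero] at hlγ; omega
    · exact h
  have hl : 0 < l := by
    rcases Nat.eq_zero_or_pos l with h | h
    · rw [h, zero_mul] at hlγ; omega
    · exact h
  have hγ' : (1:ℝ) ≤ γ := by exact_mod_cast hγ
  have hlr : (0:ℝ) < l := by exact_mod_cast hl
  have hM : 0 < M := Nat.pos_of_ne_zero (NeZero.ne M)
  have hMr : (0:ℝ) < M := by exact_mod_cast hM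
  have hNr : (N:ℝ) = γ * M * l := by rw [hN, hlγ]; push_cast; ring
  have ht0pos : 0 < t0 := by linarith
  have hNpos : (0:ℝ) < N := by exact_mod_cast Nat.pos_of_ne_zero (NeZero.ne N)
  set w := wf u (β' : ZMod M) l s with hw
  set Hn := (Nf P0 A B).filter (fun n => s ∈ En u (β' : ZMod M) l γ n (t0 * 2 ^ 0)) with hHn
  set vec : ℕ → (Fin 2 → ℤ) := fun n => dv u g av (fun _ => s) (fun _ => n * l) with hvec
  have hnpos : ∀ n ∈ Hn, 0 < n := by
    intro n hn
    have := Finset.mem_Ico.mp (Finset.mem_filter.mp (Finset.mem_filter.mp hn).1).1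
    omega
  have hv0 : ∀ n, vec n 0 = ((n : ZMod M) * w).valMinAbs := by
    intro n
    simp only [hvec]
    unfold dv
    rw [Fin.cons_zero, zf_eq_wf u av l γ β' hlγ hβ n (fun _ => s)]
  have hv1 : ∀ n, vec n 1 = ((n * l : ℕ) : ℤ) := by
    intro n
    simp only [hvec]
    unfold dv
    rfl
  have hinj : Set.InjOn vec (Hn : Set ℕ) := by
    intro n _ n' _ he
    have h1 := congrFun he 1
    rw [hv1, hv1] at h1
    have h2 : n * l = n' * l := by exact_mod_cast h1
    exact Nat.eq_of_mul_eq_mul_right hl h2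
  have hza : ∀ n ∈ Hn, (za ((n : ZMod M) * w) : ℝ) * (n * t0) ≤ γ * M := by
    intro n hn
    have h1 := En_za (Finset.mem_filter.mp hn).2 (hnpos n hn) (by positivity)
    rwa [pow_zero, mul_one] at h1
  have hzapos : ∀ n ∈ Hn, (0:ℝ) < (za ((n : ZMod M) * w) : ℝ) := by
    intro n hn
    have h1 := hnz n (Finset.mem_filter.mp hn).1
    unfold za
    exact_mod_cast Int.natAbs_pos.mpr h1
  have hPw : ∀ n ∈ Hn, Pw n w := by
    intro n hn
    have h1 := (Finset.mem_filter.mp hn).2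
    unfold En at h1
    exact (Finset.mem_filter.mp h1).2.2
  -- geometric growth
  have hgrow : ∀ n ∈ Hn, ∀ n' ∈ Hn, n < n' → (M:ℝ) / 2 ≤ n' * (za ((n : ZMod M) * w) : ℝ) := by
    intro n hn n' hn' hlt
    have h1 := prim_ne w n n' (hnpos n hn) hlt (hPw n' hn')
    have h2 : (M:ℤ) ∣ (n' : ℤ) * ((n : ZMod M) * w).valMinAbs - n * ((n' : ZMod M) * w).valMinAbs := by
      rw [← ZMod.intCast_zmod_eq_zero_iff_dvd]
      push_cast
      ring
    have h3 : (M:ℤ) ≤ |(n' : ℤ) * ((n : ZMod M) * w).valMinAbs - n * ((n' : ZMod M) * w).valMinAbs| :=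
      Int.le_of_dvd (abs_pos.mpr (sub_ne_zero.mpr h1)) ((dvd_abs _ _).mpr h2)
    have h4 : |(n' : ℤ) * ((n : ZMod M) * w).valMinAbs - n * ((n' : ZMod M) * w).valMinAbs| ≤
        n' * (za ((n : ZMod M) * w) : ℤ) + n * (za ((n' : ZMod M) * w) : ℤ) := by
      refine (abs_sub _ _).trans ?_
      rw [abs_mul, abs_mul, Nat.abs_cast, Nat.abs_cast]
      unfold za
      rw [Int.natCast_natAbs, Int.natCast_natAbs]
    have h5 : (M:ℝ) ≤ n' * (za ((n : ZMod M) * w) : ℝ) + n * (za ((n' : ZMod M) * w) : ℝ) := by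
      exact_mod_cast h3.trans h4
    have h6 : (n:ℝ) * (za ((n' : ZMod M) * w) : ℝ) ≤ M / 320 := by
      have h7 := hza n' hn'
      have h8 : (n:ℝ) ≤ n' := by exact_mod_cast hlt.le
      have h9 : (0:ℝ) ≤ (za ((n' : ZMod M) * w) : ℝ) := Nat.cast_nonneg _
      have h10 : (n:ℝ) * (za ((n' : ZMod M) * w) : ℝ) * (320 * γ) ≤ γ * M := by
        calc (n:ℝ) * (za ((n' : ZMod M) * w) : ℝ) * (320 * γ) ≤ (n':ℝ) * (za ((n' : ZMod M) * w) : ℝ) * t0 := by gcongr
          _ = (za ((n' : ZMod M) * w) : ℝ) * (n' * t0) := by ring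
          _ ≤ _ := h7
      have h11 : (γ:ℝ) * ((n:ℝ) * (za ((n' : ZMod M) * w) : ℝ)) ≤ γ * (M / 320) := by linarith
      exact le_of_mul_le_mul_left h11 (by linarith)
    linarith
  have hgeo1 : ∀ n ∈ Hn, ∀ n' ∈ Hn, n < n' →
      4 * (vec n 1).natAbs ≤ (vec n' 1).natAbs ∧ 4 * (vec n' 0).natAbs ≤ (vec n 0).natAbs ∧
      (N:ℝ) ≤ (2 * γ) * ((vec n 0).natAbs * (vec n' 1).natAbs) := by
    intro n hn n' hn' hlt
    have h1 := hgrow n hn n' hn' hlt
    have h2 := hza n hn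
    have h3 := hza n' hn'
    have hz := hzapos n hn
    have hz' := hzapos n' hn'
    have hnr : (0:ℝ) < n := by exact_mod_cast hnpos n hn
    have hn'r : (0:ℝ) < n' := by exact_mod_cast hnpos n' hn'
    rw [hv0, hv0, hv1, hv1, Int.natAbs_natCast, Int.natAbs_natCast]
    have e0 : ((n : ZMod M) * w).valMinAbs.natAbs = za ((n : ZMod M) * w) := rfl
    have e0' : ((n' : ZMod M) * w).valMinAbs.natAbs = za ((n' : ZMod M) * w) := rfl
    rw [e0, e0']
    have hz1 : (n:ℝ) * (za ((n : ZMod M) * w) : ℝ) ≤ M / 320 := by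
      have h10 : (n:ℝ) * (za ((n : ZMod M) * w) : ℝ) * (320 * γ) ≤ γ * M := by
        calc (n:ℝ) * (za ((n : ZMod M) * w) : ℝ) * (320 * γ) ≤ (n:ℝ) * (za ((n : ZMod M) * w) : ℝ) * t0 := by gcongr
          _ = (za ((n : ZMod M) * w) : ℝ) * (n * t0) := by ring
          _ ≤ _ := h2
      have h11 : (γ:ℝ) * ((n:ℝ) * (za ((n : ZMod M) * w) : ℝ)) ≤ γ * (M / 320) := by linarith
      exact le_of_mul_le_mul_left h11 (by linarith)
    have hz2 : (n':ℝ) * (za ((n' : ZMod M) * w) : ℝ) ≤ M / 320 := by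
      have h10 : (n':ℝ) * (za ((n' : ZMod M) * w) : ℝ) * (320 * γ) ≤ γ * M := by
        calc (n':ℝ) * (za ((n' : ZMod M) * w) : ℝ) * (320 * γ) ≤ (n':ℝ) * (za ((n' : ZMod M) * w) : ℝ) * t0 := by gcongr
          _ = (za ((n' : ZMod M) * w) : ℝ) * (n' * t0) := by ring
          _ ≤ _ := h3
      have h11 : (γ:ℝ) * ((n':ℝ) * (za ((n' : ZMod M) * w) : ℝ)) ≤ γ * (M / 320) := by linarith
      exact le_of_mul_le_mul_left h11 (by linarith)
    refine ⟨?_, ?_, ?_⟩
    · have h5 : (4:ℝ) * n ≤ n' := by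
        have h6 : (4 * (n:ℝ)) * (za ((n : ZMod M) * w) : ℝ) ≤ n' * (za ((n : ZMod M) * w) : ℝ) := by linarith
        exact le_of_mul_le_mul_right h6 hz
      have h7 : 4 * n ≤ n' := by exact_mod_cast h5
      calc 4 * (n * l) = (4 * n) * l := by ring
        _ ≤ n' * l := Nat.mul_le_mul_right _ h7
    · have h5 : (4:ℝ) * (za ((n' : ZMod M) * w) : ℝ) ≤ (za ((n : ZMod M) * w) : ℝ) := by
        have h6 : (n':ℝ) * (4 * (za ((n' : ZMod M) * w) : ℝ)) ≤ n' * (za ((n : ZMod M) * w) : ℝ) := by linarith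
        exact le_of_mul_le_mul_left h6 hn'r
      exact_mod_cast h5
    · rw [hNr]
      push_cast
      have h5 : (γ:ℝ) * M * l ≤ (2 * γ * l) * (n' * (za ((n : ZMod M) * w) : ℝ)) := by
        calc (γ:ℝ) * M * l = (2 * γ * l) * (M / 2) := by ring
          _ ≤ _ := by gcongr
      calc (γ:ℝ) * M * l ≤ (2 * γ * l) * (n' * (za ((n : ZMod M) * w) : ℝ)) := h5
        _ = _ := by ring
  have hgeo : ∀ h ∈ Hn.image vec, ∀ h' ∈ Hn.image vec, h ≠ h' →
      (4 * (h 1).natAbs ≤ (h' 1).natAbs ∧ 4 * (h' 0).natAbs ≤ (h 0).natAbs ∧ (N:ℝ) ≤ (2 * γ) * ((h 0).natAbs * (h' 1).natAbs)) ∨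
      (4 * (h' 1).natAbs ≤ (h 1).natAbs ∧ 4 * (h 0).natAbs ≤ (h' 0).natAbs ∧ (N:ℝ) ≤ (2 * γ) * ((h' 0).natAbs * (h 1).natAbs)) := by
    intro h hh h' hh' hne
    rw [Finset.mem_image] at hh hh'
    obtain ⟨n, hn, rfl⟩ := hh
    obtain ⟨n', hn', rfl⟩ := hh'
    have hnn : n ≠ n' := fun h => hne (by rw [h])
    rcases lt_or_gt_of_ne hnn with h1 | h1
    · left; exact hgeo1 n hn n' hn' h1
    · right; exact hgeo1 n' hn' n hn h1
  have hr := riesz_geo a (Hn.image vec)
    (by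
      intro k hk
      rw [Finset.mem_image] at hk
      obtain ⟨n, hn, rfl⟩ := hk
      exact dv_dual hN u α0 hu av (fun _ => s) a ha0 (by
        intro i
        have : i = 0 := Subsingleton.elim _ _
        subst this
        exact ha1) (fun _ => n * l) (res_mem_low av l γ β' hlγ hβ n))
    (by
      intro k hk i
      rw [Finset.mem_image] at hk
      obtain ⟨n, hn, rfl⟩ := hk
      have hi : i = 0 ∨ i = 1 := by fin_cases i <;> simp
      rcases hi with rfl | rfl
      · rw [hv0]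
        exact hnz n (Finset.mem_filter.mp hn).1
      · rw [hv1]
        have := Nat.mul_pos (hnpos n hn) hl
        exact_mod_cast this.ne')
    (by
      intro k hk i
      rw [Finset.mem_image] at hk
      obtain ⟨n, hn, rfl⟩ := hk
      have hi : i = 0 ∨ i = 1 := by fin_cases i <;> simp
      have key : 3 * |((vec n i : ℤ) : ℝ)| ≤ N := by
        rcases hi with rfl | rfl
        · rw [hv0]
          have e0 : |((((n : ZMod M) * w).valMinAbs : ℤ) : ℝ)| = (za ((n : ZMod M) * w) : ℝ) := by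
            unfold za
            rw [Nat.cast_natAbs]
            push_cast
            rfl
          rw [e0]
          have h2 := hza n hn
          have hn1 : (1:ℝ) ≤ n := by exact_mod_cast hnpos n hn
          have hz := hzapos n hn
          have h3 : (za ((n : ZMod M) * w) : ℝ) * (1 * (320 * γ)) ≤ γ * M := by
            refine le_trans ?_ h2
            apply mul_le_mul_of_nonneg_left _ hz.le
            apply mul_le_mul hn1 ht0 (by positivity) (by positivity)
          have h4 : (γ:ℝ) * (320 * (za ((n : ZMod M) * w) : ℝ)) ≤ γ * M := by linarith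
          have h5 := le_of_mul_le_mul_left h4 (by linarith)
          have h6 : (M:ℝ) ≤ N := by
            rw [hNr]
            have h7 : (1:ℝ) ≤ l := by exact_mod_cast hl
            calc (M:ℝ) = 1 * M * 1 := by ring
              _ ≤ γ * M * l := by gcongr
          linarith
        · rw [hv1]
          have h1 := Finset.mem_Ico.mp (Finset.mem_filter.mp (Finset.mem_filter.mp hn).1).1
          have h2 : (n:ℝ) ≤ B := by exact_mod_cast h1.2.le
          have h3 : |((((n * l : ℕ) : ℤ)) : ℝ)| = n * l := by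
            push_cast
            rw [abs_of_nonneg (by positivity)]
          rw [h3]
          have h4 : (n:ℝ) * l ≤ B * l := by gcongr
          linarith
      exact_mod_cast key)
    (2 * γ) (by positivity) hgeo
  rw [Finset.card_image_of_injOn hinj, Finset.sum_image hinj] at hr
  have hprod : ∀ n ∈ Hn, ∏ i, |((vec n i : ℤ) : ℝ)| = (za ((n : ZMod M) * w) : ℝ) * (n * l) := by
    intro n hn
    rw [Fin.prod_univ_two, hv0, hv1]
    have e0 : |((((n : ZMod M) * w).valMinAbs : ℤ) : ℝ)| = (za ((n : ZMod M) * w) : ℝ) := by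
      unfold za
      rw [Nat.cast_natAbs]
      push_cast
      rfl
    have h3 : |((((n * l : ℕ) : ℤ)) : ℝ)| = n * l := by
      push_cast
      rw [abs_of_nonneg (by positivity)]
    rw [e0, h3]
  set F : ℝ := ∑ n ∈ Hn, N / ∏ i, |((vec n i : ℤ) : ℝ)| with hF
  have hF1 : (Hn.card : ℝ) * t0 ≤ F := by
    rw [hF, ← nsmul_eq_mul]
    apply Finset.card_nsmul_le_sum
    intro n hn
    have hnr : (0:ℝ) < n := by exact_mod_cast hnpos n hn
    have hz := hzapos n hn
    rw [hprod n hn, le_div_iff₀ (by positivity), hNr]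
    have h2 := hza n hn
    calc t0 * ((za ((n : ZMod M) * w) : ℝ) * (n * l)) = ((za ((n : ZMod M) * w) : ℝ) * (n * t0)) * l := by ring
      _ ≤ γ * M * l := by gcongr
  have hF2 : v / 4 ≤ F := by
    have h1 : ∀ n ∈ Nf P0 A B, Wt J (fun j => t0 * 2 ^ j) (fun n j => En u (β' : ZMod M) l γ n (t0 * 2 ^ j)) n s ≤
        if s ∈ En u (β' : ZMod M) l γ n (t0 * 2 ^ 0) then 2 * (N / ∏ i, |((vec n i : ℤ) : ℝ)|) else 0 := by
      intro n hnf
      have hn0 : 0 < n := by
        have := Finset.mem_Ico.mp (Finset.mem_filter.mp hnf).1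
        omega
      have hnr : (0:ℝ) < n := by exact_mod_cast hn0
      by_cases h2 : s ∈ En u (β' : ZMod M) l γ n (t0 * 2 ^ 0)
      · rw [if_pos h2]
        have hn : n ∈ Hn := Finset.mem_filter.mpr ⟨hnf, h2⟩
        have hz := hzapos n hn
        rw [hprod n hn]
        refine le_trans ?_ (geom_levels J t0 (N / ((za ((n : ZMod M) * w) : ℝ) * (n * l))) ht0pos (by positivity))
        unfold Wt
        apply Finset.sum_le_sum
        intro j _
        by_cases h3 : s ∈ En u (β' : ZMod M) l γ n (t0 * 2 ^ j)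
        · rw [if_pos h3, if_pos]
          have h4 := En_za h3 hn0 (by positivity)
          rw [le_div_iff₀ (by positivity), hNr]
          calc t0 * 2 ^ j * ((za ((n : ZMod M) * w) : ℝ) * (n * l)) = ((za ((n : ZMod M) * w) : ℝ) * (n * (t0 * 2 ^ j))) * l := by ring
            _ ≤ γ * M * l := by gcongr
        · rw [if_neg h3]
          split_ifs
          · positivity
          · exact le_rfl
      · rw [if_neg h2]
        apply le_of_eq
        unfold Wt
        apply Finset.sum_eq_zero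
        intro j _
        rw [if_neg]
        intro h3
        apply h2
        unfold En at h3 ⊢
        rw [Finset.mem_filter] at h3 ⊢
        refine ⟨Finset.mem_univ _, h3.2.1.trans ?_, h3.2.2⟩
        apply Nat.floor_le_floor
        have h1 : t0 * 2 ^ 0 ≤ t0 * 2 ^ j := by
          apply mul_le_mul_of_nonneg_left _ ht0pos.le
          exact pow_le_pow_right₀ (by norm_num) (Nat.zero_le _)
        gcongr
    have h2 := hsum.trans (Finset.sum_le_sum h1)
    rw [← Finset.sum_filter, ← Finset.mul_sum] at h2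
    change v / 2 ≤ 2 * F at h2
    linarith
  have hpi := Real.pi_pos
  have hpi2 : (2 * Real.pi) ^ 2 ≤ 40 := by
    have := Real.pi_lt_d2
    nlinarith
  have hpos : 0 < (2 * Real.pi) ^ 2 := by positivity
  have hF0 : 0 ≤ F := by
    apply Finset.sum_nonneg
    intro n _
    apply div_nonneg hNpos.le
    exact Finset.prod_nonneg (fun i _ => abs_nonneg _)
  have herr : 2 * (2 * γ) * (Hn.card : ℝ) ≤ F / (2 * Real.pi) ^ 2 / 2 := by
    have h1 : (Hn.card : ℝ) * (320 * γ) ≤ F := by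
      have : (0:ℝ) ≤ Hn.card := Nat.cast_nonneg _
      nlinarith
    have h2 : F / 40 ≤ F / (2 * Real.pi) ^ 2 := by gcongr
    linarith
  have h8 : F / (2 * Real.pi) ^ 2 / 2 ≤ 4 * (N * discrepancy 2 N a) := by
    have : (2:ℝ) ^ 2 = 4 := by norm_num
    rw [this] at hr
    linarith
  have h9 : v / 4 / (2 * Real.pi) ^ 2 / 2 ≤ F / (2 * Real.pi) ^ 2 / 2 := by gcongr
  have h10 : v / (32 * (2 * Real.pi) ^ 2) = (v / 4 / (2 * Real.pi) ^ 2 / 2) / 4 := by field_simp; ring
  rw [h10]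
  linarith

end Pool.Agent.H89.Disc
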