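import Mathlib
import Pool.Agent.H89.Low4
import Pool.Agent.H89.High4

open Finset Filter Topology

namespace Pool.Agent.H89.Disc

open Classical in
/-- probabilistic part in dimension two -/
theorem low_core {g M N : ℕ} [NeZero g] [NeZero M] [NeZero N] (hN : N = g * M)
    (u : (ZMod M)ˣ) (α0 : ℕ) (hu : (u : ZMod M) * (α0 : ZMod M) = -1) (av : Fin 1 → ℕ)
    (l γ β' : ℕ) (hlγ : g = l * γ) (hβ : av 0 = γ * β') (a : ZMod M → (Fin 2 → ℕ))
    (ha0 : ∀ s, ((a s 0 : ℕ) : ZMod N) = ((g * α0 : ℕ) : ZMod N))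
    (ha1 : ∀ s : ZMod M, ((a s 1 : ℕ) : ZMod N) = ((av 0 + g * s.val : ℕ) : ZMod N))
    (P0 A B J : ℕ) (hA : 0 < A) (hBA : B ≤ A ^ 2) (hM2 : 2 ≤ M)
    (t0 T1 η : ℝ) (ht0 : 320 * (γ:ℝ) ≤ t0) (hT1 : t0 * 2 ^ J ≤ T1) (hη0 : 0 < η) (hη1 : η ≤ 1)
    (hη : 8 * γ ≤ η * t0) (hbig : 8 * (T1 * ((l + 2) * (B:ℝ) ^ 2)) ≤ η * (2 * γ * M))
    (hB3 : 3 * ((B:ℝ) * l) ≤ N) (S0 : ℝ) (hS0 : S0 = ∑ n ∈ Nf P0 A B, (1:ℝ) / n)
    (hq : ∑ n ∈ Nf P0 A B, (1:ℝ) / n * ∑ m ∈ n.divisors.filter (fun m => 2 ≤ m), (1:ℝ) / m ≤ η / 2 * S0)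
    (hL2 : B * (2 * (T1 * (l * (B:ℝ) ^ 2))) ≤ η / 2 * (2 * γ * M * S0))
    (v : ℝ) (hv : v = J * (2 * γ * S0)) (hv0 : 0 < v) (hvT : t0 * 2 ^ J ≤ η * v) :
    ((univ.filter (fun s : ZMod M => N * discrepancy 2 N (a s) < v / (32 * (2 * Real.pi) ^ 2))).card : ℝ) ≤
      36 * η * M + (B:ℝ) ^ 2 * l := by
  have hg : 0 < g := Nat.pos_of_ne_zero (NeZero.ne g)
  have hγ : 0 < γ := by
    rcases Nat.eq_zero_or_pos γ with h | h
    · rw [h, mul_zero] at hlγ; omega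
    · exact h
  have hl : 0 < l := by
    rcases Nat.eq_zero_or_pos l with h | h
    · rw [h, zero_mul] at hlγ; omega
    · exact h
  have hγ' : (1:ℝ) ≤ γ := by exact_mod_cast hγ
  have hl' : (1:ℝ) ≤ l := by exact_mod_cast hl
  have hM : 0 < M := Nat.pos_of_ne_zero (NeZero.ne M)
  have hMr : (0:ℝ) < M := by exact_mod_cast hM
  have ht0pos : 0 < t0 := by linarith
  have h2J : (1:ℝ) ≤ 2 ^ J := one_le_pow₀ (by norm_num)
  have ht0T1 : t0 ≤ T1 := by nlinarith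
  have hT1pos : 0 < T1 := by linarith
  have hτ : ∀ j : ℕ, (0:ℝ) < t0 * 2 ^ j := fun j => by positivity
  have hτ0 : ∀ j : ℕ, t0 ≤ t0 * 2 ^ j := fun j => by
    have : (1:ℝ) ≤ 2 ^ j := one_le_pow₀ (by norm_num)
    nlinarith
  have hτT : ∀ j < J, t0 * 2 ^ j ≤ T1 := by
    intro j hj
    refine le_trans ?_ hT1
    apply mul_le_mul_of_nonneg_left _ ht0pos.le
    exact pow_le_pow_right₀ (by norm_num) hj.le
  have hNf : ∀ n ∈ Nf P0 A B, A ≤ n ∧ n < B := fun n hn => Finset.mem_Ico.mp (Finset.mem_filter.mp hn).1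
  have hnpos : ∀ n ∈ Nf P0 A B, 0 < n := fun n hn => lt_of_lt_of_le hA (hNf n hn).1
  have hcardM : (Fintype.card (ZMod M) : ℝ) = M := by rw [ZMod.card]
  have hlev : ∀ n ∈ Nf P0 A B, ∀ t, 0 ≤ t → t ≤ T1 → t * (n * (n * l)) ≤ η * (2 * γ * M) := by
    intro n hn t ht htT
    have h1 : (n:ℝ) ≤ B := by exact_mod_cast (hNf n hn).2.le
    calc t * (n * (n * l)) = t * (l * (n:ℝ) ^ 2) := by ring
      _ ≤ T1 * ((l + 2) * (B:ℝ) ^ 2) := by
          apply mul_le_mul htT _ (by positivity) hT1pos.le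
          apply mul_le_mul (by linarith) _ (by positivity) (by positivity)
          exact pow_le_pow_left₀ (Nat.cast_nonneg _) h1 2
      _ ≤ 8 * (T1 * ((l + 2) * (B:ℝ) ^ 2)) := by
          have : 0 ≤ T1 * ((l + 2) * (B:ℝ) ^ 2) := by positivity
          linarith
      _ ≤ _ := hbig
  have hlt := lower_tail (Nf P0 A B) J (fun j => t0 * 2 ^ j) hτ (fun n j => En u (β' : ZMod M) l γ n (t0 * 2 ^ j))
    (fun n => 2 * γ / n) (fun n _ => by positivity) η hη0.le hη1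
    (by
      intro n hn j hj
      rw [hcardM]
      exact En_upper u (β' : ZMod M) l γ n hl (hnpos n hn) (t0 * 2 ^ j) (hτ j) η (hlev n hn _ (hτ j).le (hτT j hj)))
    (by
      intro n hn n' hn' hne j hj j' hj'
      rw [hcardM]
      rcases lt_or_gt_of_ne hne with h1 | h1
      · exact En_pair u (β' : ZMod M) l γ A B hl hγ n n' hA (hNf n hn).1 h1 (hNf n' hn').2.le hBA t0 _ _ T1 ht0
          (hτ0 j) (hτ0 j') (hτT j hj) (hτT j' hj') η hη0 hη1 hη hbig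
      · have h2 := En_pair u (β' : ZMod M) l γ A B hl hγ n' n hA (hNf n' hn').1 h1 (hNf n hn).2.le hBA t0 _ _ T1 ht0
          (hτ0 j') (hτ0 j) (hτT j' hj') (hτT j hj) η hη0 hη1 hη hbig
        rw [Finset.inter_comm]
        calc _ = t0 * 2 ^ j' * (t0 * 2 ^ j) * ((En u (β' : ZMod M) l γ n' (t0 * 2 ^ j') ∩ En u (β' : ZMod M) l γ n (t0 * 2 ^ j)).card : ℝ) := by ring
          _ ≤ _ := h2
          _ = _ := by ring)
    v (by
      rw [hv, hS0]
      congr 1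
      rw [Finset.mul_sum]
      apply Finset.sum_congr rfl
      intro n _
      ring) hv0
    (by
      rw [hcardM]
      have h1 : ∀ n ∈ Nf P0 A B, (J:ℝ) * (2 * γ * M * (1 / n) - 2 * γ * M * ((1 / n) * ∑ m ∈ n.divisors.filter (fun m => 2 ≤ m), (1:ℝ) / m)
          - 2 * (T1 * (l * (B:ℝ) ^ 2))) ≤ ∑ j ∈ Finset.range J, (t0 * 2 ^ j) * ((En u (β' : ZMod M) l γ n (t0 * 2 ^ j)).card : ℝ) := by
        intro n hn
        have h2 : ∀ j ∈ Finset.range J, (2 * γ * M * (1 / n) - 2 * γ * M * ((1 / n) * ∑ m ∈ n.divisors.filter (fun m => 2 ≤ m), (1:ℝ) / m)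
          - 2 * (T1 * (l * (B:ℝ) ^ 2))) ≤ (t0 * 2 ^ j) * ((En u (β' : ZMod M) l γ n (t0 * 2 ^ j)).card : ℝ) := by
          intro j hj
          rw [Finset.mem_range] at hj
          have hn1 : (1:ℝ) ≤ n := by exact_mod_cast hnpos n hn
          have h3 := En_lower u (β' : ZMod M) l γ n hl (hnpos n hn) (t0 * 2 ^ j) (hτ j) (by
            have h4 : (γ:ℝ) * M / (n * (t0 * 2 ^ j)) ≤ M / 320 := by
              rw [div_le_div_iff₀ (by positivity) (by norm_num)]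
              have h5 : 320 * (γ:ℝ) ≤ n * (t0 * 2 ^ j) := by
                have := hτ0 j
                nlinarith [hτ j]
              calc (γ:ℝ) * M * 320 = M * (320 * γ) := by ring
                _ ≤ M * (n * (t0 * 2 ^ j)) := by gcongr
            have h6 : (2:ℝ) ≤ M := by exact_mod_cast hM2
            linarith)
          have h7 : (n:ℝ) ≤ B := by exact_mod_cast (hNf n hn).2.le
          have h8 : (t0 * 2 ^ j) * (l * (n:ℝ) ^ 2) ≤ T1 * (l * (B:ℝ) ^ 2) := by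
            apply mul_le_mul (hτT j hj) _ (by positivity) hT1pos.le
            gcongr
          linarith
        have h9 := Finset.card_nsmul_le_sum (Finset.range J) _ _ h2
        rwa [Finset.card_range, nsmul_eq_mul] at h9
      refine le_trans ?_ (Finset.sum_le_sum h1)
      rw [← Finset.mul_sum, Finset.sum_sub_distrib, Finset.sum_sub_distrib, ← Finset.mul_sum, ← Finset.mul_sum, Finset.sum_const, nsmul_eq_mul, ← hS0]
      have h3 : ((Nf P0 A B).card : ℝ) ≤ B := by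
        have : (Nf P0 A B).card ≤ B := by
          refine (Finset.card_filter_le _ _).trans ?_
          rw [Nat.card_Ico]
          omega
        exact_mod_cast this
      have h4 : ((Nf P0 A B).card : ℝ) * (2 * (T1 * (l * (B:ℝ) ^ 2))) ≤ η / 2 * (2 * γ * M * S0) := by
        refine le_trans ?_ hL2
        gcongr
      have h5 : 2 * γ * M * (∑ n ∈ Nf P0 A B, (1:ℝ) / n * ∑ m ∈ n.divisors.filter (fun m => 2 ≤ m), (1:ℝ) / m) ≤
          2 * γ * M * (η / 2 * S0) := mul_le_mul_of_nonneg_left hq (by positivity)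
      rw [hv]
      calc (1 - η) * (J * (2 * γ * S0)) * M = J * (2 * γ * M * S0 - 2 * γ * M * (η / 2 * S0) - η / 2 * (2 * γ * M * S0)) := by ring
        _ ≤ _ := by
            apply mul_le_mul_of_nonneg_left _ (Nat.cast_nonneg _)
            linarith)
    (by
      have h2 : ∑ j ∈ Finset.range J, t0 * (2:ℝ) ^ j = t0 * (2 ^ J - 1) := by
        rw [← Finset.mul_sum, geom_sum_eq (by norm_num)]
        norm_num
      rw [h2]
      nlinarith)
  rw [hcardM] at hlt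
  have hnz : (((Nf P0 A B).biUnion (fun n => univ.filter (fun s : ZMod M => za ((n : ZMod M) * wf u (β' : ZMod M) l s) ≤ 0))).card : ℝ) ≤ (B:ℝ) ^ 2 * l := by
    have h1 : ((Nf P0 A B).biUnion (fun n => univ.filter (fun s : ZMod M => za ((n : ZMod M) * wf u (β' : ZMod M) l s) ≤ 0))).card ≤ B * (B * l) := by
      refine Finset.card_biUnion_le.trans ?_
      have h2 : ∀ n ∈ Nf P0 A B, (univ.filter (fun s : ZMod M => za ((n : ZMod M) * wf u (β' : ZMod M) l s) ≤ 0)).card ≤ B * l := by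
        intro n hn
        have h3 := L1_upper u (β' : ZMod M) l hl n (hnpos n hn) 0
        have h4 : n * l ≤ B * l := Nat.mul_le_mul_right _ (hNf n hn).2.le
        omega
      refine (Finset.sum_le_card_nsmul _ _ _ h2).trans ?_
      rw [smul_eq_mul]
      apply Nat.mul_le_mul_right
      refine (Finset.card_filter_le _ _).trans ?_
      rw [Nat.card_Ico]
      omega
    calc _ ≤ ((B * (B * l) : ℕ) : ℝ) := by exact_mod_cast h1
      _ = _ := by push_cast; ring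
  have hsub : univ.filter (fun s : ZMod M => N * discrepancy 2 N (a s) < v / (32 * (2 * Real.pi) ^ 2)) ⊆
      (univ.filter (fun s => ∑ n ∈ Nf P0 A B, Wt J (fun j => t0 * 2 ^ j) (fun n j => En u (β' : ZMod M) l γ n (t0 * 2 ^ j)) n s < v / 2)) ∪
      ((Nf P0 A B).biUnion (fun n => univ.filter (fun s : ZMod M => za ((n : ZMod M) * wf u (β' : ZMod M) l s) ≤ 0))) := by
    intro s hs
    rw [Finset.mem_filter] at hs
    rw [Finset.mem_union, Finset.mem_filter, Finset.mem_biUnion]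
    by_contra hcon
    rw [not_or, not_exists] at hcon
    have h1 := low_det hN u α0 hu av l γ β' hlγ hβ s (a s) (ha0 s) (ha1 s) P0 A B J hA t0 ht0 hB3 v
      (by
        by_contra h
        exact hcon.1 ⟨Finset.mem_univ _, not_le.mp h⟩)
      (by
        intro n hn h0
        apply hcon.2 n
        refine ⟨hn, ?_⟩
        rw [Finset.mem_filter]
        refine ⟨Finset.mem_univ _, ?_⟩
        unfold za
        rw [h0]
        simp)
    linarith [hs.2]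
  have h3 : ((univ.filter (fun s : ZMod M => N * discrepancy 2 N (a s) < v / (32 * (2 * Real.pi) ^ 2))).card : ℝ) ≤
      ((univ.filter (fun s => ∑ n ∈ Nf P0 A B, Wt J (fun j => t0 * 2 ^ j) (fun n j => En u (β' : ZMod M) l γ n (t0 * 2 ^ j)) n s < v / 2)).card : ℝ) +
      (((Nf P0 A B).biUnion (fun n => univ.filter (fun s : ZMod M => za ((n : ZMod M) * wf u (β' : ZMod M) l s) ≤ 0))).card : ℝ) := by
    exact_mod_cast (Finset.card_le_card hsub).trans (Finset.card_union_le _ _)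
  linarith

open Classical in
theorem low_class (K : ℕ) (ε : ℝ) (hε : 0 < ε) :
    ∃ c : ℝ, 0 < c ∧ ∀ᶠ a0 : ℕ in atTop, ∀ (g M N : ℕ) [NeZero g] [NeZero M] [NeZero N], N = g * M →
      2 ^ (96 * a0) ≤ N → g ≤ 2 ^ a0 →
      ∀ (u : (ZMod M)ˣ) (α0 : ℕ), (u : ZMod M) * (α0 : ZMod M) = -1 →
      ∀ (av : Fin 1 → ℕ), Nat.gcd (av 0) g ≤ K →
      ∀ (a : (Fin 1 → ZMod M) → (Fin 2 → ℕ)),
      (∀ y, ((a y 0 : ℕ) : ZMod N) = ((g * α0 : ℕ) : ZMod N)) →
      (∀ y, ∀ i : Fin 1, ((a y i.succ : ℕ) : ZMod N) = ((av i + g * (y i).val : ℕ) : ZMod N)) →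
      ((univ.filter (fun y => N * discrepancy 2 N (a y) < c * Jp a0 * (a0:ℝ) ^ 1)).card : ℝ) ≤
        ε * (M:ℝ) ^ 1 := by
  obtain ⟨η, hη⟩ : ∃ η : ℝ, η = min 1 (ε / 37) := ⟨_, rfl⟩
  have hη0 : 0 < η := by rw [hη]; exact lt_min one_pos (by positivity)
  have hη1 : η ≤ 1 := by rw [hη]; exact min_le_left _ _
  have hηε : 37 * η ≤ ε := by
    have : η ≤ ε / 37 := by rw [hη]; exact min_le_right _ _
    linarith
  obtain ⟨P0, hP0⟩ := exists_nat_ge (8 / η)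
  have hP01 : 1 ≤ P0 := by
    have h1 : (8:ℝ) ≤ 8 / η := by rw [le_div_iff₀ hη0]; linarith
    have h2 : (1:ℝ) ≤ P0 := by linarith
    exact_mod_cast h2
  set Q : ℕ := P0.factorial with hQ
  have hQpos : 0 < Q := Nat.factorial_pos _
  have hQr : (1:ℝ) ≤ Q := by exact_mod_cast hQpos
  have : NeZero Q := ⟨hQpos.ne'⟩
  obtain ⟨C, hC⟩ := exists_nat_ge (max (320 * (K:ℝ)) (max (8 * K / η) (max (24 * Q / η) 5)))
  refine ⟨1 / (16 * Q * (2 * Real.pi) ^ 2), by have := Real.pi_pos; positivity, ?_⟩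
  filter_upwards [rt_tendsto.eventually (eventually_ge_atTop C), eventually_ge_atTop 1] with a0 hmC ha01
    g M N _ _ _ hN hN2 hg u α0 hu av hK a hya0 hya
  set m : ℕ := rt a0 with hm
  have hmCr : max (320 * (K:ℝ)) (max (8 * K / η) (max (24 * Q / η) 5)) ≤ m := hC.trans (by exact_mod_cast hmC)
  have hm1 : 320 * (K:ℝ) ≤ m := (le_max_left _ _).trans hmCr
  have hm2 : 8 * K / η ≤ m := (le_max_left _ _).trans ((le_max_right _ _).trans hmCr)
  have hm3 : 24 * Q / η ≤ m := (le_max_left _ _).trans ((le_max_right _ _).trans ((le_max_right _ _).trans hmCr))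
  have hm5' : (5:ℝ) ≤ m := (le_max_right _ _).trans ((le_max_right _ _).trans ((le_max_right _ _).trans hmCr))
  have hm5 : 5 ≤ m := by exact_mod_cast hm5'
  have hm4 : m ^ 4 ≤ a0 := rt_pow_le a0
  have hm0 : (0:ℝ) < m := by linarith
  have hm1' : (1:ℝ) ≤ m := by linarith
  have ha0m : (m:ℝ) ^ 4 ≤ a0 := by exact_mod_cast hm4
  have ha0' : (1:ℝ) ≤ a0 := by exact_mod_cast ha01
  have hg0 : 0 < g := Nat.pos_of_ne_zero (NeZero.ne g)
  have hg' : (0:ℝ) < g := by exact_mod_cast hg0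
  have hMpos : (0:ℝ) < M := by exact_mod_cast Nat.pos_of_ne_zero (NeZero.ne M)
  have hJ : 0 < Jp a0 := by
    unfold Jp
    exact Nat.log_pos (by norm_num) (by omega)
  have hJm : (2:ℝ) ^ (Jp a0) ≤ m := by
    have : 2 ^ (Jp a0) ≤ m := Nat.pow_log_le_self 2 (by omega)
    exact_mod_cast this
  have hJ1 : (1:ℝ) ≤ Jp a0 := by exact_mod_cast hJ
  -- the arithmetic data
  set γ : ℕ := Nat.gcd (av 0) g with hγdef
  have hγpos : 0 < γ := Nat.gcd_pos_of_pos_right _ hg0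
  obtain ⟨β', hβ⟩ : γ ∣ av 0 := Nat.gcd_dvd_left _ _
  obtain ⟨l, hl⟩ : γ ∣ g := Nat.gcd_dvd_right _ _
  have hlγ : g = l * γ := by rw [hl]; ring
  have hl0 : 0 < l := by
    rcases Nat.eq_zero_or_pos l with h | h
    · rw [h, zero_mul] at hlγ; omega
    · exact h
  have hlg : l ≤ g := by rw [hlγ]; exact Nat.le_mul_of_pos_right _ hγpos
  have hγr : (1:ℝ) ≤ γ := by exact_mod_cast hγpos
  have hγK : (γ:ℝ) ≤ K := by exact_mod_cast hK
  have hl1 : (1:ℝ) ≤ l := by exact_mod_cast hl0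
  have hl2a : (l:ℝ) ≤ 2 ^ a0 := by exact_mod_cast hlg.trans hg
  have hm2a : (m:ℝ) ≤ 2 ^ a0 := by
    have h3 : m ≤ a0 := le_trans (by
      calc m = m ^ 1 := (pow_one _).symm
        _ ≤ m ^ 4 := Nat.pow_le_pow_right (by omega) (by norm_num)) hm4
    have h4 : a0 < 2 ^ a0 := Nat.lt_two_pow_self
    exact_mod_cast (by omega : m ≤ 2 ^ a0)
  have h2a : (2:ℝ) ≤ 2 ^ a0 := by
    calc (2:ℝ) = 2 ^ 1 := (pow_one _).symm
      _ ≤ 2 ^ a0 := pow_le_pow_right₀ (by norm_num) ha01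
  have hηinv : 1 ≤ η * 2 ^ a0 := by
    have h1 : 24 * Q ≤ m * η := by rwa [div_le_iff₀ hη0] at hm3
    have h2 : m * η ≤ 2 ^ a0 * η := by gcongr
    linarith
  have hQη : Q ≤ η * m := by
    have h1 : 24 * Q ≤ m * η := by rwa [div_le_iff₀ hη0] at hm3
    linarith
  have hM95 : (2:ℝ) ^ (95 * a0) ≤ M := by
    have h1 : (2:ℝ) ^ (96 * a0) ≤ N := by exact_mod_cast hN2
    have h2 : (N:ℝ) = g * M := by rw [hN]; push_cast; ring
    have h3 : (g:ℝ) ≤ 2 ^ a0 := by exact_mod_cast hg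
    have h4 : (2:ℝ) ^ (96 * a0) = 2 ^ a0 * 2 ^ (95 * a0) := by rw [← pow_add]; congr 1; ring
    have h5 : (2:ℝ) ^ a0 * 2 ^ (95 * a0) ≤ 2 ^ a0 * M := by
      rw [← h4]
      calc (2:ℝ) ^ (96 * a0) ≤ N := h1
        _ = g * M := h2
        _ ≤ 2 ^ a0 * M := by gcongr
    exact le_of_mul_le_mul_left h5 (by positivity)
  obtain ⟨b, hb⟩ : ∃ b : ℝ, b = (2:ℝ) ^ a0 := ⟨_, rfl⟩
  have hpow : ∀ k : ℕ, (2:ℝ) ^ (k * a0) = b ^ k := by
    intro k
    rw [hb, ← pow_mul, mul_comm]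
  rw [← hb] at hl2a hm2a h2a hηinv
  have hb1 : (1:ℝ) ≤ b := by linarith
  have hb0 : (0:ℝ) < b := by linarith
  rw [hpow] at hM95
  have hA : (((2 ^ (4 * a0) : ℕ)) : ℝ) = b ^ 4 := by push_cast; rw [hpow]
  have hB : (((2 ^ (8 * a0) : ℕ)) : ℝ) = b ^ 8 := by push_cast; rw [hpow]
  have hl22 : (1:ℝ) / 2 < Real.log 2 := by have := Real.log_two_gt_d9; linarith
  set L : ℝ := (a0:ℝ) * (4 * Real.log 2) with hL
  have hlogA : Real.log (b ^ 4) = L := by
    rw [← hpow, Real.log_pow, hL]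
    push_cast
    ring
  have hlogB : Real.log (b ^ 8) = 2 * L := by
    rw [← hpow, Real.log_pow, hL]
    push_cast
    ring
  have hL2 : 2 * (a0:ℝ) ≤ L := by rw [hL]; nlinarith
  set S0 : ℝ := ∑ n ∈ Nf P0 (2 ^ (4 * a0)) (2 ^ (8 * a0)), (1:ℝ) / n with hS0
  have hQA : (Q:ℝ) ≤ b ^ 4 := by
    have h1 : (Q:ℝ) ≤ m := by
      have : η * m ≤ 1 * m := by gcongr
      linarith
    calc (Q:ℝ) ≤ b := h1.trans hm2a
      _ = b ^ 1 := (pow_one _).symm
      _ ≤ b ^ 4 := pow_le_pow_right₀ hb1 (by norm_num)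
  have hS0l : L / (2 * Q) ≤ S0 := by
    have h1 := int_sum_lower Q (2 ^ (4 * a0)) (2 ^ (8 * a0)) (by positivity) 1
    rw [hA, hB] at h1
    have h2 : L - 1 ≤ Real.log (b ^ 8 / (b ^ 4 + Q)) := by
      have h3 : b ^ 4 / 2 ≤ b ^ 8 / (b ^ 4 + Q) := by
        rw [div_le_div_iff₀ (by norm_num) (by positivity)]
        have h4 : b ^ 8 = b ^ 4 * b ^ 4 := by ring
        rw [h4]
        have h5 : (0:ℝ) < b ^ 4 := by positivity
        nlinarith
      have hl2' : Real.log 2 < 1 := by have := Real.log_two_lt_d9; linarith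
      calc L - 1 ≤ L - Real.log 2 := by linarith
        _ = Real.log (b ^ 4 / 2) := by rw [Real.log_div (by positivity) (by norm_num), hlogA]
        _ ≤ _ := Real.log_le_log (by positivity) h3
    have h6 : L / 2 ≤ L - 1 := by linarith
    calc L / (2 * Q) = 1 / Q * (L / 2) := by ring
      _ ≤ 1 / Q * Real.log (b ^ 8 / (b ^ 4 + Q)) := by
          apply mul_le_mul_of_nonneg_left _ (by positivity)
          linarith
      _ ≤ _ := h1
      _ = S0 := by rw [hS0, Nf]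
  have hS0pos : 0 < S0 := lt_of_lt_of_le (by positivity) hS0l
  have hS0b : 1 ≤ b * S0 := by
    have h1 : (Q:ℝ) ≤ b := by
      have : η * m ≤ 1 * m := by gcongr
      linarith
    have h2 : 1 ≤ L / 2 := by linarith
    have h3 : 1 / Q ≤ S0 := by
      refine le_trans ?_ hS0l
      calc 1 / (Q:ℝ) ≤ (L / 2) / Q := by gcongr
        _ = L / (2 * Q) := by ring
    calc (1:ℝ) = Q * (1 / Q) := by field_simp
      _ ≤ b * S0 := by gcongr
  have ht2 : (m:ℝ) ^ 2 * 2 ^ (Jp a0) ≤ (m:ℝ) ^ 3 := by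
    calc (m:ℝ) ^ 2 * 2 ^ (Jp a0) ≤ (m:ℝ) ^ 2 * m := by gcongr
      _ = _ := by ring
  have hmsq : (m:ℝ) ≤ (m:ℝ) ^ 2 := by nlinarith
  have hT1b : (m:ℝ) ^ 3 ≤ b ^ 3 := pow_le_pow_left₀ hm0.le hm2a 3
  have hbig : 8 * ((m:ℝ) ^ 3 * ((l + 2) * (b ^ 8) ^ 2)) ≤ η * (2 * γ * M) := by
    have h1 : (l:ℝ) + 2 ≤ b * 2 := by linarith
    calc 8 * ((m:ℝ) ^ 3 * ((l + 2) * (b ^ 8) ^ 2)) ≤ b ^ 3 * (b ^ 3 * ((b * 2) * (b ^ 8) ^ 2)) := by
          have h8 : (8:ℝ) ≤ b ^ 3 := by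
            calc (8:ℝ) = 2 ^ 3 := by norm_num
              _ ≤ b ^ 3 := pow_le_pow_left₀ (by norm_num) h2a 3
          gcongr
      _ = 2 * b ^ 23 := by ring
      _ ≤ 2 * b ^ 94 := by
          have : b ^ 23 ≤ b ^ 94 := pow_le_pow_right₀ hb1 (by norm_num)
          linarith
      _ ≤ (η * b) * (2 * b ^ 94) := le_mul_of_one_le_left (by positivity) hηinv
      _ = η * (2 * 1 * b ^ 95) := by ring
      _ ≤ η * (2 * γ * M) := by gcongr
  have hBl : 4 * ((b ^ 8) ^ 2 * l) ≤ η * M := by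
    have h1 : (γ:ℝ) ≤ (m:ℝ) ^ 3 := by
      have : (m:ℝ) ≤ (m:ℝ) ^ 3 := by
        calc (m:ℝ) = (m:ℝ) ^ 1 := (pow_one _).symm
          _ ≤ _ := pow_le_pow_right₀ hm1' (by norm_num)
      have hK0 : (0:ℝ) ≤ K := Nat.cast_nonneg _
      linarith
    have h2 : γ * (4 * ((b ^ 8) ^ 2 * l)) ≤ γ * (η * M) := by
      have h3 : (γ:ℝ) * ((l + 2) * (b ^ 8) ^ 2) ≤ (m:ℝ) ^ 3 * ((l + 2) * (b ^ 8) ^ 2) := by gcongr
      have h4 : (γ:ℝ) * ((b ^ 8) ^ 2 * l) ≤ γ * ((l + 2) * (b ^ 8) ^ 2) := by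
        apply mul_le_mul_of_nonneg_left _ (by positivity)
        have : 0 ≤ (b ^ 8) ^ 2 := by positivity
        nlinarith
      linarith
    exact le_of_mul_le_mul_left h2 (by linarith)
  have hη24 : 24 * Q ≤ η * b ^ 4 := by
    have h1 : 24 * (Q:ℝ) ≤ m * η := by rwa [div_le_iff₀ hη0] at hm3
    have h2 : m * η ≤ b ^ 4 * η := by
      apply mul_le_mul_of_nonneg_right _ hη0.le
      calc (m:ℝ) ≤ b := hm2a
        _ = b ^ 1 := (pow_one _).symm
        _ ≤ b ^ 4 := pow_le_pow_right₀ hb1 (by norm_num)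
    linarith
  have hL1 : 2 ≤ L := by linarith
  have hMN : (M:ℝ) ≤ N := by
    have h2 : (N:ℝ) = g * M := by rw [hN]; push_cast; ring
    rw [h2]
    have h3 : (1:ℝ) ≤ g := by exact_mod_cast hg0
    exact le_mul_of_one_le_left hMpos.le h3
  have hb3 : 3 * (b ^ 8 * l) ≤ N := by
    have h1 : b ^ 8 * l ≤ (b ^ 8) ^ 2 * l := by
      apply mul_le_mul_of_nonneg_right _ (by linarith)
      have h0 : (1:ℝ) ≤ b ^ 8 := one_le_pow₀ hb1
      nlinarith
    have h2 : η * M ≤ M := mul_le_of_le_one_left hMpos.le hη1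
    have h3 : 0 ≤ b ^ 8 * l := by positivity
    linarith
  have hq1 : 1 / (P0:ℝ) * (1 / (Q:ℝ) * L) + (1 + 2 * L) / b ^ 4 ≤ η / 2 * S0 := by
    have h1 : 1 / (P0:ℝ) ≤ η / 8 := by
      have h2 : (8:ℝ) ≤ P0 * η := by rwa [div_le_iff₀ hη0] at hP0
      rw [div_le_div_iff₀ (by positivity) (by norm_num)]
      linarith
    have h3 : 1 / (P0:ℝ) * (1 / (Q:ℝ) * L) ≤ η / 8 * (1 / (Q:ℝ) * L) :=
      mul_le_mul_of_nonneg_right h1 (by positivity)
    have h4 : (1 + 2 * L) / b ^ 4 ≤ η / 8 * (1 / (Q:ℝ) * L) := by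
      rw [div_le_iff₀ (by positivity)]
      have h5 : 3 * L * (24 * Q) ≤ 3 * L * (η * b ^ 4) := mul_le_mul_of_nonneg_left hη24 (by linarith)
      have h6 : η / 8 * (1 / (Q:ℝ) * L) * b ^ 4 = (3 * L * (η * b ^ 4)) / (24 * Q) := by
        field_simp
        norm_num
      rw [h6, le_div_iff₀ (by positivity)]
      nlinarith
    have h7 : η / 2 * (L / (2 * Q)) ≤ η / 2 * S0 := mul_le_mul_of_nonneg_left hS0l (by positivity)
    have h8 : η / 2 * (L / (2 * Q)) = η / 8 * (1 / (Q:ℝ) * L) + η / 8 * (1 / (Q:ℝ) * L) := by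
      field_simp
      norm_num
    linarith
  have hL2' : b ^ 8 * (2 * ((m:ℝ) ^ 3 * (l * (b ^ 8) ^ 2))) ≤ η / 2 * (2 * γ * M * S0) := by
    calc b ^ 8 * (2 * ((m:ℝ) ^ 3 * (l * (b ^ 8) ^ 2))) ≤ b ^ 8 * (b * (b ^ 3 * (b * (b ^ 8) ^ 2))) := by gcongr
      _ = b ^ 29 := by ring
      _ ≤ b ^ 93 := pow_le_pow_right₀ hb1 (by norm_num)
      _ = 1 * 1 * (b ^ 93) := by ring
      _ ≤ (η * b) * (b * S0) * b ^ 93 := by gcongr
      _ = η / 2 * (2 * 1 * b ^ 95 * S0) := by ring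
      _ ≤ _ := by gcongr
  have hvl : 2 * (a0:ℝ) / Q ≤ 2 * γ * S0 := by
    calc 2 * (a0:ℝ) / Q ≤ L / Q := by gcongr
      _ = 2 * 1 * (L / (2 * Q)) := by field_simp
      _ ≤ 2 * γ * S0 := by gcongr
  have hcore := low_core hN u α0 hu av l γ β' hlγ hβ (fun s => a (fun _ => s)) (fun s => hya0 _)
    (fun s => hya (fun _ => s) 0) P0 (2 ^ (4 * a0)) (2 ^ (8 * a0)) (Jp a0) (by positivity)
    (by rw [← pow_mul]; exact Nat.pow_le_pow_right (by norm_num) (by omega))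
    (by
      have h1 : (2:ℝ) ≤ M := by
        calc (2:ℝ) ≤ b := h2a
          _ = b ^ 1 := (pow_one _).symm
          _ ≤ b ^ 95 := pow_le_pow_right₀ hb1 (by norm_num)
          _ ≤ M := hM95
      exact_mod_cast h1)
    ((m:ℝ) ^ 2) ((m:ℝ) ^ 3) η
    (by
      have h1 : 320 * (γ:ℝ) ≤ 320 * K := by linarith
      linarith)
    ht2 hη0 hη1
    (by
      have h1 : 8 * (K:ℝ) ≤ m * η := by rwa [div_le_iff₀ hη0] at hm2
      have h2 : m * η ≤ (m:ℝ) ^ 2 * η := by gcongr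
      linarith)
    (by rw [hB]; exact hbig)
    (by rw [hB]; exact hb3)
    S0 hS0
    (by
      have h1 := div_sum P0 (2 ^ (4 * a0)) (2 ^ (8 * a0)) hP01 (by positivity)
        (Nat.pow_le_pow_right (by norm_num) (by omega))
      rw [hA, hB] at h1
      have e : b ^ 8 / b ^ 4 = b ^ 4 := by
        rw [div_eq_iff (by positivity)]; ring
      rw [e, hlogA, hlogB] at h1
      exact h1.trans hq1)
    (by rw [hB]; exact hL2')
    (Jp a0 * (2 * γ * S0)) rfl (by positivity)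
    (by
      refine ht2.trans ?_
      have h1 : (m:ℝ) ^ 3 ≤ η * (2 * (a0:ℝ) / Q) := by
        rw [← mul_div_assoc, le_div_iff₀ (by linarith)]
        calc (m:ℝ) ^ 3 * Q ≤ (m:ℝ) ^ 3 * (η * m) := by gcongr
          _ = η * (m:ℝ) ^ 4 := by ring
          _ ≤ η * a0 := by gcongr
          _ ≤ η * (2 * a0) := by gcongr; linarith
      calc (m:ℝ) ^ 3 ≤ η * (2 * (a0:ℝ) / Q) := h1
        _ ≤ η * (2 * γ * S0) := by gcongr
        _ ≤ η * (Jp a0 * (2 * γ * S0)) := by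
            apply mul_le_mul_of_nonneg_left _ hη0.le
            exact le_mul_of_one_le_left (by positivity) hJ1)
  rw [hB] at hcore
  have hpi := Real.pi_pos
  have hthr : 1 / (16 * Q * (2 * Real.pi) ^ 2) * Jp a0 * (a0:ℝ) ^ 1 ≤ (Jp a0 : ℝ) * (2 * γ * S0) / (32 * (2 * Real.pi) ^ 2) := by
    calc 1 / (16 * Q * (2 * Real.pi) ^ 2) * Jp a0 * (a0:ℝ) ^ 1 = (Jp a0 : ℝ) * (2 * (a0:ℝ) / Q) / (32 * (2 * Real.pi) ^ 2) := by
          field_simp
          norm_num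
      _ ≤ _ := by gcongr
  have hcardle : (univ.filter (fun y : Fin 1 → ZMod M => N * discrepancy 2 N (a y) < 1 / (16 * Q * (2 * Real.pi) ^ 2) * Jp a0 * (a0:ℝ) ^ 1)).card ≤
      (univ.filter (fun s : ZMod M => N * discrepancy 2 N (a (fun _ => s)) < (Jp a0 : ℝ) * (2 * γ * S0) / (32 * (2 * Real.pi) ^ 2))).card := by
    apply Finset.card_le_card_of_injOn (fun y => y 0)
    · intro y hy
      rw [Finset.mem_coe, Finset.mem_filter] at hy ⊢
      refine ⟨Finset.mem_univ _, ?_⟩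
      have e : (fun _ : Fin 1 => y 0) = y := by
        funext i
        rw [Subsingleton.elim i 0]
      simp only
      rw [e]
      exact lt_of_lt_of_le hy.2 hthr
    · intro y _ y' _ he
      funext i
      rw [Subsingleton.elim i 0]
      exact he
  calc _ ≤ ((univ.filter (fun s : ZMod M => N * discrepancy 2 N (a (fun _ => s)) < (Jp a0 : ℝ) * (2 * γ * S0) / (32 * (2 * Real.pi) ^ 2))).card : ℝ) := by
        exact_mod_cast hcardle
    _ ≤ 36 * η * M + (b ^ 8) ^ 2 * l := hcore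
    _ ≤ 37 * η * M := by
        have : 0 ≤ (b ^ 8) ^ 2 * l := by positivity
        linarith
    _ ≤ ε * M := by gcongr
    _ = _ := by ring

end Pool.Agent.H89.Disc
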