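import Mathlib
import Pool.Agent.H89.Low5

open Finset Filter Topology

namespace Pool.Agent.H89.Disc

lemma fib_card (n n' : ℕ) [NeZero n] (c : ZMod n) :
    (univ.filter (fun a : ZMod n => a * (n' : ZMod n) + c = 0)).card ≤ Nat.gcd n n' := by
  classical
  set g1 : ℕ := Nat.gcd n n' with hg1
  have hn : 0 < n := Nat.pos_of_ne_zero (NeZero.ne n)
  have hg1pos : 0 < g1 := Nat.gcd_pos_of_pos_left _ hn
  have hker : (univ.filter (fun a : ZMod n => a * (n' : ZMod n) = 0)).card ≤ g1 := by
    have h1 : (univ.filter (fun a : ZMod n => a * (n' : ZMod n) = 0)) ⊆ univ.filter (fun a : ZMod n => g1 • a = 0) := by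
      intro a ha
      rw [Finset.mem_filter] at ha ⊢
      refine ⟨Finset.mem_univ _, ?_⟩
      have h2 := Nat.gcd_eq_gcd_ab n n'
      rw [← hg1] at h2
      have h3 : (g1 : ZMod n) = (n : ZMod n) * (Nat.gcdA n n' : ZMod n) + (n' : ZMod n) * (Nat.gcdB n n' : ZMod n) := by
        have := congrArg (fun x : ℤ => (x : ZMod n)) h2
        push_cast at this
        exact this
      rw [nsmul_eq_mul, h3, ZMod.natCast_self]
      linear_combination (Nat.gcdB n n' : ZMod n) * ha.2
    exact (Finset.card_le_card h1).trans (IsAddCyclic.card_nsmul_eq_zero_le hg1pos)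
  rcases (univ.filter (fun a : ZMod n => a * (n' : ZMod n) + c = 0)).eq_empty_or_nonempty with he | hne
  · rw [he]; simp
  · obtain ⟨a0, ha0⟩ := hne
    rw [Finset.mem_filter] at ha0
    refine le_trans ?_ hker
    apply Finset.card_le_card_of_injOn (fun a => a - a0)
    · intro a ha
      rw [Finset.mem_coe, Finset.mem_filter] at ha
      rw [Finset.mem_coe, Finset.mem_filter]
      refine ⟨Finset.mem_univ _, ?_⟩
      simp only
      linear_combination ha.2 - ha0.2
    · intro a _ b _ h
      simpa using h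

lemma card_PL_le {E g : ℕ} [NeZero g] (av : Fin (E + 1) → ℕ) : (PL g av).card ≤ Nat.gcd (av 0) g * g ^ E := by
  classical
  have h1 : ∀ t ∈ (univ : Finset (Fin E → ZMod g)), ((PL g av).filter (fun r => Fin.tail r = t)).card ≤ Nat.gcd (av 0) g := by
    intro t _
    rw [Nat.gcd_comm]
    refine le_trans ?_ (fib_card g (av 0) (∑ i : Fin E, t i * (av i.succ : ZMod g)))
    apply Finset.card_le_card_of_injOn (fun r => r 0)
    · intro r hr
      rw [Finset.mem_coe, Finset.mem_filter, PL, Finset.mem_filter, Fin.sum_univ_succ] at hr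
      rw [Finset.mem_coe, Finset.mem_filter]
      refine ⟨Finset.mem_univ _, ?_⟩
      rw [← hr.2]
      exact hr.1.2
    · intro r hr r' hr' he
      rw [Finset.mem_coe, Finset.mem_filter] at hr hr'
      have he : r 0 = r' 0 := he
      rw [← Fin.cons_self_tail r, ← Fin.cons_self_tail r', hr.2, hr'.2, he]
  have h2 := Finset.card_le_mul_card_image_of_maps_to (s := PL g av) (t := (univ : Finset (Fin E → ZMod g)))
    (f := fun r => Fin.tail r) (fun r _ => Finset.mem_univ _) _ h1
  refine h2.trans (le_of_eq ?_)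
  simp [ZMod.card]

open Classical in
theorem class_all (E : ℕ) (K : ℕ) (ε : ℝ) (hε : 0 < ε) :
    ∃ c : ℝ, 0 < c ∧ ∀ᶠ a0 : ℕ in atTop, ∀ (g M N : ℕ) [NeZero g] [NeZero M] [NeZero N], N = g * M →
      2 ^ (32 * (E + 3) * a0) ≤ N → g ≤ 2 ^ a0 →
      ∀ (u : (ZMod M)ˣ) (α0 : ℕ), (u : ZMod M) * (α0 : ZMod M) = -1 →
      ∀ (av : Fin (E + 1) → ℕ), Nat.gcd (av 0) g ≤ K →
      ∀ (a : (Fin (E + 1) → ZMod M) → (Fin (E + 2) → ℕ)),
      (∀ y, ((a y 0 : ℕ) : ZMod N) = ((g * α0 : ℕ) : ZMod N)) →
      (∀ y, ∀ i : Fin (E + 1), ((a y i.succ : ℕ) : ZMod N) = ((av i + g * (y i).val : ℕ) : ZMod N)) →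
      ((univ.filter (fun y => N * discrepancy (E + 2) N (a y) < c * Jp a0 * (a0:ℝ) ^ (E + 1))).card : ℝ) ≤
        ε * (M:ℝ) ^ (E + 1) := by
  rcases Nat.eq_zero_or_pos E with h | h
  · subst h
    obtain ⟨c, hc, hev⟩ := low_class K ε hε
    refine ⟨c, hc, ?_⟩
    filter_upwards [hev] with a0 h1 g M N _ _ _ hN hN2 hg u α0 hu av hK a hya0 hya
    exact h1 g M N hN (by
      have e : 32 * (0 + 3) * a0 = 96 * a0 := by ring
      rwa [e] at hN2) hg u α0 hu av hK a hya0 hya
  · refine ⟨cE E, cE_pos E, ?_⟩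
    filter_upwards [high_class E h K ε hε] with a0 h1 g M N _ _ _ hN hN2 hg u α0 hu av hK a hya0 hya
    exact h1 g M N hN hN2 hg u α0 hu av ((card_PL_le av).trans (Nat.mul_le_mul_right _ hK)) a hya0 hya

/-- number of multiples -/
lemma card_mult (N e : ℕ) (hN : 0 < N) (he : e ∣ N) : ((Finset.range N).filter (fun x => e ∣ x)).card = N / e := by
  have he0 : 0 < e := Nat.pos_of_dvd_of_pos he hN
  obtain ⟨k, rfl⟩ := he
  rw [Nat.mul_div_cancel_left _ he0]
  have : (Finset.range (e * k)).filter (fun x => e ∣ x) = (Finset.range k).image (fun j => e * j) := by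
    ext x
    rw [Finset.mem_filter, Finset.mem_range, Finset.mem_image]
    constructor
    · rintro ⟨h1, j, rfl⟩
      exact ⟨j, Finset.mem_range.mpr (lt_of_mul_lt_mul_left h1 (Nat.zero_le _)), rfl⟩
    · rintro ⟨j, hj, rfl⟩
      exact ⟨Nat.mul_lt_mul_of_pos_left (Finset.mem_range.mp hj) he0, ⟨j, rfl⟩⟩
  rw [this, Finset.card_image_of_injective _ (fun a b h => Nat.eq_of_mul_eq_mul_left he0 h), Finset.card_range]

open ArithmeticFunction in
/-- the average of `log gcd(x, N)` -/
lemma gcd_avg (N : ℕ) (hN : 0 < N) (y : ℕ) (hy : 0 < y) :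
    ∑ x ∈ Finset.range N, Real.log (Nat.gcd x N) ≤ N * (y + Real.log N / y) := by
  have hy' : (0:ℝ) < y := by exact_mod_cast hy
  have h1 : ∀ x ∈ Finset.range N, Real.log (Nat.gcd x N) = ∑ n ∈ N.divisors, if n ∣ x then vonMangoldt n else 0 := by
    intro x _
    rw [← vonMangoldt_sum, ← Finset.sum_filter]
    apply Finset.sum_congr _ (fun _ _ => rfl)
    ext n
    rw [Nat.mem_divisors, Finset.mem_filter, Nat.mem_divisors, Nat.dvd_gcd_iff]
    have : Nat.gcd x N ≠ 0 := (Nat.gcd_pos_of_pos_right _ hN).ne'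
    constructor
    · rintro ⟨⟨h1, h2⟩, _⟩
      exact ⟨⟨h2, hN.ne'⟩, h1⟩
    · rintro ⟨⟨h1, _⟩, h2⟩
      exact ⟨⟨h2, h1⟩, this⟩
  rw [Finset.sum_congr rfl h1, Finset.sum_comm]
  have h2 : ∀ n ∈ N.divisors, ∑ x ∈ Finset.range N, (if n ∣ x then vonMangoldt n else 0) ≤
      N * ((if n ∈ Finset.range (y + 1) then 1 else 0) * 1 + vonMangoldt n / y) := by
    intro n hn
    have hnN := Nat.dvd_of_mem_divisors hn
    have hn0 : 0 < n := Nat.pos_of_mem_divisors hn
    have hn' : (0:ℝ) < n := by exact_mod_cast hn0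
    rw [← Finset.sum_filter, Finset.sum_const, nsmul_eq_mul, card_mult N n hN hnN]
    have h3 : ((N / n : ℕ) : ℝ) = N / n := Nat.cast_div hnN hn'.ne'
    rw [h3]
    have hΛ0 : 0 ≤ vonMangoldt n := vonMangoldt_nonneg
    have e : (N:ℝ) / n * vonMangoldt n = N * (vonMangoldt n / n) := by ring
    rw [e]
    apply mul_le_mul_of_nonneg_left _ (Nat.cast_nonneg _)
    by_cases hny : n ∈ Finset.range (y + 1)
    · rw [if_pos hny]
      have h4 : vonMangoldt n ≤ n := by
        have h5 : vonMangoldt n ≤ Real.log n := vonMangoldt_le_log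
        have h6 := Real.log_le_sub_one_of_pos hn'
        linarith
      have h7 : vonMangoldt n / n ≤ 1 := by rw [div_le_one hn']; exact h4
      have h8 : 0 ≤ vonMangoldt n / y := by positivity
      linarith
    · rw [if_neg hny, zero_mul, zero_add]
      rw [Finset.mem_range] at hny
      have h9 : (y:ℝ) ≤ n := by exact_mod_cast (by omega : y ≤ n)
      gcongr
  refine (Finset.sum_le_sum h2).trans ?_
  rw [← Finset.mul_sum]
  apply mul_le_mul_of_nonneg_left _ (Nat.cast_nonneg _)
  rw [Finset.sum_add_distrib, ← Finset.sum_mul, ← Finset.sum_div, vonMangoldt_sum, mul_one]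
  apply add_le_add _ le_rfl
  rw [← Finset.sum_filter, Finset.sum_const, nsmul_eq_mul, mul_one]
  have h10 : (N.divisors.filter (fun n => n ∈ Finset.range (y + 1))).card ≤ y := by
    calc _ ≤ (Finset.Icc 1 y).card := by
          apply Finset.card_le_card
          intro n hn
          rw [Finset.mem_filter, Finset.mem_range] at hn
          rw [Finset.mem_Icc]
          have := Nat.pos_of_mem_divisors hn.1
          omega
      _ = y := by rw [Nat.card_Icc]; omega
  exact_mod_cast h10

/-- few residues have a large common divisor with `N` -/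
lemma gcd_tail (N : ℕ) (hN : 0 < N) (y G : ℕ) (hy : 0 < y) (hG : 1 < G) :
    (((Finset.range N).filter (fun x => G < Nat.gcd x N)).card : ℝ) * Real.log G ≤ N * (y + Real.log N / y) := by
  refine le_trans ?_ (gcd_avg N hN y hy)
  calc (((Finset.range N).filter (fun x => G < Nat.gcd x N)).card : ℝ) * Real.log G
      = ∑ x ∈ (Finset.range N).filter (fun x => G < Nat.gcd x N), Real.log G := by
        rw [Finset.sum_const, nsmul_eq_mul]
    _ ≤ ∑ x ∈ (Finset.range N).filter (fun x => G < Nat.gcd x N), Real.log (Nat.gcd x N) := by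
        apply Finset.sum_le_sum
        intro x hx
        apply Real.log_le_log (by exact_mod_cast (by omega : 0 < G))
        exact_mod_cast (Finset.mem_filter.mp hx).2.le
    _ ≤ _ := by
        apply Finset.sum_le_sum_of_subset_of_nonneg (Finset.filter_subset _ _)
        intro x _ _
        exact Real.log_natCast_nonneg _

/-- few pairs of residues have a large common divisor with `N` -/
lemma pair_tail (N : ℕ) (hN : 0 < N) (K : ℕ) (hK : 1 ≤ K) :
    (((Finset.range N ×ˢ Finset.range N).filter (fun p => K < Nat.gcd p.2 (Nat.gcd p.1 N))).card : ℝ) ≤ (N:ℝ) ^ 2 / K := by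
  classical
  have hsub : (Finset.range N ×ˢ Finset.range N).filter (fun p => K < Nat.gcd p.2 (Nat.gcd p.1 N)) ⊆
      (N.divisors.filter (fun e => K < e)).biUnion (fun e => ((Finset.range N).filter (fun x => e ∣ x)) ×ˢ ((Finset.range N).filter (fun x => e ∣ x))) := by
    intro p hp
    rw [Finset.mem_filter, Finset.mem_product] at hp
    rw [Finset.mem_biUnion]
    refine ⟨Nat.gcd p.2 (Nat.gcd p.1 N), ?_, ?_⟩
    · rw [Finset.mem_filter, Nat.mem_divisors]
      exact ⟨⟨(Nat.gcd_dvd_right _ _).trans (Nat.gcd_dvd_right _ _), hN.ne'⟩, hp.2⟩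
    · rw [Finset.mem_product, Finset.mem_filter, Finset.mem_filter]
      exact ⟨⟨hp.1.1, (Nat.gcd_dvd_right _ _).trans (Nat.gcd_dvd_left _ _)⟩, ⟨hp.1.2, Nat.gcd_dvd_left _ _⟩⟩
  have h1 : (((Finset.range N ×ˢ Finset.range N).filter (fun p => K < Nat.gcd p.2 (Nat.gcd p.1 N))).card : ℝ) ≤
      ∑ e ∈ N.divisors.filter (fun e => K < e), (N:ℝ) ^ 2 * (1 / (e:ℝ) ^ 2) := by
    have h2 := (Finset.card_le_card hsub).trans Finset.card_biUnion_le
    have h3 : (((Finset.range N ×ˢ Finset.range N).filter (fun p => K < Nat.gcd p.2 (Nat.gcd p.1 N))).card : ℝ) ≤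
      ∑ e ∈ N.divisors.filter (fun e => K < e), ((((Finset.range N).filter (fun x => e ∣ x)) ×ˢ ((Finset.range N).filter (fun x => e ∣ x))).card : ℝ) := by
      exact_mod_cast h2
    refine h3.trans (Finset.sum_le_sum ?_)
    intro e he
    rw [Finset.mem_filter] at he
    have heN := Nat.dvd_of_mem_divisors he.1
    have he0 : (0:ℝ) < e := by exact_mod_cast Nat.pos_of_mem_divisors he.1
    rw [Finset.card_product, card_mult N e hN heN]
    push_cast
    rw [Nat.cast_div heN he0.ne']
    apply le_of_eq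
    field_simp
  refine h1.trans ?_
  rw [← Finset.mul_sum, div_eq_mul_one_div]
  apply mul_le_mul_of_nonneg_left _ (by positivity)
  refine le_trans ?_ (sum_sq_tail K (N + 1) hK)
  apply Finset.sum_le_sum_of_subset_of_nonneg
  · intro e he
    rw [Finset.mem_filter] at he
    rw [Finset.mem_Ico]
    have := Nat.divisor_le he.1
    omega
  · intro e _ _
    positivity

end Pool.Agent.H89.Disc
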