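import Mathlib
import Pool.Agent.H89.Out1

open Finset Filter Topology

namespace Pool.Agent.H89.Disc

/-- translation of the last coordinates by `g y` -/
def shf {D M N : ℕ} (g : ℕ) (x : Fin D → ZMod N) (y : Fin D → ZMod M) : Fin D → ZMod N :=
  fun i => x i + ((g * (y i).val : ℕ) : ZMod N)

lemma shf_bij {D M N : ℕ} (g : ℕ) (y : Fin D → ZMod M) : Function.Bijective (fun x : Fin D → ZMod N => shf g x y) := by
  constructor
  · intro x x' h
    funext i
    have := congrFun h i
    unfold shf at this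
    exact add_right_cancel this
  · intro x
    refine ⟨fun i => x i - ((g * (y i).val : ℕ) : ZMod N), ?_⟩
    funext i
    unfold shf
    simp

lemma gcd_shf {N : ℕ} [NeZero N] (g : ℕ) (hg : g ∣ N) (x : ZMod N) (k : ℕ) :
    Nat.gcd (x + ((g * k : ℕ) : ZMod N)).val g = Nat.gcd x.val g := by
  have h1 : (x + ((g * k : ℕ) : ZMod N)).val ≡ x.val [MOD g] := by
    show (x + ((g * k : ℕ) : ZMod N)).val % g = x.val % g
    rw [ZMod.val_add, Nat.mod_mod_of_dvd _ hg, ZMod.val_natCast, Nat.add_mod, Nat.mod_mod_of_dvd _ hg,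
      Nat.mul_mod_right, add_zero, Nat.mod_mod]
  exact h1.gcd_eq

/-- averaging over translations -/
lemma avg_shift {D M N : ℕ} [NeZero M] [NeZero N] (g : ℕ) (Bad : (Fin D → ZMod N) → Prop) [DecidablePred Bad] (ε : ℝ)
    (h : ∀ x : Fin D → ZMod N, ((univ.filter (fun y : Fin D → ZMod M => Bad (shf g x y))).card : ℝ) ≤ ε * (M:ℝ) ^ D) :
    ((univ.filter (fun x : Fin D → ZMod N => Bad x)).card : ℝ) ≤ ε * (N:ℝ) ^ D := by
  classical
  have hM : (0:ℝ) < M := by exact_mod_cast Nat.pos_of_ne_zero (NeZero.ne M)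
  have h1 : ∀ y : Fin D → ZMod M, (univ.filter (fun x : Fin D → ZMod N => Bad (shf g x y))).card =
      (univ.filter (fun x : Fin D → ZMod N => Bad x)).card := by
    intro y
    apply Finset.card_bij (fun x _ => shf g x y)
    · intro x hx
      rw [Finset.mem_filter] at hx ⊢
      exact ⟨Finset.mem_univ _, hx.2⟩
    · intro x _ x' _ he
      exact (shf_bij g y).1 he
    · intro x hx
      obtain ⟨x', hx'⟩ := (shf_bij g y).2 x
      have hx'' : shf g x' y = x := hx'
      refine ⟨x', ?_, hx''⟩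
      rw [Finset.mem_filter] at hx ⊢
      rw [hx'']
      exact ⟨Finset.mem_univ _, hx.2⟩
  have h2 : (M ^ D) * (univ.filter (fun x : Fin D → ZMod N => Bad x)).card =
      ∑ x : Fin D → ZMod N, (univ.filter (fun y : Fin D → ZMod M => Bad (shf g x y))).card := by
    calc (M ^ D) * (univ.filter (fun x : Fin D → ZMod N => Bad x)).card
        = ∑ y : Fin D → ZMod M, (univ.filter (fun x : Fin D → ZMod N => Bad (shf g x y))).card := by
          rw [Finset.sum_congr rfl (fun y _ => h1 y), Finset.sum_const, smul_eq_mul]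
          simp [ZMod.card]
      _ = _ := by
          simp_rw [Finset.card_filter]
          rw [Finset.sum_comm]
  have h3 : ((M:ℝ) ^ D) * ((univ.filter (fun x : Fin D → ZMod N => Bad x)).card : ℝ) ≤ (M:ℝ) ^ D * (ε * (N:ℝ) ^ D) := by
    have h4 : ((M:ℝ) ^ D) * ((univ.filter (fun x : Fin D → ZMod N => Bad x)).card : ℝ) =
      ∑ x : Fin D → ZMod N, ((univ.filter (fun y : Fin D → ZMod M => Bad (shf g x y))).card : ℝ) := by
      exact_mod_cast h2
    rw [h4]
    refine (Finset.sum_le_sum (fun x _ => h x)).trans (le_of_eq ?_)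
    rw [Finset.sum_const, nsmul_eq_mul, Finset.card_univ, card_Ω D N]
    ring
  exact le_of_mul_le_mul_left h3 (by positivity)

/-- splitting off the first coordinate -/
lemma card_cons {D N : ℕ} [NeZero N] (Bad : (Fin (D + 1) → ZMod N) → Prop) [DecidablePred Bad] :
    (univ.filter (fun x : Fin (D + 1) → ZMod N => Bad x)).card =
      ∑ α : ZMod N, (univ.filter (fun x : Fin D → ZMod N => Bad (Fin.cons α x))).card := by
  classical
  rw [Finset.card_eq_sum_card_fiberwise (f := fun x : Fin (D + 1) → ZMod N => x 0) (t := univ) (fun x _ => Finset.mem_univ _)]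
  apply Finset.sum_congr rfl
  intro α _
  symm
  apply Finset.card_bij (fun x _ => (Fin.cons α x : Fin (D + 1) → ZMod N))
  · intro x hx
    rw [Finset.mem_filter] at hx
    rw [Finset.mem_filter, Finset.mem_filter]
    exact ⟨⟨Finset.mem_univ _, hx.2⟩, by simp⟩
  · intro x _ x' _ he
    funext i
    have h1 := congrFun he i.succ
    simpa using h1
  · intro x hx
    rw [Finset.mem_filter, Finset.mem_filter] at hx
    refine ⟨Fin.tail x, ?_, ?_⟩
    · rw [Finset.mem_filter]
      refine ⟨Finset.mem_univ _, ?_⟩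
      rw [← hx.2, Fin.cons_self_tail]
      exact hx.1.2
    · rw [← hx.2, Fin.cons_self_tail]

open Classical in
/-- the fibre bound -/
lemma fibre_bound (E : ℕ) (K : ℕ) (ε : ℝ) (hε : 0 < ε) :
    ∃ c : ℝ, 0 < c ∧ ∀ᶠ a0 : ℕ in atTop, ∀ (N : ℕ) [NeZero N],
      2 ^ (32 * (E + 3) * a0) ≤ N → ∀ α : ZMod N, Nat.gcd α.val N ≤ 2 ^ a0 →
      ((univ.filter (fun x : Fin (E + 1) → ZMod N => Nat.gcd (x 0).val (Nat.gcd α.val N) ≤ K ∧
        N * discrepancy (E + 2) N (fun i => ((Fin.cons α x : Fin (E + 2) → ZMod N) i).val) < c * Jp a0 * (a0:ℝ) ^ (E + 1))).card : ℝ) ≤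
        ε * (N:ℝ) ^ (E + 1) := by
  obtain ⟨c, hc, hev⟩ := class_all E K ε hε
  refine ⟨c, hc, ?_⟩
  filter_upwards [hev] with a0 hcl N _ hN2 α hg
  have hN : 0 < N := Nat.pos_of_ne_zero (NeZero.ne N)
  set g : ℕ := Nat.gcd α.val N with hgdef
  have hgpos : 0 < g := Nat.gcd_pos_of_pos_right _ hN
  have hgN : g ∣ N := Nat.gcd_dvd_right _ _
  obtain ⟨M, hM⟩ := hgN
  have hMpos : 0 < M := by
    rcases Nat.eq_zero_or_pos M with h | h
    · rw [h, mul_zero] at hM; omega
    · exact h
  have : NeZero g := ⟨hgpos.ne'⟩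
  have : NeZero M := ⟨hMpos.ne'⟩
  obtain ⟨α0, hα0⟩ : g ∣ α.val := Nat.gcd_dvd_left _ _
  have hcop : Nat.Coprime α0 M := by
    have h1 := Nat.coprime_div_gcd_div_gcd (m := α.val) (n := N) hgpos
    rw [← hgdef] at h1
    have e1 : α.val / g = α0 := by rw [hα0, Nat.mul_div_cancel_left _ hgpos]
    have e2 : N / g = M := by rw [hM, Nat.mul_div_cancel_left _ hgpos]
    rwa [e1, e2] at h1
  set u : (ZMod M)ˣ := -(ZMod.unitOfCoprime α0 hcop)⁻¹ with hu
  have huα : (u : ZMod M) * (α0 : ZMod M) = -1 := by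
    rw [hu, Units.val_neg, neg_mul]
    congr 1
    have := Units.inv_mul (ZMod.unitOfCoprime α0 hcop)
    rwa [ZMod.coe_unitOfCoprime] at this
  apply avg_shift (M := M) g (fun x : Fin (E + 1) → ZMod N => Nat.gcd (x 0).val g ≤ K ∧
        N * discrepancy (E + 2) N (fun i => ((Fin.cons α x : Fin (E + 2) → ZMod N) i).val) < c * Jp a0 * (a0:ℝ) ^ (E + 1)) ε
  intro x
  by_cases hgood : Nat.gcd (x 0).val g ≤ K
  · have h1 := hcl g M N hM hN2 hg u α0 huα (fun i => (x i).val) hgood
      (fun y => fun i => ((Fin.cons α (shf g x y) : Fin (E + 2) → ZMod N) i).val)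
      (by
        intro y
        simp only [Fin.cons_zero]
        rw [hα0])
      (by
        intro y i
        simp only [Fin.cons_succ, Nat.cast_add, ZMod.natCast_zmod_val]
        rfl)
    refine le_trans ?_ h1
    have hsub : (univ.filter (fun y : Fin (E + 1) → ZMod M => Nat.gcd ((shf g x y) 0).val g ≤ K ∧
        N * discrepancy (E + 2) N (fun i => ((Fin.cons α (shf g x y) : Fin (E + 2) → ZMod N) i).val) < c * Jp a0 * (a0:ℝ) ^ (E + 1))) ⊆
        (univ.filter (fun y : Fin (E + 1) → ZMod M =>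
        N * discrepancy (E + 2) N (fun i => ((Fin.cons α (shf g x y) : Fin (E + 2) → ZMod N) i).val) < c * Jp a0 * (a0:ℝ) ^ (E + 1))) := by
      intro y hy
      rw [Finset.mem_filter] at hy ⊢
      exact ⟨Finset.mem_univ _, hy.2.2⟩
    exact_mod_cast Finset.card_le_card hsub
  · have hempty : (univ.filter (fun y : Fin (E + 1) → ZMod M => Nat.gcd ((shf g x y) 0).val g ≤ K ∧
        N * discrepancy (E + 2) N (fun i => ((Fin.cons α (shf g x y) : Fin (E + 2) → ZMod N) i).val) < c * Jp a0 * (a0:ℝ) ^ (E + 1))) = ∅ := by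
      rw [Finset.filter_eq_empty_iff]
      intro y _ hy
      apply hgood
      have h2 := hy.1
      unfold shf at h2
      rwa [gcd_shf g ⟨M, hM⟩] at h2
    rw [hempty]
    simp only [Finset.card_empty, Nat.cast_zero]
    positivity

end Pool.Agent.H89.Disc
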