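import Mathlib
import Pool.Agent.H89.Out2

open Finset Filter Topology

namespace Pool.Agent.H89.Disc

lemma card_val {N : ℕ} [NeZero N] (P : ℕ → Prop) [DecidablePred P] :
    (univ.filter (fun α : ZMod N => P α.val)).card = ((Finset.range N).filter P).card := by
  apply Finset.card_bij (fun (α : ZMod N) _ => α.val)
  · intro α hα
    rw [Finset.mem_filter] at hα ⊢
    exact ⟨Finset.mem_range.mpr (ZMod.val_lt α), hα.2⟩
  · intro α _ β _ h
    exact ZMod.val_injective N h
  · intro n hn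
    rw [Finset.mem_filter, Finset.mem_range] at hn
    refine ⟨(n : ZMod N), ?_, ?_⟩
    · rw [Finset.mem_filter]
      refine ⟨Finset.mem_univ _, ?_⟩
      rw [ZMod.val_natCast, Nat.mod_eq_of_lt hn.1]
      exact hn.2
    · rw [ZMod.val_natCast, Nat.mod_eq_of_lt hn.1]

lemma card_first {E N : ℕ} [NeZero N] (P : ℕ → Prop) [DecidablePred P] :
    (univ.filter (fun x : Fin (E + 2) → ZMod N => P (x 0).val)).card = ((Finset.range N).filter P).card * N ^ (E + 1) := by
  rw [card_cons (D := E + 1) (fun x : Fin (E + 2) → ZMod N => P (x 0).val)]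
  simp only [Fin.cons_zero]
  have h1 : ∀ α : ZMod N, (univ.filter (fun _ : Fin (E + 1) → ZMod N => P α.val)).card = if P α.val then N ^ (E + 1) else 0 := by
    intro α
    by_cases h : P α.val
    · simp [h, ZMod.card]
    · simp [h]
  rw [Finset.sum_congr rfl (fun α _ => h1 α), ← Finset.sum_filter, Finset.sum_const, smul_eq_mul, card_val]

lemma card_second {E N : ℕ} [NeZero N] (P : ℕ → ℕ → Prop) [∀ a, DecidablePred (P a)] :
    (univ.filter (fun x : Fin (E + 2) → ZMod N => P (x 0).val (x (Fin.succ 0)).val)).card =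
      (((Finset.range N) ×ˢ (Finset.range N)).filter (fun p => P p.1 p.2)).card * N ^ E := by
  rw [card_cons (D := E + 1) (fun x : Fin (E + 2) → ZMod N => P (x 0).val (x (Fin.succ 0)).val)]
  simp only [Fin.cons_zero, Fin.cons_succ]
  have h1 : ∀ α : ZMod N, (univ.filter (fun x : Fin (E + 1) → ZMod N => P α.val (x 0).val)).card =
      ((Finset.range N).filter (fun b => P α.val b)).card * N ^ E := by
    intro α
    rw [card_cons (D := E) (fun x : Fin (E + 1) → ZMod N => P α.val (x 0).val)]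
    simp only [Fin.cons_zero]
    have h2 : ∀ β : ZMod N, (univ.filter (fun _ : Fin E → ZMod N => P α.val β.val)).card = if P α.val β.val then N ^ E else 0 := by
      intro β
      by_cases h : P α.val β.val
      · simp [h, ZMod.card]
      · simp [h]
    rw [Finset.sum_congr rfl (fun β _ => h2 β), ← Finset.sum_filter, Finset.sum_const, smul_eq_mul,
      card_val (N := N) (fun b => P α.val b)]
  rw [Finset.sum_congr rfl (fun α _ => h1 α), ← Finset.sum_mul]
  congr 1
  rw [Finset.card_filter, Finset.sum_product]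
  have h3 : ∑ α : ZMod N, ((Finset.range N).filter (fun b => P α.val b)).card = ∑ a ∈ Finset.range N, ((Finset.range N).filter (fun b => P a b)).card := by
    apply Finset.sum_bij (fun (α : ZMod N) _ => α.val)
    · intro α _
      exact Finset.mem_range.mpr (ZMod.val_lt α)
    · intro α _ β _ h
      exact ZMod.val_injective N h
    · intro n hn
      rw [Finset.mem_range] at hn
      exact ⟨(n : ZMod N), Finset.mem_univ _, by rw [ZMod.val_natCast, Nat.mod_eq_of_lt hn]⟩
    · intro α _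
      rfl
  rw [h3]
  apply Finset.sum_congr rfl
  intro a _
  rw [Finset.card_filter]

open Classical in
theorem main_ev (E : ℕ) (ε : ℝ) (hε : 0 < ε) :
    ∃ c : ℝ, 0 < c ∧ ∀ᶠ a0 : ℕ in atTop, ∀ (N : ℕ) [NeZero N], Nat.log 2 N / (32 * (E + 3)) = a0 →
      ((univ.filter (fun x : Fin (E + 2) → ZMod N => N * discrepancy (E + 2) N (fun i => (x i).val) <
        c * Jp a0 * (a0:ℝ) ^ (E + 1))).card : ℝ) ≤ ε * (N:ℝ) ^ (E + 2) := by
  obtain ⟨K, hK⟩ := exists_nat_ge (max (3 / ε) 1)
  have hK1 : 3 / ε ≤ (K:ℝ) := (le_max_left _ _).trans hK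
  have hK2 : 1 ≤ K := by
    have : (1:ℝ) ≤ K := (le_max_right _ _).trans hK
    exact_mod_cast this
  obtain ⟨y, hy⟩ := exists_nat_ge (max (384 * ((E:ℝ) + 3) / ε) 1)
  have hy1 : 384 * ((E:ℝ) + 3) / ε ≤ (y:ℝ) := (le_max_left _ _).trans hy
  have hy2 : 1 ≤ y := by
    have : (1:ℝ) ≤ y := (le_max_right _ _).trans hy
    exact_mod_cast this
  obtain ⟨c, hc, hev⟩ := fibre_bound E K (ε / 3) (by positivity)
  refine ⟨c, hc, ?_⟩
  have hlarge : ∀ᶠ a0 : ℕ in atTop, 12 * (y:ℝ) / ε ≤ (a0:ℝ) :=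
    tendsto_natCast_atTop_atTop.eventually (eventually_ge_atTop _)
  filter_upwards [hev, hlarge, eventually_ge_atTop 1] with a0 hfb hya ha01 N _ ha0
  have hN : 0 < N := Nat.pos_of_ne_zero (NeZero.ne N)
  have hNr : (0:ℝ) < N := by exact_mod_cast hN
  have ha0' : (1:ℝ) ≤ a0 := by exact_mod_cast ha01
  have hy' : (1:ℝ) ≤ y := by exact_mod_cast hy2
  have hN2 : 2 ^ (32 * (E + 3) * a0) ≤ N := by
    have h1 : 32 * (E + 3) * a0 ≤ Nat.log 2 N := by
      rw [← ha0]
      exact Nat.mul_div_le _ _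
    calc 2 ^ (32 * (E + 3) * a0) ≤ 2 ^ (Nat.log 2 N) := Nat.pow_le_pow_right (by norm_num) h1
      _ ≤ N := Nat.pow_log_le_self 2 hN.ne'
  have hN3 : (N:ℝ) ≤ 2 ^ (64 * (E + 3) * a0) := by
    have h1 : Nat.log 2 N < 32 * (E + 3) * (a0 + 1) := by
      have h2 : Nat.log 2 N / (32 * (E + 3)) < a0 + 1 := by omega
      have h3 := (Nat.div_lt_iff_lt_mul (by positivity)).mp h2
      linarith
    have h2 : N < 2 ^ (Nat.log 2 N + 1) := Nat.lt_pow_succ_log_self (by norm_num) N
    have h3 : N ≤ 2 ^ (64 * (E + 3) * a0) := by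
      calc N ≤ 2 ^ (Nat.log 2 N + 1) := h2.le
        _ ≤ 2 ^ (64 * (E + 3) * a0) := by
            apply Nat.pow_le_pow_right (by norm_num)
            have h4 : 32 * (E + 3) * (a0 + 1) ≤ 64 * (E + 3) * a0 := by nlinarith
            omega
    exact_mod_cast h3
  have hl2 : (1:ℝ) / 2 < Real.log 2 := by have := Real.log_two_gt_d9; linarith
  have hlogN : Real.log N ≤ (64 * ((E:ℝ) + 3)) * (a0 * Real.log 2) := by
    have h1 := Real.log_le_log hNr hN3
    rw [Real.log_pow] at h1
    push_cast at h1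
    linarith
  -- first exceptional set
  have h1 : (((Finset.range N).filter (fun x => 2 ^ a0 < Nat.gcd x N)).card : ℝ) ≤ ε / 3 * N := by
    have h2 := gcd_tail N hN y (2 ^ a0) hy2 (Nat.one_lt_two_pow (by omega))
    have hlG : Real.log ((2 ^ a0 : ℕ) : ℝ) = a0 * Real.log 2 := by
      push_cast
      rw [Real.log_pow]
    rw [hlG] at h2
    have hpos : 0 < (a0:ℝ) * Real.log 2 := by nlinarith
    have h3 : (y:ℝ) + Real.log N / y ≤ ε / 3 * (a0 * Real.log 2) := by
      have h4 : Real.log N / y ≤ ε / 6 * (a0 * Real.log 2) := by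
        rw [div_le_iff₀ (by linarith)]
        have h5 : 384 * ((E:ℝ) + 3) ≤ y * ε := by rwa [div_le_iff₀ hε] at hy1
        calc Real.log N ≤ (64 * ((E:ℝ) + 3)) * (a0 * Real.log 2) := hlogN
          _ = (384 * ((E:ℝ) + 3)) * (a0 * Real.log 2) / 6 := by ring
          _ ≤ (y * ε) * (a0 * Real.log 2) / 6 := by gcongr
          _ = _ := by ring
      have h6 : (y:ℝ) ≤ ε / 6 * (a0 * Real.log 2) := by
        have h7 : 12 * (y:ℝ) ≤ a0 * ε := by rwa [div_le_iff₀ hε] at hya
        have h8 : a0 * ε * (1 / 2) ≤ a0 * ε * Real.log 2 := mul_le_mul_of_nonneg_left hl2.le (by positivity)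
        linarith
      linarith
    have h9 : (((Finset.range N).filter (fun x => 2 ^ a0 < Nat.gcd x N)).card : ℝ) * (a0 * Real.log 2) ≤
        (ε / 3 * N) * (a0 * Real.log 2) := by
      calc _ ≤ N * ((y:ℝ) + Real.log N / y) := h2
        _ ≤ N * (ε / 3 * (a0 * Real.log 2)) := by gcongr
        _ = _ := by ring
    exact le_of_mul_le_mul_right h9 hpos
  have h2 := pair_tail N hN K hK2
  have h2' : (N:ℝ) ^ 2 / K ≤ ε / 3 * N ^ 2 := by
    have hKr : (0:ℝ) < K := by exact_mod_cast hK2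
    rw [div_le_iff₀ hKr]
    have h3 : 3 ≤ K * ε := by rwa [div_le_iff₀ hε] at hK1
    have h4 : 0 ≤ (N:ℝ) ^ 2 := by positivity
    nlinarith
  -- the three sets
  set S1 := univ.filter (fun x : Fin (E + 2) → ZMod N => 2 ^ a0 < Nat.gcd (x 0).val N) with hS1
  set S2 := univ.filter (fun x : Fin (E + 2) → ZMod N => K < Nat.gcd (x (Fin.succ 0)).val (Nat.gcd (x 0).val N)) with hS2
  set S3 := univ.filter (fun x : Fin (E + 2) → ZMod N => Nat.gcd (x 0).val N ≤ 2 ^ a0 ∧
    Nat.gcd (x (Fin.succ 0)).val (Nat.gcd (x 0).val N) ≤ K ∧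
    N * discrepancy (E + 2) N (fun i => (x i).val) < c * Jp a0 * (a0:ℝ) ^ (E + 1)) with hS3
  have hc1 : (S1.card : ℝ) ≤ ε / 3 * (N:ℝ) ^ (E + 2) := by
    rw [hS1, card_first (fun n => 2 ^ a0 < Nat.gcd n N)]
    push_cast
    calc (((Finset.range N).filter (fun x => 2 ^ a0 < Nat.gcd x N)).card : ℝ) * (N:ℝ) ^ (E + 1) ≤ (ε / 3 * N) * (N:ℝ) ^ (E + 1) := by
          gcongr
      _ = _ := by ring
  have hc2 : (S2.card : ℝ) ≤ ε / 3 * (N:ℝ) ^ (E + 2) := by
    rw [hS2, card_second (fun a b => K < Nat.gcd b (Nat.gcd a N))]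
    push_cast
    calc (((Finset.range N ×ˢ Finset.range N).filter (fun p => K < Nat.gcd p.2 (Nat.gcd p.1 N))).card : ℝ) * (N:ℝ) ^ E ≤
          (ε / 3 * N ^ 2) * (N:ℝ) ^ E := by
            apply mul_le_mul_of_nonneg_right (h2.trans h2') (by positivity)
      _ = _ := by ring
  have hc3 : (S3.card : ℝ) ≤ ε / 3 * (N:ℝ) ^ (E + 2) := by
    rw [hS3, card_cons (D := E + 1)]
    simp only [Fin.cons_zero, Fin.cons_succ]
    push_cast
    have h4 : ∀ α ∈ (univ : Finset (ZMod N)), ((univ.filter (fun x : Fin (E + 1) → ZMod N => Nat.gcd α.val N ≤ 2 ^ a0 ∧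
        Nat.gcd (x 0).val (Nat.gcd α.val N) ≤ K ∧
        N * discrepancy (E + 2) N (fun i => ((Fin.cons α x : Fin (E + 2) → ZMod N) i).val) < c * Jp a0 * (a0:ℝ) ^ (E + 1))).card : ℝ) ≤
        ε / 3 * (N:ℝ) ^ (E + 1) := by
      intro α _
      by_cases hα : Nat.gcd α.val N ≤ 2 ^ a0
      · refine le_trans ?_ (hfb N hN2 α hα)
        apply Nat.cast_le.mpr
        apply Finset.card_le_card
        intro x hx
        rw [Finset.mem_filter] at hx ⊢
        exact ⟨Finset.mem_univ _, hx.2.2⟩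
      · have : (univ.filter (fun x : Fin (E + 1) → ZMod N => Nat.gcd α.val N ≤ 2 ^ a0 ∧
            Nat.gcd (x 0).val (Nat.gcd α.val N) ≤ K ∧
            N * discrepancy (E + 2) N (fun i => ((Fin.cons α x : Fin (E + 2) → ZMod N) i).val) < c * Jp a0 * (a0:ℝ) ^ (E + 1))) = ∅ := by
          rw [Finset.filter_eq_empty_iff]
          intro x _ hx
          exact hα hx.1
        rw [this]
        simp only [Finset.card_empty, Nat.cast_zero]
        positivity
    refine (Finset.sum_le_card_nsmul _ _ _ h4).trans (le_of_eq ?_)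
    rw [Finset.card_univ, ZMod.card, nsmul_eq_mul]
    ring
  have hsub : univ.filter (fun x : Fin (E + 2) → ZMod N => N * discrepancy (E + 2) N (fun i => (x i).val) <
        c * Jp a0 * (a0:ℝ) ^ (E + 1)) ⊆ S1 ∪ (S2 ∪ S3) := by
    intro x hx
    rw [Finset.mem_filter] at hx
    rw [Finset.mem_union, Finset.mem_union, hS1, hS2, hS3, Finset.mem_filter, Finset.mem_filter, Finset.mem_filter]
    by_cases h3 : 2 ^ a0 < Nat.gcd (x 0).val N
    · left; exact ⟨Finset.mem_univ _, h3⟩
    · right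
      by_cases h4 : K < Nat.gcd (x (Fin.succ 0)).val (Nat.gcd (x 0).val N)
      · left; exact ⟨Finset.mem_univ _, h4⟩
      · right
        exact ⟨Finset.mem_univ _, not_lt.mp h3, not_lt.mp h4, hx.2⟩
  have hfin := (Finset.card_le_card hsub).trans ((Finset.card_union_le _ _).trans (Nat.add_le_add_left (Finset.card_union_le _ _) _))
  have hfin' : ((univ.filter (fun x : Fin (E + 2) → ZMod N => N * discrepancy (E + 2) N (fun i => (x i).val) <
        c * Jp a0 * (a0:ℝ) ^ (E + 1))).card : ℝ) ≤ S1.card + (S2.card + S3.card) := by exact_mod_cast hfin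
  linarith

end Pool.Agent.H89.Disc
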